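import Pool.Agent.Lib.SlopeB.Defs

/-!
# Elementary properties of systems

PROOFS. (`|c e h| ≤ 1` in `ℤ`.)
`OO_finite`: `h ↦ (fun e => c e h)` is injective on `H` by `sp` (difference), and it maps `OO c` into the
finite set of functions `E → {-1, 0, 1}` (`Set.Finite.pi`, `Set.Finite.of_injOn` or
`Set.Finite.preimage`).
`Oz_even`: if `h ∈ OO c`, `h = 2w + 2w'`, then `c e h` is even with `|c e h| ≤ 1`, so it is `0` for all `e`,
`h = 0`; conversely `0 = 2w + 2(-w)`.
`even_of_even`: take `h ∈ Oz c z` (`p2`): `c e h = c e z + 2 c e w` is even and bounded, so `0`; `h = 0`, and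
`z = -2w = 2 • (-w)`.
`exists_odd`: suppose all `c e z` are even. Take `z` with `c e z ≠ 0` and `(c e z).natAbs` minimal
(`Nat.find`/well-founded induction; exists since `c e ≠ 0`). `h ∈ Oz c z`, `h = z + 2w`: `c e h` is even
and bounded, so `0`; `c e w = -(c e z)/2 ≠ 0` has smaller absolute value.
`sub_mem_Oz`: `h - 2k = z + 2 (w - k)`.
`OO_closure`: strong induction on `n(z) = ∑_e (c e z).natAbs` (`Fintype.ofFinite`): if `z ∈ OO c` done.
Otherwise take `h ∈ Oz c z`, `h = z + 2w`, `z = h + 2 (-w)`, `c e (-w) = (c e z - c e h)/2`, so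
`|c e (-w)| ≤ (|c e z| + 1)/2`; if `c e z = 0` then `c e h` is even so `0` and `c e (-w) = 0`; so
`|c e (-w)| ≤ |c e z|` for all `e`, and `<` when `|c e z| ≥ 2`, which happens. So `-w` is in the
closure by induction, `h` too.
`c_pm`: if `c e = 0` and `c f = 0` it is clear; in general all values on `OO c`: for `h ∈ OO c` `c e h` and
`c f h` have the same parity, so `c f h = ± c e h`. Claim: no `h, h' ∈ OO c` with `c e h = c f h ≠ 0` and
`c e h' = - c f h' ≠ 0`. Replacing `h, h'` by negatives we may assume `c e h = 1 = c f h`, `c e h' = 1`,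
`c f h' = -1`. Take `g ∈ Oz c (h + h')`: `c e g`, `c f g` are even and bounded, so `0`; `g = h + h' + 2w`,
`c e (-w) = (2 - 0)/2 = 1`, `c f (-w) = 0`: they are not congruent modulo two, a contradiction. So either
`c f h = c e h` for all `h ∈ OO c` or `c f h = - c e h` for all `h ∈ OO c`, and `OO c` generates
(`AddSubgroup.closure_induction`, or `AddMonoidHom.eqOn_closure`).
-/

set_option autoImplicit false

open scoped Matrix.Norms.Elementwise Real Topology
open Complex Matrix MP6feb Filter

noncomputable section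

namespace SlopeB

variable {H E : Type} [AddCommGroup H]

private theorem sys_val (c : E → H →+ ℤ) (e : E) (z w : H) :
    c e (z + 2 • w) = c e z + 2 * c e w := by
  rw [map_add, map_nsmul, nsmul_eq_mul]
  norm_num

private theorem sys_bd {c : E → H →+ ℤ} {h : H} (hh : h ∈ OO c) (e : E) :
    -1 ≤ c e h ∧ c e h ≤ 1 := abs_le.mp (hh e)

private theorem sys_neg {c : E → H →+ ℤ} {h : H} (hh : h ∈ OO c) : -h ∈ OO c := by
  intro e
  rw [map_neg, abs_neg]
  exact hh e

theorem OO_finite [Finite E] {c : E → H →+ ℤ} (hc : IsSys c) : (OO c).Finite := by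
  refine Set.Finite.of_finite_image (f := fun (h : H) (e : E) => c e h) ?_ ?_
  · refine Set.Finite.subset (Set.Finite.pi (fun _ : E => Set.finite_Icc (-1 : ℤ) 1)) ?_
    rintro _ ⟨h, hh, rfl⟩
    intro e _
    exact sys_bd hh e
  · intro x _ y _ hxy
    have h1 : x - y = 0 := by
      refine hc.sp _ fun e => ?_
      have h2 := congrFun hxy e
      simp only at h2
      rw [map_sub, h2, sub_self]
    exact sub_eq_zero.mp h1

theorem Oz_even {c : E → H →+ ℤ} (hc : IsSys c) (w : H) : Oz c (2 • w) = {0} := by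
  ext h
  rw [Set.mem_singleton_iff]
  constructor
  · rintro ⟨hh, w', rfl⟩
    refine hc.sp _ fun e => ?_
    have h1 := sys_bd hh e
    rw [sys_val, map_nsmul, nsmul_eq_mul] at h1 ⊢
    push_cast at h1 ⊢
    omega
  · rintro rfl
    refine ⟨fun e => by rw [map_zero, abs_zero]; norm_num, -w, ?_⟩
    rw [smul_neg, add_neg_cancel]

theorem even_of_even {c : E → H →+ ℤ} (hc : IsSys c) {z : H} (h : ∀ e, (2 : ℤ) ∣ c e z) :
    ∃ w : H, z = 2 • w := by
  obtain ⟨x, hx, w, hw⟩ := hc.p2 z
  have hx0 : x = 0 := by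
    refine hc.sp _ fun e => ?_
    have h1 := sys_bd hx e
    have h2 := h e
    rw [hw, sys_val] at h1 ⊢
    omega
  refine ⟨-w, ?_⟩
  rw [hx0] at hw
  rw [smul_neg]
  exact eq_neg_of_add_eq_zero_left hw.symm

theorem exists_odd {c : E → H →+ ℤ} (hc : IsSys c) {e : E} (he : c e ≠ 0) :
    ∃ z, ¬ ((2 : ℤ) ∣ c e z) := by
  by_contra hcon
  push Not at hcon
  have key : ∀ n : ℕ, ∀ z, (c e z).natAbs ≤ n → c e z = 0 := by
    intro n
    induction n with
    | zero =>
      intro z hz
      omega
    | succ n ih =>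
      intro z hz
      obtain ⟨x, hx, w, hw⟩ := hc.p2 z
      have h1 := sys_bd hx e
      have h2 := hcon z
      rw [hw, sys_val] at h1
      have h3 : c e z = - (2 * c e w) := by omega
      have h4 : (c e w).natAbs ≤ n := by omega
      have h5 := ih w h4
      rw [h3, h5]
      norm_num
  exact he (AddMonoidHom.ext fun z => key _ z le_rfl)

theorem sub_mem_Oz {c : E → H →+ ℤ} {z h k : H} (hh : h ∈ Oz c z) (hk : h - 2 • k ∈ OO c) :
    h - 2 • k ∈ Oz c z := by
  obtain ⟨-, w, hw⟩ := hh
  refine ⟨hk, w - k, ?_⟩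
  rw [hw, smul_sub]
  abel

theorem OO_closure [Finite E] {c : E → H →+ ℤ} (hc : IsSys c) :
    AddSubgroup.closure (OO c) = ⊤ := by
  classical
  have := Fintype.ofFinite E
  have key : ∀ n : ℕ, ∀ z, ∑ e, (c e z).natAbs ≤ n → z ∈ AddSubgroup.closure (OO c) := by
    intro n
    induction n with
    | zero =>
      intro z hz
      have h0 : z = 0 := by
        refine hc.sp _ fun e => ?_
        have h1 : (c e z).natAbs ≤ ∑ e, (c e z).natAbs :=
          Finset.single_le_sum (f := fun e => (c e z).natAbs) (fun _ _ => Nat.zero_le _)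
            (Finset.mem_univ e)
        omega
      rw [h0]
      exact zero_mem _
    | succ n ih =>
      intro z hz
      by_cases hzO : z ∈ OO c
      · exact AddSubgroup.subset_closure hzO
      · have h0 : ∃ e, ¬ |c e z| ≤ 1 := by
          by_contra h1
          push Not at h1
          exact hzO h1
        obtain ⟨e0, he0⟩ := h0
        obtain ⟨x, hx, w, hw⟩ := hc.p2 z
        have hle : ∀ e, (c e (-w)).natAbs ≤ (c e z).natAbs := by
          intro e
          have h1 := sys_bd hx e
          rw [hw, sys_val] at h1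
          rw [map_neg]
          omega
        have hlt : (c e0 (-w)).natAbs < (c e0 z).natAbs := by
          have h1 := sys_bd hx e0
          rw [hw, sys_val] at h1
          rw [abs_le] at he0
          rw [map_neg]
          omega
        have hsum : ∑ e, (c e (-w)).natAbs < ∑ e, (c e z).natAbs :=
          Finset.sum_lt_sum (fun e _ => hle e) ⟨e0, Finset.mem_univ _, hlt⟩
        have h2 := ih (-w) (by omega)
        have h3 : z = x + 2 • (-w) := by
          rw [hw, smul_neg]
          abel
        rw [h3]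
        exact add_mem (AddSubgroup.subset_closure hx) (nsmul_mem h2 2)
  rw [eq_top_iff]
  intro z _
  exact key _ z le_rfl

theorem c_pm [Finite E] {c : E → H →+ ℤ} (hc : IsSys c) {e f : E}
    (h : ∀ z, (2 : ℤ) ∣ c e z - c f z) : (∀ z, c f z = c e z) ∨ (∀ z, c f z = - c e z) := by
  have hcl : ∀ z : H, z ∈ AddSubgroup.closure (OO c) := by
    intro z
    rw [OO_closure hc]
    exact AddSubgroup.mem_top z
  by_cases h1 : ∀ x ∈ OO c, c f x = c e x
  · left
    intro z
    exact AddMonoidHom.eqOn_closure (f := c f) (g := c e) (fun x hx => h1 x hx) (hcl z)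
  · right
    push Not at h1
    obtain ⟨x0, hx0, hne0⟩ := h1
    have hall : ∀ x ∈ OO c, c f x = (-(c e)) x := by
      intro x1 hx1
      rw [AddMonoidHom.neg_apply]
      by_contra hne1
      have a1 := sys_bd hx0 e
      have a2 := sys_bd hx0 f
      have a3 := h x0
      have a4 := sys_bd hx1 e
      have a5 := sys_bd hx1 f
      have a6 := h x1
      obtain ⟨a, ha1, ha2⟩ : ∃ a, c e a = 1 ∧ c f a = 1 := by
        rcases (show c e x1 = 1 ∨ c e x1 = -1 by omega) with b1 | b1
        · exact ⟨x1, b1, by omega⟩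
        · refine ⟨-x1, ?_, ?_⟩
          · rw [map_neg]; omega
          · rw [map_neg]; omega
      obtain ⟨b, hb1, hb2⟩ : ∃ b, c e b = 1 ∧ c f b = -1 := by
        rcases (show c e x0 = 1 ∨ c e x0 = -1 by omega) with b1 | b1
        · exact ⟨x0, b1, by omega⟩
        · refine ⟨-x0, ?_, ?_⟩
          · rw [map_neg]; omega
          · rw [map_neg]; omega
      obtain ⟨g, hg, w, hw⟩ := hc.p2 (a + b)
      have c1 := sys_bd hg e
      have c2 := sys_bd hg f
      have c3 := h w
      rw [hw, sys_val, map_add] at c1 c2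
      omega
    intro z
    exact AddMonoidHom.eqOn_closure (f := c f) (g := -(c e)) (fun x hx => hall x hx) (hcl z)

end SlopeB
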