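import Pool.Agent.Lib.SlopeB.Defs
import Pool.Agent.Lib.SlopeB.Sys

/-!
# Common blocks

`k ∈ KK c z`: `k ∈ OO c`, `k ≠ 0`, and for all `h ∈ Oz c z` `h - 2k ∈ OO c` or `h + 2k ∈ OO c`.
PROOFS. (0) If `h ∈ OO c` and `h - 2k ∈ OO c` then `c e h = c e k` for all `e` with `c e k ≠ 0`:
`|c e h| ≤ 1`, `|c e k| = 1`, `|c e h - 2 c e k| ≤ 1`. Similarly `c e h = - c e k` if `h + 2k ∈ OO c`.
`KK_odd_z`: take `h ∈ Oz c z` (`p2`); by (0) `c e h = ± c e k = ±1`, and `c e h` has the parity of `c e z`.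
`KK_disj`: Suppose `c e₀ k ≠ 0` and `c e₀ k' ≠ 0`. `KK c z` is stable under negation; replacing `k`,
`k'` by their negatives we may assume (take `h ∈ Oz c z`) `h - 2k ∈ OO c` and `h - 2k' ∈ OO c`; the claims
`k' ≠ k`, `k' ≠ -k` are symmetric under this. So `c e h = c e k` on supp `k` and `c e h = c e k'` on
supp `k'`. `h₂ = h - 2k ∈ Oz c z` (`sub_mem_Oz`), `c e₀ h₂ = - c e₀ h = - c e₀ k'`. As `k' ∈ KK c z`,
`h₂ - 2k' ∈ OO c` (impossible by (0): it would give `c e₀ h₂ = c e₀ k'`) or `h₂ + 2k' ∈ OO c`, so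
`c e h₂ = - c e k'` for all `e` in supp `k'`: `c e h - 2 c e k = - c e h` there, so
`c e k = c e h = c e k'` on supp `k'`. By symmetry (exchange `k` and `k'`) `c e k' = c e k` on supp `k`.
So `c e k = c e k'` for all `e` (both are `0` off the two supports), `k = k'` by `sp`: contradiction.
`KK_y`: (`E` finite, so well-orderable: choose `f : Set E → E` with `f S ∈ S` for nonempty `S`,
classical choice.) For `k ∈ KK c z` the support `S_k = {e | c e k ≠ 0}` is nonempty (`sp`). Let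
`T = {f S_k : k ∈ KK c z}`, a finite subset of `E` (`Set.toFinite`), and `y₀ = ∑_{e ∈ T} c e`. For
`k' ∈ KK c z` an `e = f S_k ∈ T` with `c e k' ≠ 0` lies in `S_k ∩ S_k'`, so by `KK_disj` `k' = ±k`,
`S_k = S_k'`, `e = f S_k'`. So `y₀ k' = c (f S_k') k' = ±1` is odd.
-/

set_option autoImplicit false

open scoped Matrix.Norms.Elementwise Real Topology
open Complex Matrix MP6feb Filter

noncomputable section

namespace SlopeB

variable {H E : Type} [AddCommGroup H]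

private theorem kkl_val {c : E → H →+ ℤ} {h k : H} (hh : h ∈ OO c) (hk : k ∈ OO c)
    (hd : h - 2 • k ∈ OO c) {e : E} (he : c e k ≠ 0) : c e h = c e k := by
  have h1 := abs_le.1 (hh e)
  have h2 := abs_le.1 (hk e)
  have h3 := abs_le.1 (hd e)
  rw [map_sub, map_nsmul, nsmul_eq_mul] at h3
  push_cast at h3
  obtain ⟨h1a, h1b⟩ := h1
  obtain ⟨h2a, h2b⟩ := h2
  obtain ⟨h3a, h3b⟩ := h3
  omega

private theorem kkl_neg {c : E → H →+ ℤ} {z k : H} (hk : k ∈ KK c z) : -k ∈ KK c z := by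
  obtain ⟨h1, h2, h3⟩ := hk
  refine ⟨fun e => ?_, neg_ne_zero.2 h2, fun h hh => ?_⟩
  · rw [map_neg, abs_neg]
    exact h1 e
  · rw [smul_neg, sub_neg_eq_add, ← sub_eq_add_neg]
    exact (h3 h hh).symm

theorem KK_odd_z {c : E → H →+ ℤ} (hc : IsSys c) {z k : H} (hk : k ∈ KK c z) {e : E}
    (he : c e k ≠ 0) : ¬ ((2 : ℤ) ∣ c e z) := by
  obtain ⟨h, hh⟩ := hc.p2 z
  obtain ⟨w, hw⟩ := hh.2
  have h1 : c e h = c e k ∨ c e h = - c e k := by
    rcases hk.2.2 h hh with hd | hd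
    · exact Or.inl (kkl_val hh.1 hk.1 hd he)
    · right
      have hd' : h - 2 • -k ∈ OO c := by
        rw [smul_neg, sub_neg_eq_add]
        exact hd
      have he' : c e (-k) ≠ 0 := by
        rw [map_neg]
        exact neg_ne_zero.2 he
      have := kkl_val hh.1 (kkl_neg hk).1 hd' he'
      rwa [map_neg] at this
  have h2 := abs_le.1 (hk.1 e)
  have h3 : c e h = c e z + 2 * c e w := by
    rw [hw, map_add, map_nsmul, nsmul_eq_mul]
    push_cast
    ring
  obtain ⟨h2a, h2b⟩ := h2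
  omega

private theorem kkl_sub {c : E → H →+ ℤ} (hc : IsSys c) {z k k' h : H} (hk : k ∈ KK c z)
    (hk' : k' ∈ KK c z) (hh : h ∈ Oz c z) (hd : h - 2 • k ∈ OO c) (hd' : h - 2 • k' ∈ OO c)
    {e₀ : E} (he : c e₀ k ≠ 0) (he' : c e₀ k' ≠ 0) (e : E) (hek : c e k' ≠ 0) :
    c e k = c e k' := by
  have hv : ∀ e, c e (h - 2 • k) = c e h - 2 * c e k := by
    intro e
    rw [map_sub, map_nsmul, nsmul_eq_mul]
    push_cast
    ring
  have h2 := sub_mem_Oz hh hd
  have a1 := kkl_val hh.1 hk.1 hd he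
  have a2 := kkl_val hh.1 hk'.1 hd' he'
  rcases hk'.2.2 _ h2 with h3 | h3
  · exfalso
    have a3 := kkl_val hd hk'.1 h3 he'
    rw [hv] at a3
    omega
  · have h3' : (h - 2 • k) - 2 • -k' ∈ OO c := by
      rw [smul_neg, sub_neg_eq_add]
      exact h3
    have hek' : c e (-k') ≠ 0 := by
      rw [map_neg]
      exact neg_ne_zero.2 hek
    have a3 := kkl_val hd (kkl_neg hk').1 h3' hek'
    rw [hv, map_neg] at a3
    have a4 := kkl_val hh.1 hk'.1 hd' hek
    omega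

private theorem kkl_eq {c : E → H →+ ℤ} (hc : IsSys c) {z k k' h : H} (hk : k ∈ KK c z)
    (hk' : k' ∈ KK c z) (hh : h ∈ Oz c z) (hd : h - 2 • k ∈ OO c) (hd' : h - 2 • k' ∈ OO c)
    {e₀ : E} (he : c e₀ k ≠ 0) (he' : c e₀ k' ≠ 0) : k' = k := by
  rw [← sub_eq_zero]
  apply hc.sp
  intro e
  rw [map_sub, sub_eq_zero]
  by_cases h1 : c e k' = 0
  · by_cases h2 : c e k = 0
    · rw [h1, h2]
    · exact kkl_sub hc hk' hk hh hd' hd he' he e h2
  · exact (kkl_sub hc hk hk' hh hd hd' he he' e h1).symm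

theorem KK_disj {c : E → H →+ ℤ} (hc : IsSys c) {z k k' : H} (hk : k ∈ KK c z)
    (hk' : k' ∈ KK c z) (hne : k' ≠ k) (hne' : k' ≠ -k) (e : E) : c e k = 0 ∨ c e k' = 0 := by
  by_contra hcon
  push Not at hcon
  obtain ⟨he, he'⟩ := hcon
  have hen : c e (-k) ≠ 0 := by
    rw [map_neg]
    exact neg_ne_zero.2 he
  have hen' : c e (-k') ≠ 0 := by
    rw [map_neg]
    exact neg_ne_zero.2 he'
  obtain ⟨h, hh⟩ := hc.p2 z
  have hs : ∀ x : H, h - 2 • -x = h + 2 • x := by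
    intro x
    rw [smul_neg, sub_neg_eq_add]
  rcases hk.2.2 h hh with hd | hd
  · rcases hk'.2.2 h hh with hd' | hd'
    · exact hne (kkl_eq hc hk hk' hh hd hd' he he')
    · have h1 := kkl_eq hc hk (kkl_neg hk') hh hd (by rw [hs]; exact hd') he hen'
      exact hne' (by rw [← h1, neg_neg])
  · rcases hk'.2.2 h hh with hd' | hd'
    · exact hne' (kkl_eq hc (kkl_neg hk) hk' hh (by rw [hs]; exact hd) hd' hen he')
    · have h1 := kkl_eq hc (kkl_neg hk) (kkl_neg hk') hh (by rw [hs]; exact hd)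
        (by rw [hs]; exact hd') hen hen'
      exact hne (neg_injective h1)

theorem KK_y [Finite E] {c : E → H →+ ℤ} (hc : IsSys c) (z : H) :
    ∃ y₀ : H →+ ℤ, ∀ k ∈ KK c z, ¬ ((2 : ℤ) ∣ y₀ k) := by
  classical
  by_cases hE : Nonempty E
  swap
  · refine ⟨0, fun k hk => ?_⟩
    exfalso
    apply hk.2.1
    apply hc.sp
    intro e
    exact absurd ⟨e⟩ hE
  have hne : ∀ k ∈ KK c z, {e | c e k ≠ 0}.Nonempty := by
    intro k hk
    by_contra hcon
    rw [Set.not_nonempty_iff_eq_empty, Set.eq_empty_iff_forall_notMem] at hcon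
    apply hk.2.1
    apply hc.sp
    intro e
    by_contra h
    exact hcon e h
  obtain ⟨g, hg⟩ : ∃ g : Set E → E, ∀ S : Set E, S.Nonempty → g S ∈ S :=
    ⟨fun S => if h : S.Nonempty then h.some else hE.some, fun S hS => by
      simp only [dif_pos hS]
      exact hS.some_mem⟩
  set T : Finset E := (Set.toFinite {e | ∃ k ∈ KK c z, e = g {e | c e k ≠ 0}}).toFinset with hT
  have hmem : ∀ e, e ∈ T ↔ ∃ k ∈ KK c z, e = g {e | c e k ≠ 0} := by
    intro e
    rw [hT, Set.Finite.mem_toFinset]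
    rfl
  refine ⟨∑ e ∈ T, c e, fun k' hk' => ?_⟩
  have hgk : c (g {e | c e k' ≠ 0}) k' ≠ 0 := hg _ (hne k' hk')
  rw [AddMonoidHom.finsetSum_apply, Finset.sum_eq_single (g {e | c e k' ≠ 0})]
  · have h1 := abs_le.1 (hk'.1 (g {e | c e k' ≠ 0}))
    obtain ⟨h1a, h1b⟩ := h1
    omega
  · intro e he hne1
    obtain ⟨k, hk, rfl⟩ := (hmem e).1 he
    have hgk1 : c (g {e | c e k ≠ 0}) k ≠ 0 := hg _ (hne k hk)
    by_contra hcon
    by_cases h1 : k' = k
    · rw [h1] at hne1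
      exact hne1 rfl
    by_cases h2 : k' = -k
    · apply hne1
      congr 1
      ext e
      change c e k ≠ 0 ↔ c e k' ≠ 0
      rw [h2, map_neg, neg_ne_zero]
    · rcases KK_disj hc hk hk' h1 h2 (g {e | c e k ≠ 0}) with h | h
      · exact hgk1 h
      · exact hcon h
  · intro h
    exact absurd ((hmem _).2 ⟨k', hk', rfl⟩) h

end SlopeB
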