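import Pool.Agent.Lib.SlopeB.Defs

/-!
# Good sets and affine maps

PROOF. Write `n = 2^m`, `F x i = ∑_j M_ij x_j + 2^(m-1) u_i` in `ZMod n`. `F` is injective because
`N M = 1`: `N (F x - F y) = x - y`. So the image has the same card and is nonempty. For a vector
`c : Fin g ⊕ Fin g → ℤ` put `c̃ = Mᵀ c` (`c̃_j = ∑_i M_ij c_i`). Character identity: for integral
vectors `X` representing `x ∈ (ZMod n)^..` `chr n c x = exp(2πi ∑ c_i X_i / n)` (both depend only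
on `X_i` modulo `n`; representatives `(x i).val`), so
`chr n c (F x) = exp(2πi ∑_i c_i 2^(m-1) u_i / n) * chr n c̃ x = exp(πi ∑ c_i u_i) * chr n c̃ x`.
The first factor is `±1`, and it is `1` if all `c_i` are even.
So `∑_{F X} chr n (j c) = ± ∑_X chr n (j c̃)`, and `n ∣ j c_i` for all `i` iff `n ∣ j c̃_i` for all `i`
(`c = Nᵀ c̃`), the same for `2 j c`. Type alpha: clear. Type beta: clear if the sum is zero. If all
`n ∣ 2 j c_i` then, as `4 ∣ n` (`m ≥ 2`), all `j c_i` are even, so the sign is `+1` and the value `θ₀` is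
the same for `c` as for `c̃`.
-/

set_option autoImplicit false

open scoped Matrix.Norms.Elementwise Real Topology
open Complex Matrix MP6feb Filter

noncomputable section

namespace SlopeB

private theorem AffX_chr {g : ℕ} (n : ℕ) [NeZero n] (c : Fin g ⊕ Fin g → ℤ)
    (x : Fin g ⊕ Fin g → ZMod n) :
    chr n c x = ZMod.stdAddChar (∑ j, ((c j : ℤ) : ZMod n) * x j) := by
  have h1 : (∑ j, ((c j : ℤ) : ZMod n) * x j) =
      (((∑ j, c j * ((x j).val : ℤ)) : ℤ) : ZMod n) := by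
    push_cast
    refine Finset.sum_congr rfl fun j _ => ?_
    rw [ZMod.natCast_zmod_val]
  rw [h1, ZMod.stdAddChar_coe]
  unfold chr
  congr 1
  push_cast
  ring

/-- the transposed vector -/
private def AffX_til {g : ℕ} (M : Matrix (Fin g ⊕ Fin g) (Fin g ⊕ Fin g) ℤ)
    (c : Fin g ⊕ Fin g → ℤ) : Fin g ⊕ Fin g → ℤ := fun j => ∑ i, M i j * c i

private theorem AffX_til_til {g : ℕ} (M N : Matrix (Fin g ⊕ Fin g) (Fin g ⊕ Fin g) ℤ)
    (hMN : M * N = 1) (c : Fin g ⊕ Fin g → ℤ) : AffX_til N (AffX_til M c) = c := by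
  funext i
  unfold AffX_til
  have h1 : ∑ k, N k i * ∑ l, M l k * c l = ∑ l, (M * N) l i * c l := by
    simp only [Matrix.mul_apply, Finset.mul_sum, Finset.sum_mul]
    rw [Finset.sum_comm]
    refine Finset.sum_congr rfl fun l _ => Finset.sum_congr rfl fun k _ => ?_
    ring
  rw [h1, hMN]
  simp [Matrix.one_apply]

private theorem AffX_til_smul {g : ℕ} (M : Matrix (Fin g ⊕ Fin g) (Fin g ⊕ Fin g) ℤ)
    (a : ℤ) (c : Fin g ⊕ Fin g → ℤ) :
    AffX_til M (fun i => a * c i) = fun i => a * AffX_til M c i := by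
  funext j
  unfold AffX_til
  rw [Finset.mul_sum]
  exact Finset.sum_congr rfl fun i _ => by ring

private theorem AffX_til_dvd {g : ℕ} (M : Matrix (Fin g ⊕ Fin g) (Fin g ⊕ Fin g) ℤ)
    (n : ℤ) (c : Fin g ⊕ Fin g → ℤ) (h : ∀ i, n ∣ c i) (i : Fin g ⊕ Fin g) :
    n ∣ AffX_til M c i :=
  Finset.dvd_sum fun k _ => Dvd.dvd.mul_left (h k) _

private theorem AffX_dvd_of {g : ℕ} (M N : Matrix (Fin g ⊕ Fin g) (Fin g ⊕ Fin g) ℤ)
    (hMN : M * N = 1) (n a : ℤ) (c : Fin g ⊕ Fin g → ℤ)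
    (h : ∃ i, ¬ (n ∣ a * c i)) : ∃ i, ¬ (n ∣ a * AffX_til M c i) := by
  by_contra hcon
  push Not at hcon
  obtain ⟨i, hi⟩ := h
  apply hi
  have h1 := AffX_til_dvd N n (fun i => a * AffX_til M c i) hcon i
  rw [AffX_til_smul, AffX_til_til M N hMN] at h1
  exact h1

private theorem AffX_dvd_all {g : ℕ} (M : Matrix (Fin g ⊕ Fin g) (Fin g ⊕ Fin g) ℤ)
    (n a : ℤ) (c : Fin g ⊕ Fin g → ℤ)
    (h : ∀ i, n ∣ a * c i) (i : Fin g ⊕ Fin g) : n ∣ a * AffX_til M c i := by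
  have h1 := AffX_til_dvd M n (fun i => a * c i) h i
  rw [AffX_til_smul] at h1
  exact h1

/-- the affine map -/
private def AffX_F {g : ℕ} (m : ℕ) (M : Matrix (Fin g ⊕ Fin g) (Fin g ⊕ Fin g) ℤ)
    (u : Fin g ⊕ Fin g → ℤ) (x : Fin g ⊕ Fin g → ZMod (2 ^ m)) :
    Fin g ⊕ Fin g → ZMod (2 ^ m) :=
  fun i => ∑ j, ((M i j : ℤ) : ZMod (2 ^ m)) * x j + 2 ^ (m - 1) * ((u i : ℤ) : ZMod (2 ^ m))

private theorem AffX_inj {g m : ℕ} (M N : Matrix (Fin g ⊕ Fin g) (Fin g ⊕ Fin g) ℤ)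
    (hNM : N * M = 1) (u : Fin g ⊕ Fin g → ℤ) : Function.Injective (AffX_F m M u) := by
  intro x y hxy
  have h1 : ∀ i, ∑ j, ((M i j : ℤ) : ZMod (2 ^ m)) * x j =
      ∑ j, ((M i j : ℤ) : ZMod (2 ^ m)) * y j := by
    intro i
    have h2 := congrFun hxy i
    unfold AffX_F at h2
    exact add_right_cancel h2
  have key : ∀ z : Fin g ⊕ Fin g → ZMod (2 ^ m), ∀ k,
      ∑ i, ((N k i : ℤ) : ZMod (2 ^ m)) * ∑ j, ((M i j : ℤ) : ZMod (2 ^ m)) * z j = z k := by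
    intro z k
    have h3 : ∑ i, ((N k i : ℤ) : ZMod (2 ^ m)) * ∑ j, ((M i j : ℤ) : ZMod (2 ^ m)) * z j =
        ∑ j, (((N * M) k j : ℤ) : ZMod (2 ^ m)) * z j := by
      simp only [Matrix.mul_apply, Finset.mul_sum]
      rw [Finset.sum_comm]
      refine Finset.sum_congr rfl fun j _ => ?_
      push_cast
      rw [Finset.sum_mul]
      exact Finset.sum_congr rfl fun i _ => by ring
    rw [h3, hNM]
    simp [Matrix.one_apply]
  funext k
  rw [← key x k, ← key y k]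
  exact Finset.sum_congr rfl fun i _ => by rw [h1 i]

private theorem AffX_chrF {g m : ℕ} [NeZero (2 ^ m)]
    (M : Matrix (Fin g ⊕ Fin g) (Fin g ⊕ Fin g) ℤ)
    (u c : Fin g ⊕ Fin g → ℤ) (x : Fin g ⊕ Fin g → ZMod (2 ^ m)) :
    chr (2 ^ m) c (AffX_F m M u x) =
      ZMod.stdAddChar (2 ^ (m - 1) * (((∑ i, c i * u i) : ℤ) : ZMod (2 ^ m))) *
        chr (2 ^ m) (AffX_til M c) x := by
  rw [AffX_chr, AffX_chr, ← AddChar.map_add_eq_mul]
  congr 1
  unfold AffX_F AffX_til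
  push_cast
  simp only [mul_add, Finset.sum_add_distrib, Finset.mul_sum, Finset.sum_mul]
  rw [add_comm]
  congr 1
  · exact Finset.sum_congr rfl fun i _ => by ring
  · rw [Finset.sum_comm]
    exact Finset.sum_congr rfl fun i _ => Finset.sum_congr rfl fun k _ => by ring

private theorem AffX_sum {g m : ℕ} [NeZero (2 ^ m)]
    (M N : Matrix (Fin g ⊕ Fin g) (Fin g ⊕ Fin g) ℤ) (hNM : N * M = 1)
    (u c : Fin g ⊕ Fin g → ℤ) (X : Finset (Fin g ⊕ Fin g → ZMod (2 ^ m))) :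
    ∑ y ∈ X.image (AffX_F m M u), chr (2 ^ m) c y =
      ZMod.stdAddChar (2 ^ (m - 1) * (((∑ i, c i * u i) : ℤ) : ZMod (2 ^ m))) *
        ∑ x ∈ X, chr (2 ^ m) (AffX_til M c) x := by
  rw [Finset.sum_image fun x _ y _ h => AffX_inj M N hNM u h, Finset.mul_sum]
  exact Finset.sum_congr rfl fun x _ => AffX_chrF M u c x

theorem goodX_aff {g m : ℕ} {η : ℝ} (hm : 2 ≤ m) (M N : Matrix (Fin g ⊕ Fin g) (Fin g ⊕ Fin g) ℤ)
    (hMN : M * N = 1) (hNM : N * M = 1) (u : Fin g ⊕ Fin g → ℤ)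
    {X : Finset (Fin g ⊕ Fin g → ZMod (2 ^ m))} (h : GoodX (2 ^ m) η X) :
    GoodX (2 ^ m) η (X.image (fun x i => ∑ j, ((M i j : ℤ) : ZMod (2 ^ m)) * x j +
      2 ^ (m - 1) * ((u i : ℤ) : ZMod (2 ^ m)))) := by
  have hn0 : (2 : ℕ) ^ m ≠ 0 := pow_ne_zero _ two_ne_zero
  have : NeZero ((2 : ℕ) ^ m) := ⟨hn0⟩
  have himg : (X.image (fun x i => ∑ j, ((M i j : ℤ) : ZMod (2 ^ m)) * x j +
      2 ^ (m - 1) * ((u i : ℤ) : ZMod (2 ^ m)))) = X.image (AffX_F m M u) := rfl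
  rw [himg]
  obtain ⟨hne, hty⟩ := h
  have hcard : (X.image (AffX_F m M u)).card = X.card :=
    Finset.card_image_of_injective X (AffX_inj M N hNM u)
  refine ⟨hne.image _, fun c => ?_⟩
  rcases hty (AffX_til M c) with hA | hB
  · left
    intro j hj
    rw [AffX_sum M N hNM u _ X, hcard, norm_mul, AddChar.norm_apply, one_mul, AffX_til_smul]
    exact hA j (AffX_dvd_of M N hMN _ _ c hj)
  · right
    obtain ⟨θ₀, hθ, hj⟩ := hB
    refine ⟨θ₀, hθ, fun j => ⟨?_, ?_⟩⟩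
    · intro h2
      have h3 : ∃ i, ¬ (((2 ^ m : ℕ) : ℤ) ∣ 2 * ((j : ℤ) * AffX_til M c i)) := by
        have h4 : ∃ i, ¬ (((2 ^ m : ℕ) : ℤ) ∣ (2 * (j : ℤ)) * c i) := by
          obtain ⟨i, hi⟩ := h2
          exact ⟨i, by rw [mul_assoc]; exact hi⟩
        obtain ⟨i, hi⟩ := AffX_dvd_of M N hMN _ _ c h4
        exact ⟨i, by rw [← mul_assoc]; exact hi⟩
      rw [AffX_sum M N hNM u _ X, AffX_til_smul, (hj j).1 h3, mul_zero]
    · intro h2 h3
      have h2' : ∀ i, ((2 ^ m : ℕ) : ℤ) ∣ 2 * ((j : ℤ) * AffX_til M c i) := by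
        intro i
        have h4 : ∀ i, ((2 ^ m : ℕ) : ℤ) ∣ (2 * (j : ℤ)) * c i := by
          intro i
          rw [mul_assoc]
          exact h2 i
        have h5 := AffX_dvd_all M _ _ c h4 i
        rw [mul_assoc] at h5
        exact h5
      have h3' := AffX_dvd_of M N hMN _ _ c h3
      rw [AffX_sum M N hNM u _ X, AffX_til_smul, (hj j).2 h2' h3', hcard]
      have hev : ∀ i, (2 : ℤ) ∣ (j : ℤ) * c i := by
        intro i
        have h6 : (4 : ℤ) ∣ 2 * ((j : ℤ) * c i) := by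
          refine dvd_trans ?_ (h2 i)
          have h7 : ((2 ^ m : ℕ) : ℤ) = 4 * 2 ^ (m - 2) := by
            obtain ⟨k, rfl⟩ : ∃ k, m = k + 2 := ⟨m - 2, by omega⟩
            push_cast
            rw [pow_add]
            ring
          rw [h7]
          exact dvd_mul_right _ _
        omega
      have hdv : (2 : ℤ) ∣ ∑ i, (fun i => (j : ℤ) * c i) i * u i :=
        Finset.dvd_sum fun i _ => Dvd.dvd.mul_right (hev i) _
      obtain ⟨k, hk⟩ := hdv
      have hz : (2 : ZMod (2 ^ m)) ^ (m - 1) *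
          (((∑ i, (fun i => (j : ℤ) * c i) i * u i) : ℤ) : ZMod (2 ^ m)) = 0 := by
        rw [hk]
        push_cast
        rw [← mul_assoc, ← pow_succ, Nat.sub_add_cancel (by omega : 1 ≤ m)]
        have h8 : (2 : ZMod (2 ^ m)) ^ m = 0 := by
          have h9 := ZMod.natCast_self (2 ^ m)
          push_cast at h9
          exact h9
        rw [h8, zero_mul]
      rw [hz, AddChar.map_zero_eq_one, one_mul]

end SlopeB
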