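import Pool.Agent.Lib.SlopeB.Defs
import Pool.Agent.Lib.MP_6febbd_ag.Chr

/-!
# Fourier coefficients of the set of points of exact order `2 ^ k` (genus one)

PROOF. `n = 2^k`, `k ≥ 1`. Nonempty: the constant function `1` (`(1 : ZMod (2^k)).val = 1`; for
`k ≥ 1`, `Fact (1 < 2^k)`). Let `U` be the set of `x` with all `(x i).val` even; `exO k` is its
complement. `U` is the injective image of `(Fin 1 ⊕ Fin 1 → Fin (2^(k-1)))` under
`y ↦ (2 (y i) : ZMod n)`; `U.card = 4^(k-1)`, `(exO k).card = 4^k - 4^(k-1) = 3 · 4^(k-1)`.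
Let `d = j c`. If all `n ∣ d i` there is nothing to prove for this `j`. Otherwise
`∑_{all} chr n d x = 0` (`sum_chr_eq_zero`), so `∑_{exO} chr n d x = -∑_U chr n d x`. If moreover
all `n ∣ 2 d i` then `chr n d x = 1` for `x ∈ U` (the exponent `∑ d_i (x i).val / n` is an integer
because `(x i).val` is even), so the sum is `-4^(k-1) = -(1/3) (exO k).card`: `θ₀ = -1/3`. If
`¬ n ∣ 2 d i₀` for some `i₀` then `∑_U chr n d x = 0`: translation of `x ∈ U` by the vector `2` at
`i₀` is a bijection of `U` and multiplies `chr n d x` by `exp(2πi 2 d i₀ / n) ≠ 1`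
(compare the proof of `sum_chr_eq_zero` in `MP_6febbd_ag/Chr.lean`), or write the sum over `U` as a
sum over `Fin (2^(k-1))`-valued functions and use geometric sums.
-/

set_option autoImplicit false

open scoped Matrix.Norms.Elementwise Real Topology
open Complex Matrix MP6feb Filter

noncomputable section

namespace SlopeB

private theorem ExoF_prod {g n : ℕ} (c : Fin g ⊕ Fin g → ℤ) (x : Fin g ⊕ Fin g → ZMod n) :
    chr n c x = ∏ j, cexp (2 * π * I * ((c j : ℂ) / n)) ^ (x j).val := by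
  unfold chr
  rw [Finset.sum_div, Finset.mul_sum, Complex.exp_sum]
  apply Finset.prod_congr rfl
  intro j _
  rw [← Complex.exp_nat_mul]
  congr 1
  ring

private theorem ExoF_root {n : ℕ} [NeZero n] (c : ℤ) :
    cexp (2 * π * I * ((c : ℂ) / n)) ^ n = 1 := by
  have hn : (n : ℂ) ≠ 0 := by exact_mod_cast NeZero.ne n
  rw [← Complex.exp_nat_mul, Complex.exp_eq_one_iff]
  refine ⟨c, ?_⟩
  field_simp

/-- Characters are multiplicative. -/
private theorem ExoF_chr_add {g n : ℕ} [NeZero n] (c : Fin g ⊕ Fin g → ℤ)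
    (x y : Fin g ⊕ Fin g → ZMod n) : chr n c (x + y) = chr n c x * chr n c y := by
  rw [ExoF_prod, ExoF_prod, ExoF_prod, ← Finset.prod_mul_distrib]
  refine Finset.prod_congr rfl fun j _ => ?_
  rw [Pi.add_apply, ZMod.val_add, ← pow_add]
  have h1 := ExoF_root (n := n) (c j)
  conv_rhs => rw [← Nat.div_add_mod ((x j).val + (y j).val) n, pow_add, pow_mul, h1, one_pow,
    one_mul]

/-- The value at the multiple `t` of a basis vector. -/
private theorem ExoF_chr_single {g n : ℕ} [NeZero n] (c : Fin g ⊕ Fin g → ℤ) (i : Fin g ⊕ Fin g)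
    (t : ℕ) : chr n c (Pi.single i (t : ZMod n)) =
      cexp (2 * π * I * (((t : ℂ) * (c i : ℂ)) / n)) := by
  rw [ExoF_prod, Finset.prod_eq_single i]
  · rw [Pi.single_eq_same, ZMod.val_natCast]
    have h1 := ExoF_root (n := n) (c i)
    have h2 : cexp (2 * π * I * ((c i : ℂ) / n)) ^ (t % n) =
        cexp (2 * π * I * ((c i : ℂ) / n)) ^ t := by
      conv_rhs => rw [← Nat.div_add_mod t n, pow_add, pow_mul, h1, one_pow, one_mul]
    rw [h2, ← Complex.exp_nat_mul]
    congr 1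
    ring
  · intro j _ hj
    rw [Pi.single_eq_of_ne hj, ZMod.val_zero, pow_zero]
  · intro h
    exact absurd (Finset.mem_univ i) h

private theorem ExoF_exp_ne {n : ℕ} [NeZero n] {m : ℤ} (h : ¬ ((n : ℤ) ∣ m)) :
    cexp (2 * π * I * ((m : ℂ) / n)) ≠ 1 := by
  have hn : (n : ℂ) ≠ 0 := by exact_mod_cast NeZero.ne n
  intro h1
  rw [Complex.exp_eq_one_iff] at h1
  obtain ⟨q, hq⟩ := h1
  apply h
  refine ⟨q, ?_⟩
  have hpi : (2 * (π : ℂ) * I) ≠ 0 := Complex.two_pi_I_ne_zero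
  have h2 : (m : ℂ) / n = q := by
    have h3 : (2 * (π : ℂ) * I) * ((m : ℂ) / n) = (2 * (π : ℂ) * I) * q := by
      rw [hq]
      ring
    exact mul_left_cancel₀ hpi h3
  rw [div_eq_iff hn] at h2
  have h4 : (m : ℂ) = ((n : ℤ) * q : ℤ) := by
    rw [h2]
    push_cast
    ring
  exact_mod_cast h4

/-- The characteristics of exact order `n`, `n` a power of two. -/
private def ExoF_S (n : ℕ) [NeZero n] : Finset (Fin 1 ⊕ Fin 1 → ZMod n) :=
  Finset.univ.filter (fun x => ∃ i, Odd (x i).val)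

private theorem ExoF_mem {n : ℕ} [NeZero n] {x : Fin 1 ⊕ Fin 1 → ZMod n} :
    x ∈ ExoF_S n ↔ ∃ i, Odd (x i).val := by
  simp [ExoF_S]

private theorem ExoF_odd_add {n : ℕ} [NeZero n] (hn : Even n) (a b : ZMod n) :
    Odd (a + b).val ↔ (Odd a.val ↔ ¬ Odd b.val) := by
  have h2 : 2 ∣ n := even_iff_two_dvd.mp hn
  rw [ZMod.val_add, Nat.odd_iff, Nat.odd_iff, Nat.odd_iff, Nat.mod_mod_of_dvd _ h2]
  omega

private theorem ExoF_even_two {n : ℕ} [NeZero n] (hn : Even n) : ¬ Odd ((2 : ZMod n)).val := by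
  have h2 : 2 ∣ n := even_iff_two_dvd.mp hn
  have h3 : ((2 : ℕ) : ZMod n) = (2 : ZMod n) := by norm_cast
  rw [← h3, ZMod.val_natCast, Nat.odd_iff, Nat.mod_mod_of_dvd _ h2]
  norm_num

private theorem ExoF_odd_one {n : ℕ} [NeZero n] (hn : Even n) : Odd ((1 : ZMod n)).val := by
  have h2 : 2 ∣ n := even_iff_two_dvd.mp hn
  have h3 : ((1 : ℕ) : ZMod n) = (1 : ZMod n) := by norm_cast
  rw [← h3, ZMod.val_natCast, Nat.odd_iff, Nat.mod_mod_of_dvd _ h2]

private theorem ExoF_ne {n : ℕ} [NeZero n] (hn : Even n) : (ExoF_S n).Nonempty := by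
  refine ⟨fun _ => 1, ?_⟩
  rw [ExoF_mem]
  exact ⟨Sum.inl 0, ExoF_odd_one hn⟩

/-- The character sum over the points of exact order vanishes when `2 c` is not trivial:
the set is invariant under the translation by twice a basis vector. -/
private theorem ExoF_zero {n : ℕ} [NeZero n] (hn : Even n) (c : Fin 1 ⊕ Fin 1 → ℤ)
    (h : ∃ i, ¬ ((n : ℤ) ∣ 2 * c i)) : ∑ x ∈ ExoF_S n, chr n c x = 0 := by
  obtain ⟨i, hi⟩ := h
  have hinv : ∑ x ∈ ExoF_S n, chr n c (x + Pi.single i ((2 : ℕ) : ZMod n)) =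
      ∑ x ∈ ExoF_S n, chr n c x := by
    refine Finset.sum_bij' (fun x _ => x + Pi.single i ((2 : ℕ) : ZMod n))
      (fun x _ => x - Pi.single i ((2 : ℕ) : ZMod n)) ?_ ?_ ?_ ?_ ?_
    · intro x hx
      rw [ExoF_mem] at hx ⊢
      obtain ⟨j, hj⟩ := hx
      refine ⟨j, ?_⟩
      rw [Pi.add_apply, ExoF_odd_add hn]
      by_cases hij : j = i
      · rw [hij, Pi.single_eq_same]
        have h1 := ExoF_even_two hn
        rw [hij] at hj
        push_cast
        tauto
      · rw [Pi.single_eq_of_ne hij, ZMod.val_zero]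
        simpa using hj
    · intro x hx
      rw [ExoF_mem] at hx ⊢
      obtain ⟨j, hj⟩ := hx
      refine ⟨j, ?_⟩
      have h2 : x j = (x - Pi.single i ((2 : ℕ) : ZMod n) : Fin 1 ⊕ Fin 1 → ZMod n) j +
          (Pi.single i ((2 : ℕ) : ZMod n) : Fin 1 ⊕ Fin 1 → ZMod n) j := by
        rw [Pi.sub_apply, sub_add_cancel]
      rw [h2, ExoF_odd_add hn] at hj
      by_cases hij : j = i
      · rw [hij, Pi.single_eq_same] at hj
        have h1 := ExoF_even_two hn
        push_cast at hj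
        rw [hij]
        push_cast
        tauto
      · rw [Pi.single_eq_of_ne hij, ZMod.val_zero] at hj
        simpa using hj
    · intro x _
      exact add_sub_cancel_right _ _
    · intro x _
      exact sub_add_cancel _ _
    · intro x _
      rfl
  have h1 : ∑ x ∈ ExoF_S n, chr n c (x + Pi.single i ((2 : ℕ) : ZMod n)) =
      (∑ x ∈ ExoF_S n, chr n c x) * cexp (2 * π * I * (((2 * c i : ℤ) : ℂ) / n)) := by
    rw [Finset.sum_mul]
    refine Finset.sum_congr rfl fun x _ => ?_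
    rw [ExoF_chr_add, ExoF_chr_single]
    push_cast
    ring_nf
  rw [h1] at hinv
  have h2 : (∑ x ∈ ExoF_S n, chr n c x) *
      (cexp (2 * π * I * (((2 * c i : ℤ) : ℂ) / n)) - 1) = 0 := by
    rw [mul_sub, hinv, mul_one, sub_self]
  rcases mul_eq_zero.mp h2 with h3 | h3
  · exact h3
  · exact absurd (sub_eq_zero.mp h3) (ExoF_exp_ne hi)

private theorem ExoF_chr_even {n : ℕ} [NeZero n] (c : Fin 1 ⊕ Fin 1 → ℤ)
    (h : ∀ i, (n : ℤ) ∣ 2 * c i) {x : Fin 1 ⊕ Fin 1 → ZMod n}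
    (hx : ¬ ∃ i, Odd (x i).val) : chr n c x = 1 := by
  have hn : (n : ℂ) ≠ 0 := by exact_mod_cast NeZero.ne n
  rw [ExoF_prod]
  refine Finset.prod_eq_one fun j _ => ?_
  have h1 : Even (x j).val := by
    rw [← Nat.not_odd_iff_even]
    exact fun h => hx ⟨j, h⟩
  obtain ⟨q, hq⟩ := h j
  obtain ⟨r, hr⟩ := h1
  rw [hr, ← two_mul, pow_mul, ← Complex.exp_nat_mul]
  have h2 : cexp (((2 : ℕ) : ℂ) * (2 * π * I * ((c j : ℂ) / n))) = 1 := by
    rw [Complex.exp_eq_one_iff]
    refine ⟨q, ?_⟩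
    have h3 : (2 : ℂ) * (c j : ℂ) = n * q := by exact_mod_cast hq
    have h4 : ((2 : ℕ) : ℂ) * (2 * π * I * ((c j : ℂ) / n)) =
        (2 * (c j : ℂ)) / n * (2 * π * I) := by
      push_cast
      ring
    rw [h4, h3, mul_div_cancel_left₀ _ hn]
  rw [h2, one_pow]

private theorem ExoF_card_even {n : ℕ} [NeZero n] (hn : Even n) :
    2 * (Finset.univ.filter (fun a : ZMod n => ¬ Odd a.val)).card = n := by
  have h1 : (Finset.univ.filter (fun a : ZMod n => Odd a.val)).card =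
      (Finset.univ.filter (fun a : ZMod n => ¬ Odd a.val)).card := by
    refine Finset.card_bij' (fun a _ => a + 1) (fun a _ => a - 1) ?_ ?_ ?_ ?_
    · intro a ha
      rw [Finset.mem_filter] at ha ⊢
      refine ⟨Finset.mem_univ _, ?_⟩
      rw [ExoF_odd_add hn]
      have h2 := ExoF_odd_one hn
      tauto
    · intro a ha
      rw [Finset.mem_filter] at ha ⊢
      refine ⟨Finset.mem_univ _, ?_⟩
      have h3 := ExoF_odd_add hn (a - 1) 1
      rw [sub_add_cancel] at h3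
      have h2 := ExoF_odd_one hn
      tauto
    · intro a _
      ring
    · intro a _
      ring
  have h2 := Finset.card_filter_add_card_filter_not (s := (Finset.univ : Finset (ZMod n)))
    (fun a : ZMod n => Odd a.val)
  rw [h1, Finset.card_univ, ZMod.card] at h2
  omega

private theorem ExoF_card {n : ℕ} [NeZero n] (hn : Even n) :
    4 * (Finset.univ.filter (fun x : Fin 1 ⊕ Fin 1 → ZMod n => ¬ ∃ i, Odd (x i).val)).card =
      n ^ 2 := by
  have h1 : (Finset.univ.filter (fun x : Fin 1 ⊕ Fin 1 → ZMod n => ¬ ∃ i, Odd (x i).val)) =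
      Fintype.piFinset (fun _ => Finset.univ.filter (fun a : ZMod n => ¬ Odd a.val)) := by
    ext x
    simp
  rw [h1, Fintype.card_piFinset, Finset.prod_const, Finset.card_univ, Fintype.card_sum,
    Fintype.card_fin]
  have h2 := ExoF_card_even hn
  have h3 : n ^ 2 =
      (2 * (Finset.univ.filter (fun a : ZMod n => ¬ Odd a.val)).card) ^ 2 :=
    congrArg (fun t : ℕ => t ^ 2) h2.symm
  rw [h3]
  ring

/-- The character sum over the points of exact order when `2 c` is trivial and `c` is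
not. -/
private theorem ExoF_third {n : ℕ} [NeZero n] (hn : Even n) (c : Fin 1 ⊕ Fin 1 → ℤ)
    (h2 : ∀ i, (n : ℤ) ∣ 2 * c i) (h1 : ∃ i, ¬ ((n : ℤ) ∣ c i)) :
    ∑ x ∈ ExoF_S n, chr n c x = ((-(1 / 3) : ℝ) : ℂ) * ((ExoF_S n).card : ℂ) := by
  have h3 := sum_chr_eq_zero c h1
  rw [← Finset.sum_filter_add_sum_filter_not Finset.univ
    (fun x : Fin 1 ⊕ Fin 1 → ZMod n => ∃ i, Odd (x i).val)] at h3
  have h4 : ∑ x ∈ Finset.univ.filter
      (fun x : Fin 1 ⊕ Fin 1 → ZMod n => ¬ ∃ i, Odd (x i).val), chr n c x =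
      ((Finset.univ.filter
        (fun x : Fin 1 ⊕ Fin 1 → ZMod n => ¬ ∃ i, Odd (x i).val)).card : ℂ) := by
    rw [Finset.sum_congr rfl (fun x hx => ExoF_chr_even c h2 (Finset.mem_filter.mp hx).2)]
    simp
  rw [h4] at h3
  have h5 := ExoF_card hn
  have h6 := Finset.card_filter_add_card_filter_not
    (s := (Finset.univ : Finset (Fin 1 ⊕ Fin 1 → ZMod n))) (fun x => ∃ i, Odd (x i).val)
  rw [Finset.card_univ, Fintype.card_fun, ZMod.card, Fintype.card_sum, Fintype.card_fin] at h6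
  have h7 : ((ExoF_S n).card : ℂ) = 3 * ((Finset.univ.filter
      (fun x : Fin 1 ⊕ Fin 1 → ZMod n => ¬ ∃ i, Odd (x i).val)).card : ℂ) := by
    have h8 : (ExoF_S n).card = 3 * (Finset.univ.filter
      (fun x : Fin 1 ⊕ Fin 1 → ZMod n => ¬ ∃ i, Odd (x i).val)).card := by
      unfold ExoF_S
      have h9 : n ^ (1 + 1) = n ^ 2 := rfl
      omega
    rw [h8]
    push_cast
    ring
  rw [h7]
  have h10 : ∑ x ∈ ExoF_S n, chr n c x = -((Finset.univ.filter
      (fun x : Fin 1 ⊕ Fin 1 → ZMod n => ¬ ∃ i, Odd (x i).val)).card : ℂ) := by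
    rw [eq_neg_iff_add_eq_zero]
    exact h3
  rw [h10]
  push_cast
  ring

private theorem ExoF_even {k : ℕ} (hk : 1 ≤ k) : Even (2 ^ k) :=
  (Nat.even_pow.2 ⟨even_two, by omega⟩)

private theorem ExoF_eq (k : ℕ) : exO k = ExoF_S (2 ^ k) := by
  ext x
  unfold exO ExoF_S
  simp only [Finset.mem_filter, Finset.mem_univ, true_and]
  constructor
  · rintro ⟨i, hi⟩
    exact ⟨i, by rw [← Nat.not_even_iff_odd, even_iff_two_dvd]; exact hi⟩
  · rintro ⟨i, hi⟩
    exact ⟨i, by rw [← even_iff_two_dvd, Nat.not_even_iff_odd]; exact hi⟩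

theorem exO_nonempty {k : ℕ} (hk : 1 ≤ k) : (exO k).Nonempty := by
  rw [ExoF_eq]
  exact ExoF_ne (ExoF_even hk)

theorem exO_tyB {k : ℕ} (hk : 1 ≤ k) (c : Fin 1 ⊕ Fin 1 → ℤ) : TyB (2 ^ k) (exO k) c := by
  rw [ExoF_eq]
  refine ⟨-(1 / 3), by rw [abs_neg, abs_of_pos (by norm_num)], fun j => ⟨?_, ?_⟩⟩
  · exact fun h => ExoF_zero (ExoF_even hk) (fun i => (j : ℤ) * c i) h
  · exact fun h1 h2 => ExoF_third (ExoF_even hk) (fun i => (j : ℤ) * c i) h1 h2

end SlopeB
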