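import Pool.Agent.Lib.SlopeB.Defs
import Pool.Agent.Lib.MP_6febbd_ag.ThB
import Pool.Agent.Lib.MP_6febbd_ag.ThF
import Pool.Agent.Lib.MP_6febbd_ag.ThG
import Pool.Agent.Lib.MP_6febbd_ag.ThN
import Pool.Agent.Lib.MP_6febbd_ag.ESd
import Pool.Agent.Lib.MP_6febbd_ag.JL

/-!
# Genus one: the real characteristics of the zeros form one class modulo one
-/

set_option autoImplicit false

open scoped Matrix.Norms.Elementwise Real Topology
open Complex Matrix MP6feb Filter

noncomputable section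

namespace SlopeB

private lemma OneR_th {σ : ℂ} (hσ : 0 < σ.im) (a b : ℝ)
    (h : th (fun _ : Fin 1 => a) (fun _ : Fin 1 => b) (s1 σ) = 0) :
    Th (s1 σ) (fun _ => (a : ℂ) * σ + b) = 0 := by
  rw [th_eq_Th (s1_mem hσ)] at h
  rcases mul_eq_zero.1 h with h1 | h1
  · exact absurd h1 (Complex.exp_ne_zero _)
  · have h2 : MP6feb.Lat (s1 σ) (Sum.elim (fun _ : Fin 1 => a) (fun _ : Fin 1 => b)) =
        fun _ => (a : ℂ) * σ + b := by
      funext i
      simp [MP6feb.Lat, s1, mul_comm]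
    rwa [h2] at h1

private lemma OneR_translate {σ : ℂ} (hσ : 0 < σ.im) {s : ℂ} (h : Th (s1 σ) (fun _ => s) = 0)
    (p q : ℤ) : Th (s1 σ) (fun _ => s + p * σ + q) = 0 := by
  have h1 := Th_quasi (s1_mem hσ) (fun _ => s) (fun _ : Fin 1 => p) (fun _ : Fin 1 => q)
  rw [h, mul_zero] at h1
  have h2 : (fun i : Fin 1 => (fun _ => s : Fin 1 → ℂ) i + ∑ j, s1 σ i j * (((fun _ => p :
      Fin 1 → ℤ) j : ℤ) : ℂ) + (((fun _ => q : Fin 1 → ℤ) i : ℤ) : ℂ)) =
      fun _ => s + p * σ + q := by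
    funext i
    simp [s1, mul_comm]
  rwa [h2] at h1

private lemma OneR_inv {σ : ℂ} : ((s1 σ).map Complex.im)⁻¹ 0 0 = (σ.im)⁻¹ := by
  rw [Matrix.inv_subsingleton]
  simp [s1]

private lemma OneR_growth {σ : ℂ} (hσ : 0 < σ.im) : ∃ C : ℝ, ∀ t : ℂ,
    ‖Th (s1 σ) (fun _ => t)‖ ≤
      Real.exp (0 * t.re ^ 2 + 0 * t.re * t.im + (π / σ.im) * t.im ^ 2 + C * (1 + ‖t‖)) := by
  obtain ⟨C, hC0, hC⟩ := Th_growth (s1_mem hσ)
  refine ⟨|Real.log C|, fun t => (hC (fun _ => t)).trans ?_⟩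
  have h1 : C ≤ Real.exp (|Real.log C| * (1 + ‖t‖)) := by
    have h2 : Real.log C ≤ |Real.log C| * (1 + ‖t‖) := by
      have h3 := le_abs_self (Real.log C)
      have h4 : 0 ≤ |Real.log C| * ‖t‖ := mul_nonneg (abs_nonneg _) (norm_nonneg _)
      nlinarith
    calc C = Real.exp (Real.log C) := (Real.exp_log hC0).symm
      _ ≤ _ := Real.exp_le_exp.2 h2
  have h5 : π * ∑ i : Fin 1, ∑ j : Fin 1, ((fun _ => t : Fin 1 → ℂ) i).im *
      ((s1 σ).map Complex.im)⁻¹ i j * ((fun _ => t : Fin 1 → ℂ) j).im =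
      (π / σ.im) * t.im ^ 2 := by
    simp only [Finset.univ_unique, Fin.default_eq_zero, Fin.isValue, Finset.sum_singleton,
      OneR_inv]
    ring
  rw [h5]
  calc C * Real.exp ((π / σ.im) * t.im ^ 2)
      ≤ Real.exp (|Real.log C| * (1 + ‖t‖)) * Real.exp ((π / σ.im) * t.im ^ 2) :=
        mul_le_mul_of_nonneg_right h1 (Real.exp_pos _).le
    _ = Real.exp (0 * t.re ^ 2 + 0 * t.re * t.im + (π / σ.im) * t.im ^ 2 +
        |Real.log C| * (1 + ‖t‖)) := by
      rw [← Real.exp_add]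
      congr 1
      ring

private lemma OneR_inc {σ : ℂ} (hσ : 0 < σ.im) {a b a' b' : ℝ} {p q : ℤ}
    (h : (a' : ℂ) * σ + b' = (a : ℂ) * σ + b + p * σ + q) :
    a' - a = p ∧ b' - b = q := by
  have h1 := congrArg Complex.im h
  have h2 := congrArg Complex.re h
  simp only [Complex.add_im, Complex.mul_im, Complex.ofReal_re, Complex.ofReal_im,
    Complex.intCast_re, Complex.intCast_im, zero_mul, add_zero] at h1
  simp only [Complex.add_re, Complex.mul_re, Complex.ofReal_re, Complex.ofReal_im,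
    Complex.intCast_re, Complex.intCast_im, zero_mul, sub_zero] at h2
  have h3 : a' - a = p := by
    have h4 : (a' - a - p) * σ.im = 0 := by linarith
    rcases mul_eq_zero.1 h4 with h5 | h5
    · linarith
    · exact absurd h5 hσ.ne'
  refine ⟨h3, ?_⟩
  have h8 : a' = a + p := by linarith
  rw [h8] at h2
  linarith

theorem one_zero {σ : ℂ} (hσ : 0 < σ.im) {a b a' b' : ℝ}
    (h : th (fun _ : Fin 1 => a) (fun _ : Fin 1 => b) (s1 σ) = 0)
    (h' : th (fun _ : Fin 1 => a') (fun _ : Fin 1 => b') (s1 σ) = 0) :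
    ∃ p q : ℤ, a' - a = p ∧ b' - b = q := by
  by_contra hcon
  have hx1 := OneR_th hσ a b h
  have hy1 := OneR_th hσ a' b' h'
  set P : ℂ := (a : ℂ) * σ + b with hP
  set Q : ℂ := (a' : ℂ) * σ + b' with hQ
  have hinj : ∀ p q : ℤ, Q ≠ P + p * σ + q := by
    intro p q hh
    exact hcon ⟨p, q, OneR_inc hσ hh⟩
  have hinj' : ∀ p q : ℤ, P ≠ Q + p * σ + q := by
    intro p q hh
    refine hinj (-p) (-q) ?_
    rw [hh]
    push_cast
    ring
  have hPQ : P ≠ Q := by
    intro hh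
    refine hinj 0 0 ?_
    rw [hh]
    push_cast
    ring
  obtain ⟨C, hC⟩ := OneR_growth hσ
  have hne : ∃ z : ℂ, Th (s1 σ) (fun _ : Fin 1 => z) ≠ 0 := by
    obtain ⟨z, hz⟩ := Th_ne_zero (s1_mem hσ)
    refine ⟨z 0, ?_⟩
    have h1 : (fun _ : Fin 1 => z 0) = z := by
      funext i
      rw [Subsingleton.elim i 0]
    rwa [h1]
  have hdiff : Differentiable ℂ (fun z : ℂ => Th (s1 σ) (fun _ : Fin 1 => z)) := by
    have h1 : Differentiable ℂ (ES (thC (s1 σ))) := ES_differentiable (thC_gdec (s1_mem hσ))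
    have h2 : Differentiable ℂ (fun z : ℂ => (fun _ : Fin 1 => z)) :=
      differentiable_pi.2 fun _ => differentiable_id
    exact h1.comp h2
  have key := jensen_lattice hdiff hne hσ 0 0 (π / σ.im) C hC {P, Q} (by
      intro s hs p q
      rw [Finset.mem_insert, Finset.mem_singleton] at hs
      rcases hs with h1 | h1
      · rw [h1]; exact OneR_translate hσ hx1 p q
      · rw [h1]; exact OneR_translate hσ hy1 p q) (by
      intro s hs s' hs' hss p q
      rw [Finset.mem_insert, Finset.mem_singleton] at hs hs'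
      rcases hs with h1 | h1 <;> rcases hs' with h2 | h2
      · exact absurd (h1.trans h2.symm) hss
      · rw [h1, h2]; exact hinj p q
      · rw [h1, h2]; exact hinj' p q
      · exact absurd (h1.trans h2.symm) hss)
  rw [Finset.card_pair hPQ] at key
  have h3 : (0 + π / σ.im) * σ.im = π := by
    field_simp
    ring
  rw [h3] at key
  have := Real.pi_pos
  push_cast at key
  linarith

end SlopeB
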