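import Pool.Agent.Lib.SlopeB.Defs
import Pool.Agent.Lib.SlopeB.OneR

/-!
# Points of exact order `2 ^ k` avoid the zeros for large `k` (genus one)

PROOF. By `Filter.eventually_all_finset` it suffices to treat one `ξ`. Claim: there is at most one
`k` for which some `x ∈ exO k` has `thS (2^k) ξ x (s1 σ) = 0`. Then the statement holds for all
larger `k`. Let `k < k'` be two such levels, with `x`, `x'`. Put
`a = (x (inl 0)).val / 2^k + ξ (inl 0)`, `b = (x (inr 0)).val / 2^k + ξ (inr 0)`, and `a', b'`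
similarly. (`thS` has functions `fun i => ...` on `Fin 1`; they are constant, `i = 0`.) By
`one_zero` `a' - a = p`, `b' - b = q` are integers: `(x' i).val / 2^k' - (x i).val / 2^k ∈ ℤ` for
both `i`, so `(x' i).val = 2^(k'-k) (x i).val + 2^k' p_i` is even for both `i`, contradicting
`x' ∈ exO k'`.
-/

set_option autoImplicit false

open scoped Matrix.Norms.Elementwise Real Topology
open Complex Matrix MP6feb Filter

noncomputable section

namespace SlopeB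

private theorem exon_even {k k' : ℕ} (hk : k < k') {v v' : ℕ} {c : ℝ} {p : ℤ}
    (h : ((v' : ℝ) / ((2 ^ k' : ℕ) : ℝ) + c) - ((v : ℝ) / ((2 ^ k : ℕ) : ℝ) + c) = p) :
    2 ∣ v' := by
  obtain ⟨d, rfl⟩ : ∃ d, k' = k + (d + 1) := ⟨k' - k - 1, by omega⟩
  have h2 : ((2 : ℝ) ^ k) ≠ 0 := by positivity
  have h3 : ((2 : ℝ) ^ (d + 1)) ≠ 0 := by positivity
  push_cast at h
  have h4 : (v' : ℝ) / (2 ^ (k + (d + 1))) - (v : ℝ) / 2 ^ k = p := by linarith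
  rw [pow_add] at h4
  have h5 : (v' : ℝ) = v * 2 ^ (d + 1) + p * (2 ^ k * 2 ^ (d + 1)) := by
    field_simp at h4
    linarith
  have h6 : (v' : ℤ) = v * 2 ^ (d + 1) + p * (2 ^ k * 2 ^ (d + 1)) := by
    exact_mod_cast h5
  have h7 : (2 : ℤ) ∣ v' := by
    rw [h6]
    have h8 : (2 : ℤ) ∣ 2 ^ (d + 1) := dvd_pow_self 2 (by omega)
    exact dvd_add (h8.mul_left _) ((h8.mul_left _).mul_left _)
  exact_mod_cast h7

private theorem exon_aux {σ : ℂ} (hσ : 0 < σ.im) (ξ : Fin 1 ⊕ Fin 1 → ℝ) {k k' : ℕ}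
    (hk : k < k') {x : Fin 1 ⊕ Fin 1 → ZMod (2 ^ k)} (hx : thS (2 ^ k) ξ x (s1 σ) = 0)
    {x' : Fin 1 ⊕ Fin 1 → ZMod (2 ^ k')} (hx' : x' ∈ exO k')
    (h' : thS (2 ^ k') ξ x' (s1 σ) = 0) : False := by
  have h1 : th (fun _ : Fin 1 => ((x (Sum.inl 0)).val : ℝ) / ((2 ^ k : ℕ) : ℝ) + ξ (Sum.inl 0))
      (fun _ : Fin 1 => ((x (Sum.inr 0)).val : ℝ) / ((2 ^ k : ℕ) : ℝ) + ξ (Sum.inr 0))
      (s1 σ) = 0 := by
    rw [← hx, thS]
    congr 1 <;> · funext i; rw [Subsingleton.elim i 0]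
  have h2 : th (fun _ : Fin 1 => ((x' (Sum.inl 0)).val : ℝ) / ((2 ^ k' : ℕ) : ℝ) + ξ (Sum.inl 0))
      (fun _ : Fin 1 => ((x' (Sum.inr 0)).val : ℝ) / ((2 ^ k' : ℕ) : ℝ) + ξ (Sum.inr 0))
      (s1 σ) = 0 := by
    rw [← h', thS]
    congr 1 <;> · funext i; rw [Subsingleton.elim i 0]
  obtain ⟨p, q, hp, hq⟩ := one_zero hσ h1 h2
  rw [exO, Finset.mem_filter] at hx'
  obtain ⟨-, i, hi⟩ := hx'
  rcases i with i | i
  · rw [Subsingleton.elim i 0] at hi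
    exact hi (exon_even hk hp)
  · rw [Subsingleton.elim i 0] at hi
    exact hi (exon_even hk hq)

theorem exO_nz {σ : ℂ} (hσ : 0 < σ.im) (Ξ : Finset (Fin 1 ⊕ Fin 1 → ℝ)) :
    ∀ᶠ k : ℕ in Filter.atTop, ∀ x ∈ exO k, ∀ ξ ∈ Ξ, thS (2 ^ k) ξ x (s1 σ) ≠ 0 := by
  have key : ∀ ξ ∈ Ξ, ∀ᶠ k : ℕ in Filter.atTop, ∀ x ∈ exO k, thS (2 ^ k) ξ x (s1 σ) ≠ 0 := by
    intro ξ _
    by_cases h : ∃ k, ∃ x ∈ exO k, thS (2 ^ k) ξ x (s1 σ) = 0
    · obtain ⟨k, x, -, hx⟩ := h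
      filter_upwards [Filter.eventually_gt_atTop k] with k' hk' x' hx' h'
      exact exon_aux hσ ξ hk' hx hx' h'
    · push Not at h
      exact Filter.Eventually.of_forall h
  have h2 := (Filter.eventually_all_finset Ξ).mpr key
  filter_upwards [h2] with k hk x hx ξ hξ
  exact hk ξ hξ x hx

end SlopeB
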