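import Pool.Agent.Lib.SlopeB.Defs
import Pool.Agent.Lib.MP_6febbd_ag.Chr

/-!
# Products of good sets

PROOF. `jn` is injective (compare `gdp_inj` in `MP_6febbd_ag/GdP.lean`), and for
`c : Fin (k+1) ⊕ Fin (k+1) → ℤ` with parts `c₁ : Fin 1 ⊕ Fin 1 → ℤ` (indices `0`) and `c₂`
(indices `succ`) `chr n c (jn (x₁, x₂)) = chr n c₁ x₁ * chr n c₂ x₂` (`Fin.sum_univ_succ`,
`exp_add`). So with `S₁(j) = ∑_{X₁} chr n (j c₁) x`, `S₂(j)` similarly, the sum over
the image is `S₁(j) S₂(j)`, and the card is `X₁.card * X₂.card`. `n = 2^m`.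
Orders: for `d` (any index type) let `l(d)` be the least `l` with `n ∣ 2^l d_i` for all `i`
(`Nat.find`, `l = m` works). For `j ≥ 1`: all `n ∣ j d_i` iff `l(d) ≤ v₂(j)` (write `j = 2^v u`, `u`
odd, coprime to `n`); for `j = 0` all are divisible. (`padicValNat 2 j`, `padicValNat_dvd_iff`, or
work with `d_i` and `Int` divisibility directly.)
`c₁` is of type beta with `θ₁` (hypothesis `h1`), and `S₁(j) = X₁.card` if `n ∣ j c₁`
(all `chr = 1`).
Case A: `c₂` is of type beta with `θ₂`. Then `c` is of type beta: let `l₁ = l(c₁)`, `l₂ = l(c₂)`.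
`θ₀ = θ₁` if `l₁ > l₂`, `θ₂` if `l₁ < l₂`, `θ₁ θ₂` if `l₁ = l₂`. If some `n ∤ 2 j c_i` then one of the
factors is `0`. If all `n ∣ 2 j c_i` and some `n ∤ j c_i` then `v₂(j) + 1 = max(l₁, l₂)`, and the
factor with the smaller order is the card.
Case B: `c₂` is of type alpha and `l₂ ≥ l₁`: `c` is of type alpha: if some `n ∤ j c_i` then
`v₂(j) < max(l₁, l₂) = l₂`, so some `n ∤ j c₂_i`, `‖S₂‖ ≤ η X₂.card` and `‖S₁‖ ≤ X₁.card`
(each `‖chr‖ = 1`).
Case C: `c₂` is of type alpha and `l₂ < l₁`: `c` is of type beta with `θ₀ = θ₁`: if some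
`n ∤ 2 j c_i` then `v₂(j) + 1 < l₁`, so `S₁(j) = 0`. If all `n ∣ 2 j c_i`, some `n ∤ j c_i`:
`v₂(j) + 1 = l₁`, so `v₂(j) ≥ l₂`, `S₂(j) = X₂.card`, `S₁(j) = θ₁ X₁.card`.
(`0 ≤ η` may be assumed: it follows from nothing, so it is a hypothesis.)
-/

set_option autoImplicit false

open scoped Matrix.Norms.Elementwise Real Topology
open Complex Matrix MP6feb Filter

noncomputable section

namespace SlopeB

theorem jn_injective {R : Type} {k : ℕ} : Function.Injective (jn (R := R) (k := k)) := by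
  intro q q' h
  refine Prod.ext (funext fun i => ?_) (funext fun i => ?_)
  · rcases i with i | i
    · have h1 := congrFun h (Sum.inl 0)
      rw [Subsingleton.elim i 0]
      simpa [jn] using h1
    · have h1 := congrFun h (Sum.inr 0)
      rw [Subsingleton.elim i 0]
      simpa [jn] using h1
  · rcases i with i | i
    · have h1 := congrFun h (Sum.inl i.succ)
      simpa [jn] using h1
    · have h1 := congrFun h (Sum.inr i.succ)
      simpa [jn] using h1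

private lemma prdX_chr {k n : ℕ} (c : Fin (k + 1) ⊕ Fin (k + 1) → ℤ)
    (q : (Fin 1 ⊕ Fin 1 → ZMod n) × (Fin k ⊕ Fin k → ZMod n)) :
    chr n c (jn q) =
      chr n (Sum.elim (fun _ : Fin 1 => c (Sum.inl 0)) (fun _ : Fin 1 => c (Sum.inr 0))) q.1 *
      chr n (Sum.elim (fun i : Fin k => c (Sum.inl i.succ))
        (fun i : Fin k => c (Sum.inr i.succ))) q.2 := by
  rw [chr, chr, chr, ← Complex.exp_add]
  congr 1
  simp only [Fintype.sum_sum_type, Fin.sum_univ_succ, jn, Sum.elim_inl, Sum.elim_inr,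
    Fin.cons_zero, Fin.cons_succ, Finset.univ_eq_empty, Finset.sum_empty]
  ring

private lemma prdX_norm_le {g n : ℕ} (c : Fin g ⊕ Fin g → ℤ)
    (X : Finset (Fin g ⊕ Fin g → ZMod n)) : ‖∑ x ∈ X, chr n c x‖ ≤ X.card := by
  refine (norm_sum_le _ _).trans ?_
  simp only [norm_chr, Finset.sum_const, nsmul_eq_mul, mul_one]
  exact le_rfl

private lemma prdX_one {g n : ℕ} (hn : n ≠ 0) (c : Fin g ⊕ Fin g → ℤ)
    (hc : ∀ i, (n : ℤ) ∣ c i) (X : Finset (Fin g ⊕ Fin g → ZMod n)) :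
    ∑ x ∈ X, chr n c x = X.card := by
  have h1 : ∀ x ∈ X, chr n c x = 1 := by
    intro x _
    choose d hd using hc
    rw [chr, Complex.exp_eq_one_iff]
    refine ⟨∑ j, d j * ((x j).val : ℤ), ?_⟩
    have hn' : (n : ℂ) ≠ 0 := by exact_mod_cast hn
    have h2 : (∑ j, (c j : ℂ) * ((x j).val : ℂ)) / n
        = ((∑ j, d j * ((x j).val : ℤ) : ℤ) : ℂ) := by
      rw [div_eq_iff hn']
      push_cast
      rw [Finset.sum_mul]
      refine Finset.sum_congr rfl fun j _ => ?_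
      rw [hd j]
      push_cast
      ring
    rw [h2]
    ring
  rw [Finset.sum_congr rfl h1]
  simp

private lemma prdX_ord {ι : Type} (m : ℕ) (d : ι → ℤ) :
    ∃ l : ℕ, ∀ j : ℕ, (∀ i, ((2 ^ m : ℕ) : ℤ) ∣ (j : ℤ) * d i) ↔ 2 ^ l ∣ j := by
  classical
  have hex : ∃ l : ℕ, ∀ i, ((2 ^ m : ℕ) : ℤ) ∣ ((2 ^ l : ℕ) : ℤ) * d i :=
    ⟨m, fun i => Dvd.intro _ rfl⟩
  refine ⟨Nat.find hex, fun j => ⟨fun h => ?_, fun h i => ?_⟩⟩
  · rcases Nat.eq_zero_or_pos j with h0 | h0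
    · rw [h0]
      exact dvd_zero _
    · obtain ⟨v, u, hu, hj⟩ := Nat.exists_eq_two_pow_mul_odd h0.ne'
      have h1 : ∀ i, ((2 ^ m : ℕ) : ℤ) ∣ ((2 ^ v : ℕ) : ℤ) * d i := by
        intro i
        have h2 := h i
        have hco : IsCoprime (((2 ^ m : ℕ)) : ℤ) ((u : ℕ) : ℤ) := by
          rw [Nat.isCoprime_iff_coprime]
          exact (Nat.coprime_two_left.2 hu).pow_left m
        have h3 : (j : ℤ) * d i = (u : ℤ) * (((2 ^ v : ℕ) : ℤ) * d i) := by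
          rw [hj]
          push_cast
          ring
        rw [h3] at h2
        exact hco.dvd_of_dvd_mul_left h2
      have h4 : Nat.find hex ≤ v := Nat.find_min' hex h1
      rw [hj]
      exact (pow_dvd_pow 2 h4).mul_right u
  · obtain ⟨t, ht⟩ := h
    have h1 := Nat.find_spec hex i
    have h3 : (j : ℤ) * d i = ((2 ^ (Nat.find hex) : ℕ) : ℤ) * d i * (t : ℤ) := by
      have : (j : ℤ) = ((2 ^ (Nat.find hex) : ℕ) : ℤ) * (t : ℤ) := by
        rw [ht]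
        push_cast
        ring
      rw [this]
      ring
    rw [h3]
    exact h1.mul_right _

private lemma prdX_ord2 {ι : Type} (m l : ℕ) (d : ι → ℤ)
    (h : ∀ j : ℕ, (∀ i, ((2 ^ m : ℕ) : ℤ) ∣ (j : ℤ) * d i) ↔ 2 ^ l ∣ j) (j : ℕ) :
    (∀ i, ((2 ^ m : ℕ) : ℤ) ∣ 2 * ((j : ℤ) * d i)) ↔ 2 ^ l ∣ 2 * j := by
  rw [← h (2 * j)]
  refine forall_congr' fun i => ?_
  rw [show ((2 * j : ℕ) : ℤ) * d i = 2 * ((j : ℤ) * d i) by push_cast; ring]

private lemma prdX_half {l l' j : ℕ} (h : l < l') (hj : 2 ^ l' ∣ 2 * j) : 2 ^ l ∣ j := by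
  have h1 : 2 ^ (l + 1) ∣ 2 * j := (pow_dvd_pow 2 h).trans hj
  rw [pow_succ, mul_comm] at h1
  exact Nat.dvd_of_mul_dvd_mul_left (by norm_num) h1

theorem good_join {k m : ℕ} {η : ℝ} (hη : 0 ≤ η) {X₁ : Finset (Fin 1 ⊕ Fin 1 → ZMod (2 ^ m))}
    {X₂ : Finset (Fin k ⊕ Fin k → ZMod (2 ^ m))} (hX₁ : X₁.Nonempty)
    (h1 : ∀ c, TyB (2 ^ m) X₁ c) (h2 : GoodX (2 ^ m) η X₂) :
    GoodX (2 ^ m) η ((X₁ ×ˢ X₂).image jn) := by
  classical
  refine ⟨(hX₁.product h2.1).image _, fun c => ?_⟩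
  set c1 : Fin 1 ⊕ Fin 1 → ℤ :=
    Sum.elim (fun _ : Fin 1 => c (Sum.inl 0)) (fun _ : Fin 1 => c (Sum.inr 0)) with hc1
  set c2 : Fin k ⊕ Fin k → ℤ := Sum.elim (fun i : Fin k => c (Sum.inl i.succ))
        (fun i : Fin k => c (Sum.inr i.succ)) with hc2
  have hn : (2 ^ m : ℕ) ≠ 0 := by positivity
  obtain ⟨l1, hl1⟩ := prdX_ord m c1
  obtain ⟨l2, hl2⟩ := prdX_ord m c2
  have hl1' := prdX_ord2 m l1 c1 hl1
  have hl2' := prdX_ord2 m l2 c2 hl2
  have hcard : (((X₁ ×ˢ X₂).image jn).card : ℝ) = (X₁.card : ℝ) * (X₂.card : ℝ) := by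
    rw [Finset.card_image_of_injective _ jn_injective, Finset.card_product]
    push_cast
    ring
  have hcardC : ((((X₁ ×ˢ X₂).image jn).card : ℝ) : ℂ) = (X₁.card : ℂ) * (X₂.card : ℂ) := by
    rw [hcard]
    push_cast
    ring
  set S1 : ℕ → ℂ := fun j => ∑ x ∈ X₁, chr (2 ^ m) (fun i => (j : ℤ) * c1 i) x with hS1
  set S2 : ℕ → ℂ := fun j => ∑ x ∈ X₂, chr (2 ^ m) (fun i => (j : ℤ) * c2 i) x with hS2
  have hsum : ∀ j : ℕ, ∑ x ∈ (X₁ ×ˢ X₂).image jn, chr (2 ^ m) (fun i => (j : ℤ) * c i) x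
      = S1 j * S2 j := by
    intro j
    rw [Finset.sum_image (fun a _ b _ h => jn_injective h)]
    simp only [prdX_chr]
    rw [Finset.sum_product, ← Finset.sum_mul_sum]
    refine congrArg₂ (· * ·) ?_ ?_
    · refine Finset.sum_congr rfl fun x _ => ?_
      congr 1
      funext i
      rcases i with i | i <;> rfl
    · refine Finset.sum_congr rfl fun x _ => ?_
      congr 1
      funext i
      rcases i with i | i <;> rfl
  have split : ∀ P : (Fin (k + 1) ⊕ Fin (k + 1)) → Prop, (∀ i, P i) ↔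
      ((P (Sum.inl 0) ∧ P (Sum.inr 0)) ∧ (∀ i : Fin k, P (Sum.inl i.succ)) ∧
        ∀ i : Fin k, P (Sum.inr i.succ)) := by
    intro P
    constructor
    · intro h
      exact ⟨⟨h _, h _⟩, fun i => h _, fun i => h _⟩
    · rintro ⟨⟨ha, hb⟩, hc, hd⟩ i
      rcases i with i | i
      · exact Fin.cases ha hc i
      · exact Fin.cases hb hd i
  have hD : ∀ j : ℕ, (∀ i, ((2 ^ m : ℕ) : ℤ) ∣ (j : ℤ) * c i) ↔ (2 ^ l1 ∣ j ∧ 2 ^ l2 ∣ j) := by
    intro j
    rw [split, ← hl1 j, ← hl2 j]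
    constructor
    · rintro ⟨⟨ha, hb⟩, hc, hd⟩
      refine ⟨fun i => ?_, fun i => ?_⟩
      · rcases i with i | i
        · exact ha
        · exact hb
      · rcases i with i | i
        · exact hc i
        · exact hd i
    · rintro ⟨ha, hb⟩
      exact ⟨⟨ha (Sum.inl 0), ha (Sum.inr 0)⟩, fun i => hb (Sum.inl i), fun i => hb (Sum.inr i)⟩
  have hD2 : ∀ j : ℕ, (∀ i, ((2 ^ m : ℕ) : ℤ) ∣ 2 * ((j : ℤ) * c i)) ↔
      (2 ^ l1 ∣ 2 * j ∧ 2 ^ l2 ∣ 2 * j) := by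
    intro j
    rw [← hD (2 * j)]
    refine forall_congr' fun i => ?_
    rw [show ((2 * j : ℕ) : ℤ) * c i = 2 * ((j : ℤ) * c i) by push_cast; ring]
  -- values of the two factors
  have hS1one : ∀ j : ℕ, 2 ^ l1 ∣ j → S1 j = (X₁.card : ℂ) := fun j hj =>
    prdX_one hn _ ((hl1 j).2 hj) X₁
  have hS2one : ∀ j : ℕ, 2 ^ l2 ∣ j → S2 j = (X₂.card : ℂ) := fun j hj =>
    prdX_one hn _ ((hl2 j).2 hj) X₂
  obtain ⟨θ1, hθ1, hB1⟩ := h1 c1
  have hS1zero : ∀ j : ℕ, ¬ 2 ^ l1 ∣ 2 * j → S1 j = 0 := by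
    intro j hj
    refine (hB1 j).1 ?_
    by_contra hcon
    push Not at hcon
    exact hj ((hl1' j).1 hcon)
  have hS1half : ∀ j : ℕ, 2 ^ l1 ∣ 2 * j → ¬ 2 ^ l1 ∣ j → S1 j = (θ1 : ℂ) * (X₁.card : ℂ) := by
    intro j hj hj'
    have := (hB1 j).2 ((hl1' j).2 hj) (by
      by_contra hcon
      push Not at hcon
      exact hj' ((hl1 j).1 hcon))
    exact this
  have exD : ∀ j : ℕ, (∃ i, ¬ ((2 ^ m : ℕ) : ℤ) ∣ (j : ℤ) * c i) → ¬ (2 ^ l1 ∣ j ∧ 2 ^ l2 ∣ j) := by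
    rintro j ⟨i, hi⟩ hcon
    exact hi ((hD j).2 hcon i)
  have exD2 : ∀ j : ℕ, (∃ i, ¬ ((2 ^ m : ℕ) : ℤ) ∣ 2 * ((j : ℤ) * c i)) →
      ¬ (2 ^ l1 ∣ 2 * j ∧ 2 ^ l2 ∣ 2 * j) := by
    rintro j ⟨i, hi⟩ hcon
    exact hi ((hD2 j).2 hcon i)
  rcases h2.2 c2 with hA | hB
  · -- type alpha for the second factor
    rcases le_or_gt l1 l2 with hll | hll
    · left
      intro j hj
      have hj2 : ¬ 2 ^ l2 ∣ j := fun h => exD j hj ⟨(pow_dvd_pow 2 hll).trans h, h⟩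
      have e2 := hA j (by
        by_contra hcon
        push Not at hcon
        exact hj2 ((hl2 j).1 hcon))
      have e1 : ‖S1 j‖ ≤ X₁.card := prdX_norm_le _ _
      rw [hsum, norm_mul, hcard]
      calc ‖S1 j‖ * ‖S2 j‖ ≤ (X₁.card : ℝ) * (η * (X₂.card : ℝ)) :=
            mul_le_mul e1 e2 (norm_nonneg _) (Nat.cast_nonneg _)
        _ = η * ((X₁.card : ℝ) * (X₂.card : ℝ)) := by ring
    · right
      refine ⟨θ1, hθ1, fun j => ⟨fun hj => ?_, fun hj hj' => ?_⟩⟩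
      · have h3 : ¬ 2 ^ l1 ∣ 2 * j := fun h => exD2 j hj ⟨h, (pow_dvd_pow 2 hll.le).trans h⟩
        rw [hsum, hS1zero j h3, zero_mul]
      · have h3 := (hD2 j).1 hj
        have h4 : 2 ^ l2 ∣ j := prdX_half hll h3.1
        have h5 : ¬ 2 ^ l1 ∣ j := fun h => exD j hj' ⟨h, h4⟩
        rw [hsum, hS1half j h3.1 h5, hS2one j h4]
        push_cast [Finset.card_image_of_injective _ (jn_injective (R := ZMod (2 ^ m)) (k := k)),
          Finset.card_product]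
        ring
  · -- type beta for the second factor
    obtain ⟨θ2, hθ2, hB2⟩ := hB
    have hS2zero : ∀ j : ℕ, ¬ 2 ^ l2 ∣ 2 * j → S2 j = 0 := by
      intro j hj
      refine (hB2 j).1 ?_
      by_contra hcon
      push Not at hcon
      exact hj ((hl2' j).1 hcon)
    have hS2half : ∀ j : ℕ, 2 ^ l2 ∣ 2 * j → ¬ 2 ^ l2 ∣ j →
        S2 j = (θ2 : ℂ) * (X₂.card : ℂ) := by
      intro j hj hj'
      have := (hB2 j).2 ((hl2' j).2 hj) (by
        by_contra hcon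
        push Not at hcon
        exact hj' ((hl2 j).1 hcon))
      exact this
    have hzero : ∀ j : ℕ, (∃ i, ¬ ((2 ^ m : ℕ) : ℤ) ∣ 2 * ((j : ℤ) * c i)) → S1 j * S2 j = 0 := by
      intro j hj
      by_cases h3 : 2 ^ l1 ∣ 2 * j
      · have h4 : ¬ 2 ^ l2 ∣ 2 * j := fun h => exD2 j hj ⟨h3, h⟩
        rw [hS2zero j h4, mul_zero]
      · rw [hS1zero j h3, zero_mul]
    right
    rcases lt_trichotomy l1 l2 with hll | hll | hll
    · refine ⟨θ2, hθ2, fun j => ⟨fun hj => ?_, fun hj hj' => ?_⟩⟩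
      · rw [hsum, hzero j hj]
      · have h3 := (hD2 j).1 hj
        have h4 : 2 ^ l1 ∣ j := prdX_half hll h3.2
        have h5 : ¬ 2 ^ l2 ∣ j := fun h => exD j hj' ⟨h4, h⟩
        rw [hsum, hS2half j h3.2 h5, hS1one j h4]
        push_cast [Finset.card_image_of_injective _ (jn_injective (R := ZMod (2 ^ m)) (k := k)),
          Finset.card_product]
        ring
    · refine ⟨θ1 * θ2, ?_, fun j => ⟨fun hj => ?_, fun hj hj' => ?_⟩⟩
      · rw [abs_mul]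
        calc |θ1| * |θ2| ≤ 1 / 3 * 1 := by
              apply mul_le_mul hθ1 (hθ2.trans (by norm_num)) (abs_nonneg _) (by norm_num)
          _ = 1 / 3 := by norm_num
      · rw [hsum, hzero j hj]
      · have h3 := (hD2 j).1 hj
        have h4 : ¬ 2 ^ l1 ∣ j := fun h => exD j hj' ⟨h, hll ▸ h⟩
        have h5 : ¬ 2 ^ l2 ∣ j := fun h => exD j hj' ⟨hll ▸ h, h⟩
        rw [hsum, hS1half j h3.1 h4, hS2half j h3.2 h5]
        push_cast [Finset.card_image_of_injective _ (jn_injective (R := ZMod (2 ^ m)) (k := k)),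
          Finset.card_product]
        ring
    · refine ⟨θ1, hθ1, fun j => ⟨fun hj => ?_, fun hj hj' => ?_⟩⟩
      · rw [hsum, hzero j hj]
      · have h3 := (hD2 j).1 hj
        have h4 : 2 ^ l2 ∣ j := prdX_half hll h3.1
        have h5 : ¬ 2 ^ l1 ∣ j := fun h => exD j hj' ⟨h, h4⟩
        rw [hsum, hS1half j h3.1 h5, hS2one j h4]
        push_cast [Finset.card_image_of_injective _ (jn_injective (R := ZMod (2 ^ m)) (k := k)),
          Finset.card_product]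
        ring

end SlopeB
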