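import Pool.Agent.Lib.SlopeB.Defs
import Pool.Agent.Lib.SlopeB.ExoF
import Pool.Agent.Lib.SlopeB.ExoN
import Pool.Agent.Lib.SlopeB.PrdX
import Pool.Agent.Lib.MP_6febbd_ag.ThB

/-!
# Block sums with a genus one block

PROOF. Given `Ξ`, `ε`. Let `Ξ₁ = Ξ.image (fun ξ => Sum.elim (fun _ => ξ (inl 0)) (fun _ => ξ (inr 0)))`
and `Ξ₂ = Ξ.image (fun ξ => Sum.elim (fun i => ξ (inl i.succ)) (fun i => ξ (inr i.succ)))`. For all
large `j` (`j ≥ 1`) take `X₂` from `h Ξ₂ ε` and `X₁ = exO j` (`exO_nonempty`, `exO_tyB`,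
`exO_nz hσ Ξ₁`); `X = (X₁ ×ˢ X₂).image jn` is good by `good_join` (`η = ε (1/4)^j ≥ 0`). For
`x = jn (x₁, x₂)` the product formula `th_bd` gives
`thS n ξ x (bd σ τ) = thS n ξ₁ x₁ (s1 σ) * thS n ξ₂ x₂ τ` (compare `gdp_thx` in
`MP_6febbd_ag/GdP.lean`), both factors are not zero.
-/

set_option autoImplicit false

open scoped Matrix.Norms.Elementwise Real Topology
open Complex Matrix MP6feb Filter

noncomputable section

namespace SlopeB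

private lemma BdX_thS {k n : ℕ} {σ : ℂ} (hσ : 0 < σ.im) {τ : Matrix (Fin k) (Fin k) ℂ}
    (hτ : τ ∈ Siegel k) (ξ : Fin (k + 1) ⊕ Fin (k + 1) → ℝ)
    (q : (Fin 1 ⊕ Fin 1 → ZMod n) × (Fin k ⊕ Fin k → ZMod n)) :
    thS n ξ (jn q) (bd σ τ) =
      thS n (Sum.elim (fun _ : Fin 1 => ξ (Sum.inl 0)) (fun _ : Fin 1 => ξ (Sum.inr 0))) q.1
        (s1 σ) *
      thS n (Sum.elim (fun i : Fin k => ξ (Sum.inl i.succ))
        (fun i : Fin k => ξ (Sum.inr i.succ))) q.2 τ := by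
  rw [thS, th_bd hσ hτ, thS, thS]
  have e1 : (fun i : Fin 1 => (((q.1 (Sum.inl i)).val : ℝ)) / n +
      (Sum.elim (fun _ : Fin 1 => ξ (Sum.inl 0)) (fun _ : Fin 1 => ξ (Sum.inr 0)) :
        Fin 1 ⊕ Fin 1 → ℝ) (Sum.inl i)) =
      fun _ : Fin 1 => (((jn q (Sum.inl 0)).val : ℝ)) / n + ξ (Sum.inl 0) := by
    funext i
    rw [Subsingleton.elim i 0]
    simp [jn]
  have e2 : (fun i : Fin 1 => (((q.1 (Sum.inr i)).val : ℝ)) / n +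
      (Sum.elim (fun _ : Fin 1 => ξ (Sum.inl 0)) (fun _ : Fin 1 => ξ (Sum.inr 0)) :
        Fin 1 ⊕ Fin 1 → ℝ) (Sum.inr i)) =
      fun _ : Fin 1 => (((jn q (Sum.inr 0)).val : ℝ)) / n + ξ (Sum.inr 0) := by
    funext i
    rw [Subsingleton.elim i 0]
    simp [jn]
  rw [e1, e2]
  rfl

theorem evX_bd {k : ℕ} {σ : ℂ} (hσ : 0 < σ.im) {τ : Matrix (Fin k) (Fin k) ℂ} (hτ : τ ∈ Siegel k)
    (h : EvX τ) : EvX (bd σ τ) := by
  intro Ξ ε hε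
  have h2 := h (Ξ.image (fun ξ => Sum.elim (fun i : Fin k => ξ (Sum.inl i.succ))
        (fun i : Fin k => ξ (Sum.inr i.succ)))) ε hε
  have h1 := exO_nz hσ (Ξ.image (fun ξ => Sum.elim (fun _ : Fin 1 => ξ (Sum.inl 0))
        (fun _ : Fin 1 => ξ (Sum.inr 0))))
  filter_upwards [h2, h1, Filter.eventually_ge_atTop 1] with j hj2 hj1 hj
  obtain ⟨X₂, hg, hnz⟩ := hj2
  refine ⟨(exO j ×ˢ X₂).image jn,
    good_join (by positivity) (exO_nonempty hj) (exO_tyB hj) hg, ?_⟩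
  intro x hx ξ hξ
  obtain ⟨q, hq, rfl⟩ := Finset.mem_image.1 hx
  obtain ⟨hq1, hq2⟩ := Finset.mem_product.1 hq
  rw [BdX_thS hσ hτ]
  exact mul_ne_zero
    (hj1 _ hq1 _ (Finset.mem_image_of_mem (fun ξ : Fin (k + 1) ⊕ Fin (k + 1) → ℝ =>
      (Sum.elim (fun _ : Fin 1 => ξ (Sum.inl 0)) (fun _ : Fin 1 => ξ (Sum.inr 0)) :
        Fin 1 ⊕ Fin 1 → ℝ)) hξ))
    (hnz _ hq2 _ (Finset.mem_image_of_mem (fun ξ : Fin (k + 1) ⊕ Fin (k + 1) → ℝ =>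
      (Sum.elim (fun i : Fin k => ξ (Sum.inl i.succ)) (fun i : Fin k => ξ (Sum.inr i.succ)) :
        Fin k ⊕ Fin k → ℝ)) hξ))

end SlopeB
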