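import Pool.Agent.Lib.SlopeB.Defs
import Pool.Agent.Lib.MP_6febbd_ag.ThC
import Pool.Agent.Lib.MP_6febbd_ag.ThF
import Pool.Agent.Lib.MP_6febbd_ag.ESa

/-!
# Block evaluation of the limit

Notation: `g = b + g'`, `L = Fin.castAdd g' : Fin b → Fin g`, `R = Fin.natAdd b : Fin g' → Fin g`;
`τ₂ = τ₀.submatrix R R`, `c₁ e = Fin.append (c e) 0`.
`blkC τ₀ h = exp(πi hᵀ τ₁ h / 4)`, `blkW τ₀ h = τ₁₂ᵀ h / 2`.
PROOF. Let `a = Fin.append (z/2) a₂`, `b = Fin.append β b₂`. Write `n : Fin g → ℤ` as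
`Fin.append n₁ n₂` (`Fin.appendEquiv` or build the equivalence
`(Fin b → ℤ) × (Fin g' → ℤ) ≃ (Fin (b + g') → ℤ)` from `Fin.append`, `Fin.append_left/right`).
(1) `n ∈ Surv` iff `h := 2 n₁ + z` satisfies `|∑ c e i h_i| ≤ 1` for all `e`: `∑_i c₁ e i (n_i + a_i) =
(∑ c e i h_i)/2` (`Fin.sum_univ_add`), and `nd = ‖(∑ c e i z_i)/2‖²` is `0` if `∑ c e i z_i` is even and
`1/4` if it is odd; `(∑ c e i h_i)` has the same parity, so `(∑ c e i h_i)²/4 = nd` iff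
`|∑ c e i h_i| ≤ 1`.
(2) For such `n` `thTerm a b τ₀ n = blkC τ₀ h * cexp(πI ∑ h_i β_i) *
cexp(πI qf τ₂ (n₂ + a₂) + 2πI ∑ (n₂ + a₂)_j (b₂ j + blkW τ₀ h j))`: expand
`qf τ₀ (h/2, n₂ + a₂)` with `Fin.sum_univ_add` and the symmetry of `τ₀`.
(3) The map `n₁ ↦ 2 n₁ + z` is injective and the surviving `n₁` correspond exactly to the `h ∈ O`
(`h ∈ Oz` means `|..| ≤ 1` and `h = z + 2 • w`; here `O` is the Finset of the statement). So
`limTh = ∑' (n₁, n₂) = ∑_{h ∈ O} ∑' n₂` : the function of `n` is supported on the `n₁` in a finite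
set `O₁`; use summability of each inner sum over `n₂` (`summable_thTerm` for `τ₂` twisted by
`exp(2πi n·w)`: as in `ES`; `ES_summable`-type lemma or `thC_gdec`, norm bound
`|exp(2πi n·w)| ≤ exp(2π ∑ |n_j||Im w_j|)`) and `tsum` over `O₁ ×ˢ univ`
(`Summable.tsum_finsetBUnion_disjoint` or: rewrite the function as a finite sum over `h ∈ O` of
functions supported on the fibre `n₁ = n₁(h)`, `Summable.tsum_finsetSum`, and each of these sums over a fibre by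
injectivity of `n₂ ↦ append n₁ n₂`, `Function.Injective.tsum_eq`).
(4) The inner sum is a unit times `Th τ₂ (Lat τ₂ (a₂, b₂) + blkW τ₀ h)`: as in `th_eq_Th`,
`qf τ₂ (n₂ + a₂) = qf τ₂ n₂ + 2 ∑ n₂ (τ₂ a₂) + qf τ₂ a₂` (`τ₂` symmetric).
-/

set_option autoImplicit false

open scoped Matrix.Norms.Elementwise Real Topology
open Complex Matrix MP6feb Filter

noncomputable section

namespace SlopeB

/-- `exp(πi hᵀ τ₁ h / 4)`. -/
def blkC {b g' : ℕ} (τ₀ : Matrix (Fin (b + g')) (Fin (b + g')) ℂ) (h : Fin b → ℤ) : ℂ :=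
  cexp (π * I * (∑ i, ∑ j, (h i : ℂ) * τ₀ (Fin.castAdd g' i) (Fin.castAdd g' j) * (h j : ℂ)) / 4)

/-- `τ₁₂ᵀ h / 2`. -/
def blkW {b g' : ℕ} (τ₀ : Matrix (Fin (b + g')) (Fin (b + g')) ℂ) (h : Fin b → ℤ) :
    Fin g' → ℂ :=
  fun j => (∑ i, (h i : ℂ) * τ₀ (Fin.castAdd g' i) (Fin.natAdd b j)) / 2

/-- The unit in front of the theta function. -/
def blkU {b g' : ℕ} (τ₀ : Matrix (Fin (b + g')) (Fin (b + g')) ℂ) (h : Fin b → ℤ)
    (a₂ b₂ : Fin g' → ℝ) : ℂ :=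
  cexp (π * I * qf (τ₀.submatrix (Fin.natAdd b) (Fin.natAdd b)) (fun j => (a₂ j : ℂ)) +
    2 * π * I * ∑ j, (a₂ j : ℂ) * ((b₂ j : ℂ) + blkW τ₀ h j))

private theorem Blk_qf_add {g : ℕ} {τ : Matrix (Fin g) (Fin g) ℂ} (hs : τ.IsSymm)
    (x y : Fin g → ℂ) :
    qf τ (fun i => x i + y i) = qf τ x + 2 * ∑ i, x i * ∑ j, τ i j * y j + qf τ y := by
  have h1 : ∑ i, ∑ j, y i * τ i j * x j = ∑ i, x i * ∑ j, τ i j * y j := by
    rw [Finset.sum_comm]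
    refine Finset.sum_congr rfl fun i _ => ?_
    rw [Finset.mul_sum]
    refine Finset.sum_congr rfl fun j _ => ?_
    rw [hs.apply i j]
    ring
  have h2 : ∑ i, ∑ j, x i * τ i j * y j = ∑ i, x i * ∑ j, τ i j * y j := by
    refine Finset.sum_congr rfl fun i _ => ?_
    rw [Finset.mul_sum]
    refine Finset.sum_congr rfl fun j _ => ?_
    ring
  have h3 : qf τ (fun i => x i + y i) = qf τ x + ∑ i, ∑ j, x i * τ i j * y j +
      ∑ i, ∑ j, y i * τ i j * x j + qf τ y := by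
    unfold qf
    rw [← Finset.sum_add_distrib, ← Finset.sum_add_distrib, ← Finset.sum_add_distrib]
    refine Finset.sum_congr rfl fun i _ => ?_
    rw [← Finset.sum_add_distrib, ← Finset.sum_add_distrib, ← Finset.sum_add_distrib]
    refine Finset.sum_congr rfl fun j _ => ?_
    ring
  rw [h3, h1, h2]
  ring

private theorem Blk_hom {b : ℕ} {R : Type} [CommRing R] (φ : (Fin b → ℤ) →+ R)
    (h : Fin b → ℤ) : φ h = ∑ i, (h i : R) * φ (Pi.single i 1) := by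
  conv_lhs => rw [← Finset.univ_sum_single h]
  rw [map_sum]
  refine Finset.sum_congr rfl fun i _ => ?_
  have h1 : (Pi.single i (h i) : Fin b → ℤ) = h i • (Pi.single i 1 : Fin b → ℤ) := by
    rw [← Pi.single_smul]
    simp
  rw [h1, map_zsmul, zsmul_eq_mul]

private theorem Blk_half (k m : ℤ) (hkm : ∃ w : ℤ, m = k + 2 * w) :
    ((m : ℝ) / 2) ^ 2 = ((k : ℝ) / 2 - round ((k : ℝ) / 2)) ^ 2 ↔ |m| ≤ 1 := by
  obtain ⟨w, rfl⟩ := hkm
  rcases Int.even_or_odd' k with ⟨l, rfl | rfl⟩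
  · have h1 : (((2 * l : ℤ) : ℝ) / 2) = (l : ℝ) := by
      push_cast
      ring
    rw [h1, round_intCast, sub_self]
    have h2 : (((2 * l + 2 * w : ℤ) : ℝ) / 2) ^ 2 = ((l + w : ℤ) : ℝ) ^ 2 := by
      push_cast
      ring
    rw [h2]
    constructor
    · intro h
      have h3 : ((l + w : ℤ) : ℝ) = 0 := by
        have h4 : ((l + w : ℤ) : ℝ) ^ 2 = 0 := by rw [h]; ring
        exact pow_eq_zero_iff (two_ne_zero) |>.1 h4
      have h4 : l + w = 0 := by exact_mod_cast h3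
      rw [abs_le]
      omega
    · intro h
      rw [abs_le] at h
      have h4 : l + w = 0 := by omega
      rw [h4]
      simp
  · have h1 : round (((2 * l + 1 : ℤ) : ℝ) / 2) = l + 1 := by
      rw [round_eq]
      have h3 : (((2 * l + 1 : ℤ) : ℝ) / 2 + 1 / 2) = ((l + 1 : ℤ) : ℝ) := by
        push_cast
        ring
      rw [h3, Int.floor_intCast]
    rw [h1]
    have h2 : ((((2 * l + 1 : ℤ) : ℝ) / 2) - ((l + 1 : ℤ) : ℝ)) ^ 2 = 1 / 4 := by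
      push_cast
      ring
    rw [h2]
    have h3 : (((2 * l + 1 + 2 * w : ℤ) : ℝ) / 2) ^ 2 =
        (((2 * l + 1 + 2 * w) ^ 2 : ℤ) : ℝ) / 4 := by
      push_cast
      ring
    rw [h3]
    constructor
    · intro h
      have h4 : (((2 * l + 1 + 2 * w) ^ 2 : ℤ) : ℝ) = 1 := by linarith
      have h5 : (2 * l + 1 + 2 * w) ^ 2 = 1 := by exact_mod_cast h4
      exact (sq_le_one_iff_abs_le_one _).1 (le_of_eq h5)
    · intro h
      have h4 : (2 * l + 1 + 2 * w) = 1 ∨ (2 * l + 1 + 2 * w) = -1 := by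
        rw [abs_le] at h
        omega
      have h5 : (2 * l + 1 + 2 * w) ^ 2 = 1 := by
        rcases h4 with h4 | h4 <;> rw [h4] <;> norm_num
      rw [h5]
      norm_num

private theorem Blk_sm {b : ℕ} (z n : Fin b → ℤ) (i : Fin b) :
    (z + 2 • n) i = z i + 2 * n i := by
  rw [Pi.add_apply, Pi.smul_apply]
  simp

/-- the linear functional on the shifted vector -/
private theorem Blk_lin {b g' : ℕ} (φ : (Fin b → ℤ) →+ ℤ) (z n₁ : Fin b → ℤ)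
    (n₂ : Fin g' → ℤ) (a₂ : Fin g' → ℝ) :
    ∑ i, ((Fin.append (fun i => φ (Pi.single i 1)) (fun _ : Fin g' => (0 : ℤ)) i : ℤ) : ℝ) *
      (((Fin.append n₁ n₂ i : ℤ) : ℝ) + Fin.append (fun i => (z i : ℝ) / 2) a₂ i) =
      ((φ (z + 2 • n₁) : ℤ) : ℝ) / 2 := by
  rw [Fin.sum_univ_add]
  simp only [Fin.append_left, Fin.append_right, Int.cast_zero, zero_mul,
    Finset.sum_const_zero, add_zero]
  rw [Blk_hom φ (z + 2 • n₁)]
  push_cast
  rw [Finset.sum_div]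
  refine Finset.sum_congr rfl fun i _ => ?_
  rw [Blk_sm]
  push_cast
  ring

private theorem Blk_lin0 {b g' : ℕ} (φ : (Fin b → ℤ) →+ ℤ) (z : Fin b → ℤ)
    (a₂ : Fin g' → ℝ) :
    ∑ i, ((Fin.append (fun i => φ (Pi.single i 1)) (fun _ : Fin g' => (0 : ℤ)) i : ℤ) : ℝ) *
      (Fin.append (fun i => (z i : ℝ) / 2) a₂ i) = ((φ z : ℤ) : ℝ) / 2 := by
  rw [Fin.sum_univ_add]
  simp only [Fin.append_left, Fin.append_right, Int.cast_zero, zero_mul,
    Finset.sum_const_zero, add_zero]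
  rw [Blk_hom φ z]
  push_cast
  rw [Finset.sum_div]
  refine Finset.sum_congr rfl fun i _ => ?_
  ring

private theorem Blk_surv {b g' : ℕ} {E : Type} [Fintype E] (c : E → (Fin b → ℤ) →+ ℤ)
    (z n₁ : Fin b → ℤ) (n₂ : Fin g' → ℤ) (a₂ : Fin g' → ℝ) (O : Finset (Fin b → ℤ))
    (hO : ∀ h, h ∈ O ↔ h ∈ Oz c z) :
    Fin.append n₁ n₂ ∈ Surv
      (fun e => Fin.append (fun i => c e (Pi.single i 1)) (fun _ : Fin g' => (0 : ℤ)))
      (Fin.append (fun i => (z i : ℝ) / 2) a₂) ↔ z + 2 • n₁ ∈ O := by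
  rw [hO]
  unfold Surv Oz OO nd
  simp only [Set.mem_ofPred_eq]
  have key : ∀ e, ((∑ i, ((Fin.append (fun i => c e (Pi.single i 1))
      (fun _ : Fin g' => (0 : ℤ)) i : ℤ) : ℝ) * (((Fin.append n₁ n₂ i : ℤ) : ℝ) +
        Fin.append (fun i => (z i : ℝ) / 2) a₂ i)) ^ 2 =
      ((∑ i, ((Fin.append (fun i => c e (Pi.single i 1)) (fun _ : Fin g' => (0 : ℤ)) i : ℤ) : ℝ) *
        Fin.append (fun i => (z i : ℝ) / 2) a₂ i) -
        round (∑ i, ((Fin.append (fun i => c e (Pi.single i 1))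
          (fun _ : Fin g' => (0 : ℤ)) i : ℤ) : ℝ) *
        Fin.append (fun i => (z i : ℝ) / 2) a₂ i)) ^ 2) ↔ |c e (z + 2 • n₁)| ≤ 1 := by
    intro e
    rw [Blk_lin, Blk_lin0]
    apply Blk_half
    refine ⟨c e n₁, ?_⟩
    rw [map_add, map_nsmul, nsmul_eq_mul]
    push_cast
    ring
  constructor
  · intro h
    exact ⟨fun e => (key e).1 (h e), n₁, rfl⟩
  · intro h e
    exact (key e).2 (h.1 e)

private theorem Blk_term {b g' : ℕ} {τ₀ : Matrix (Fin (b + g')) (Fin (b + g')) ℂ}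
    (hsym : τ₀.IsSymm) (z n₁ : Fin b → ℤ) (n₂ : Fin g' → ℤ) (β : (Fin b → ℤ) →+ ℝ)
    (a₂ b₂ : Fin g' → ℝ) :
    thTerm (Fin.append (fun i => (z i : ℝ) / 2) a₂)
      (Fin.append (fun i => β (Pi.single i 1)) b₂) τ₀ (Fin.append n₁ n₂) =
    blkC τ₀ (z + 2 • n₁) * cexp (π * I * (β (z + 2 • n₁) : ℂ)) *
      (blkU τ₀ (z + 2 • n₁) a₂ b₂ *
        (thC (τ₀.submatrix (Fin.natAdd b) (Fin.natAdd b)) n₂ *
          cexp (2 * π * I * ∑ j, (n₂ j : ℂ) *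
            (Lat (τ₀.submatrix (Fin.natAdd b) (Fin.natAdd b)) (Sum.elim a₂ b₂) j +
          blkW τ₀ (z + 2 • n₁) j)))) := by
  set h : Fin b → ℤ := z + 2 • n₁ with hh
  have hhi : ∀ i, (h i : ℂ) = z i + 2 * n₁ i := by
    intro i
    rw [hh, Blk_sm]
    push_cast
    ring
  set τ₂ := τ₀.submatrix (Fin.natAdd b) (Fin.natAdd b) with hτ₂
  have hs2 : τ₂.IsSymm := by
    unfold Matrix.IsSymm
    ext i j
    rw [Matrix.transpose_apply, hτ₂, Matrix.submatrix_apply, Matrix.submatrix_apply]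
    exact hsym.apply _ _
  -- the vector
  have hvL : ∀ i : Fin b, ((Fin.append n₁ n₂ (Fin.castAdd g' i) : ℤ) : ℂ) +
      ((Fin.append (fun i => (z i : ℝ) / 2) a₂ (Fin.castAdd g' i) : ℝ) : ℂ) = (h i : ℂ) / 2 := by
    intro i
    rw [Fin.append_left, Fin.append_left, hhi]
    push_cast
    ring
  have hvR : ∀ j : Fin g', ((Fin.append n₁ n₂ (Fin.natAdd b j) : ℤ) : ℂ) +
      ((Fin.append (fun i => (z i : ℝ) / 2) a₂ (Fin.natAdd b j) : ℝ) : ℂ) =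
      (n₂ j : ℂ) + (a₂ j : ℂ) := by
    intro j
    rw [Fin.append_right, Fin.append_right]
  have hq : qf τ₀ (fun i => ((Fin.append n₁ n₂ i : ℤ) : ℂ) +
      ((Fin.append (fun i => (z i : ℝ) / 2) a₂ i : ℝ) : ℂ)) =
      (∑ i, ∑ j, (h i : ℂ) * τ₀ (Fin.castAdd g' i) (Fin.castAdd g' j) * (h j : ℂ)) / 4 +
      2 * ∑ j, ((n₂ j : ℂ) + (a₂ j : ℂ)) * blkW τ₀ h j +
      qf τ₂ (fun j => (n₂ j : ℂ) + (a₂ j : ℂ)) := by
    unfold qf
    rw [Fin.sum_univ_add]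
    simp only [Fin.sum_univ_add, hvL, hvR]
    rw [Finset.sum_add_distrib, Finset.sum_add_distrib]
    have e1 : ∑ i : Fin b, ∑ j : Fin b, (h i : ℂ) / 2 *
        τ₀ (Fin.castAdd g' i) (Fin.castAdd g' j) * ((h j : ℂ) / 2) =
        (∑ i, ∑ j, (h i : ℂ) * τ₀ (Fin.castAdd g' i) (Fin.castAdd g' j) * (h j : ℂ)) / 4 := by
      rw [Finset.sum_div]
      refine Finset.sum_congr rfl fun i _ => ?_
      rw [Finset.sum_div]
      refine Finset.sum_congr rfl fun j _ => ?_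
      ring
    have e2 : ∑ i : Fin b, ∑ j : Fin g', (h i : ℂ) / 2 *
        τ₀ (Fin.castAdd g' i) (Fin.natAdd b j) * ((n₂ j : ℂ) + (a₂ j : ℂ)) =
        ∑ j, ((n₂ j : ℂ) + (a₂ j : ℂ)) * blkW τ₀ h j := by
      rw [Finset.sum_comm]
      refine Finset.sum_congr rfl fun j _ => ?_
      unfold blkW
      rw [Finset.sum_div, Finset.mul_sum]
      refine Finset.sum_congr rfl fun i _ => ?_
      ring
    have e3 : ∑ j : Fin g', ∑ i : Fin b, ((n₂ j : ℂ) + (a₂ j : ℂ)) *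
        τ₀ (Fin.natAdd b j) (Fin.castAdd g' i) * ((h i : ℂ) / 2) =
        ∑ j, ((n₂ j : ℂ) + (a₂ j : ℂ)) * blkW τ₀ h j := by
      refine Finset.sum_congr rfl fun j _ => ?_
      unfold blkW
      rw [Finset.sum_div, Finset.mul_sum]
      refine Finset.sum_congr rfl fun i _ => ?_
      rw [hsym.apply (Fin.castAdd g' i) (Fin.natAdd b j)]
      ring
    rw [e1, e2, e3]
    have e4 : ∑ i : Fin g', ∑ j : Fin g', ((n₂ i : ℂ) + (a₂ i : ℂ)) *
        τ₀ (Fin.natAdd b i) (Fin.natAdd b j) * ((n₂ j : ℂ) + (a₂ j : ℂ)) =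
        ∑ i : Fin g', ∑ j : Fin g', ((n₂ i : ℂ) + (a₂ i : ℂ)) * τ₂ i j *
          ((n₂ j : ℂ) + (a₂ j : ℂ)) := rfl
    rw [e4]
    ring
  have hb : ∑ i, (((Fin.append n₁ n₂ i : ℤ) : ℂ) +
      ((Fin.append (fun i => (z i : ℝ) / 2) a₂ i : ℝ) : ℂ)) *
      ((Fin.append (fun i => β (Pi.single i 1)) b₂ i : ℝ) : ℂ) =
      (β h : ℂ) / 2 + ∑ j, ((n₂ j : ℂ) + (a₂ j : ℂ)) * (b₂ j : ℂ) := by
    rw [Fin.sum_univ_add]
    simp only [hvL, hvR]
    simp only [Fin.append_left, Fin.append_right]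
    congr 1
    rw [Blk_hom β h]
    push_cast
    rw [Finset.sum_div]
    refine Finset.sum_congr rfl fun i _ => ?_
    ring
  have hadd := Blk_qf_add hs2 (fun j => (n₂ j : ℂ)) (fun j => (a₂ j : ℂ))
  unfold thTerm blkC blkU thC
  rw [hq, hb, hadd, ← Complex.exp_add, ← Complex.exp_add, ← Complex.exp_add,
    ← Complex.exp_add]
  congr 1
  have f1 : ∑ j, ((n₂ j : ℂ) + (a₂ j : ℂ)) * blkW τ₀ h j =
      ∑ j, (n₂ j : ℂ) * blkW τ₀ h j + ∑ j, (a₂ j : ℂ) * blkW τ₀ h j := by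
    rw [← Finset.sum_add_distrib]
    exact Finset.sum_congr rfl fun j _ => by ring
  have f2 : ∑ j, ((n₂ j : ℂ) + (a₂ j : ℂ)) * (b₂ j : ℂ) =
      ∑ j, (n₂ j : ℂ) * (b₂ j : ℂ) + ∑ j, (a₂ j : ℂ) * (b₂ j : ℂ) := by
    rw [← Finset.sum_add_distrib]
    exact Finset.sum_congr rfl fun j _ => by ring
  have f3 : ∑ j, (a₂ j : ℂ) * ((b₂ j : ℂ) + blkW τ₀ h j) =
      ∑ j, (a₂ j : ℂ) * (b₂ j : ℂ) + ∑ j, (a₂ j : ℂ) * blkW τ₀ h j := by
    rw [← Finset.sum_add_distrib]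
    exact Finset.sum_congr rfl fun j _ => by ring
  have f4 : ∑ j, (n₂ j : ℂ) * (Lat τ₂ (Sum.elim a₂ b₂) j + blkW τ₀ h j) =
      ∑ i, (n₂ i : ℂ) * ∑ j, τ₂ i j * (a₂ j : ℂ) + ∑ j, (n₂ j : ℂ) * (b₂ j : ℂ) +
        ∑ j, (n₂ j : ℂ) * blkW τ₀ h j := by
    rw [← Finset.sum_add_distrib, ← Finset.sum_add_distrib]
    refine Finset.sum_congr rfl fun j _ => ?_
    unfold MP6feb.Lat
    simp only [Sum.elim_inl, Sum.elim_inr]
    ring
  rw [f1, f2, f3, f4]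
  ring

private theorem Blk_inj {b : ℕ} {z w n : Fin b → ℤ} (h : z + 2 • n = z + 2 • w) : n = w := by
  have h1 := add_left_cancel h
  funext i
  have h2 := congrFun h1 i
  simp only [Pi.smul_apply, nsmul_eq_mul] at h2
  push_cast at h2
  omega

theorem limTh_block {b g' : ℕ} {E : Type} [Fintype E] (c : E → (Fin b → ℤ) →+ ℤ)
    {τ₀ : Matrix (Fin (b + g')) (Fin (b + g')) ℂ} (hsym : τ₀.IsSymm)
    (h2 : τ₀.submatrix (Fin.natAdd b) (Fin.natAdd b) ∈ Siegel g')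
    (z : Fin b → ℤ) (β : (Fin b → ℤ) →+ ℝ) (a₂ b₂ : Fin g' → ℝ) (O : Finset (Fin b → ℤ))
    (hO : ∀ h, h ∈ O ↔ h ∈ Oz c z) :
    limTh (fun e => Fin.append (fun i => c e (Pi.single i 1)) (fun _ : Fin g' => (0 : ℤ)))
      (Fin.append (fun i => (z i : ℝ) / 2) a₂)
      (Fin.append (fun i => β (Pi.single i 1)) b₂) τ₀ =
    ∑ h ∈ O, (blkC τ₀ h * blkU τ₀ h a₂ b₂ *
      Th (τ₀.submatrix (Fin.natAdd b) (Fin.natAdd b))
        (fun j => Lat (τ₀.submatrix (Fin.natAdd b) (Fin.natAdd b)) (Sum.elim a₂ b₂) j +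
          blkW τ₀ h j)) * cexp (π * I * (β h : ℂ)) := by
  classical
  set τ₂ := τ₀.submatrix (Fin.natAdd b) (Fin.natAdd b) with hτ₂
  set G : (Fin b → ℤ) → (Fin g' → ℤ) → ℂ := fun h n₂ =>
    blkC τ₀ h * cexp (π * I * (β h : ℂ)) * (blkU τ₀ h a₂ b₂ *
      (thC τ₂ n₂ * cexp (2 * π * I * ∑ j, (n₂ j : ℂ) *
        (Lat τ₂ (Sum.elim a₂ b₂) j + blkW τ₀ h j)))) with hG
  have hGs : ∀ h, Summable (G h) := by
    intro h
    exact (((ES_summable (thC_gdec h2)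
      (fun j => Lat τ₂ (Sum.elim a₂ b₂) j + blkW τ₀ h j)).mul_left _).mul_left _)
  have hGt : ∀ h, ∑' n₂, G h n₂ = (blkC τ₀ h * blkU τ₀ h a₂ b₂ *
      Th τ₂ (fun j => Lat τ₂ (Sum.elim a₂ b₂) j + blkW τ₀ h j)) *
        cexp (π * I * (β h : ℂ)) := by
    intro h
    rw [hG]
    simp only
    rw [tsum_mul_left, tsum_mul_left]
    unfold Th ES
    ring
  unfold limTh
  rw [← (Fin.appendEquiv b g').tsum_eq]
  set F : (Fin b → ℤ) → (Fin b → ℤ) × (Fin g' → ℤ) → ℂ := fun h p =>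
    if z + 2 • p.1 = h then G h p.2 else 0 with hF
  have hfun : ∀ p : (Fin b → ℤ) × (Fin g' → ℤ),
      (if (Fin.appendEquiv b g') p ∈ Surv
        (fun e => Fin.append (fun i => c e (Pi.single i 1)) (fun _ : Fin g' => (0 : ℤ)))
        (Fin.append (fun i => (z i : ℝ) / 2) a₂) then
      thTerm (Fin.append (fun i => (z i : ℝ) / 2) a₂)
      (Fin.append (fun i => β (Pi.single i 1)) b₂) τ₀ ((Fin.appendEquiv b g') p) else 0) =
      ∑ h ∈ O, F h p := by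
    intro p
    have h3 : (Fin.appendEquiv b g') p = Fin.append p.1 p.2 := rfl
    rw [h3, hF]
    simp only
    rw [Finset.sum_ite_eq, Blk_term hsym]
    by_cases hp : z + 2 • p.1 ∈ O
    · rw [if_pos hp, if_pos ((Blk_surv c z p.1 p.2 a₂ O hO).2 hp)]
    · rw [if_neg hp, if_neg (fun h => hp ((Blk_surv c z p.1 p.2 a₂ O hO).1 h))]
  rw [tsum_congr hfun]
  have hsup : ∀ h ∈ O, ∃ w : Fin b → ℤ, h = z + 2 • w := fun h hh => ((hO h).1 hh).2
  have hι : ∀ w : Fin b → ℤ, Function.Injective (fun n₂ : Fin g' → ℤ => (w, n₂)) := by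
    intro w x y hxy
    exact (Prod.mk.inj hxy).2
  have hFw : ∀ w : Fin b → ℤ, ∀ n₂, F (z + 2 • w) (w, n₂) = G (z + 2 • w) n₂ := by
    intro w n₂
    rw [hF]
    simp
  have hF0 : ∀ w : Fin b → ℤ, ∀ p, p ∉ Set.range (fun n₂ : Fin g' → ℤ => (w, n₂)) →
      F (z + 2 • w) p = 0 := by
    intro w p hp
    rw [hF]
    simp only
    rw [if_neg]
    intro he
    apply hp
    refine ⟨p.2, ?_⟩
    have h3 := Blk_inj he
    simp only
    rw [← h3]
  rw [Summable.tsum_finsetSum]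
  · refine Finset.sum_congr rfl fun h hh => ?_
    obtain ⟨w, rfl⟩ := hsup h hh
    rw [← hGt, ← (hι w).tsum_eq]
    · exact tsum_congr fun n₂ => hFw w n₂
    · intro p hp
      by_contra hp2
      exact hp (hF0 w p hp2)
  · intro h hh
    obtain ⟨w, rfl⟩ := hsup h hh
    rw [← (hι w).summable_iff (hF0 w)]
    have h3 : F (z + 2 • w) ∘ (fun n₂ : Fin g' → ℤ => (w, n₂)) = G (z + 2 • w) := by
      funext n₂
      exact hFw w n₂
    rw [h3]
    exact hGs _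

end SlopeB
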