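import Pool.Agent.Lib.SlopeB.Defs

/-!
# Definitions for the boundary part, second part: laws and graphs
-/

set_option autoImplicit false

open scoped Matrix.Norms.Elementwise Real Topology
open Complex Matrix MP6feb Filter

noncomputable section

namespace SlopeB

/-! ## Splitting off an isolated direction -/

/-- `c` is the orthogonal sum of a functional on `ℤ` and the system `c'`. -/
structure Split {H H' E : Type} [AddCommGroup H] [AddCommGroup H'] (c : E → H →+ ℤ)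
    (c' : E → H' →+ ℤ) (φ : ℤ × H' ≃+ H) : Prop where
  res : ∀ e h', c e (φ (0, h')) = c' e h'
  alt : ∀ e, c e (φ (1, 0)) = 0 ∨ (|c e (φ (1, 0))| = 1 ∧ ∀ h', c' e h' = 0)
  ex : ∃ e, c e (φ (1, 0)) ≠ 0

/-! ## Two-power torsion functionals in coordinates -/

/-- The functional `h ↦ ∑ v_i h_i`. -/
def fn {b : ℕ} (v : Fin b → ℤ) : (Fin b → ℤ) →+ ℤ where
  toFun h := ∑ i, v i * h i
  map_zero' := by simp
  map_add' h h' := by simp [mul_add, Finset.sum_add_distrib]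

/-- The pairing modulo `n`. -/
def pr {b n : ℕ} (y : Fin b → ZMod n) (s : Fin b → ℤ) : ZMod n := ∑ i, y i * ((s i : ℤ) : ZMod n)

/-- The integral lift of the pairing. -/
def prZ {b n : ℕ} (y : Fin b → ZMod n) (s : Fin b → ℤ) : ℤ := ∑ i, ((y i).val : ℤ) * s i

/-- The functional `y / 2^K`. -/
def bet {b : ℕ} (K : ℕ) (y : Fin b → ZMod (2 ^ K)) : (Fin b → ℤ) →+ ℝ where
  toFun h := (prZ y h : ℝ) / 2 ^ K
  map_zero' := by simp [prZ]
  map_add' h h' := by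
    simp only [prZ, Pi.add_apply, mul_add, Finset.sum_add_distrib]
    push_cast
    ring

/-- The character `exp(2πi y(s) / 2^K)`. -/
def ch {b : ℕ} (K : ℕ) (y : Fin b → ZMod (2 ^ K)) (s : Fin b → ℤ) : ℂ :=
  cexp (2 * π * I * ((prZ y s : ℂ) / 2 ^ K))

open Classical in
/-- The functionals which are odd on all common blocks. -/
def Y0 {b : ℕ} {E : Type} (c : E → (Fin b → ℤ) →+ ℤ) (K : ℕ) (z : Fin b → ℤ) :
    Finset (Fin b → ZMod (2 ^ K)) :=
  Finset.univ.filter (fun y => ∀ k ∈ KK c z, ¬ ((2 : ZMod (2 ^ K)) ∣ pr y k))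

open Classical in
/-- The functionals of `Y0` for which no two independent bounded elements are divisible by
`2 ^ r`. -/
def Yz {b : ℕ} {E : Type} (c : E → (Fin b → ℤ) →+ ℤ) (K r : ℕ) (z : Fin b → ℤ) :
    Finset (Fin b → ZMod (2 ^ K)) :=
  (Y0 c K z).filter (fun y => ∀ k ∈ OO c, ∀ k' ∈ OO c, k ≠ 0 → k' ≠ 0 → k' ≠ k → k' ≠ -k →
    ¬ ((2 : ZMod (2 ^ K)) ^ r ∣ pr y k ∧ (2 : ZMod (2 ^ K)) ^ r ∣ pr y k'))

/-- The Fourier coefficient of the uniform law on a finite set `Y` of functionals. -/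
def fz {b : ℕ} (K : ℕ) (Y : Finset (Fin b → ZMod (2 ^ K))) (s : Fin b → ℤ) : ℂ :=
  (Y.card : ℂ)⁻¹ * ∑ y ∈ Y, ch K y s

/-- `2^i` is the order of `s` modulo `2^K`. -/
def OrdE {b : ℕ} (K : ℕ) (s : Fin b → ℤ) (i : ℕ) : Prop :=
  (∀ t, (2 : ℤ) ^ K ∣ 2 ^ i * s t) ∧ ∀ i' < i, ∃ t, ¬ ((2 : ℤ) ^ K ∣ 2 ^ i' * s t)

/-- The index set of the law without isolated directions. -/
abbrev GIx (b r K : ℕ) : Type :=
  (Fin (r + 1) × (Fin b → ZMod (2 ^ K))) ⊕ ((Fin b → ZMod 2) × (Fin b → ZMod (2 ^ K)))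

/-- The lift of a class modulo two. -/
def lf {b : ℕ} (z : Fin b → ZMod 2) : Fin b → ℤ := fun i => ((z i).val : ℤ)

/-- The mass of the class zero. -/
def w0 (b : ℕ) : ℚ := 1 / 3 + 2 / 3 / 2 ^ b

open Classical in
/-- The weights of the law without isolated directions. -/
def gp {b : ℕ} {E : Type} (c : E → (Fin b → ℤ) →+ ℤ) (J r K : ℕ) : GIx b r K → ℚ
  | Sum.inl q => w0 b * (phi J r q.1 - phi J r (q.1 + 1)) / (2 ^ K) ^ b
  | Sum.inr q => if q.1 = 0 then 0 else if q.2 ∈ Yz c K r (lf q.1) then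
      2 / 3 / 2 ^ b / ((Yz c K r (lf q.1)).card : ℚ) else 0

/-- The classes. -/
def gzz {b r K : ℕ} : GIx b r K → Fin b → ℤ
  | Sum.inl _ => 0
  | Sum.inr q => lf q.1

/-- The functionals. -/
def gbb {b r K : ℕ} : GIx b r K → (Fin b → ℤ) →+ ℝ
  | Sum.inl q => bet K (fun i => 2 ^ (q.1 : ℕ) * q.2 i)
  | Sum.inr q => bet K q.2

/-! ## The law on `ℤ` -/

/-- Weights of the law of an isolated cycle. -/
def ip (K : ℕ) : Fin (2 ^ K) ⊕ Fin (2 ^ K) → ℚ
  | Sum.inl _ => 2 / 3 / 2 ^ K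
  | Sum.inr y => if (y : ℕ) % 2 = 1 then 1 / 3 / 2 ^ (K - 1) else 0

/-- Class of the isolated cycle. -/
def iz (K : ℕ) : Fin (2 ^ K) ⊕ Fin (2 ^ K) → ℤ
  | Sum.inl _ => 0
  | Sum.inr _ => 1

/-- The number `y`. -/
def iy (K : ℕ) : Fin (2 ^ K) ⊕ Fin (2 ^ K) → ℕ
  | Sum.inl y => y
  | Sum.inr y => y

/-- The functional `y h / 2^K`. -/
def ib (K : ℕ) (y : Fin (2 ^ K) ⊕ Fin (2 ^ K)) : ℤ →+ ℝ where
  toFun h := (iy K y : ℝ) * (h : ℝ) / 2 ^ K
  map_zero' := by simp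
  map_add' h h' := by push_cast; ring

/-! ## The total law -/

/-- The linear form of the characteristic vector `c` at the point given by the class `z`, the
functional `β` and the characteristic `x`. -/
def lT {b g' k : ℕ} (c : Fin (b + g') ⊕ Fin (b + g') → ℤ) (z : Fin b → ℤ)
    (β : (Fin b → ℤ) →+ ℝ) (x : Fin g' ⊕ Fin g' → ZMod (2 ^ k)) : ℝ :=
  (∑ i, (c (Sum.inl (Fin.castAdd g' i)) : ℝ) * (z i : ℝ)) / 2 +
    β (fun i => c (Sum.inr (Fin.castAdd g' i))) +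
    (∑ j, (c (Sum.inl (Fin.natAdd b j)) : ℝ) * ((x (Sum.inl j)).val : ℝ) +
      ∑ j, (c (Sum.inr (Fin.natAdd b j)) : ℝ) * ((x (Sum.inr j)).val : ℝ)) / 2 ^ k +
    (∑ i, (c (Sum.inl i) : ℝ) * (c (Sum.inr i) : ℝ)) / 2

/-! ## Graphs -/

/-- Integral circulations on a finite directed multigraph. -/
def IsCirc {V E : Type} [Fintype E] [DecidableEq V] (src tgt : E → V) (z : E → ℤ) : Prop :=
  ∀ v, ∑ e, (if tgt e = v then z e else 0) = ∑ e, (if src e = v then z e else 0)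

end SlopeB
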