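import Pool.Agent.Lib.SlopeB.Defs
import Pool.Agent.Lib.MP_6febbd_ag.ThT
import Pool.Agent.Lib.MP_6febbd_ag.ThJ
import Pool.Agent.Lib.MP_6febbd_ag.SpS
import Pool.Agent.Lib.MP_6febbd_ag.SpA
import Pool.Agent.Lib.MP_6febbd_ag.MvT
import Pool.Agent.Lib.MP_6febbd_ag.MvU
import Pool.Agent.Lib.MP_6febbd_ag.MvJ

/-!
# Elementary symplectic matrices act on real characteristics by affine maps

PROOF. Cases of `IsGen`.
(T) `act (sT S) τ = τ + S` (see `MP_6febbd_ag/MvT.lean`; `den = 1`), `th_translate`: the factor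
`exp(..)` is not zero and the new characteristic is `(a, b + S a + diag(S)/2)`: `M = (1 0; S 1)`
(blocks, `Matrix.fromBlocks 1 0 S 1`), `N = (1 0; -S 1)`, `u = (0, diag S)`.
(U) `act (sU P Q) τ = P τ Pᵀ` (see `MP_6febbd_ag/MvU.lean`), `th_unimodular`: the new
characteristic is `(Pᵀ a, Q b)`: `M = (Pᵀ 0; 0 Q)`, `N = (Qᵀ 0; 0 P)`, `u = 0` (`Q * P = 1` from
`P * Q = 1`: `Matrix.mul_eq_one_comm`).
(J) `th_inversion` (`act_mem_siegel (gen_symplectic ..)` for the membership; `τ 0 0 ≠ 0` since its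
imaginary part is positive, or from `act_sJ`/`den_det`; the factor `(-I τ₀₀)^(1/2)` is not zero): the
new characteristic is `(update a 0 (b 0), update b 0 (-(a 0)))`: `M` is the matrix
`(1 - e00, e00; -e00, 1 - e00)` (blocks), `N = (1 - e00, -e00; e00, 1 - e00)`, `u = 0`.
-/

set_option autoImplicit false

open scoped Matrix.Norms.Elementwise Real Topology
open Complex Matrix MP6feb Filter

noncomputable section

namespace SlopeB

private theorem genA_sT {g : ℕ} (S : Matrix (Fin g) (Fin g) ℤ) (τ : Matrix (Fin g) (Fin g) ℂ) :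
    act (sT S) τ = τ + S.map (Int.cast : ℤ → ℂ) := by
  have h1 : den (sT S) τ = 1 := by
    simp [den, sT, Matrix.toBlocks_fromBlocks₂₁, Matrix.toBlocks_fromBlocks₂₂,
      Matrix.map_one, Matrix.map_zero]
  have h2 : num (sT S) τ = τ + S.map (Int.cast : ℤ → ℂ) := by
    simp [num, sT, Matrix.toBlocks_fromBlocks₁₁, Matrix.toBlocks_fromBlocks₁₂,
      Matrix.map_one]
  rw [act, h1, h2]
  simp

private theorem genA_sU {g : ℕ} (P Q : Matrix (Fin g) (Fin g) ℤ) (h : P * Q = 1)
    (τ : Matrix (Fin g) (Fin g) ℂ) :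
    act (sU P Q) τ = P.map (Int.cast : ℤ → ℂ) * τ * (P.map (Int.cast : ℤ → ℂ))ᵀ := by
  have hc : P.map (Int.cast : ℤ → ℂ) * Q.map (Int.cast : ℤ → ℂ) = 1 := by
    have h1 : (P * Q).map (Int.cast : ℤ → ℂ) = P.map (Int.cast : ℤ → ℂ) *
        Q.map (Int.cast : ℤ → ℂ) := Matrix.map_mul (f := Int.castRingHom ℂ)
    rw [← h1, h]
    exact Matrix.map_one _ Int.cast_zero Int.cast_one
  unfold act num den sU
  rw [Matrix.toBlocks_fromBlocks₁₁, Matrix.toBlocks_fromBlocks₁₂, Matrix.toBlocks_fromBlocks₂₁,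
    Matrix.toBlocks_fromBlocks₂₂]
  have h0 : (0 : Matrix (Fin g) (Fin g) ℤ).map (Int.cast : ℤ → ℂ) = 0 :=
    Matrix.map_zero _ Int.cast_zero
  rw [h0, add_zero, zero_mul, zero_add]
  congr 1
  refine Matrix.inv_eq_left_inv ?_
  have h2 : (Qᵀ).map (Int.cast : ℤ → ℂ) = (Q.map (Int.cast : ℤ → ℂ))ᵀ := rfl
  rw [h2, ← Matrix.transpose_mul]
  have h3 : Q.map (Int.cast : ℤ → ℂ) * P.map (Int.cast : ℤ → ℂ) = 1 :=
    mul_eq_one_comm.1 hc
  rw [h3, Matrix.transpose_one]

private theorem genA_one {g : ℕ} (w : Fin g → ℝ) (i : Fin g) :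
    ∑ j, (((1 : Matrix (Fin g) (Fin g) ℤ) i j : ℤ) : ℝ) * w j = w i := by
  rw [Finset.sum_eq_single i]
  · simp
  · intro j _ hj
    rw [Matrix.one_apply_ne hj.symm]
    simp
  · intro h
    exact absurd (Finset.mem_univ _) h

private theorem genA_e0 {k : ℕ} (w : Fin (k + 1) → ℝ) (i : Fin (k + 1)) :
    ∑ j, ((e00 k i j : ℤ) : ℝ) * w j = if i = 0 then w 0 else 0 := by
  unfold e00
  rw [Finset.sum_eq_single 0]
  · by_cases hi : i = 0
    · subst hi
      simp
    · rw [Matrix.single_apply_of_row_ne (Ne.symm hi), if_neg hi]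
      simp
  · intro j _ hj
    have h0 : (Matrix.single 0 0 1 : Matrix (Fin (k + 1)) (Fin (k + 1)) ℤ) i j = 0 := by
      rw [Matrix.single_apply, if_neg]
      exact fun h => hj h.2.symm
    rw [h0]
    simp
  · intro h
    exact absurd (Finset.mem_univ _) h

private theorem genA_ee (k : ℕ) : e00 k * e00 k = e00 k := by
  unfold e00
  rw [Matrix.single_mul_single_same, one_mul]

theorem gen_aff {g : ℕ} {s : Matrix (Fin g ⊕ Fin g) (Fin g ⊕ Fin g) ℤ} (hs : IsGen g s) :
    ∃ (M N : Matrix (Fin g ⊕ Fin g) (Fin g ⊕ Fin g) ℤ) (u : Fin g ⊕ Fin g → ℤ),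
      M * N = 1 ∧ N * M = 1 ∧ ∀ τ ∈ Siegel g, ∀ v : Fin g ⊕ Fin g → ℝ,
        (th (fun i => v (Sum.inl i)) (fun i => v (Sum.inr i)) (act s τ) = 0 ↔
          th (fun i => ∑ j, (M (Sum.inl i) j : ℝ) * v j + (u (Sum.inl i) : ℝ) / 2)
            (fun i => ∑ j, (M (Sum.inr i) j : ℝ) * v j + (u (Sum.inr i) : ℝ) / 2) τ = 0) := by
  cases hs with
  | T S hS =>
    refine ⟨Matrix.fromBlocks 1 0 S 1, Matrix.fromBlocks 1 0 (-S) 1,
      Sum.elim 0 (fun i => S i i), ?_, ?_, fun τ _ v => ?_⟩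
    · rw [Matrix.fromBlocks_multiply, ← Matrix.fromBlocks_one]
      congr 1 <;> simp
    · rw [Matrix.fromBlocks_multiply, ← Matrix.fromBlocks_one]
      congr 1 <;> simp
    · rw [genA_sT, th_translate _ _ _ S hS, mul_eq_zero, or_iff_right (Complex.exp_ne_zero _)]
      have e1 : (fun i => ∑ j, ((Matrix.fromBlocks 1 0 S 1 :
          Matrix (Fin g ⊕ Fin g) (Fin g ⊕ Fin g) ℤ) (Sum.inl i) j : ℝ) * v j +
          (((Sum.elim 0 (fun i => S i i) : Fin g ⊕ Fin g → ℤ) (Sum.inl i) : ℤ) : ℝ) / 2) =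
          fun i => v (Sum.inl i) := by
        funext i
        rw [Fintype.sum_sum_type]
        simp only [Matrix.fromBlocks_apply₁₁, Matrix.fromBlocks_apply₁₂, Matrix.zero_apply,
          Sum.elim_inl, Pi.zero_apply, Int.cast_zero, zero_mul, Finset.sum_const_zero, add_zero,
          zero_div]
        exact genA_one (fun j => v (Sum.inl j)) i
      have e2 : (fun i => ∑ j, ((Matrix.fromBlocks 1 0 S 1 :
          Matrix (Fin g ⊕ Fin g) (Fin g ⊕ Fin g) ℤ) (Sum.inr i) j : ℝ) * v j +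
          (((Sum.elim 0 (fun i => S i i) : Fin g ⊕ Fin g → ℤ) (Sum.inr i) : ℤ) : ℝ) / 2) =
          fun i => v (Sum.inr i) + ∑ j, (S i j : ℝ) * v (Sum.inl j) + (S i i : ℝ) / 2 := by
        funext i
        rw [Fintype.sum_sum_type]
        simp only [Matrix.fromBlocks_apply₂₁, Matrix.fromBlocks_apply₂₂, Sum.elim_inr]
        rw [genA_one (fun j => v (Sum.inr j)) i]
        ring
      rw [e1, e2]
  | U P Q h =>
    have h' : Q * P = 1 := mul_eq_one_comm.1 h
    refine ⟨Matrix.fromBlocks Pᵀ 0 0 Q, Matrix.fromBlocks Qᵀ 0 0 P, 0, ?_, ?_, fun τ _ v => ?_⟩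
    · rw [Matrix.fromBlocks_multiply, ← Matrix.fromBlocks_one]
      congr 1
      · rw [← Matrix.transpose_mul, h', Matrix.transpose_one]
        simp
      · simp
      · simp
      · rw [h']
        simp
    · rw [Matrix.fromBlocks_multiply, ← Matrix.fromBlocks_one]
      congr 1
      · rw [← Matrix.transpose_mul, h, Matrix.transpose_one]
        simp
      · simp
      · simp
      · rw [h]
        simp
    · rw [genA_sU P Q h, th_unimodular _ _ τ P Q h]
      have e1 : (fun i => ∑ j, ((Matrix.fromBlocks Pᵀ 0 0 Q :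
          Matrix (Fin g ⊕ Fin g) (Fin g ⊕ Fin g) ℤ) (Sum.inl i) j : ℝ) * v j +
          (((0 : Fin g ⊕ Fin g → ℤ) (Sum.inl i) : ℤ) : ℝ) / 2) =
          fun i => ∑ j, (P j i : ℝ) * v (Sum.inl j) := by
        funext i
        rw [Fintype.sum_sum_type]
        simp only [Matrix.fromBlocks_apply₁₁, Matrix.fromBlocks_apply₁₂, Matrix.zero_apply,
          Matrix.transpose_apply, Pi.zero_apply, Int.cast_zero, zero_mul, Finset.sum_const_zero,
          add_zero, zero_div]
      have e2 : (fun i => ∑ j, ((Matrix.fromBlocks Pᵀ 0 0 Q :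
          Matrix (Fin g ⊕ Fin g) (Fin g ⊕ Fin g) ℤ) (Sum.inr i) j : ℝ) * v j +
          (((0 : Fin g ⊕ Fin g → ℤ) (Sum.inr i) : ℤ) : ℝ) / 2) =
          fun i => ∑ j, (Q i j : ℝ) * v (Sum.inr j) := by
        funext i
        rw [Fintype.sum_sum_type]
        simp only [Matrix.fromBlocks_apply₂₁, Matrix.fromBlocks_apply₂₂, Matrix.zero_apply,
          Pi.zero_apply, Int.cast_zero, zero_mul, Finset.sum_const_zero,
          add_zero, zero_add, zero_div]
      rw [e1, e2]
  | J k =>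
    refine ⟨Matrix.fromBlocks (1 - e00 k) (e00 k) (-e00 k) (1 - e00 k),
      Matrix.fromBlocks (1 - e00 k) (-e00 k) (e00 k) (1 - e00 k), 0, ?_, ?_, fun τ hτ v => ?_⟩
    · rw [Matrix.fromBlocks_multiply, ← Matrix.fromBlocks_one]
      have h := genA_ee k
      congr 1
      · linear_combination (norm := noncomm_ring) 2 * h
      · noncomm_ring
      · noncomm_ring
      · linear_combination (norm := noncomm_ring) 2 * h
    · rw [Matrix.fromBlocks_multiply, ← Matrix.fromBlocks_one]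
      have h := genA_ee k
      congr 1
      · linear_combination (norm := noncomm_ring) 2 * h
      · noncomm_ring
      · noncomm_ring
      · linear_combination (norm := noncomm_ring) 2 * h
    · have hs := act_mem_siegel (gen_symplectic (IsGen.J k)) hτ
      have h00 : τ 0 0 ≠ 0 := by
        intro h0
        have hpos := hτ.2.diag_pos (i := (0 : Fin (k + 1)))
        simp [h0] at hpos
      rw [th_inversion _ _ hτ hs.1, mul_eq_zero]
      have hne : (-I * τ 0 0) ^ (1 / 2 : ℂ) *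
          cexp (2 * π * I * ((v (Sum.inl 0) : ℝ) : ℂ) * ((v (Sum.inr 0) : ℝ) : ℂ)) ≠ 0 := by
        refine mul_ne_zero ?_ (Complex.exp_ne_zero _)
        intro h
        rw [Complex.cpow_eq_zero_iff] at h
        exact mul_ne_zero (neg_ne_zero.2 I_ne_zero) h00 h.1
      rw [or_iff_right hne]
      have e1 : (fun i => ∑ j, ((Matrix.fromBlocks (1 - e00 k) (e00 k) (-e00 k) (1 - e00 k) :
          Matrix (Fin (k + 1) ⊕ Fin (k + 1)) (Fin (k + 1) ⊕ Fin (k + 1)) ℤ) (Sum.inl i) j : ℝ) *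
          v j + (((0 : Fin (k + 1) ⊕ Fin (k + 1) → ℤ) (Sum.inl i) : ℤ) : ℝ) / 2) =
          Function.update (fun i => v (Sum.inl i)) 0 (v (Sum.inr 0)) := by
        funext i
        rw [Fintype.sum_sum_type]
        simp only [Matrix.fromBlocks_apply₁₁, Matrix.fromBlocks_apply₁₂, Matrix.sub_apply,
          Pi.zero_apply, Int.cast_zero, Int.cast_sub, sub_mul, Finset.sum_sub_distrib,
          add_zero, zero_div]
        rw [genA_one (fun j => v (Sum.inl j)) i, genA_e0 (fun j => v (Sum.inl j)) i,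
          genA_e0 (fun j => v (Sum.inr j)) i]
        by_cases hi : i = 0
        · subst hi
          rw [if_pos rfl, if_pos rfl, Function.update_self]
          ring
        · rw [if_neg hi, if_neg hi, Function.update_of_ne hi]
          ring
      have e2 : (fun i => ∑ j, ((Matrix.fromBlocks (1 - e00 k) (e00 k) (-e00 k) (1 - e00 k) :
          Matrix (Fin (k + 1) ⊕ Fin (k + 1)) (Fin (k + 1) ⊕ Fin (k + 1)) ℤ) (Sum.inr i) j : ℝ) *
          v j + (((0 : Fin (k + 1) ⊕ Fin (k + 1) → ℤ) (Sum.inr i) : ℤ) : ℝ) / 2) =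
          Function.update (fun i => v (Sum.inr i)) 0 (-(v (Sum.inl 0))) := by
        funext i
        rw [Fintype.sum_sum_type]
        simp only [Matrix.fromBlocks_apply₂₁, Matrix.fromBlocks_apply₂₂, Matrix.sub_apply,
          Matrix.neg_apply, Int.cast_neg, neg_mul, Finset.sum_neg_distrib,
          Pi.zero_apply, Int.cast_zero, Int.cast_sub, sub_mul, Finset.sum_sub_distrib,
          add_zero, zero_div]
        rw [genA_one (fun j => v (Sum.inr j)) i, genA_e0 (fun j => v (Sum.inl j)) i,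
          genA_e0 (fun j => v (Sum.inr j)) i]
        by_cases hi : i = 0
        · subst hi
          rw [if_pos rfl, if_pos rfl, Function.update_self]
          ring
        · rw [if_neg hi, if_neg hi, Function.update_of_ne hi]
          ring
      rw [e1, e2]

end SlopeB
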