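import Pool.Agent.Lib.SlopeB.Defs
import Pool.Agent.Lib.SlopeB.AffX
import Pool.Agent.Lib.SlopeB.GenA
import Pool.Agent.Lib.MP_6febbd_ag.ThT
import Pool.Agent.Lib.MP_6febbd_ag.SpS
import Pool.Agent.Lib.MP_6febbd_ag.SpA
import Pool.Agent.Lib.MP_6febbd_ag.SpG

/-!
# Invariance of `EvX`

The image of a good set under the inverse of the affine map of `gen_aff` is good, and the theta
constants with real characteristic are carried to each other up to integral translations.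
-/

set_option autoImplicit false

open scoped Matrix.Norms.Elementwise Real Topology
open Complex Matrix MP6feb Filter

noncomputable section

namespace SlopeB

private lemma evG_inv {ι R : Type} [Fintype ι] [DecidableEq ι] [CommRing R] (M N : Matrix ι ι ℤ)
    (hMN : M * N = 1) (f : ι → R) (i : ι) :
    ∑ j, ((M i j : ℤ) : R) * ∑ k, ((N j k : ℤ) : R) * f k = f i := by
  have h : ∀ k, (∑ j, ((M i j : ℤ) : R) * ((N j k : ℤ) : R)) = if i = k then 1 else 0 := by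
    intro k
    have h1 := congrFun (congrFun hMN i) k
    rw [Matrix.mul_apply, Matrix.one_apply] at h1
    have h2 := congrArg (fun z : ℤ => (z : R)) h1
    push_cast at h2
    rw [h2]
  calc ∑ j, ((M i j : ℤ) : R) * ∑ k, ((N j k : ℤ) : R) * f k
      = ∑ j, ∑ k, ((M i j : ℤ) : R) * ((N j k : ℤ) : R) * f k := by
        refine Finset.sum_congr rfl fun j _ => ?_
        rw [Finset.mul_sum]
        exact Finset.sum_congr rfl fun k _ => by ring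
    _ = ∑ k, ∑ j, ((M i j : ℤ) : R) * ((N j k : ℤ) : R) * f k := Finset.sum_comm
    _ = ∑ k, (if i = k then 1 else 0) * f k := by
        refine Finset.sum_congr rfl fun k _ => ?_
        rw [← Finset.sum_mul, h]
    _ = f i := by simp

private lemma evG_aff {ι R : Type} [Fintype ι] [DecidableEq ι] [CommRing R] (M N : Matrix ι ι ℤ)
    (hMN : M * N = 1) (c : R) (u : ι → ℤ) (f : ι → R) (i : ι) :
    ∑ j, ((M i j : ℤ) : R) * (∑ k, ((N j k : ℤ) : R) * f k +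
      c * (((-∑ k, N j k * u k : ℤ)) : R)) + c * ((u i : ℤ) : R) = f i := by
  have h1 := evG_inv M N hMN f i
  have h2 := evG_inv M N hMN (fun k => ((u k : ℤ) : R)) i
  have h3 : ∑ j, ((M i j : ℤ) : R) * (∑ k, ((N j k : ℤ) : R) * f k +
      c * (((-∑ k, N j k * u k : ℤ)) : R)) =
      (∑ j, ((M i j : ℤ) : R) * ∑ k, ((N j k : ℤ) : R) * f k) -
        c * ∑ j, ((M i j : ℤ) : R) * ∑ k, ((N j k : ℤ) : R) * ((u k : ℤ) : R) := by
    rw [Finset.mul_sum, ← Finset.sum_sub_distrib]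
    refine Finset.sum_congr rfl fun j _ => ?_
    push_cast
    ring
  rw [h3, h1, h2]
  ring

private lemma evG_real {g m : ℕ} (hm : 2 ≤ m)
    (M N : Matrix (Fin g ⊕ Fin g) (Fin g ⊕ Fin g) ℤ) (hMN : M * N = 1)
    (u : Fin g ⊕ Fin g → ℤ) (y : Fin g ⊕ Fin g → ZMod (2 ^ m)) (ξ : Fin g ⊕ Fin g → ℝ) :
    ∃ p : Fin g ⊕ Fin g → ℤ, ∀ i,
      (∑ j, (M i j : ℝ) * ((((∑ k, ((N j k : ℤ) : ZMod (2 ^ m)) * y k +
        2 ^ (m - 1) * (((-∑ k, N j k * u k : ℤ)) : ZMod (2 ^ m))).val : ℕ) : ℝ) /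
          ((2 ^ m : ℕ) : ℝ) + ξ j) + (u i : ℝ) / 2) =
        ((y i).val : ℝ) / ((2 ^ m : ℕ) : ℝ) + ∑ j, (M i j : ℝ) * ξ j + (p i : ℝ) := by
  set x : Fin g ⊕ Fin g → ZMod (2 ^ m) := fun j => ∑ k, ((N j k : ℤ) : ZMod (2 ^ m)) * y k +
        2 ^ (m - 1) * (((-∑ k, N j k * u k : ℤ)) : ZMod (2 ^ m)) with hx
  have hz : ∀ i, ∃ p : ℤ, ∑ j, M i j * ((x j).val : ℤ) + 2 ^ (m - 1) * u i - ((y i).val : ℤ) =
      ((2 ^ m : ℕ) : ℤ) * p := by
    intro i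
    have h1 : ((2 ^ m : ℕ) : ℤ) ∣ ∑ j, M i j * ((x j).val : ℤ) + 2 ^ (m - 1) * u i -
        ((y i).val : ℤ) := by
      rw [← ZMod.intCast_zmod_eq_zero_iff_dvd]
      have h2 := evG_aff M N hMN ((2 : ZMod (2 ^ m)) ^ (m - 1)) u y i
      push_cast
      simp only [ZMod.natCast_val, ZMod.cast_id', id_eq]
      rw [sub_eq_zero]
      simpa [hx] using h2
    exact h1
  choose p hp using hz
  refine ⟨p, fun i => ?_⟩
  have h1 := hp i
  have h2 : (∑ j, (M i j : ℝ) * ((x j).val : ℝ)) + 2 ^ (m - 1) * (u i : ℝ) - ((y i).val : ℝ) =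
      ((2 ^ m : ℕ) : ℝ) * (p i : ℝ) := by
    have h3 := congrArg (fun z : ℤ => (z : ℝ)) h1
    push_cast at h3 ⊢
    exact h3
  have hn : ((2 ^ m : ℕ) : ℝ) ≠ 0 := by positivity
  have h4 : ((2 ^ m : ℕ) : ℝ) = 2 * 2 ^ (m - 1) := by
    push_cast
    rw [← pow_succ']
    congr 1
    omega
  have h5 : (∑ j, (M i j : ℝ) * (((x j).val : ℝ) / ((2 ^ m : ℕ) : ℝ) + ξ j)) =
      (∑ j, (M i j : ℝ) * ((x j).val : ℝ)) / ((2 ^ m : ℕ) : ℝ) + ∑ j, (M i j : ℝ) * ξ j := by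
    rw [Finset.sum_div, ← Finset.sum_add_distrib]
    refine Finset.sum_congr rfl fun j _ => ?_
    ring
  have h6 : (∑ j, (M i j : ℝ) * ((x j).val : ℝ)) / ((2 ^ m : ℕ) : ℝ) + (u i : ℝ) / 2 =
      ((y i).val : ℝ) / ((2 ^ m : ℕ) : ℝ) + (p i : ℝ) := by
    have h7 : (∑ j, (M i j : ℝ) * ((x j).val : ℝ)) =
        ((2 ^ m : ℕ) : ℝ) * (p i : ℝ) - 2 ^ (m - 1) * (u i : ℝ) + ((y i).val : ℝ) := by
      linarith
    have h8 : (2 : ℝ) ^ (m - 1) = ((2 ^ m : ℕ) : ℝ) / 2 := by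
      rw [h4]
      ring
    rw [h7, h8]
    field_simp
    ring
  have h9 : (∑ j, (M i j : ℝ) * (((x j).val : ℝ) / ((2 ^ m : ℕ) : ℝ) + ξ j) + (u i : ℝ) / 2) =
        ((y i).val : ℝ) / ((2 ^ m : ℕ) : ℝ) + ∑ j, (M i j : ℝ) * ξ j + (p i : ℝ) := by
    rw [h5]
    linarith
  exact h9

theorem evX_gen {g : ℕ} {s : Matrix (Fin g ⊕ Fin g) (Fin g ⊕ Fin g) ℤ} (hs : IsGen g s)
    {τ : Matrix (Fin g) (Fin g) ℂ} (hτ : τ ∈ Siegel g) (h : EvX τ) : EvX (act s τ) := by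
  classical
  obtain ⟨M, N, u, hMN, hNM, haff⟩ := gen_aff hs
  intro Ξ ε hε
  have h' := h (Ξ.image (fun ξ i => ∑ j, (M i j : ℝ) * ξ j)) ε hε
  filter_upwards [h', eventually_ge_atTop 2] with m hX hm
  obtain ⟨X', hgood, hnv⟩ := hX
  refine ⟨X'.image (fun x i => ∑ j, ((N i j : ℤ) : ZMod (2 ^ m)) * x j +
      2 ^ (m - 1) * (((fun i => -∑ k, N i k * u k) i : ℤ) : ZMod (2 ^ m))),
    ?_, ?_⟩
  · have := goodX_aff hm N M hNM hMN (fun i => -∑ k, N i k * u k) hgood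
    exact this
  · intro x hx ξ hξ
    obtain ⟨y, hy, rfl⟩ := Finset.mem_image.mp hx
    obtain ⟨p, hp⟩ := evG_real hm M N hMN u y ξ
    have h1 := hnv y hy (fun i => ∑ j, (M i j : ℝ) * ξ j) (Finset.mem_image_of_mem _ hξ)
    intro h0
    apply h1
    have h2 := (haff τ hτ (fun i => (((∑ j, ((N i j : ℤ) : ZMod (2 ^ m)) * y j +
      2 ^ (m - 1) * (((-∑ k, N i k * u k : ℤ)) : ZMod (2 ^ m))).val : ℕ) : ℝ) /
        ((2 ^ m : ℕ) : ℝ) + ξ i)).mp h0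
    have h3 : th (fun i => (((y (Sum.inl i)).val : ℝ) / ((2 ^ m : ℕ) : ℝ) +
        ∑ j, (M (Sum.inl i) j : ℝ) * ξ j) + ((p (Sum.inl i) : ℤ) : ℝ))
        (fun i => (((y (Sum.inr i)).val : ℝ) / ((2 ^ m : ℕ) : ℝ) +
        ∑ j, (M (Sum.inr i) j : ℝ) * ξ j) + ((p (Sum.inr i) : ℤ) : ℝ)) τ = 0 := by
      rw [← h2]
      congr 1
      · funext i
        exact (hp (Sum.inl i)).symm
      · funext i
        exact (hp (Sum.inr i)).symm
    rw [th_period] at h3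
    rcases mul_eq_zero.mp h3 with h4 | h4
    · exact absurd h4 (Complex.exp_ne_zero _)
    · exact h4

theorem evX_gam {g : ℕ} {γ : Matrix (Fin g ⊕ Fin g) (Fin g ⊕ Fin g) ℤ} (hγ : γ ∈ Gam g)
    {τ : Matrix (Fin g) (Fin g) ℂ} (hτ : τ ∈ Siegel g) (h : EvX τ) : EvX (act γ τ) := by
  induction hγ using Submonoid.closure_induction generalizing τ with
  | mem s hs => exact evX_gen hs hτ h
  | one => rw [act_one]; exact h
  | mul γ₂ γ h₂ h₁ ih₂ ih₁ =>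
    have hs := act_mem_siegel (gam_le h₁) hτ
    rw [act_mul _ _ _ hs.2]
    exact ih₂ hs.1 (ih₁ hτ h)

theorem evX_of_act {g : ℕ} {γ : Matrix (Fin g ⊕ Fin g) (Fin g ⊕ Fin g) ℤ} (hγ : γ ∈ Gam g)
    {τ : Matrix (Fin g) (Fin g) ℂ} (hτ : τ ∈ Siegel g) (h : EvX (act γ τ)) : EvX τ := by
  obtain ⟨δ, hδ, h1, -⟩ := gam_inv hγ
  have hs := act_mem_siegel (gam_le hγ) hτ
  have h2 := evX_gam hδ hs.1 h
  rw [← act_mul _ _ _ hs.2, h1, act_one] at h2
  exact h2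

end SlopeB
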