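import Pool.Agent.Lib.SlopeB.Defs

/-!
# Twisting the coefficients of an exponential sum (translation of the variable)

PROOF of `gdec_twist`. Let `‖a m‖ ≤ C exp(-c ∑ m_i²)`, `c > 0` (`C ≥ 0` because `‖a 0‖ ≥ 0`).
`‖exp(2πi ∑ m_i w_i)‖ = exp(-2π ∑ m_i Im w_i)` and, for every `i`,
`-2π m_i Im w_i ≤ (c/2) m_i² + (2π²/c) (Im w_i)²` (AM-GM: `2xy ≤ x² + y²`). So the product is at
most `C exp((2π²/c) ∑ (Im w_i)²) exp(-(c/2) ∑ m_i²)`.

PROOF of `ES_twist`. Termwise: `∑ m_i w_i + ∑ m_i z_i = ∑ m_i (z_i + w_i)`, `Complex.exp_add`.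
-/

set_option autoImplicit false

open scoped Matrix.Norms.Elementwise Real Topology
open Complex Matrix MP6feb Filter

noncomputable section

namespace SlopeB

private lemma Tws_norm {ι : Type} [Fintype ι] (m : ι → ℤ) (w : ι → ℂ) :
    ‖cexp (2 * π * I * ∑ i, (m i : ℂ) * w i)‖ =
      Real.exp (∑ i, (-(2 * π * ((m i : ℝ) * (w i).im)))) := by
  rw [Complex.norm_exp]
  congr 1
  rw [Finset.mul_sum, Complex.re_sum]
  refine Finset.sum_congr rfl fun i _ => ?_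
  have h : (2 * π * I * ((m i : ℂ) * w i)) =
      (((2 * π * (m i : ℝ) : ℝ)) : ℂ) * (I * w i) := by
    push_cast
    ring
  rw [h, Complex.re_ofReal_mul]
  simp only [Complex.mul_re, Complex.I_re, Complex.I_im, zero_mul, one_mul, zero_sub]
  ring

theorem gdec_twist {ι : Type} [Fintype ι] {a : (ι → ℤ) → ℂ} (ha : GDec a) (w : ι → ℂ) :
    GDec (fun m => a m * cexp (2 * π * I * ∑ i, (m i : ℂ) * w i)) := by
  obtain ⟨C, c, hc, h⟩ := ha
  have hC : 0 ≤ C := by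
    have h0 := h 0
    simp only [Pi.zero_apply, Int.cast_zero] at h0
    have h1 : Real.exp (-(c * ∑ _i : ι, (0 : ℝ) ^ 2)) = 1 := by simp
    rw [h1, mul_one] at h0
    exact (norm_nonneg _).trans h0
  refine ⟨C * Real.exp ((2 * π ^ 2 / c) * ∑ i, (w i).im ^ 2), c / 2, by positivity, ?_⟩
  intro m
  rw [norm_mul, Tws_norm]
  have key : Real.exp (∑ i, (-(2 * π * ((m i : ℝ) * (w i).im)))) ≤
      Real.exp ((c / 2) * ∑ i, (m i : ℝ) ^ 2 + (2 * π ^ 2 / c) * ∑ i, (w i).im ^ 2) := by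
    apply Real.exp_le_exp.2
    rw [Finset.mul_sum, Finset.mul_sum, ← Finset.sum_add_distrib]
    apply Finset.sum_le_sum
    intro i _
    have e1 : 0 ≤ (c * (m i : ℝ) + 2 * π * (w i).im) ^ 2 / (2 * c) := by positivity
    have e2 : (c * (m i : ℝ) + 2 * π * (w i).im) ^ 2 / (2 * c) =
        c / 2 * (m i : ℝ) ^ 2 + 2 * π ^ 2 / c * (w i).im ^ 2 +
          2 * π * ((m i : ℝ) * (w i).im) := by
      field_simp
      ring
    linarith
  calc ‖a m‖ * Real.exp (∑ i, (-(2 * π * ((m i : ℝ) * (w i).im))))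
      ≤ (C * Real.exp (-(c * ∑ i, (m i : ℝ) ^ 2))) *
        Real.exp ((c / 2) * ∑ i, (m i : ℝ) ^ 2 + (2 * π ^ 2 / c) * ∑ i, (w i).im ^ 2) :=
        mul_le_mul (h m) key (Real.exp_pos _).le (mul_nonneg hC (Real.exp_pos _).le)
    _ = C * Real.exp ((2 * π ^ 2 / c) * ∑ i, (w i).im ^ 2) *
        Real.exp (-(c / 2 * ∑ i, (m i : ℝ) ^ 2)) := by
        rw [mul_assoc, ← Real.exp_add, mul_assoc, ← Real.exp_add]
        congr 2
        ring

theorem ES_twist {ι : Type} [Fintype ι] (a : (ι → ℤ) → ℂ) (w z : ι → ℂ) :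
    ES (fun m => a m * cexp (2 * π * I * ∑ i, (m i : ℂ) * w i)) z = ES a (fun i => z i + w i) := by
  unfold ES
  refine tsum_congr fun m => ?_
  rw [mul_assoc, ← Complex.exp_add]
  congr 2
  rw [← mul_add, ← Finset.sum_add_distrib]
  congr 1
  refine Finset.sum_congr rfl fun i _ => ?_
  ring

end SlopeB
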