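import Pool.Agent.Lib.SlopeB.Defs
import Pool.Agent.Lib.SlopeB.Tws
import Pool.Agent.Lib.MP_6febbd_ag.Cnt
import Pool.Agent.Lib.MP_6febbd_ag.LatE
import Pool.Agent.Lib.MP_6febbd_ag.ThF
import Pool.Agent.Lib.MP_6febbd_ag.ThN

/-!
# Few zeros of translated theta constants

PROOF of `few_zeros` (compare `zeros_le`, `evGood_of_count` in `MP_6febbd_ag/CntG.lean`, copy and
adapt them). Let `a = thC τ` (`thC_gdec`), `w = Lat τ ξ`, `a' m = a m * exp(2πi ∑ m_i w_i)`: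
`GDec a'` (`gdec_twist`), `ES a' z = ES a (z + w)` (`ES_twist`). `ES a'` is not identically zero
(`Th_ne_zero`, take `z - w`), and the flatness hypothesis of `count_lemma` holds for `a'`: given
`l ≠ 0`, `c`, take `z` with `l z = c + l w`, `ES a z ≠ 0` and use `z - w`. With
`L` from `exists_crd` `count_lemma` gives `(Vn (ES a') L n).card < ε n^(2k)` for large `n`.
For `n ≥ 1` the map `x ↦ L (fun i => (x i).val / n)` is injective from the set of zeros `x` of
`thS n ξ x τ` to `Vn (ES a') L n`: by `th_eq_Th` `thS n ξ x τ` is a unit times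
`Th τ (Lat τ (x/n + ξ))`, and `Lat τ (x/n + ξ) = L (x/n) + w` (`Lat` is additive), so
`ES a' (L (x/n)) = 0`. (`Set.ncard_le_ncard_of_injOn` and `Set.ncard_coe_finset`.)
-/

set_option autoImplicit false

open scoped Matrix.Norms.Elementwise Real Topology
open Complex Matrix MP6feb Filter

noncomputable section

namespace SlopeB

private theorem CntS_zero {g : ℕ} {τ : Matrix (Fin g) (Fin g) ℂ} (hτ : τ ∈ Siegel g) {n : ℕ}
    (ξ : Fin g ⊕ Fin g → ℝ) (x : Fin g ⊕ Fin g → ZMod n) (h : thS n ξ x τ = 0) :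
    ES (fun m => thC τ m * cexp (2 * π * I * ∑ i, (m i : ℂ) * Lat τ ξ i))
      (Lat τ (fun i => ((x i).val : ℝ) / n)) = 0 := by
  rw [thS, th_eq_Th hτ] at h
  have h1 := (mul_eq_zero.mp h).resolve_left (Complex.exp_ne_zero _)
  rw [ES_twist]
  have h2 : (fun i => Lat τ (fun i => ((x i).val : ℝ) / n) i + Lat τ ξ i) =
      Lat τ (Sum.elim (fun i => ((x (Sum.inl i)).val : ℝ) / n + ξ (Sum.inl i))
        (fun i => ((x (Sum.inr i)).val : ℝ) / n + ξ (Sum.inr i))) := by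
    funext i
    simp only [MP6feb.Lat, Sum.elim_inl, Sum.elim_inr]
    push_cast
    simp only [mul_add, Finset.sum_add_distrib]
    ring
  rw [h2]
  exact h1

private theorem CntS_le {k n : ℕ} [NeZero n] {τ : Matrix (Fin (k + 1)) (Fin (k + 1)) ℂ}
    (hτ : τ ∈ Siegel (k + 1)) (L : Crd k) (hL : ∀ x, L x = Lat τ x)
    (ξ : Fin (k + 1) ⊕ Fin (k + 1) → ℝ) :
    {x : Fin (k + 1) ⊕ Fin (k + 1) → ZMod n | thS n ξ x τ = 0}.ncard ≤
      (Vn (ES (fun m => thC τ m * cexp (2 * π * I * ∑ i, (m i : ℂ) * Lat τ ξ i))) L n).card := by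
  classical
  have hn : (n : ℝ) ≠ 0 := Nat.cast_ne_zero.mpr (NeZero.ne n)
  rw [← Set.ncard_coe_finset]
  refine Set.ncard_le_ncard_of_injOn
    (fun x : Fin (k + 1) ⊕ Fin (k + 1) → ZMod n => L (fun i => ((x i).val : ℝ) / n))
    ?_ ?_ (Finset.finite_toSet _)
  · intro x hx
    have hx0 : thS n ξ x τ = 0 := hx
    rw [Finset.mem_coe, Vn, Finset.mem_filter]
    constructor
    · rw [Finset.mem_image]
      refine ⟨fun i => ⟨(x i).val, ZMod.val_lt (x i)⟩, Finset.mem_univ _, ?_⟩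
      simp [gridPt]
    · rw [hL]
      exact CntS_zero hτ ξ x hx0
  · intro x _ y _ hxy
    have h1 := L.injective hxy
    funext i
    have h2 := congrFun h1 i
    have h3 : ((x i).val : ℝ) = (y i).val := by
      field_simp at h2
      exact h2
    exact ZMod.val_injective n (by exact_mod_cast h3)

theorem few_zeros {k : ℕ} {τ : Matrix (Fin (k + 1)) (Fin (k + 1)) ℂ} (hτ : τ ∈ Siegel (k + 1))
    (hflat : ∀ l : (Fin (k + 1) → ℂ) →ₗ[ℂ] ℂ, l ≠ 0 → ∀ c : ℂ,
      ∃ z, l z = c ∧ ES (thC τ) z ≠ 0)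
    (ξ : Fin (k + 1) ⊕ Fin (k + 1) → ℝ) {ε : ℝ} (hε : 0 < ε) :
    ∀ᶠ n : ℕ in Filter.atTop,
      (({x : Fin (k + 1) ⊕ Fin (k + 1) → ZMod n | thS n ξ x τ = 0}.ncard : ℕ) : ℝ) <
        ε * (n : ℝ) ^ (2 * k) := by
  obtain ⟨L, hL⟩ := exists_crd hτ
  have hcnt : ∀ᶠ n : ℕ in Filter.atTop,
      ((Vn (ES (fun m => thC τ m * cexp (2 * π * I * ∑ i, (m i : ℂ) * Lat τ ξ i))) L n).card : ℝ) <
        ε * (n : ℝ) ^ (2 * k) := by
    refine count_lemma (gdec_twist (thC_gdec hτ) _) ?_ ?_ L hε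
    · obtain ⟨z, hz⟩ := Th_ne_zero hτ
      refine ⟨fun i => z i - Lat τ ξ i, ?_⟩
      rw [ES_twist]
      simp only [sub_add_cancel]
      exact hz
    · intro l hl c
      obtain ⟨z, hz, hz0⟩ := hflat l hl (c + l (Lat τ ξ))
      refine ⟨z - Lat τ ξ, ?_, ?_⟩
      · rw [map_sub, hz, add_sub_cancel_right]
      · rw [ES_twist]
        simp only [Pi.sub_apply, sub_add_cancel]
        exact hz0
  filter_upwards [hcnt, Filter.eventually_ge_atTop 1] with n hn h1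
  have hne : NeZero n := ⟨by omega⟩
  have h2 := CntS_le hτ L hL ξ (n := n)
  have h3 : (({x : Fin (k + 1) ⊕ Fin (k + 1) → ZMod n | thS n ξ x τ = 0}.ncard : ℕ) : ℝ) ≤
      ((Vn (ES (fun m => thC τ m * cexp (2 * π * I * ∑ i, (m i : ℂ) * Lat τ ξ i))) L n).card : ℝ) := by
    exact_mod_cast h2
  exact h3.trans_lt hn

end SlopeB
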