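import Pool.Agent.Lib.SlopeB.Defs
import Pool.Agent.Lib.SlopeB.CntS
import Pool.Agent.Lib.MP_6febbd_ag.Chr

/-!
# Non-flat case: all characteristics which are not zeros

PROOF. Let `Ξ`, `ε` be given, `ε₁ = min(ε, 1)/2`, and let `N = Ξ.card + 1`. By `few_zeros` with
`ε₁ / N` and `Tendsto (2^·)` (as in `evGood_of_count`, `MP_6febbd_ag/CntG.lean`), for all large `j`,
with `n = 2^j`, for every `ξ ∈ Ξ` (`Filter.eventually_all_finset`) the number of `x` with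
`thS n ξ x τ = 0` is `< (ε₁/N) n^(2k)`. Let `Z` be the union of these sets of zeros over `ξ ∈ Ξ`
(a Finset, classical filter), `X` its complement in `Finset.univ`. `Z.card ≤ ε₁ n^(2k)`
(`Finset.card_biUnion_le` or induction on `Ξ`), the total number is `n^(2k+2)`, so
`X.card = n^(2k+2) - Z.card ≥ n^(2k) (n² - 1/2) ≥ n^(2k+2)/2 > 0` because `ε₁ ≤ 1/2`, `n ≥ 1`.
All `c` are of type alpha: if `j' c` is not divisible by `n` then `∑_{all x} chr n (j' c) x = 0`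
(`sum_chr_eq_zero`), so `‖∑_X‖ = ‖∑_Z‖ ≤ Z.card ≤ ε₁ n^(2k) ≤ 2 ε₁ n^(-2) X.card ≤
ε (1/4)^j X.card` (`norm_chr`, `n² = 4^j`).
-/

set_option autoImplicit false

open scoped Matrix.Norms.Elementwise Real Topology
open Complex Matrix MP6feb Filter

noncomputable section

namespace SlopeB

/-- The good set for one level. -/
private theorem nfl_level {k n : ℕ} [NeZero n] (τ : Matrix (Fin (k + 1)) (Fin (k + 1)) ℂ)
    (Ξ : Finset (Fin (k + 1) ⊕ Fin (k + 1) → ℝ)) (ε ε₁ : ℝ) (hε₁ : 0 < ε₁) (h2 : ε₁ ≤ 1 / 2)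
    (h3 : 2 * ε₁ ≤ ε)
    (hz : ∀ ξ ∈ Ξ, (({x : Fin (k + 1) ⊕ Fin (k + 1) → ZMod n | thS n ξ x τ = 0}.ncard : ℕ) : ℝ) <
      ε₁ / ((Ξ.card : ℝ) + 1) * (n : ℝ) ^ (2 * k)) :
    ∃ X : Finset (Fin (k + 1) ⊕ Fin (k + 1) → ZMod n), GoodX n (ε * (1 / (n : ℝ) ^ 2)) X ∧
      ∀ x ∈ X, ∀ ξ ∈ Ξ, thS n ξ x τ ≠ 0 := by
  classical
  have hn1 : (1 : ℝ) ≤ n := by exact_mod_cast Nat.one_le_iff_ne_zero.mpr (NeZero.ne n)
  have hpow : (1 : ℝ) ≤ (n : ℝ) ^ (2 * k) := one_le_pow₀ hn1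
  have hnsq : (1 : ℝ) ≤ (n : ℝ) ^ 2 := one_le_pow₀ hn1
  have hpos : (0 : ℝ) < (n : ℝ) ^ (2 * k) := by linarith
  let W : (Fin (k + 1) ⊕ Fin (k + 1) → ℝ) → Finset (Fin (k + 1) ⊕ Fin (k + 1) → ZMod n) :=
    fun ξ => Finset.univ.filter (fun x => thS n ξ x τ = 0)
  have hW : ∀ ξ ∈ Ξ, ((W ξ).card : ℝ) ≤ ε₁ / ((Ξ.card : ℝ) + 1) * (n : ℝ) ^ (2 * k) := by
    intro ξ hξ
    have h4 := hz ξ hξ
    have h5 : {x : Fin (k + 1) ⊕ Fin (k + 1) → ZMod n | thS n ξ x τ = 0}.ncard = (W ξ).card := by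
      rw [← Set.ncard_coe_finset]
      refine congrArg Set.ncard ?_
      ext x
      simp [W]
    rw [h5] at h4
    exact h4.le
  let Z : Finset (Fin (k + 1) ⊕ Fin (k + 1) → ZMod n) := Ξ.biUnion W
  have hZR : (Z.card : ℝ) ≤ ε₁ * (n : ℝ) ^ (2 * k) := by
    have h4 : (Z.card : ℝ) ≤ ∑ ξ ∈ Ξ, ((W ξ).card : ℝ) := by
      have h5 := Finset.card_biUnion_le (s := Ξ) (t := W)
      exact_mod_cast h5
    have h5 : ∑ ξ ∈ Ξ, ((W ξ).card : ℝ) ≤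
        ∑ ξ ∈ Ξ, ε₁ / ((Ξ.card : ℝ) + 1) * (n : ℝ) ^ (2 * k) := Finset.sum_le_sum hW
    rw [Finset.sum_const, nsmul_eq_mul] at h5
    have hc : (0 : ℝ) < (Ξ.card : ℝ) + 1 := by positivity
    have h6 : (Ξ.card : ℝ) * (ε₁ / ((Ξ.card : ℝ) + 1) * (n : ℝ) ^ (2 * k)) ≤
        ε₁ * (n : ℝ) ^ (2 * k) := by
      have h7 : (Ξ.card : ℝ) * (ε₁ / ((Ξ.card : ℝ) + 1) * (n : ℝ) ^ (2 * k)) =
          ((Ξ.card : ℝ) / ((Ξ.card : ℝ) + 1)) * (ε₁ * (n : ℝ) ^ (2 * k)) := by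
        ring
      rw [h7]
      have h8 : (Ξ.card : ℝ) / ((Ξ.card : ℝ) + 1) ≤ 1 := by
        rw [div_le_one hc]
        linarith
      have h9 : 0 ≤ ε₁ * (n : ℝ) ^ (2 * k) := by positivity
      nlinarith [mul_le_mul_of_nonneg_right h8 h9]
    linarith
  have hle : Z.card ≤ n ^ (2 * k + 2) := by
    have h4 : (Z.card : ℝ) ≤ (n : ℝ) ^ (2 * k + 2) := by
      rw [pow_add]
      have h5 : ε₁ * (n : ℝ) ^ (2 * k) ≤ 1 * (n : ℝ) ^ (2 * k) :=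
        mul_le_mul_of_nonneg_right (by linarith) hpos.le
      have h6 : (n : ℝ) ^ (2 * k) * 1 ≤ (n : ℝ) ^ (2 * k) * (n : ℝ) ^ 2 :=
        mul_le_mul_of_nonneg_left hnsq hpos.le
      linarith
    exact_mod_cast h4
  have hcard : (Zᶜ).card = n ^ (2 * k + 2) - Z.card := by
    rw [Finset.card_compl, Fintype.card_fun, ZMod.card, Fintype.card_sum, Fintype.card_fin]
    congr 2
    ring
  have hcR : ((Zᶜ).card : ℝ) = (n : ℝ) ^ (2 * k + 2) - Z.card := by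
    rw [hcard, Nat.cast_sub hle]
    push_cast
    ring
  have hlow : (n : ℝ) ^ (2 * k) * (n : ℝ) ^ 2 / 2 ≤ ((Zᶜ).card : ℝ) := by
    rw [hcR, pow_add]
    have h5 : ε₁ * (n : ℝ) ^ (2 * k) ≤ 1 / 2 * (n : ℝ) ^ (2 * k) :=
      mul_le_mul_of_nonneg_right h2 hpos.le
    have h6 : (n : ℝ) ^ (2 * k) * 1 ≤ (n : ℝ) ^ (2 * k) * (n : ℝ) ^ 2 :=
      mul_le_mul_of_nonneg_left hnsq hpos.le
    linarith
  refine ⟨Zᶜ, ⟨?_, ?_⟩, ?_⟩
  · rw [← Finset.card_pos]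
    have h4 : (0 : ℝ) < ((Zᶜ).card : ℝ) := by
      refine lt_of_lt_of_le ?_ hlow
      positivity
    exact_mod_cast h4
  · intro c
    left
    intro j hj
    have h4 := sum_chr_eq_zero (fun i => (j : ℤ) * c i) hj
    have h5 : ∑ x ∈ Zᶜ, chr n (fun i => (j : ℤ) * c i) x =
        -∑ x ∈ Z, chr n (fun i => (j : ℤ) * c i) x := by
      rw [eq_neg_iff_add_eq_zero, Finset.sum_compl_add_sum, h4]
    have h6 : ‖∑ x ∈ Zᶜ, chr n (fun i => (j : ℤ) * c i) x‖ ≤ Z.card := by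
      rw [h5, norm_neg]
      refine (norm_sum_le _ _).trans (le_of_eq ?_)
      simp only [norm_chr, Finset.sum_const, nsmul_eq_mul, mul_one]
    have hε : 0 < ε := by linarith
    have h7 : ε * (1 / (n : ℝ) ^ 2) * ((n : ℝ) ^ (2 * k) * (n : ℝ) ^ 2 / 2) ≤
        ε * (1 / (n : ℝ) ^ 2) * ((Zᶜ).card : ℝ) :=
      mul_le_mul_of_nonneg_left hlow (by positivity)
    have h8 : ε * (1 / (n : ℝ) ^ 2) * ((n : ℝ) ^ (2 * k) * (n : ℝ) ^ 2 / 2) =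
        ε / 2 * (n : ℝ) ^ (2 * k) := by
      have h9 : (n : ℝ) ^ 2 ≠ 0 := by positivity
      field_simp
    have h9 : ε₁ * (n : ℝ) ^ (2 * k) ≤ ε / 2 * (n : ℝ) ^ (2 * k) :=
      mul_le_mul_of_nonneg_right (by linarith) hpos.le
    linarith
  · intro x hx ξ hξ h0
    rw [Finset.mem_compl] at hx
    apply hx
    rw [Finset.mem_biUnion]
    exact ⟨ξ, hξ, by simp [W, h0]⟩

theorem evX_of_flat {k : ℕ} {τ : Matrix (Fin (k + 1)) (Fin (k + 1)) ℂ} (hτ : τ ∈ Siegel (k + 1))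
    (hflat : ∀ l : (Fin (k + 1) → ℂ) →ₗ[ℂ] ℂ, l ≠ 0 → ∀ c : ℂ,
      ∃ z, l z = c ∧ ES (thC τ) z ≠ 0) : EvX τ := by
  intro Ξ ε hε
  have hm : 0 < min ε 1 := lt_min hε one_pos
  have hε₁ : 0 < min ε 1 / 2 := by linarith
  have h2 : min ε 1 / 2 ≤ 1 / 2 := by
    have := min_le_right ε 1
    linarith
  have h3 : 2 * (min ε 1 / 2) ≤ ε := by
    have := min_le_left ε 1
    linarith
  have hc : (0 : ℝ) < (Ξ.card : ℝ) + 1 := by positivity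
  have ht : Filter.Tendsto (fun j : ℕ => 2 ^ j) Filter.atTop Filter.atTop :=
    tendsto_pow_atTop_atTop_of_one_lt (by norm_num)
  have hall : ∀ᶠ n : ℕ in Filter.atTop, ∀ ξ ∈ Ξ,
      (({x : Fin (k + 1) ⊕ Fin (k + 1) → ZMod n | thS n ξ x τ = 0}.ncard : ℕ) : ℝ) <
        min ε 1 / 2 / ((Ξ.card : ℝ) + 1) * (n : ℝ) ^ (2 * k) := by
    rw [Filter.eventually_all_finset]
    intro ξ _
    exact few_zeros hτ hflat ξ (div_pos hε₁ hc)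
  filter_upwards [ht.eventually hall] with j hj
  have h4 := nfl_level (n := 2 ^ j) τ Ξ ε (min ε 1 / 2) hε₁ h2 h3 hj
  have h5 : (1 : ℝ) / ((2 ^ j : ℕ) : ℝ) ^ 2 = (1 / 4) ^ j := by
    rw [Nat.cast_pow, ← pow_mul, mul_comm j 2, pow_mul, _root_.one_div_pow]
    norm_num
  rw [h5] at h4
  exact h4

end SlopeB
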