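import Pool.Agent.Lib.SlopeB.Defs
import Pool.Agent.Lib.SlopeB.NFl
import Pool.Agent.Lib.SlopeB.BdX
import Pool.Agent.Lib.SlopeB.EvG
import Pool.Agent.Lib.MP_6febbd_ag.HyA
import Pool.Agent.Lib.MP_6febbd_ag.HyB
import Pool.Agent.Lib.MP_6febbd_ag.HyC
import Pool.Agent.Lib.MP_6febbd_ag.ThB
import Pool.Agent.Lib.MP_6febbd_ag.SpS
import Pool.Agent.Lib.MP_6febbd_ag.SpG
import Pool.Agent.Lib.MP_6febbd_ag.LatE

/-!
# The abelian part

PROOF. Induction on `g`, compare `exists_evGood` in `MP_6febbd_ag/Ind.lean`. `g = 0`: for every `k`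
take `X = {fun _ => 0}` = `Finset.univ`: a theta constant of genus zero is `1` (see
`evGood_zero` in `MP_6febbd_ag/Ind0.lean`), all `c` are of type alpha (no index `i`: the hypothesis
`∃ i, ..` is void). `g = k+1`: if the flatness hypothesis of `evX_of_flat` holds, use it. Otherwise
(`push Not`) there are `l ≠ 0`, `c` with `ES (thC τ) z = 0` whenever `l z = c`; `hyper_data`,
`hyper_one`, `hyper_split` give `γ ∈ Gam (k+1)`, `σ`, `τ'` with `act γ τ = bd σ τ'`, `0 < σ.im`,
`τ' ∈ Siegel k` (`bd_mem`, `act_mem_siegel`), so `EvX (act γ τ)` by `evX_bd` and the induction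
hypothesis, and `EvX τ` by `evX_of_act`.
-/

set_option autoImplicit false

open scoped Matrix.Norms.Elementwise Real Topology
open Complex Matrix MP6feb Filter

noncomputable section

namespace SlopeB

theorem evX_all : ∀ (g : ℕ) (τ : Matrix (Fin g) (Fin g) ℂ), τ ∈ Siegel g → EvX τ := by
  intro g
  induction g with
  | zero =>
    intro τ _ Ξ ε _
    refine Filter.Eventually.of_forall fun k => ⟨Finset.univ, ⟨?_, ?_⟩, ?_⟩
    · exact ⟨fun _ => 0, Finset.mem_univ _⟩
    · intro c
      left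
      rintro j ⟨i, _⟩
      cases i with
      | inl i => exact i.elim0
      | inr i => exact i.elim0
    · intro x _ ξ _
      rw [thS, th, tsum_eq_single (fun i : Fin 0 => i.elim0)]
      · exact Complex.exp_ne_zero _
      · intro m hm
        exact absurd (Subsingleton.elim m _) hm
  | succ k ih =>
    intro τ hτ
    by_cases hflat : ∀ l : (Fin (k + 1) → ℂ) →ₗ[ℂ] ℂ, l ≠ 0 → ∀ c : ℂ,
        ∃ z, l z = c ∧ ES (thC τ) z ≠ 0
    · exact evX_of_flat hτ hflat
    · push Not at hflat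
      obtain ⟨l, hl, c, h0⟩ := hflat
      obtain ⟨α, β, σ, c', u, hσ, hu, h1, h2, h3⟩ := hyper_data hτ l hl c h0
      have hE := hyper_one hτ hσ hu h1 h2 h3
      obtain ⟨γ, hγ, τ', hact⟩ := hyper_split hτ h1 h2 hE
      have hmem := act_mem_siegel (gam_le hγ) hτ
      have hbd : bd σ τ' ∈ Siegel (k + 1) := hact ▸ hmem.1
      have hτ' : τ' ∈ Siegel k := (bd_mem.mp hbd).2
      refine evX_of_act hγ hτ ?_
      rw [hact]
      exact evX_bd hσ hτ' (ih τ' hτ')

end SlopeB
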