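import Pool.Agent.Lib.SlopeB.Defs
import Pool.Agent.Lib.SlopeB.Defs2

/-!
# Characters of two-power torsion functionals

All with `n = 2^K`. The integral pairing `prZ y s` reduces to `pr y s` modulo `2^K`, and
multiples of `2^K` in the exponent of `ch` do not matter (`ch_eq`).
-/

set_option autoImplicit false

open scoped Matrix.Norms.Elementwise Real Topology
open Complex Matrix MP6feb Filter

noncomputable section

namespace SlopeB

variable {b K : ℕ}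

theorem pr_eq (y : Fin b → ZMod (2 ^ K)) (s : Fin b → ℤ) :
    ((prZ y s : ℤ) : ZMod (2 ^ K)) = pr y s := by
  unfold prZ pr
  rw [Int.cast_sum]
  refine Finset.sum_congr rfl fun i _ => ?_
  rw [Int.cast_mul, Int.cast_natCast, ZMod.natCast_zmod_val]

theorem pr_add_left (y y' : Fin b → ZMod (2 ^ K)) (s : Fin b → ℤ) :
    pr (y + y') s = pr y s + pr y' s := by
  unfold pr
  rw [← Finset.sum_add_distrib]
  refine Finset.sum_congr rfl fun i _ => ?_
  rw [Pi.add_apply, add_mul]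

theorem pr_add_right (y : Fin b → ZMod (2 ^ K)) (s s' : Fin b → ℤ) :
    pr y (s + s') = pr y s + pr y s' := by
  unfold pr
  rw [← Finset.sum_add_distrib]
  refine Finset.sum_congr rfl fun i _ => ?_
  rw [Pi.add_apply, Int.cast_add, mul_add]

theorem pr_smul_left (m : ZMod (2 ^ K)) (y : Fin b → ZMod (2 ^ K)) (s : Fin b → ℤ) :
    pr (fun i => m * y i) s = m * pr y s := by
  unfold pr
  rw [Finset.mul_sum]
  refine Finset.sum_congr rfl fun i _ => ?_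
  rw [mul_assoc]

theorem pr_smul_right (m : ℤ) (y : Fin b → ZMod (2 ^ K)) (s : Fin b → ℤ) :
    pr y (m • s) = (m : ZMod (2 ^ K)) * pr y s := by
  unfold pr
  rw [Finset.mul_sum]
  refine Finset.sum_congr rfl fun i _ => ?_
  rw [Pi.smul_apply, smul_eq_mul, Int.cast_mul]
  ring

private theorem prZ_smul (m : ℤ) (y : Fin b → ZMod (2 ^ K)) (s : Fin b → ℤ) :
    prZ y (m • s) = m * prZ y s := by
  unfold prZ
  rw [Finset.mul_sum]
  refine Finset.sum_congr rfl fun i _ => ?_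
  rw [Pi.smul_apply, smul_eq_mul]
  ring

private theorem castPow : (((2 ^ K : ℕ) : ℤ)) = (2 : ℤ) ^ K := by push_cast; rfl

theorem dvd_pr {r : ℕ} (hr : r ≤ K) (y : Fin b → ZMod (2 ^ K)) (k : Fin b → ℤ) :
    (2 : ZMod (2 ^ K)) ^ r ∣ pr y k ↔ (2 : ℤ) ^ r ∣ prZ y k := by
  rw [← pr_eq]
  constructor
  · rintro ⟨t, ht⟩
    have h1 : ((prZ y k : ℤ) : ZMod (2 ^ K)) = (((2 : ℤ) ^ r * (t.val : ℤ) : ℤ) : ZMod (2 ^ K)) := by
      rw [ht]
      push_cast
      rw [ZMod.natCast_zmod_val]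
    rw [ZMod.intCast_eq_intCast_iff_dvd_sub, castPow] at h1
    have h2 : (2 : ℤ) ^ r ∣ (2 : ℤ) ^ r * (t.val : ℤ) - prZ y k := (pow_dvd_pow 2 hr).trans h1
    have h3 := dvd_sub (Dvd.intro (t.val : ℤ) rfl : (2 : ℤ) ^ r ∣ (2 : ℤ) ^ r * (t.val : ℤ)) h2
    rwa [sub_sub_cancel] at h3
  · rintro ⟨m, hm⟩
    refine ⟨(m : ZMod (2 ^ K)), ?_⟩
    rw [hm]
    push_cast
    rfl

theorem ch_eq (y : Fin b → ZMod (2 ^ K)) (s : Fin b → ℤ) {m : ℤ}
    (h : (m : ZMod (2 ^ K)) = pr y s) : ch K y s = cexp (2 * π * I * ((m : ℂ) / 2 ^ K)) := by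
  rw [← pr_eq, ZMod.intCast_eq_intCast_iff_dvd_sub, castPow] at h
  obtain ⟨t, ht⟩ := h
  have h1 : prZ y s = m + 2 ^ K * t := by linarith
  unfold ch
  rw [h1]
  have h2 : 2 * (π : ℂ) * I * (((m + 2 ^ K * t : ℤ) : ℂ) / 2 ^ K) =
      2 * π * I * ((m : ℂ) / 2 ^ K) + t * (2 * π * I) := by
    have h3 : (2 : ℂ) ^ K ≠ 0 := pow_ne_zero _ two_ne_zero
    push_cast
    field_simp
  rw [h2, Complex.exp_add, Complex.exp_int_mul_two_pi_mul_I, mul_one]

theorem norm_ch (y : Fin b → ZMod (2 ^ K)) (s : Fin b → ℤ) : ‖ch K y s‖ = 1 := by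
  unfold ch
  have h1 : 2 * (π : ℂ) * I * ((prZ y s : ℂ) / 2 ^ K) =
      ((2 * π * ((prZ y s : ℝ) / 2 ^ K) : ℝ) : ℂ) * I := by
    push_cast
    ring
  rw [h1, Complex.norm_exp_ofReal_mul_I]

theorem ch_add_left (y y' : Fin b → ZMod (2 ^ K)) (s : Fin b → ℤ) :
    ch K (y + y') s = ch K y s * ch K y' s := by
  have h : ((prZ y s + prZ y' s : ℤ) : ZMod (2 ^ K)) = pr (y + y') s := by
    rw [Int.cast_add, pr_eq, pr_eq, pr_add_left]
  rw [ch_eq (y + y') s h]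
  unfold ch
  rw [← Complex.exp_add]
  congr 1
  push_cast
  ring

theorem ch_add_right (y : Fin b → ZMod (2 ^ K)) (s s' : Fin b → ℤ) :
    ch K y (s + s') = ch K y s * ch K y s' := by
  have h : ((prZ y s + prZ y s' : ℤ) : ZMod (2 ^ K)) = pr y (s + s') := by
    rw [Int.cast_add, pr_eq, pr_eq, pr_add_right]
  rw [ch_eq y (s + s') h]
  unfold ch
  rw [← Complex.exp_add]
  congr 1
  push_cast
  ring

theorem ch_mul_left (m : ℤ) (y : Fin b → ZMod (2 ^ K)) (s : Fin b → ℤ) :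
    ch K (fun i => (m : ZMod (2 ^ K)) * y i) s = ch K y (m • s) := by
  have h : ((prZ y (m • s) : ℤ) : ZMod (2 ^ K)) = pr (fun i => (m : ZMod (2 ^ K)) * y i) s := by
    rw [pr_eq, pr_smul_right, pr_smul_left]
  rw [ch_eq _ s h]
  rfl

theorem ch_one {y : Fin b → ZMod (2 ^ K)} {s : Fin b → ℤ} (h : ∀ t, (2 : ℤ) ^ K ∣ s t) :
    ch K y s = 1 := by
  have h1 : ((0 : ℤ) : ZMod (2 ^ K)) = pr y s := by
    unfold pr
    rw [Int.cast_zero]
    symm
    refine Finset.sum_eq_zero fun i _ => ?_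
    have h2 : ((s i : ℤ) : ZMod (2 ^ K)) = 0 := by
      rw [ZMod.intCast_zmod_eq_zero_iff_dvd, castPow]
      exact h i
    rw [h2, mul_zero]
  rw [ch_eq y s h1]
  simp

theorem ch_neg (y : Fin b → ZMod (2 ^ K)) (s : Fin b → ℤ) :
    ch K y (-s) = (starRingEnd ℂ) (ch K y s) := by
  have h1 : prZ y (-s) = -prZ y s := by
    have := prZ_smul (-1) y s
    rw [neg_one_smul, neg_one_mul] at this
    exact this
  unfold ch
  rw [← Complex.exp_conj, h1]
  congr 1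
  have h2 : 2 * (π : ℂ) * I * ((prZ y s : ℂ) / 2 ^ K) =
      ((2 * π * ((prZ y s : ℝ) / 2 ^ K) : ℝ) : ℂ) * I := by
    push_cast
    ring
  rw [h2, map_mul, Complex.conj_ofReal, Complex.conj_I]
  push_cast
  ring

theorem ch_half (hK : 1 ≤ K) (y : Fin b → ZMod (2 ^ K)) (d : Fin b → ℤ) :
    ((2 : ZMod (2 ^ K)) ∣ pr y d → ch K y ((2 : ℤ) ^ (K - 1) • d) = 1) ∧
      (¬ ((2 : ZMod (2 ^ K)) ∣ pr y d) → ch K y ((2 : ℤ) ^ (K - 1) • d) = -1) := by
  have h1 := dvd_pr (r := 1) hK y d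
  rw [pow_one, pow_one] at h1
  obtain ⟨J, rfl⟩ : ∃ J, K = J + 1 := ⟨K - 1, by omega⟩
  have h2 : ch (J + 1) y ((2 : ℤ) ^ (J + 1 - 1) • d) = cexp (π * I * (prZ y d : ℂ)) := by
    unfold ch
    rw [prZ_smul, Nat.add_sub_cancel]
    congr 1
    have h3 : (2 : ℂ) ^ J ≠ 0 := pow_ne_zero _ two_ne_zero
    have h5 : (2 : ℂ) ^ (J + 1) = 2 ^ J * 2 := pow_succ _ _
    rw [h5]
    push_cast
    field_simp
  rw [h2, h1]
  constructor
  · rintro ⟨m, hm⟩
    rw [hm]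
    have h4 : (π : ℂ) * I * ((2 * m : ℤ) : ℂ) = m * (2 * π * I) := by
      push_cast
      ring
    rw [h4, Complex.exp_int_mul_two_pi_mul_I]
  · intro h
    have h5 : prZ y d % 2 = 1 := by omega
    obtain ⟨m, hm⟩ : ∃ m, prZ y d = 2 * m + 1 := ⟨prZ y d / 2, by omega⟩
    rw [hm]
    have h4 : (π : ℂ) * I * ((2 * m + 1 : ℤ) : ℂ) = m * (2 * π * I) + π * I := by
      push_cast
      ring
    rw [h4, Complex.exp_add, Complex.exp_int_mul_two_pi_mul_I, Complex.exp_pi_mul_I, one_mul]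

theorem sum_ch {s : Fin b → ℤ} (h : ∃ t, ¬ ((2 : ℤ) ^ K ∣ s t)) :
    ∑ y : Fin b → ZMod (2 ^ K), ch K y s = 0 := by
  classical
  obtain ⟨t, ht⟩ := h
  set e : Fin b → ZMod (2 ^ K) := Pi.single t 1 with he
  have h1 : ((s t : ℤ) : ZMod (2 ^ K)) = pr e s := by
    unfold pr
    rw [Finset.sum_eq_single t]
    · rw [he, Pi.single_eq_same, one_mul]
    · intro i _ hi
      rw [he, Pi.single_eq_of_ne hi, zero_mul]
    · intro h
      exact absurd (Finset.mem_univ t) h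
  have h2 : ch K e s ≠ 1 := by
    rw [ch_eq e s h1]
    intro h3
    rw [Complex.exp_eq_one_iff] at h3
    obtain ⟨m, hm⟩ := h3
    apply ht
    refine ⟨m, ?_⟩
    have hpi : (2 * (π : ℂ) * I) ≠ 0 := Complex.two_pi_I_ne_zero
    have hn : (2 : ℂ) ^ K ≠ 0 := pow_ne_zero _ two_ne_zero
    have h4 : (s t : ℂ) / 2 ^ K = m := by
      have h5 : (2 * (π : ℂ) * I) * ((s t : ℂ) / 2 ^ K) = (2 * (π : ℂ) * I) * m := by
        rw [hm]
        ring
      exact mul_left_cancel₀ hpi h5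
    rw [div_eq_iff hn] at h4
    have h6 : (s t : ℂ) = (((2 : ℤ) ^ K * m : ℤ) : ℂ) := by
      rw [h4]
      push_cast
      ring
    exact_mod_cast h6
  have h3 : ∑ y : Fin b → ZMod (2 ^ K), ch K (y + e) s = ∑ y : Fin b → ZMod (2 ^ K), ch K y s :=
    Fintype.sum_equiv (Equiv.addRight e) _ _ fun y => rfl
  have h4 : (∑ y : Fin b → ZMod (2 ^ K), ch K y s) * ch K e s =
      ∑ y : Fin b → ZMod (2 ^ K), ch K y s := by
    rw [Finset.sum_mul, ← h3]
    exact Finset.sum_congr rfl fun y _ => (ch_add_left y e s).symm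
  have h5 : (∑ y : Fin b → ZMod (2 ^ K), ch K y s) * (ch K e s - 1) = 0 := by
    rw [mul_sub, mul_one, h4, sub_self]
  exact (mul_eq_zero.1 h5).resolve_right (sub_ne_zero.2 h2)

theorem exp_bet (y : Fin b → ZMod (2 ^ K)) (s : Fin b → ℤ) (j : ℕ) :
    cexp (2 * π * I * ((j : ℂ) * (bet K y s : ℂ))) = ch K y ((j : ℤ) • s) := by
  unfold ch
  rw [prZ_smul]
  congr 1
  have h1 : bet K y s = (prZ y s : ℝ) / 2 ^ K := rfl
  rw [h1]
  push_cast
  ring

end SlopeB
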