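import Pool.Agent.Lib.SlopeB.Defs
import Pool.Agent.Lib.SlopeB.Defs2
import Pool.Agent.Lib.SlopeB.ChB

/-!
# Counting functionals divisible on two independent elements

PROOF. `n = 2^K`, `D = k i₁ * k' i₂ - k i₂ * k' i₁ ≠ 0`, `r ≤ K`. Let `S` be the set of `y` with
`2^r ∣ pr y k` and `2^r ∣ pr y k'`. Consider the map
`Ψ : S × (Fin (2^r) × Fin (2^r)) → (Fin b → ZMod n)`, `Ψ (y, (α, β)) = y + α v + β v'`, where
`v = k' i₂ • single i₁ 1 - k' i₁ • single i₂ 1` (so `v(k) = D`, `v(k') = 0`) and
`v' = - k i₂ • single i₁ 1 + k i₁ • single i₂ 1` (so `v'(k) = 0`, `v'(k') = D`), all cast to `ZMod n`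
(if `i₁ = i₂` then `D = 0`, excluded). If `Ψ (y,α,β) = Ψ (y₁,α₁,β₁)` then applying `pr · k` gives
`2^r ∣ D (α - α₁)` (in `ℤ`, by `dvd_pr`), and `pr · k'` gives `2^r ∣ D (β - β₁)`. For given `α` the number
of `α₁ < 2^r` with `2^r ∣ D (α - α₁)` is at most `|D|`: with `g = gcd(D, 2^r) ≤ |D|`, `α₁ ≡ α` modulo
`2^r / g`. And `α₁, β₁` determine `y₁`. So the fibres of `Ψ` have at most `D²` elements:
`card S * 4^r ≤ D² * (2^K)^b` (`Finset.card_le_mul_card_image_of_maps_to` or
`Finset.card_le_mul_card_image`).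
(Alternative: `S` is the kernel of `y ↦ (pr y k, pr y k') mod 2^r`, whose image contains
`D • (ZMod 2^r)²`.)
-/

set_option autoImplicit false

open scoped Matrix.Norms.Elementwise Real Topology
open Complex Matrix MP6feb Filter

noncomputable section

namespace SlopeB

/-- multiplication by `D ≠ 0` on `ZMod n` is at most `|D|` to one -/
private theorem excA_mul_zero (n : ℕ) [NeZero n] (D : ℤ) (hD : D ≠ 0) :
    (Finset.univ.filter (fun x : ZMod n => (D : ZMod n) * x = 0)).card ≤ D.natAbs := by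
  have hn : 0 < n := Nat.pos_of_ne_zero (NeZero.ne n)
  have key : ∀ x : ZMod n, (D : ZMod n) * x = 0 → (n : ℕ) ∣ D.natAbs * x.val := by
    intro x hx
    have h1 : ((D * (x.val : ℤ) : ℤ) : ZMod n) = 0 := by
      push_cast
      rw [ZMod.natCast_zmod_val]
      exact hx
    rw [ZMod.intCast_zmod_eq_zero_iff_dvd] at h1
    have h2 := Int.natAbs_dvd_natAbs.mpr h1
    rwa [Int.natAbs_natCast, Int.natAbs_mul, Int.natAbs_natCast] at h2
  calc (Finset.univ.filter (fun x : ZMod n => (D : ZMod n) * x = 0)).card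
      ≤ (Finset.range D.natAbs).card := by
        refine Finset.card_le_card_of_injOn (fun x => D.natAbs * x.val / n) ?_ ?_
        · intro x hx
          simp only [Finset.coe_filter, Finset.mem_univ, true_and, Set.mem_ofPred_eq] at hx
          simp only [Finset.coe_range, Set.mem_Iio]
          rw [Nat.div_lt_iff_lt_mul hn]
          exact Nat.mul_lt_mul_of_pos_left (ZMod.val_lt x) (Int.natAbs_pos.mpr hD)
        · intro x hx y hy hxy
          simp only [Finset.coe_filter, Finset.mem_univ, true_and, Set.mem_ofPred_eq] at hx hy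
          have h1 := Nat.div_mul_cancel (key x hx)
          have h2 := Nat.div_mul_cancel (key y hy)
          simp only at hxy
          rw [hxy, h2] at h1
          have h3 := Nat.eq_of_mul_eq_mul_left (Int.natAbs_pos.mpr hD) h1
          exact (ZMod.val_injective n h3).symm
    _ = D.natAbs := Finset.card_range _

/-- **Exclusion count.** -/
private theorem excA_two_zero {Y : Type*} [AddCommGroup Y] [Fintype Y] [DecidableEq Y] (n : ℕ) [NeZero n]
    (f g : Y →+ ZMod n) (y₁ y₂ : Y) (D : ℤ) (hD : D ≠ 0)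
    (hdet : f y₁ * g y₂ - f y₂ * g y₁ = (D : ZMod n)) :
    (Finset.univ.filter (fun y : Y => f y = 0 ∧ g y = 0)).card * n ^ 2 ≤ D.natAbs ^ 2 * Fintype.card Y := by
  classical
  set u : Y := (g y₂).val • y₁ - (g y₁).val • y₂ with hu
  set v : Y := (f y₁).val • y₂ - (f y₂).val • y₁ with hv
  have hcast : ∀ a : ZMod n, ((a.val : ℕ) : ZMod n) = a := fun a => ZMod.natCast_zmod_val a
  have hfu : f u = D := by
    rw [hu, map_sub, map_nsmul, map_nsmul, nsmul_eq_mul, nsmul_eq_mul, hcast, hcast, ← hdet]; ring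
  have hgu : g u = 0 := by
    rw [hu, map_sub, map_nsmul, map_nsmul, nsmul_eq_mul, nsmul_eq_mul, hcast, hcast]; ring
  have hfv : f v = 0 := by
    rw [hv, map_sub, map_nsmul, map_nsmul, nsmul_eq_mul, nsmul_eq_mul, hcast, hcast]; ring
  have hgv : g v = D := by
    rw [hv, map_sub, map_nsmul, map_nsmul, nsmul_eq_mul, nsmul_eq_mul, hcast, hcast, ← hdet]
  set S := Finset.univ.filter (fun y : Y => f y = 0 ∧ g y = 0) with hS
  let F : Y × (ZMod n × ZMod n) → Y := fun p => p.1 + p.2.1.val • u + p.2.2.val • v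
  have hFf : ∀ p : Y × (ZMod n × ZMod n), p.1 ∈ S → f (F p) = D * p.2.1 := by
    intro p hp
    rw [hS, Finset.mem_filter] at hp
    simp only [F, map_add, map_nsmul, nsmul_eq_mul, hcast, hfu, hfv, hp.2.1]
    ring
  have hFg : ∀ p : Y × (ZMod n × ZMod n), p.1 ∈ S → g (F p) = D * p.2.2 := by
    intro p hp
    rw [hS, Finset.mem_filter] at hp
    simp only [F, map_add, map_nsmul, nsmul_eq_mul, hcast, hgu, hgv, hp.2.2]
    ring
  have hmain := Finset.card_le_mul_card_image_of_maps_to (s := S ×ˢ (Finset.univ : Finset (ZMod n × ZMod n)))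
    (t := (Finset.univ : Finset Y)) (f := F) (fun _ _ => Finset.mem_univ _) (D.natAbs ^ 2) (by
      intro y _
      by_cases hne : (Finset.filter (fun x => F x = y) (S ×ˢ (Finset.univ : Finset (ZMod n × ZMod n)))).Nonempty
      · obtain ⟨p0, hp0⟩ := hne
        rw [Finset.mem_filter, Finset.mem_product] at hp0
        have hsub : (Finset.filter (fun x => F x = y) (S ×ˢ (Finset.univ : Finset (ZMod n × ZMod n)))).card
            ≤ ((Finset.univ.filter (fun x : ZMod n => (D : ZMod n) * x = 0)) ×ˢ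
              (Finset.univ.filter (fun x : ZMod n => (D : ZMod n) * x = 0))).card := by
          refine Finset.card_le_card_of_injOn (fun p => (p.2.1 - p0.2.1, p.2.2 - p0.2.2)) ?_ ?_
          · intro p hp
            simp only [Finset.coe_filter, Finset.mem_product, Finset.mem_univ, and_true, Set.mem_ofPred_eq] at hp
            have e1 := hFf p hp.1
            have e2 := hFf p0 hp0.1.1
            have e3 := hFg p hp.1
            have e4 := hFg p0 hp0.1.1
            rw [hp.2] at e1 e3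
            rw [hp0.2] at e2 e4
            simp only [Finset.coe_product, Finset.coe_filter, Finset.mem_univ, true_and, Set.mem_prod, Set.mem_ofPred_eq]
            constructor
            · rw [mul_sub, ← e1, ← e2, sub_self]
            · rw [mul_sub, ← e3, ← e4, sub_self]
          · intro p hp q hq hpq
            simp only [Finset.coe_filter, Finset.mem_product, Finset.mem_univ, and_true, Set.mem_ofPred_eq] at hp hq
            simp only [Prod.mk.injEq, sub_left_inj] at hpq
            have h1 : p.2 = q.2 := Prod.ext hpq.1 hpq.2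
            have h2 : F p = F q := by rw [hp.2, hq.2]
            simp only [F, h1, add_left_inj] at h2
            exact Prod.ext h2 h1
        refine hsub.trans ?_
        rw [Finset.card_product, sq]
        exact Nat.mul_le_mul (excA_mul_zero n D hD) (excA_mul_zero n D hD)
      · rw [Finset.not_nonempty_iff_eq_empty] at hne
        rw [hne]
        simp)
  rw [Finset.card_product, Finset.card_univ, Fintype.card_prod, ZMod.card, Finset.card_univ] at hmain
  rw [sq n]
  exact hmain

private theorem excA_castHom {K r : ℕ} (h : r ≤ K) (x : ZMod (2 ^ K)) :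
    (2 : ZMod (2 ^ K)) ^ r ∣ x ↔ ZMod.castHom (pow_dvd_pow 2 h) (ZMod (2 ^ r)) x = 0 := by
  constructor
  · rintro ⟨y, rfl⟩
    rw [map_mul, map_pow, map_ofNat]
    have : ((2 ^ r : ℕ) : ZMod (2 ^ r)) = 0 := ZMod.natCast_self _
    push_cast at this
    rw [this, zero_mul]
  · intro hx
    have h1 : ((x.val : ℕ) : ZMod (2 ^ r)) = 0 := by
      rw [← hx]
      simp [ZMod.castHom_apply]
    rw [ZMod.natCast_eq_zero_iff] at h1
    obtain ⟨m, hm⟩ := h1
    refine ⟨(m : ZMod (2 ^ K)), ?_⟩
    rw [← ZMod.natCast_zmod_val x, hm]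
    push_cast
    ring

/-- the pairing with `s` as an additive map -/
private def excA_prH {b n : ℕ} (s : Fin b → ℤ) : (Fin b → ZMod n) →+ ZMod n where
  toFun y := pr y s
  map_zero' := by simp [pr]
  map_add' y y' := by simp [pr, add_mul, Finset.sum_add_distrib]

private theorem excA_pair {b K r : ℕ} (h : r ≤ K) (k k' : Fin b → ℤ) (i j : Fin b)
    (hD : k i * k' j - k j * k' i ≠ 0) :
    (Finset.univ.filter (fun y : Fin b → ZMod (2 ^ K) =>
      (2 : ZMod (2 ^ K)) ^ r ∣ pr y k ∧ (2 : ZMod (2 ^ K)) ^ r ∣ pr y k')).card * 4 ^ r ≤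
      (k i * k' j - k j * k' i).natAbs ^ 2 * (2 ^ K) ^ b := by
  classical
  have : NeZero (2 ^ r) := ⟨by positivity⟩
  have : NeZero (2 ^ K) := ⟨by positivity⟩
  set φ := ZMod.castHom (pow_dvd_pow 2 h) (ZMod (2 ^ r)) with hφ
  have key := excA_two_zero (Y := Fin b → ZMod (2 ^ K)) (2 ^ r)
    (φ.toAddMonoidHom.comp (excA_prH k)) (φ.toAddMonoidHom.comp (excA_prH k')) (Pi.single i 1) (Pi.single j 1)
    (k i * k' j - k j * k' i) hD (by
      have e : ∀ (s : Fin b → ℤ) (t : Fin b), excA_prH (n := 2 ^ K) s (Pi.single t 1) = (s t : ZMod (2 ^ K)) := by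
        intro s t
        simp only [excA_prH, pr, AddMonoidHom.coe_mk, ZeroHom.coe_mk]
        rw [Finset.sum_eq_single t]
        · simp
        · intro t' _ ht
          simp [Pi.single_eq_of_ne ht]
        · simp
      simp only [AddMonoidHom.coe_comp, Function.comp_apply, e, RingHom.toAddMonoidHom_eq_coe,
        AddMonoidHom.coe_coe, map_intCast]
      push_cast
      ring)
  have e1 : (Finset.univ.filter (fun y : Fin b → ZMod (2 ^ K) =>
      (2 : ZMod (2 ^ K)) ^ r ∣ pr y k ∧ (2 : ZMod (2 ^ K)) ^ r ∣ pr y k')) =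
      (Finset.univ.filter (fun y : Fin b → ZMod (2 ^ K) =>
        (φ.toAddMonoidHom.comp (excA_prH k)) y = 0 ∧ (φ.toAddMonoidHom.comp (excA_prH k')) y = 0)) := by
    ext y
    simp only [Finset.mem_filter, Finset.mem_univ, true_and]
    rw [excA_castHom h, excA_castHom h]
    rfl
  rw [e1]
  have e2 : (4:ℕ) ^ r = (2 ^ r) ^ 2 := by rw [← pow_mul, mul_comm, pow_mul]; norm_num
  have e3 : Fintype.card (Fin b → ZMod (2 ^ K)) = (2 ^ K) ^ b := by
    rw [Fintype.card_fun, ZMod.card, Fintype.card_fin]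
  rw [e2, ← e3]
  exact key

theorem excl_pair {b K r : ℕ} (hr : r ≤ K) (k k' : Fin b → ℤ) {i₁ i₂ : Fin b}
    (hD : k i₁ * k' i₂ - k i₂ * k' i₁ ≠ 0) (S : Finset (Fin b → ZMod (2 ^ K)))
    (hS : ∀ y ∈ S, (2 : ZMod (2 ^ K)) ^ r ∣ pr y k ∧ (2 : ZMod (2 ^ K)) ^ r ∣ pr y k') :
    S.card * 4 ^ r ≤ (k i₁ * k' i₂ - k i₂ * k' i₁).natAbs ^ 2 * (2 ^ K) ^ b := by
  classical
  refine le_trans (Nat.mul_le_mul_right _ (Finset.card_le_card ?_)) (excA_pair hr k k' i₁ i₂ hD)
  intro y hy
  rw [Finset.mem_filter]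
  exact ⟨Finset.mem_univ _, hS y hy⟩

end SlopeB
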