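import Pool.Agent.Lib.SlopeB.Defs
import Pool.Agent.Lib.SlopeB.Defs2
import Pool.Agent.Lib.SlopeB.ChB
import Pool.Agent.Lib.SlopeB.KKl

/-!
# The set `Y0`

PROOFS. `n = 2^K`, `K ≥ 1`; `2 ∣ pr y k` iff `prZ y k` is even (`dvd_pr` with `r = 1`).
`Y0_nonempty`: let `y₀ : (Fin b → ℤ) →+ ℤ` be from `KK_y`, `y i = (y₀ (Pi.single i 1) : ZMod n)`; then
`pr y k = (y₀ k : ZMod n)` (`y₀ k = ∑ k_i y₀ (single i 1)`), which is not divisible by `2`.
`Y0_add`: `Y0` is stable under adding `y'` with `2 ∣ pr y' k` for all `k ∈ KK c z`.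
`Y0_card`: fix `y₁ ∈ Y0`. The map `u ↦ y₁ + 2u` maps all of `Y = (Fin b → ZMod n)` into `Y0`; its fibres
have at most `2^b` elements: `2u = 2u'` iff all `u_i - u'_i ∈ {0, 2^(K-1)}`. So
`(2^K)^b ≤ 2^b * card Y0` (`Finset.card_le_mul_card_image`, or restrict to the `u` with values
`< 2^(K-1)`, on which the map is injective, `(2^(K-1))^b * 2^b = (2^K)^b`).
`Y0_mul`: if `u` is odd, `y ↦ u y` is a bijection of `Y0` (`pr (u y) k = u pr y k`, `u` is a unit modulo
`2^K`).
`Y0_four4`: if `2^K ∤ 2 s_t`: translation of `Y0` by `2 • Pi.single t 1` is a bijection and multiplies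
`ch K y s` by `exp(2πi 2 s_t/2^K) ≠ 1`; so the sum is `0`.
`Y0_four2`: suppose `e` has `c e d` odd and `c e z` even. For all `k ∈ KK c z` `c e k = 0` (`KK_odd_z`). Let
`y' i = (c e (Pi.single i 1) : ZMod n)`: `pr y' k = (c e k : ZMod n) = 0` for `k ∈ KK c z` and `pr y' d = c e d` is
odd. Translation by `y'` is a bijection of `Y0` and multiplies `ch K y (2^(K-1) • d)` by `-1`
(`ch_add_left`, `ch_half`), so the sum is `0`.
-/

set_option autoImplicit false

open scoped Matrix.Norms.Elementwise Real Topology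
open Complex Matrix MP6feb Filter

noncomputable section

namespace SlopeB

private theorem fouZ_prZ {b n : ℕ} [NeZero n] (y : Fin b → ZMod n) (s : Fin b → ℤ) :
    ((prZ y s : ℤ) : ZMod n) = pr y s := by
  simp [prZ, pr]

private theorem fouZ_ch {b K : ℕ} (y : Fin b → ZMod (2 ^ K)) (s : Fin b → ℤ) :
    ch K y s = ZMod.stdAddChar (pr y s) := by
  rw [← fouZ_prZ, ZMod.stdAddChar_coe, ch]
  congr 1
  push_cast
  ring

private theorem fouZ_pr_add {b n : ℕ} (y u : Fin b → ZMod n) (s : Fin b → ℤ) :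
    pr (y + u) s = pr y s + pr u s := by
  simp [pr, add_mul, Finset.sum_add_distrib]

private theorem fouZ_ch_add {b K : ℕ} (y u : Fin b → ZMod (2 ^ K)) (s : Fin b → ℤ) :
    ch K (y + u) s = ch K y s * ch K u s := by
  rw [fouZ_ch, fouZ_ch, fouZ_ch, fouZ_pr_add, AddChar.map_add_eq_mul]

private theorem fouZ_norm {b K : ℕ} (y : Fin b → ZMod (2 ^ K)) (s : Fin b → ℤ) : ‖ch K y s‖ = 1 := by
  have : ch K y s = cexp (((2 * π * ((prZ y s : ℝ) / 2 ^ K) : ℝ) : ℂ) * I) := by
    rw [ch]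
    congr 1
    push_cast
    ring
  rw [this, Complex.norm_exp_ofReal_mul_I]

private theorem fouZ_vanish {b K : ℕ} (Y : Finset (Fin b → ZMod (2 ^ K))) (u : Fin b → ZMod (2 ^ K))
    (s : Fin b → ℤ) (hY : ∀ y ∈ Y, y + u ∈ Y) (hu : ch K u s ≠ 1) : ∑ y ∈ Y, ch K y s = 0 := by
  classical
  have hbij : ∑ y ∈ Y, ch K (y + u) s = ∑ y ∈ Y, ch K y s := by
    have himg : Y.image (fun y => y + u) = Y := by
      apply Finset.eq_of_subset_of_card_le
      · intro y hy
        obtain ⟨y', hy', rfl⟩ := Finset.mem_image.mp hy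
        exact hY y' hy'
      · rw [Finset.card_image_of_injective _ (add_left_injective u)]
    conv_rhs => rw [← himg]
    rw [Finset.sum_image (fun a _ b _ h => add_left_injective u h)]
  simp only [fouZ_ch_add] at hbij
  rw [← Finset.sum_mul] at hbij
  have h1 : (∑ y ∈ Y, ch K y s) * (ch K u s - 1) = 0 := by
    rw [mul_sub, hbij]; ring
  rcases mul_eq_zero.mp h1 with h | h
  · exact h
  · exact absurd (sub_eq_zero.mp h) hu

private theorem fouZ_castHom {K r : ℕ} (h : r ≤ K) (x : ZMod (2 ^ K)) :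
    (2 : ZMod (2 ^ K)) ^ r ∣ x ↔ ZMod.castHom (pow_dvd_pow 2 h) (ZMod (2 ^ r)) x = 0 := by
  constructor
  · rintro ⟨y, rfl⟩
    rw [map_mul, map_pow, map_ofNat]
    have : ((2 ^ r : ℕ) : ZMod (2 ^ r)) = 0 := ZMod.natCast_self _
    push_cast at this
    rw [this, zero_mul]
  · intro hx
    have h1 : ((x.val : ℕ) : ZMod (2 ^ r)) = 0 := by
      rw [← hx]
      simp [ZMod.castHom_apply]
    rw [ZMod.natCast_eq_zero_iff] at h1
    obtain ⟨m, hm⟩ := h1
    refine ⟨(m : ZMod (2 ^ K)), ?_⟩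
    rw [← ZMod.natCast_zmod_val x, hm]
    push_cast
    ring

/-- multiplication by `D ≠ 0` on `ZMod n` is at most `|D|` to one -/
private theorem fouZ_mul_zero (n : ℕ) [NeZero n] (D : ℤ) (hD : D ≠ 0) :
    (Finset.univ.filter (fun x : ZMod n => (D : ZMod n) * x = 0)).card ≤ D.natAbs := by
  have hn : 0 < n := Nat.pos_of_ne_zero (NeZero.ne n)
  have key : ∀ x : ZMod n, (D : ZMod n) * x = 0 → (n : ℕ) ∣ D.natAbs * x.val := by
    intro x hx
    have h1 : ((D * (x.val : ℤ) : ℤ) : ZMod n) = 0 := by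
      push_cast
      rw [ZMod.natCast_zmod_val]
      exact hx
    rw [ZMod.intCast_zmod_eq_zero_iff_dvd] at h1
    have h2 := Int.natAbs_dvd_natAbs.mpr h1
    rwa [Int.natAbs_natCast, Int.natAbs_mul, Int.natAbs_natCast] at h2
  calc (Finset.univ.filter (fun x : ZMod n => (D : ZMod n) * x = 0)).card
      ≤ (Finset.range D.natAbs).card := by
        refine Finset.card_le_card_of_injOn (fun x => D.natAbs * x.val / n) ?_ ?_
        · intro x hx
          simp only [Finset.coe_filter, Finset.mem_univ, true_and, Set.mem_ofPred_eq] at hx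
          simp only [Finset.coe_range, Set.mem_Iio]
          rw [Nat.div_lt_iff_lt_mul hn]
          exact Nat.mul_lt_mul_of_pos_left (ZMod.val_lt x) (Int.natAbs_pos.mpr hD)
        · intro x hx y hy hxy
          simp only [Finset.coe_filter, Finset.mem_univ, true_and, Set.mem_ofPred_eq] at hx hy
          have h1 := Nat.div_mul_cancel (key x hx)
          have h2 := Nat.div_mul_cancel (key y hy)
          simp only at hxy
          rw [hxy, h2] at h1
          have h3 := Nat.eq_of_mul_eq_mul_left (Int.natAbs_pos.mpr hD) h1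
          exact (ZMod.val_injective n h3).symm
    _ = D.natAbs := Finset.card_range _

/-- coefficients of a functional -/
private def fouZ_vec {b : ℕ} (f : (Fin b → ℤ) →+ ℤ) (i : Fin b) : ℤ := f (Pi.single i 1)

private theorem fouZ_vec_apply {b : ℕ} (f : (Fin b → ℤ) →+ ℤ) (h : Fin b → ℤ) :
    f h = ∑ i, fouZ_vec f i * h i := by
  conv_lhs => rw [← Finset.univ_sum_single h]
  rw [map_sum]
  refine Finset.sum_congr rfl fun i _ => ?_
  have : (Pi.single i (h i) : Fin b → ℤ) = (h i) • Pi.single i 1 := by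
    rw [← Pi.single_smul]; simp
  rw [this, map_zsmul, fouZ_vec, smul_eq_mul, mul_comm]

private theorem fouZ_pr_vec {b n : ℕ} (f : (Fin b → ℤ) →+ ℤ) (h : Fin b → ℤ) :
    pr (n := n) (fun i => (fouZ_vec f i : ZMod n)) h = ((f h : ℤ) : ZMod n) := by
  rw [fouZ_vec_apply f h, pr]
  push_cast
  rfl

private theorem fouZ_two_dvd {K : ℕ} (hK : 1 ≤ K) (x : ℤ) : (2 : ZMod (2 ^ K)) ∣ (x : ZMod (2 ^ K)) ↔ (2 : ℤ) ∣ x := by
  constructor
  · intro h
    have h1 := (fouZ_castHom (r := 1) hK (x : ZMod (2 ^ K))).mp (by rwa [pow_one])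
    rw [map_intCast, ZMod.intCast_zmod_eq_zero_iff_dvd] at h1
    simpa using h1
  · rintro ⟨y, rfl⟩
    exact ⟨(y : ZMod (2 ^ K)), by push_cast; rfl⟩

private theorem fouZ_smul_pr {b n : ℕ} (a : ZMod n) (u : Fin b → ZMod n) (s : Fin b → ℤ) :
    pr (fun i => a * u i) s = a * pr u s := by
  simp [pr, Finset.mul_sum, mul_assoc]

private theorem fouZ_mem_Y0 {b : ℕ} {E : Type} {c : E → (Fin b → ℤ) →+ ℤ} {K : ℕ} {z : Fin b → ℤ}
    {y : Fin b → ZMod (2 ^ K)} : y ∈ Y0 c K z ↔ ∀ k ∈ KK c z, ¬ ((2 : ZMod (2 ^ K)) ∣ pr y k) := by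
  simp [Y0]

/-- `Y0` is stable under adding functionals with even values on the common blocks -/
private theorem fouZ_Y0_add {b : ℕ} {E : Type} {c : E → (Fin b → ℤ) →+ ℤ} {K : ℕ} {z : Fin b → ℤ}
    {y u : Fin b → ZMod (2 ^ K)} (hu : ∀ k ∈ KK c z, (2 : ZMod (2 ^ K)) ∣ pr u k)
    (hy : y ∈ Y0 c K z) : y + u ∈ Y0 c K z := by
  rw [fouZ_mem_Y0] at hy ⊢
  intro k hk h
  rw [fouZ_pr_add] at h
  exact hy k hk ((dvd_add_left (hu k hk)).mp h)

/-- character of a multiple of a unit vector -/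
private theorem fouZ_ch_single {b K : ℕ} (a : ℤ) (t : Fin b) (s : Fin b → ℤ) :
    ch K (fun i => (a : ZMod (2 ^ K)) * (Pi.single t 1 : Fin b → ZMod (2 ^ K)) i) s = 1 ↔
      (2 : ℤ) ^ K ∣ a * s t := by
  have h1 : pr (fun i => (a : ZMod (2 ^ K)) * (Pi.single t 1 : Fin b → ZMod (2 ^ K)) i) s = ((a * s t : ℤ) : ZMod (2 ^ K)) := by
    rw [fouZ_smul_pr, pr, Finset.sum_eq_single t]
    · simp
    · intro t' _ ht
      simp [Pi.single_eq_of_ne ht]
    · simp
  rw [fouZ_ch, h1, ← AddChar.map_zero_eq_one (ZMod.stdAddChar (N := 2 ^ K)), ZMod.injective_stdAddChar.eq_iff,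
    ZMod.intCast_zmod_eq_zero_iff_dvd]
  push_cast
  rfl

variable {b K : ℕ} {E : Type}

theorem Y0_nonempty [Finite E] {c : E → (Fin b → ℤ) →+ ℤ} (hc : IsSys c) (hK : 1 ≤ K)
    (z : Fin b → ℤ) : (Y0 c K z).Nonempty := by
  obtain ⟨y₀, hy₀⟩ := KK_y hc z
  refine ⟨fun i => (fouZ_vec y₀ i : ZMod (2 ^ K)), ?_⟩
  rw [fouZ_mem_Y0]
  intro k hk
  rw [fouZ_pr_vec, fouZ_two_dvd hK]
  exact hy₀ k hk

theorem Y0_add {c : E → (Fin b → ℤ) →+ ℤ} {z : Fin b → ℤ} {y y' : Fin b → ZMod (2 ^ K)}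
    (hy : y ∈ Y0 c K z) (hy' : ∀ k ∈ KK c z, (2 : ZMod (2 ^ K)) ∣ pr y' k) :
    y + y' ∈ Y0 c K z := fouZ_Y0_add hy' hy

theorem Y0_card [Finite E] {c : E → (Fin b → ℤ) →+ ℤ} (hc : IsSys c) (hK : 1 ≤ K)
    (z : Fin b → ℤ) : (2 ^ K) ^ b ≤ 2 ^ b * (Y0 c K z).card := by
  classical
  obtain ⟨y0, hy0⟩ := Y0_nonempty hc hK z
  have h := Finset.card_le_mul_card_image_of_maps_to (s := (Finset.univ : Finset (Fin b → ZMod (2 ^ K))))
    (t := Y0 c K z) (f := fun y => y0 + fun i => 2 * y i) (by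
      intro y _
      refine Y0_add hy0 (fun k _ => ?_)
      rw [fouZ_smul_pr]
      exact ⟨_, rfl⟩) (2 ^ b) (by
      intro y _
      by_cases hne : ((Finset.univ : Finset (Fin b → ZMod (2 ^ K))).filter
          (fun x => (y0 + fun i => 2 * x i) = y)).Nonempty
      · obtain ⟨p, hp⟩ := hne
        rw [Finset.mem_filter] at hp
        have hsub : ((Finset.univ : Finset (Fin b → ZMod (2 ^ K))).filter
              (fun x => (y0 + fun i => 2 * x i) = y)).card
            ≤ (Fintype.piFinset (fun _ : Fin b =>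
              (Finset.univ.filter (fun x : ZMod (2 ^ K) => ((2:ℤ) : ZMod (2 ^ K)) * x = 0)))).card := by
          refine Finset.card_le_card_of_injOn (fun x => x - p) ?_ ?_
          · intro x hx
            simp only [Finset.coe_filter, Finset.mem_univ, true_and, Set.mem_ofPred_eq] at hx
            rw [Finset.mem_coe, Fintype.mem_piFinset]
            intro i
            rw [Finset.mem_filter]
            refine ⟨Finset.mem_univ _, ?_⟩
            have e1 := congrFun (hx.trans hp.2.symm) i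
            simp only [Pi.add_apply, add_right_inj] at e1
            simp only [Pi.sub_apply, mul_sub]
            push_cast
            rw [e1, sub_self]
          · intro x _ x' _ hxx
            exact sub_left_injective hxx
        refine hsub.trans ?_
        rw [Fintype.card_piFinset]
        have := fouZ_mul_zero (2 ^ K) 2 (by norm_num)
        calc _ ≤ ∏ _i : Fin b, 2 := Finset.prod_le_prod' fun i _ => this
          _ = 2 ^ b := by simp
      · rw [Finset.not_nonempty_iff_eq_empty] at hne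
        rw [hne]
        simp)
  rw [Finset.card_univ, Fintype.card_fun, ZMod.card, Fintype.card_fin] at h
  exact h

theorem Y0_four4 {c : E → (Fin b → ℤ) →+ ℤ} (z : Fin b → ℤ) {s : Fin b → ℤ}
    (hs : ∃ t, ¬ ((2 : ℤ) ^ K ∣ 2 * s t)) : ∑ y ∈ Y0 c K z, ch K y s = 0 := by
  obtain ⟨t, ht⟩ := hs
  refine fouZ_vanish _ (fun i => ((2 : ℤ) : ZMod (2 ^ K)) * (Pi.single t 1 : Fin b → ZMod (2 ^ K)) i) s ?_ ?_
  · intro y hy
    refine Y0_add hy (fun k _ => ?_)
    rw [fouZ_smul_pr]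
    exact ⟨_, by push_cast; rfl⟩
  · rw [Ne, fouZ_ch_single]
    exact ht

theorem Y0_four2 {c : E → (Fin b → ℤ) →+ ℤ} (hc : IsSys c) (hK : 1 ≤ K) (z d : Fin b → ℤ)
    (h : ∑ y ∈ Y0 c K z, ch K y ((2 : ℤ) ^ (K - 1) • d) ≠ 0) {e : E}
    (he : ¬ ((2 : ℤ) ∣ c e d)) : ¬ ((2 : ℤ) ∣ c e z) := by
  intro hz
  apply h
  refine fouZ_vanish _ (fun i => (fouZ_vec (c e) i : ZMod (2 ^ K))) _ ?_ ?_
  · intro y hy
    refine Y0_add hy (fun k hk => ?_)
    rw [fouZ_pr_vec]
    have : c e k = 0 := by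
      by_contra hne
      exact KK_odd_z hc hk hne hz
    rw [this]
    simp
  · intro h
    rw [fouZ_ch, fouZ_pr_vec, ← AddChar.map_zero_eq_one (ZMod.stdAddChar (N := 2 ^ K)),
      ZMod.injective_stdAddChar.eq_iff, ZMod.intCast_zmod_eq_zero_iff_dvd] at h
    apply he
    rw [map_zsmul, smul_eq_mul] at h
    have h1 : (2 : ℤ) ^ (K - 1) * 2 ∣ (2 : ℤ) ^ (K - 1) * c e d := by
      rw [← pow_succ, Nat.sub_add_cancel hK]
      exact_mod_cast h
    exact Int.dvd_of_mul_dvd_mul_left (by positivity) h1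

end SlopeB
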