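import Pool.Agent.Lib.SlopeB.Defs
import Pool.Agent.Lib.SlopeB.Defs2
import Pool.Agent.Lib.SlopeB.ChB
import Pool.Agent.Lib.SlopeB.ExcA
import Pool.Agent.Lib.SlopeB.FouZ
import Pool.Agent.Lib.SlopeB.Sys

/-!
# The excluded functionals are few

PROOF. (1) `minor`: for `k, k' ∈ OO c`, `k, k' ≠ 0`, `k' ≠ ±k` there are `i₁ i₂` with
`k i₁ * k' i₂ ≠ k i₂ * k' i₁`. Otherwise choose `i₀` with `k i₀ ≠ 0` and put `α = k' i₀`, `β = k i₀`: then
`α • k = β • k'` (coordinatewise `k' i₀ k i = k i₀ k' i`), `β ≠ 0`. Take `e` with `c e k ≠ 0` (`sp`), so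
`|c e k| = 1`: `α c e k = β c e k'`. `α ≠ 0` (otherwise `β • k' = 0`, `k' = 0`), so `c e k' ≠ 0`, `|c e k'| = 1`,
`|α| = |β|`, `α = ±β`, and `β • (k' ∓ k) = 0` gives `k' = ±k`.
(2) Let `D₀` be the maximum of `|k i₁ k' i₂ - k i₂ k' i₁|` over the finitely many `k, k' ∈ OO c`
(`OO_finite`), `i₁, i₂`. `C₁ = 2^b * (card OO)^2 * D₀^2`. The set `Y0 \ Yz` is contained in the union over the
pairs `(k, k')` as in (1) of `{y | 2^r ∣ pr y k ∧ 2^r ∣ pr y k'}`, each of card `≤ D₀² (2^K)^b / 4^r`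
(`excl_pair`), so `card (Y0 \ Yz) * 4^r ≤ (card OO)² D₀² (2^K)^b ≤ C₁ card Y0` (`Y0_card`).
(`Yz ⊆ Y0`; `Finset.card_sdiff`, or bound `(Y0.filter (fun y => y ∉ Yz)).card` and use the difference.)
-/

set_option autoImplicit false

open scoped Matrix.Norms.Elementwise Real Topology
open Complex Matrix MP6feb Filter

noncomputable section

namespace SlopeB

private theorem ExcB_minor {b : ℕ} {E : Type} {c : E → (Fin b → ℤ) →+ ℤ} (hc : IsSys c)
    {k k' : Fin b → ℤ} (hk : k ∈ OO c) (hk' : k' ∈ OO c) (h0 : k ≠ 0) (h0' : k' ≠ 0)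
    (h1 : k' ≠ k) (h2 : k' ≠ -k) : ∃ i₁ i₂, k i₁ * k' i₂ - k i₂ * k' i₁ ≠ 0 := by
  by_contra hcon
  push Not at hcon
  obtain ⟨i₀, hi₀⟩ : ∃ i, k i ≠ 0 := by
    by_contra h
    push Not at h
    exact h0 (funext h)
  have hab : ∀ i, k' i₀ * k i = k i₀ * k' i := by
    intro i
    have h3 := hcon i₀ i
    linarith
  have hab' : k' i₀ • k = k i₀ • k' := by
    funext i
    simp only [Pi.smul_apply, smul_eq_mul]
    exact hab i
  obtain ⟨e, he⟩ : ∃ e, c e k ≠ 0 := by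
    by_contra h
    push Not at h
    exact h0 (hc.sp k h)
  have hce : k' i₀ * c e k = k i₀ * c e k' := by
    have h3 := congrArg (c e) hab'
    rwa [map_zsmul, map_zsmul, smul_eq_mul, smul_eq_mul] at h3
  have hbd := abs_le.1 (hk e)
  have hbd' := abs_le.1 (hk' e)
  have hα : k' i₀ ≠ 0 := by
    intro h
    apply h0'
    funext i
    have h3 := hab i
    rw [h, zero_mul] at h3
    rcases mul_eq_zero.1 h3.symm with h4 | h4
    · exact absurd h4 hi₀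
    · exact h4
  have hce' : c e k' ≠ 0 := by
    intro h
    rw [h, mul_zero] at hce
    rcases mul_eq_zero.1 hce with h3 | h3
    · exact hα h3
    · exact he h3
  have e1 : c e k = 1 ∨ c e k = -1 := by omega
  have e2 : c e k' = 1 ∨ c e k' = -1 := by omega
  have hαβ : k' i₀ = k i₀ ∨ k' i₀ = -k i₀ := by
    rcases e1 with e1 | e1 <;> rcases e2 with e2 | e2 <;> rw [e1, e2] at hce
    · left
      linarith
    · right
      linarith
    · right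
      linarith
    · left
      linarith
  rcases hαβ with h | h
  · apply h1
    funext i
    have h3 := hab i
    rw [h] at h3
    exact (mul_left_cancel₀ hi₀ h3).symm
  · apply h2
    funext i
    have h3 := hab i
    rw [h] at h3
    have h4 : k i₀ * k' i = k i₀ * (-k i) := by linarith
    exact mul_left_cancel₀ hi₀ h4

theorem excl_few {b : ℕ} {E : Type} [Finite E] {c : E → (Fin b → ℤ) →+ ℤ} (hc : IsSys c) :
    ∃ C₁ : ℕ, ∀ (K r : ℕ), 1 ≤ K → r ≤ K → ∀ z : Fin b → ℤ,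
      (Y0 c K z).card * 4 ^ r ≤ (Yz c K r z).card * 4 ^ r + C₁ * (Y0 c K z).card := by
  classical
  set O : Finset (Fin b → ℤ) := (OO_finite hc).toFinset with hO
  have hOm : ∀ k, k ∈ O ↔ k ∈ OO c := fun k => by rw [hO, Set.Finite.mem_toFinset]
  set D : (Fin b → ℤ) × (Fin b → ℤ) → ℕ := fun q =>
    ((Finset.univ : Finset (Fin b × Fin b)).sup
      (fun i => (q.1 i.1 * q.2 i.2 - q.1 i.2 * q.2 i.1).natAbs)) with hDdef
  set D₀ : ℕ := (O ×ˢ O).sup D with hD0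
  have hDle : ∀ k ∈ O, ∀ k' ∈ O, ∀ i₁ i₂,
      (k i₁ * k' i₂ - k i₂ * k' i₁).natAbs ≤ D₀ := by
    intro k hk k' hk' i₁ i₂
    have h1 : D (k, k') ≤ D₀ := Finset.le_sup (f := D) (Finset.mem_product.2 ⟨hk, hk'⟩)
    have h2 : (k i₁ * k' i₂ - k i₂ * k' i₁).natAbs ≤ D (k, k') :=
      Finset.le_sup (f := fun i : Fin b × Fin b =>
        (k i.1 * k' i.2 - k i.2 * k' i.1).natAbs) (Finset.mem_univ (i₁, i₂))
    exact h2.trans h1
  refine ⟨2 ^ b * O.card ^ 2 * D₀ ^ 2, ?_⟩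
  intro K r hK hr z
  set Q : Finset ((Fin b → ℤ) × (Fin b → ℤ)) :=
    (O ×ˢ O).filter (fun q => q.1 ≠ 0 ∧ q.2 ≠ 0 ∧ q.2 ≠ q.1 ∧ q.2 ≠ -q.1) with hQ
  set T : (Fin b → ℤ) × (Fin b → ℤ) → Finset (Fin b → ZMod (2 ^ K)) := fun q =>
    Finset.univ.filter (fun y => (2 : ZMod (2 ^ K)) ^ r ∣ pr y q.1 ∧
      (2 : ZMod (2 ^ K)) ^ r ∣ pr y q.2) with hT
  have hsub : Y0 c K z ⊆ Yz c K r z ∪ Q.biUnion T := by
    intro y hy
    by_cases h : y ∈ Yz c K r z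
    · exact Finset.mem_union_left _ h
    · refine Finset.mem_union_right _ ?_
      rw [Yz, Finset.mem_filter] at h
      push Not at h
      obtain ⟨k, hk, k', hk', h1, h2, h3, h4, h5⟩ := h hy
      refine Finset.mem_biUnion.2 ⟨(k, k'), ?_, ?_⟩
      · exact Finset.mem_filter.2 ⟨Finset.mem_product.2 ⟨(hOm k).2 hk, (hOm k').2 hk'⟩,
          h1, h2, h3, h4⟩
      · exact Finset.mem_filter.2 ⟨Finset.mem_univ _, h5⟩
  have hT1 : ∀ q ∈ Q, (T q).card * 4 ^ r ≤ D₀ ^ 2 * (2 ^ K) ^ b := by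
    intro q hq
    obtain ⟨hq1, h1, h2, h3, h4⟩ := Finset.mem_filter.1 hq
    obtain ⟨hk, hk'⟩ := Finset.mem_product.1 hq1
    obtain ⟨i₁, i₂, hne⟩ := ExcB_minor hc ((hOm _).1 hk) ((hOm _).1 hk') h1 h2 h3 h4
    refine (excl_pair hr q.1 q.2 hne (T q) (fun y hy => (Finset.mem_filter.1 hy).2)).trans ?_
    exact Nat.mul_le_mul_right _ (Nat.pow_le_pow_left (hDle _ hk _ hk' i₁ i₂) 2)
  have hQc : Q.card ≤ O.card ^ 2 := by
    refine (Finset.card_filter_le _ _).trans ?_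
    rw [Finset.card_product, sq]
  have hbad : (Q.biUnion T).card * 4 ^ r ≤ O.card ^ 2 * (D₀ ^ 2 * (2 ^ K) ^ b) := by
    calc (Q.biUnion T).card * 4 ^ r ≤ (∑ q ∈ Q, (T q).card) * 4 ^ r :=
          Nat.mul_le_mul_right _ Finset.card_biUnion_le
      _ = ∑ q ∈ Q, (T q).card * 4 ^ r := Finset.sum_mul _ _ _
      _ ≤ ∑ q ∈ Q, D₀ ^ 2 * (2 ^ K) ^ b := Finset.sum_le_sum hT1
      _ = Q.card * (D₀ ^ 2 * (2 ^ K) ^ b) := by rw [Finset.sum_const, smul_eq_mul]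
      _ ≤ O.card ^ 2 * (D₀ ^ 2 * (2 ^ K) ^ b) := Nat.mul_le_mul_right _ hQc
  have h1 : (Y0 c K z).card ≤ (Yz c K r z).card + (Q.biUnion T).card :=
    (Finset.card_le_card hsub).trans (Finset.card_union_le _ _)
  have h2 := Y0_card hc hK z
  calc (Y0 c K z).card * 4 ^ r
      ≤ ((Yz c K r z).card + (Q.biUnion T).card) * 4 ^ r := Nat.mul_le_mul_right _ h1
    _ = (Yz c K r z).card * 4 ^ r + (Q.biUnion T).card * 4 ^ r := add_mul _ _ _
    _ ≤ (Yz c K r z).card * 4 ^ r + O.card ^ 2 * (D₀ ^ 2 * (2 ^ K) ^ b) :=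
        Nat.add_le_add_left hbad _
    _ ≤ (Yz c K r z).card * 4 ^ r + O.card ^ 2 * (D₀ ^ 2 * (2 ^ b * (Y0 c K z).card)) :=
        Nat.add_le_add_left (Nat.mul_le_mul_left _ (Nat.mul_le_mul_left _ h2)) _
    _ = (Yz c K r z).card * 4 ^ r + 2 ^ b * O.card ^ 2 * D₀ ^ 2 * (Y0 c K z).card := by ring

end SlopeB
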