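import Pool.Agent.Lib.SlopeB.Defs
import Pool.Agent.Lib.SlopeB.Defs2
import Pool.Agent.Lib.SlopeB.ChB

/-!
# The multi-scale mixture

PROOFS. `phi` decreases: `phi 0 = 1 ≥ phi 1 = 1/8` (`J ≥ 1`), `2^-i` halves, at `J → J+1`:
`(1/4) 2^J 4^-(J+1) = (1/16) 2^-J ≤ (1/4) 2^-J`, then it is divided by four, and `phi (r+1) = 0`
(`J < r`). `phi_sum`: telescoping (`Finset.sum_range_sub'` or induction; `Fin.sum_univ_eq_sum_range`).
`mix_four`: `ch K (2^j y) s = ch K y (2^j s)` (`ch_mul_left`), so by `sum_ch`, `ch_one` the inner average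
`(2^K)^-b ∑_y ch K y (2^j s)` is `1` if `2^K ∣ 2^j s_t` for all `t`, i.e. iff `o ≤ j` (`OrdE`), and `0`
otherwise. The sum is `∑_{o ≤ j ≤ r} (phi j - phi (j+1)) = phi o - phi (r+1) = phi o` if `o ≤ r`, and `0 = phi o`
if `o > r`. (`OrdE` with `i' ≥ o`: `2^K ∣ 2^o s_t` implies `2^K ∣ 2^i' s_t`.)
-/

set_option autoImplicit false

open scoped Matrix.Norms.Elementwise Real Topology
open Complex Matrix MP6feb Filter

noncomputable section

namespace SlopeB

theorem phi_anti {J r : ℕ} (hJ : 1 ≤ J) (hJr : J < r) (i : ℕ) :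
    phi J r (i + 1) ≤ phi J r i := by
  have hhalf : (1 / 2 : ℚ) ^ (i + 1) ≤ (1 / 2) ^ i :=
    pow_le_pow_of_le_one (by norm_num) (by norm_num) (Nat.le_succ i)
  have hquart : (1 / 4 : ℚ) ^ (i + 1) ≤ (1 / 4) ^ i :=
    pow_le_pow_of_le_one (by norm_num) (by norm_num) (Nat.le_succ i)
  have hJ2 : (0 : ℚ) ≤ 2 ^ J := by positivity
  unfold phi
  rw [if_neg (Nat.succ_ne_zero i)]
  rcases Nat.eq_zero_or_pos i with h0 | h0
  · subst h0
    rw [if_pos (by omega : 0 + 1 ≤ J), if_pos rfl]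
    norm_num
  · rw [if_neg (by omega : ¬ i = 0)]
    rcases lt_trichotomy i J with h1 | h1 | h1
    · rw [if_pos (by omega : i + 1 ≤ J), if_pos (by omega : i ≤ J)]
      linarith
    · subst h1
      rw [if_neg (by omega : ¬ i + 1 ≤ i), if_pos (by omega : i + 1 ≤ r), if_pos le_rfl]
      have h2 : (2 : ℚ) ^ i * (1 / 4) ^ (i + 1) = (1 / 2) ^ i * (1 / 4) := by
        rw [pow_succ, ← mul_assoc, ← mul_pow]
        norm_num
      have h3 : (0 : ℚ) ≤ (1 / 2) ^ i := by positivity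
      calc (1 / 4 : ℚ) * 2 ^ i * (1 / 4) ^ (i + 1) = 1 / 4 * (2 ^ i * (1 / 4) ^ (i + 1)) := by
            ring
        _ = 1 / 4 * ((1 / 2) ^ i * (1 / 4)) := by rw [h2]
        _ ≤ 1 / 4 * (1 / 2) ^ i := by linarith
    · rw [if_neg (by omega : ¬ i + 1 ≤ J), if_neg (by omega : ¬ i ≤ J)]
      by_cases h2 : i + 1 ≤ r
      · rw [if_pos h2, if_pos (by omega : i ≤ r)]
        exact mul_le_mul_of_nonneg_left hquart (by positivity)
      · rw [if_neg h2]
        split_ifs
        · positivity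
        · exact le_rfl

private theorem mixl_top {J r i : ℕ} (hJr : J < r) (hi : r < i) : phi J r i = 0 := by
  unfold phi
  rw [if_neg (by omega), if_neg (by omega), if_neg (by omega)]

theorem phi_sum {J r : ℕ} (hJr : J < r) :
    ∑ j : Fin (r + 1), (phi J r j - phi J r (j + 1)) = 1 := by
  rw [Fin.sum_univ_eq_sum_range (fun j => phi J r j - phi J r (j + 1)) (r + 1),
    Finset.sum_range_sub', mixl_top hJr (Nat.lt_succ_self r), sub_zero]
  unfold phi
  rw [if_pos rfl]

private theorem mixl_tel (f : ℕ → ℚ) (o : ℕ) : ∀ n : ℕ,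
    ∑ j ∈ Finset.range n, (if o ≤ j then f j - f (j + 1) else 0) =
      if o ≤ n then f o - f n else 0 := by
  intro n
  induction n with
  | zero =>
    rw [Finset.sum_range_zero]
    split_ifs with h
    · rw [Nat.le_zero.mp h, sub_self]
    · rfl
  | succ n ih =>
    rw [Finset.sum_range_succ, ih]
    rcases lt_trichotomy o (n + 1) with h | h | h
    · rw [if_pos (by omega), if_pos (by omega), if_pos (by omega)]
      ring
    · rw [if_neg (by omega), if_neg (by omega), if_pos (by omega), h]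
      ring
    · rw [if_neg (by omega), if_neg (by omega), if_neg (by omega)]
      ring

theorem mix_four {b K J r o : ℕ} (hJr : J < r) {s : Fin b → ℤ} (hs : OrdE K s o) :
    ∑ j : Fin (r + 1), ((phi J r j - phi J r (j + 1) : ℚ) : ℂ) *
      (((2 : ℂ) ^ K) ^ b)⁻¹ * ∑ y : Fin b → ZMod (2 ^ K),
        ch K (fun i => 2 ^ (j : ℕ) * y i) s = (phi J r o : ℂ) := by
  have hinner : ∀ j : ℕ, (((2 : ℂ) ^ K) ^ b)⁻¹ * ∑ y : Fin b → ZMod (2 ^ K),
      ch K (fun i => 2 ^ j * y i) s = if o ≤ j then 1 else 0 := by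
    intro j
    have h1 : ∀ y : Fin b → ZMod (2 ^ K),
        ch K (fun i => 2 ^ j * y i) s = ch K y ((2 : ℤ) ^ j • s) := by
      intro y
      rw [← ch_mul_left]
      congr 1
      funext i
      push_cast
      ring
    rw [Finset.sum_congr rfl fun y _ => h1 y]
    split_ifs with h
    · have h2 : ∀ y : Fin b → ZMod (2 ^ K), ch K y ((2 : ℤ) ^ j • s) = 1 := by
        intro y
        refine ch_one fun t => ?_
        rw [Pi.smul_apply, smul_eq_mul]
        obtain ⟨d, rfl⟩ := Nat.exists_eq_add_of_le h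
        rw [pow_add, mul_comm ((2 : ℤ) ^ o) (2 ^ d), mul_assoc]
        exact (hs.1 t).mul_left _
      rw [Finset.sum_congr rfl fun y _ => h2 y, Finset.sum_const, Finset.card_univ,
        Fintype.card_pi_const, ZMod.card, nsmul_eq_mul, mul_one]
      push_cast
      have h3 : ((2 : ℂ) ^ K) ^ b ≠ 0 := pow_ne_zero _ (pow_ne_zero _ two_ne_zero)
      exact inv_mul_cancel₀ h3
    · have h2 : ∑ y : Fin b → ZMod (2 ^ K), ch K y ((2 : ℤ) ^ j • s) = 0 := by
        refine sum_ch ?_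
        obtain ⟨t, ht⟩ := hs.2 j (by omega)
        refine ⟨t, ?_⟩
        rw [Pi.smul_apply, smul_eq_mul]
        exact ht
      rw [h2, mul_zero]
  have h4 : ∑ j : Fin (r + 1), ((phi J r j - phi J r (j + 1) : ℚ) : ℂ) *
      (((2 : ℂ) ^ K) ^ b)⁻¹ * ∑ y : Fin b → ZMod (2 ^ K),
        ch K (fun i => 2 ^ (j : ℕ) * y i) s =
      ((∑ j ∈ Finset.range (r + 1),
        (if o ≤ j then phi J r j - phi J r (j + 1) else 0) : ℚ) : ℂ) := by
    rw [← Fin.sum_univ_eq_sum_range
      (fun j => if o ≤ j then phi J r j - phi J r (j + 1) else 0) (r + 1), Rat.cast_sum]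
    refine Finset.sum_congr rfl fun j _ => ?_
    rw [mul_assoc, hinner]
    split_ifs
    · rw [mul_one]
    · rw [mul_zero, Rat.cast_zero]
  rw [h4, mixl_tel, mixl_top hJr (Nat.lt_succ_self r), sub_zero]
  split_ifs with h
  · rfl
  · rw [mixl_top hJr (by omega)]

end SlopeB
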