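import Pool.Agent.Lib.SlopeB.Defs
import Pool.Agent.Lib.SlopeB.Defs2
import Pool.Agent.Lib.SlopeB.ChB
import Pool.Agent.Lib.SlopeB.MixL

/-!
# The Fourier coefficient of the law without isolated directions: formula

PROOF. The sum over `GIx` splits (`Fintype.sum_sum_type`, `Fintype.sum_prod_type`).
`inl (j', y)`: the class is `0`, `c' 0 = 0`, `cexp(2πI (j (0/2 + bet K (2^j' y) s))) = ch K (2^j' y) (j • s)`
(`exp_bet`); the sum is `w₀ ∑_j' (phi j' - phi (j'+1)) ((2^K)^b)⁻¹ ∑_y ch K (2^j' y) (j • s) = w₀ phi o` by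
`mix_four` for the vector `j • s`.
`inr (z, y)`, `z ≠ 0`: `cexp(2πI (j (c'(lf z)/2 + bet K y s))) = e(j c'(lf z)/2) ch K y (j • s)` and
`e(m/2) = 1` if `m` is even, `-1` if `m` is odd, `m = j c'(lf z)`; the sum over `y` of
`(if y ∈ Yz then μ/|Yz| else 0) ch K y (j • s)` is `μ fz K Yz (j • s)` (`Finset.sum_ite_mem`/`sum_filter`;
`Finset.univ.filter (· ∈ Yz) = Yz`).
-/

set_option autoImplicit false

open scoped Matrix.Norms.Elementwise Real Topology
open Complex Matrix MP6feb Filter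

noncomputable section

namespace SlopeB

private theorem GFa_sgn (j : ℕ) (m : ℤ) :
    cexp (2 * π * I * ((j : ℂ) * ((m : ℂ) / 2))) = if (2 : ℤ) ∣ (j : ℤ) * m then 1 else -1 := by
  have h0 : (2 * π * I * ((j : ℂ) * ((m : ℂ) / 2))) = (((j : ℤ) * m : ℤ) : ℂ) * (π * I) := by
    push_cast
    ring
  rw [h0]
  split_ifs with h
  · obtain ⟨t, ht⟩ := h
    rw [ht]
    have h1 : (((2 * t : ℤ) : ℂ)) * (π * I) = (t : ℂ) * (2 * π * I) := by
      push_cast
      ring
    rw [h1, Complex.exp_int_mul_two_pi_mul_I]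
  · have h2 : ((j : ℤ) * m) % 2 = 1 := by omega
    obtain ⟨t, ht⟩ : ∃ t : ℤ, (j : ℤ) * m = 2 * t + 1 := ⟨((j : ℤ) * m) / 2, by omega⟩
    rw [ht]
    have h1 : (((2 * t + 1 : ℤ) : ℂ)) * (π * I) = (t : ℂ) * (2 * π * I) + π * I := by
      push_cast
      ring
    rw [h1, Complex.exp_add, Complex.exp_int_mul_two_pi_mul_I, Complex.exp_pi_mul_I, one_mul]

theorem gam_formula {b : ℕ} {E : Type} (c : E → (Fin b → ℤ) →+ ℤ) {J r K : ℕ} (hJr : J < r)
    (c' : (Fin b → ℤ) →+ ℤ) (s : Fin b → ℤ) {j o : ℕ} (ho : OrdE K ((j : ℤ) • s) o) :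
    ∑ i : GIx b r K, (gp c J r K i : ℂ) *
        cexp (2 * π * I * (j * ((c' (gzz i) : ℂ) / 2 + (gbb i s : ℂ)))) =
      (w0 b : ℂ) * (phi J r o : ℂ) + ∑ z : Fin b → ZMod 2, (if z = 0 then 0 else
        (2 / 3 / 2 ^ b : ℂ) * (if (2 : ℤ) ∣ (j : ℤ) * c' (lf z) then 1 else -1) *
          fz K (Yz c K r (lf z)) ((j : ℤ) • s)) := by
  classical
  rw [Fintype.sum_sum_type]
  congr 1
  · rw [Fintype.sum_prod_type]
    rw [← mix_four hJr ho, Finset.mul_sum]
    refine Finset.sum_congr rfl fun j' _ => ?_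
    rw [Finset.mul_sum, Finset.mul_sum]
    refine Finset.sum_congr rfl fun y _ => ?_
    have h1 : cexp (2 * π * I * ((j : ℂ) * ((c' (gzz (Sum.inl (j', y) : GIx b r K)) : ℂ) / 2 +
        (gbb (Sum.inl (j', y) : GIx b r K) s : ℂ)))) =
        ch K (fun i => 2 ^ (j' : ℕ) * y i) ((j : ℤ) • s) := by
      rw [← exp_bet]
      simp only [gzz, gbb, map_zero, Int.cast_zero, zero_div, zero_add]
    rw [h1]
    simp only [gp]
    push_cast
    rw [div_eq_mul_inv]
    ring
  · rw [Fintype.sum_prod_type]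
    refine Finset.sum_congr rfl fun z _ => ?_
    by_cases hz : z = 0
    · rw [if_pos hz]
      refine Finset.sum_eq_zero fun y _ => ?_
      simp [gp, hz]
    · rw [if_neg hz]
      have h1 : ∀ y : Fin b → ZMod (2 ^ K),
          (gp c J r K (Sum.inr (z, y)) : ℂ) *
            cexp (2 * π * I * ((j : ℂ) * ((c' (gzz (Sum.inr (z, y) : GIx b r K)) : ℂ) / 2 +
              (gbb (Sum.inr (z, y) : GIx b r K) s : ℂ)))) =
          if y ∈ Yz c K r (lf z) then
            (2 / 3 / 2 ^ b : ℂ) * (if (2 : ℤ) ∣ (j : ℤ) * c' (lf z) then 1 else -1) *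
              (((Yz c K r (lf z)).card : ℂ)⁻¹ * ch K y ((j : ℤ) • s)) else 0 := by
        intro y
        by_cases hy : y ∈ Yz c K r (lf z)
        · rw [if_pos hy]
          have h2 : cexp (2 * π * I * ((j : ℂ) * ((c' (gzz (Sum.inr (z, y) : GIx b r K)) : ℂ) / 2 +
              (gbb (Sum.inr (z, y) : GIx b r K) s : ℂ)))) =
              (if (2 : ℤ) ∣ (j : ℤ) * c' (lf z) then 1 else -1) * ch K y ((j : ℤ) • s) := by
            rw [← exp_bet, ← GFa_sgn, ← Complex.exp_add]
            simp only [gzz, gbb]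
            congr 1
            ring
          rw [h2]
          simp only [gp, if_neg hz, if_pos hy]
          push_cast
          rw [div_eq_mul_inv (2 / 3 / 2 ^ b : ℂ)]
          ring
        · rw [if_neg hy]
          simp only [gp, if_neg hz, if_neg hy]
          simp
      rw [Finset.sum_congr rfl fun y _ => h1 y, ← Finset.sum_filter,
        Finset.filter_mem_eq_inter, Finset.univ_inter, fz, Finset.mul_sum, Finset.mul_sum]

end SlopeB
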