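import Pool.Agent.Lib.SlopeB.Defs
import Pool.Agent.Lib.SlopeB.Defs2
import Pool.Agent.Lib.SlopeB.Sys

/-!
# Sums over the classes modulo two

`lf z` is the lift of `z : Fin b → ZMod 2`. PROOFS. For `v : (Fin b → ℤ) →+ ℤ` let
`χ_v(z) = (-1)^(v (lf z))` (as a real number, `= 1` if `v (lf z)` is even and `-1` if odd).
`sum_sign`: if `v` takes an odd value then `v (Pi.single t 1)` is odd for some `t` (`v h = ∑ h_i v (single i 1)`);
translation by `Pi.single t 1` in `Fin b → ZMod 2` is a bijection which changes the parity of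
`v (lf z)` (`lf (z + single t 1) ≡ lf z + single t 1` modulo two), so the sum of signs is `0`.
`count_two`: `4 [v (lf z) odd][v' (lf z) odd] = (1 - χ_v)(1 - χ_v') = 1 - χ_v - χ_v' + χ_{v+v'}`; the sums of
`χ_v`, `χ_v'`, `χ_{v+v'}` vanish because `v`, `v'`, `v + v'` take odd values (`v - v'` takes an odd value, so
`v + v'` does). So `4 * card = 2^b`.
`count_odd`: `2 [v odd] = 1 - χ_v`: `2 * card = 2^b`.
-/

set_option autoImplicit false

open scoped Matrix.Norms.Elementwise Real Topology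
open Complex Matrix MP6feb Filter

noncomputable section

namespace SlopeB

variable {b : ℕ}

private lemma kapB_sum (v : (Fin b → ℤ) →+ ℤ) (h : Fin b → ℤ) :
    v h = ∑ i, h i * v (Pi.single i 1) := by
  have h1 : h = ∑ i, h i • (Pi.single i 1 : Fin b → ℤ) := by
    funext j
    rw [Finset.sum_apply]
    simp [Pi.single_apply]
  conv_lhs => rw [h1]
  rw [map_sum]
  refine Finset.sum_congr rfl fun i _ => ?_
  rw [map_zsmul, smul_eq_mul]

private lemma kapB_cast (v : (Fin b → ℤ) →+ ℤ) (z : Fin b → ZMod 2) :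
    ((v (lf z) : ℤ) : ZMod 2) = ∑ i, z i * ((v (Pi.single i 1) : ℤ) : ZMod 2) := by
  rw [kapB_sum v (lf z)]
  push_cast
  refine Finset.sum_congr rfl fun i _ => ?_
  congr 1
  simp [lf]

private lemma kapB_dvd (a : ℤ) : (2 : ℤ) ∣ a ↔ ((a : ℤ) : ZMod 2) = 0 := by
  rw [ZMod.intCast_zmod_eq_zero_iff_dvd]
  norm_num

private lemma kapB_odd (v : (Fin b → ℤ) →+ ℤ) (hv : ∃ h, ¬ ((2 : ℤ) ∣ v h)) :
    ∃ t, ((v (Pi.single t 1) : ℤ) : ZMod 2) = 1 := by
  obtain ⟨h, hh⟩ := hv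
  by_contra hcon
  push Not at hcon
  apply hh
  rw [kapB_sum v h]
  refine Finset.dvd_sum fun i _ => ?_
  refine Dvd.dvd.mul_left ?_ _
  rw [kapB_dvd]
  have h1 := hcon i
  generalize ((v (Pi.single i 1) : ℤ) : ZMod 2) = x at h1
  fin_cases x
  · rfl
  · exact absurd rfl h1

theorem sum_sign (v : (Fin b → ℤ) →+ ℤ) (hv : ∃ h, ¬ ((2 : ℤ) ∣ v h)) :
    ∑ z : Fin b → ZMod 2, (if (2 : ℤ) ∣ v (lf z) then (1 : ℝ) else -1) = 0 := by
  obtain ⟨t, ht⟩ := kapB_odd v hv
  have h1 : ∑ z : Fin b → ZMod 2,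
      (if (2 : ℤ) ∣ v (lf (z + Pi.single t 1)) then (1 : ℝ) else -1) =
      ∑ z : Fin b → ZMod 2, (if (2 : ℤ) ∣ v (lf z) then (1 : ℝ) else -1) :=
    Fintype.sum_equiv (Equiv.addRight (Pi.single t 1 : Fin b → ZMod 2)) _ _ (fun _ => rfl)
  have h2 : ∀ z : Fin b → ZMod 2,
      (if (2 : ℤ) ∣ v (lf (z + Pi.single t 1)) then (1 : ℝ) else -1) =
      - (if (2 : ℤ) ∣ v (lf z) then (1 : ℝ) else -1) := by
    intro z
    have h3 : ((v (lf (z + Pi.single t 1)) : ℤ) : ZMod 2) = ((v (lf z) : ℤ) : ZMod 2) + 1 := by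
      rw [kapB_cast, kapB_cast]
      simp only [Pi.add_apply, add_mul, Finset.sum_add_distrib]
      congr 1
      rw [Finset.sum_eq_single t]
      · rw [Pi.single_eq_same, one_mul, ht]
      · intro i _ hi
        rw [Pi.single_eq_of_ne hi, zero_mul]
      · intro h
        exact absurd (Finset.mem_univ t) h
    simp only [kapB_dvd, h3]
    generalize ((v (lf z) : ℤ) : ZMod 2) = x
    fin_cases x
    · have e1 : ¬ ((0 : ZMod 2) + 1 = 0) := by decide
      show (if (0 : ZMod 2) + 1 = 0 then (1 : ℝ) else -1) =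
        - (if (0 : ZMod 2) = 0 then (1 : ℝ) else -1)
      rw [if_neg e1, if_pos rfl]
    · have e1 : ((1 : ZMod 2) + 1 = 0) := by decide
      have e2 : ¬ ((1 : ZMod 2) = 0) := by decide
      show (if (1 : ZMod 2) + 1 = 0 then (1 : ℝ) else -1) =
        - (if (1 : ZMod 2) = 0 then (1 : ℝ) else -1)
      rw [if_pos e1, if_neg e2, neg_neg]
  simp only [h2, Finset.sum_neg_distrib] at h1
  linarith

private lemma kapB_card : (∑ _z : Fin b → ZMod 2, (1 : ℝ)) = 2 ^ b := by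
  rw [Finset.sum_const, Finset.card_univ, nsmul_eq_mul, mul_one, Fintype.card_fun,
    ZMod.card, Fintype.card_fin]
  push_cast
  rfl

theorem count_odd (v : (Fin b → ℤ) →+ ℤ) (hv : ∃ h, ¬ ((2 : ℤ) ∣ v h)) :
    2 * (Finset.univ.filter (fun z : Fin b → ZMod 2 => ¬ ((2 : ℤ) ∣ v (lf z)))).card = 2 ^ b := by
  have h1 : ((2 * (Finset.univ.filter
      (fun z : Fin b → ZMod 2 => ¬ ((2 : ℤ) ∣ v (lf z)))).card : ℕ) : ℝ) = ((2 ^ b : ℕ) : ℝ) := by
    push_cast
    rw [Finset.card_filter]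
    push_cast
    rw [Finset.mul_sum, ← kapB_card (b := b)]
    have h2 : ∑ z : Fin b → ZMod 2, (2 : ℝ) * (if ¬ ((2 : ℤ) ∣ v (lf z)) then (1 : ℝ) else 0) =
        ∑ z : Fin b → ZMod 2, ((1 : ℝ) - (if (2 : ℤ) ∣ v (lf z) then (1 : ℝ) else -1)) := by
      refine Finset.sum_congr rfl fun z _ => ?_
      by_cases h : (2 : ℤ) ∣ v (lf z)
      · rw [if_neg (not_not.2 h), if_pos h]
        norm_num
      · rw [if_pos h, if_neg h]
        norm_num
    rw [h2, Finset.sum_sub_distrib, sum_sign v hv, sub_zero]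
  exact_mod_cast h1

theorem count_two (v v' : (Fin b → ℤ) →+ ℤ) (hv : ∃ h, ¬ ((2 : ℤ) ∣ v h))
    (hv' : ∃ h, ¬ ((2 : ℤ) ∣ v' h)) (hvv : ∃ h, ¬ ((2 : ℤ) ∣ v h - v' h)) :
    4 * (Finset.univ.filter (fun z : Fin b → ZMod 2 =>
      ¬ ((2 : ℤ) ∣ v (lf z)) ∧ ¬ ((2 : ℤ) ∣ v' (lf z)))).card = 2 ^ b := by
  have hs : ∃ h, ¬ ((2 : ℤ) ∣ (v + v') h) := by
    obtain ⟨h, hh⟩ := hvv
    refine ⟨h, fun hc => hh ?_⟩
    rw [AddMonoidHom.add_apply] at hc
    have e : v h - v' h = (v h + v' h) - 2 * v' h := by ring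
    rw [e]
    exact dvd_sub hc (Dvd.intro _ rfl)
  have h1 : ((4 * (Finset.univ.filter (fun z : Fin b → ZMod 2 =>
      ¬ ((2 : ℤ) ∣ v (lf z)) ∧ ¬ ((2 : ℤ) ∣ v' (lf z)))).card : ℕ) : ℝ) = ((2 ^ b : ℕ) : ℝ) := by
    push_cast
    rw [Finset.card_filter]
    push_cast
    rw [Finset.mul_sum, ← kapB_card (b := b)]
    have h2 : ∑ z : Fin b → ZMod 2,
        (4 : ℝ) * (if ¬ ((2 : ℤ) ∣ v (lf z)) ∧ ¬ ((2 : ℤ) ∣ v' (lf z)) then (1 : ℝ) else 0) =
        ∑ z : Fin b → ZMod 2, (((1 : ℝ) - (if (2 : ℤ) ∣ v (lf z) then (1 : ℝ) else -1))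
          - (if (2 : ℤ) ∣ v' (lf z) then (1 : ℝ) else -1)
          + (if (2 : ℤ) ∣ (v + v') (lf z) then (1 : ℝ) else -1)) := by
      refine Finset.sum_congr rfl fun z _ => ?_
      by_cases h : (2 : ℤ) ∣ v (lf z)
      · by_cases h' : (2 : ℤ) ∣ v' (lf z)
        · have h3 : (2 : ℤ) ∣ (v + v') (lf z) := by
            rw [AddMonoidHom.add_apply]
            exact dvd_add h h'
          rw [if_neg (fun hc => hc.1 h), if_pos h, if_pos h', if_pos h3]
          norm_num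
        · have h3 : ¬ (2 : ℤ) ∣ (v + v') (lf z) := by
            rw [AddMonoidHom.add_apply]
            intro hc
            exact h' ((dvd_add_right h).1 hc)
          rw [if_neg (fun hc => hc.1 h), if_pos h, if_neg h', if_neg h3]
          norm_num
      · by_cases h' : (2 : ℤ) ∣ v' (lf z)
        · have h3 : ¬ (2 : ℤ) ∣ (v + v') (lf z) := by
            rw [AddMonoidHom.add_apply]
            intro hc
            exact h ((dvd_add_left h').1 hc)
          rw [if_neg (fun hc => hc.2 h'), if_neg h, if_pos h', if_neg h3]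
          norm_num
        · have h3 : (2 : ℤ) ∣ (v + v') (lf z) := by
            rw [AddMonoidHom.add_apply]
            omega
          rw [if_pos ⟨h, h'⟩, if_neg h, if_neg h', if_pos h3]
          norm_num
    rw [h2, Finset.sum_add_distrib, Finset.sum_sub_distrib, Finset.sum_sub_distrib,
      sum_sign v hv, sum_sign v' hv', sum_sign (v + v') hs]
    ring
  exact_mod_cast h1

end SlopeB
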