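import Pool.Agent.Lib.SlopeB.Defs
import Pool.Agent.Lib.SlopeB.Defs2

/-!
# Orders

PROOFS. `exists_ordE`: the least `i` with `2^K ∣ 2^i s_t` for all `t` (`Nat.find`; `i = K` works).
`ordE_mul`: let `s` have order `i` and `j ≥ 1`, `v = v₂ j`, `j = 2^v u`, `u` odd. `2^K ∣ 2^i' (j s_t)` iff
`2^K ∣ 2^(i'+v) s_t`.
-/

set_option autoImplicit false

open scoped Matrix.Norms.Elementwise Real Topology
open Complex Matrix MP6feb Filter

noncomputable section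

namespace SlopeB

variable {b K : ℕ}

private theorem OrdL_key {j : ℕ} (hj : 1 ≤ j) (K e : ℕ) (x : ℤ) :
    (2 : ℤ) ^ K ∣ 2 ^ e * ((j : ℤ) * x) ↔ (2 : ℤ) ^ K ∣ 2 ^ (e + padicValNat 2 j) * x := by
  obtain ⟨u, hu⟩ := @pow_padicValNat_dvd 2 j
  set v := padicValNat 2 j with hv
  have hj0 : j ≠ 0 := by omega
  have hodd : ¬ 2 ∣ u := by
    rintro ⟨w, hw⟩
    have h1 : 2 ^ (v + 1) ∣ j := ⟨w, by rw [hu, hw]; ring⟩
    exact pow_succ_padicValNat_not_dvd hj0 h1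
  have h1 : (2 : ℤ) ^ e * ((j : ℤ) * x) = (u : ℤ) * (2 ^ (e + v) * x) := by
    have h2 : (j : ℤ) = 2 ^ v * (u : ℤ) := by exact_mod_cast hu
    rw [h2, pow_add]
    ring
  rw [h1]
  constructor
  · intro h
    have hc : IsCoprime ((2 : ℤ) ^ K) (u : ℤ) := by
      apply IsCoprime.pow_left
      rw [Int.isCoprime_iff_gcd_eq_one]
      have h3 : Nat.Coprime 2 u := (Nat.Prime.coprime_iff_not_dvd Nat.prime_two).2 hodd
      simpa [Int.gcd] using h3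
    exact hc.dvd_of_dvd_mul_left h
  · intro h
    exact Dvd.dvd.mul_left h _

private theorem OrdL_smul (j : ℤ) (s : Fin b → ℤ) (t : Fin b) : (j • s) t = j * s t := by
  rw [Pi.smul_apply, smul_eq_mul]

theorem exists_ordE (K : ℕ) (s : Fin b → ℤ) : ∃ i, OrdE K s i := by
  classical
  have h : ∃ i : ℕ, ∀ t, (2 : ℤ) ^ K ∣ 2 ^ i * s t := ⟨K, fun t => Dvd.intro _ rfl⟩
  refine ⟨Nat.find h, Nat.find_spec h, fun i' hi' => ?_⟩
  have h1 := Nat.find_min h hi'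
  push Not at h1
  exact h1

theorem ordE_mul {s : Fin b → ℤ} {i j o : ℕ} (hs : OrdE K s i) (hj : 1 ≤ j)
    (ho : padicValNat 2 j + o = i) : OrdE K ((j : ℤ) • s) o := by
  constructor
  · intro t
    rw [OrdL_smul, OrdL_key hj, show o + padicValNat 2 j = i by omega]
    exact hs.1 t
  · intro o' ho'
    obtain ⟨t, ht⟩ := hs.2 (o' + padicValNat 2 j) (by omega)
    refine ⟨t, ?_⟩
    rw [OrdL_smul, OrdL_key hj]
    exact ht

theorem ordE_mul_high {s : Fin b → ℤ} {i j : ℕ} (hs : OrdE K s i) (hj : 1 ≤ j)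
    (ho : i ≤ padicValNat 2 j) (t : Fin b) : (2 : ℤ) ^ K ∣ ((j : ℤ) • s) t := by
  have h1 := (OrdL_key hj K 0 (s t)).2 (by
    obtain ⟨c, hc⟩ := Nat.exists_eq_add_of_le ho
    rw [zero_add, hc, pow_add]
    have h2 := hs.1 t
    have h3 : (2 : ℤ) ^ i * 2 ^ c * s t = 2 ^ c * (2 ^ i * s t) := by ring
    rw [h3]
    exact Dvd.dvd.mul_left h2 _)
  rw [OrdL_smul]
  simpa using h1

theorem ordE_one {s : Fin b → ℤ} (hK : 1 ≤ K) (hs : OrdE K s 1) :
    ∃ d : Fin b → ℤ, s = (2 : ℤ) ^ (K - 1) • d ∧ ¬ ∃ w : Fin b → ℤ, d = 2 • w := by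
  have hKK : (2 : ℤ) ^ K = 2 * 2 ^ (K - 1) := by
    rw [← pow_succ', show K - 1 + 1 = K by omega]
  have h1 : ∀ t, ∃ d : ℤ, s t = 2 ^ (K - 1) * d := by
    intro t
    have h2 := hs.1 t
    rw [hKK, pow_one] at h2
    exact (mul_dvd_mul_iff_left (by norm_num : (2 : ℤ) ≠ 0)).1 h2
  choose d hd using h1
  refine ⟨d, ?_, ?_⟩
  · funext t
    rw [OrdL_smul]
    exact hd t
  · rintro ⟨w, hw⟩
    obtain ⟨t, ht⟩ := hs.2 0 (by norm_num)
    apply ht
    refine ⟨w t, ?_⟩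
    have h2 : d t = 2 * w t := by
      rw [hw, Pi.smul_apply]
      simp
    rw [hd t, h2, hKK]
    ring

theorem ordE_zero {s : Fin b → ℤ} (hK : 1 ≤ K) (hs : OrdE K s 0) :
    ∃ w : Fin b → ℤ, s = 2 • w := by
  have hKK : (2 : ℤ) ^ K = 2 * 2 ^ (K - 1) := by
    rw [← pow_succ', show K - 1 + 1 = K by omega]
  have h1 : ∀ t, ∃ d : ℤ, s t = 2 * d := by
    intro t
    have h2 := hs.1 t
    rw [hKK, pow_zero, one_mul] at h2
    exact dvd_of_mul_right_dvd h2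
  choose w hw using h1
  refine ⟨w, ?_⟩
  funext t
  rw [Pi.smul_apply, hw t]
  simp

end SlopeB
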