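import Pool.Agent.Lib.SlopeB.Defs
import Pool.Agent.Lib.SlopeB.Defs2
import Pool.Agent.Lib.SlopeB.ChB
import Pool.Agent.Lib.SlopeB.FouZ

/-!
# Fourier coefficients of `Yz`

PROOFS. `n = 2^K`. `Yz ⊆ Y0`.
`fz_odd`: for odd `u` the map `y ↦ u y` is a bijection of `Yz` (`pr (u y) k = u pr y k`, `u` is a unit in
`ZMod n`, divisibility by `2^j` is not changed; the inverse is the multiplication by the inverse of
`u`, an odd number), and `ch K (u y) s = ch K y (u • s)` (`ch_mul_left`). (`u : ℕ`; `u = 1` modulo 2.)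
`fz_real`: `conj (ch K y s) = ch K y (-s) = ch K (-y) s` and `y ↦ -y` is a bijection of `Yz`; so `fz` is
equal to its conjugate.
`fz_high`: if `2^K ∤ 2^r s_t`: translation by `2^r • Pi.single t 1` is a bijection of `Yz` (`r ≥ 1`: parities of
`pr y k` and divisibility by `2^r` of `pr y k` do not change) and multiplies `ch K y s` by
`exp(2πi 2^r s_t/2^K) ≠ 1`.
`fz_diff`: with `a = ∑_{Yz} ch`, `b = ∑_{Y0} ch`, `‖b - a‖ ≤ card Y0 - card Yz =: m` and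
`‖a‖ ≤ card Yz`: `‖a/|Yz| - b/|Y0|‖ ≤ ‖a‖ (1/|Yz| - 1/|Y0|) + ‖b - a‖/|Y0| ≤ 2m/|Y0| ≤ 2 C₁/4^r`.
`fz_le`: `‖fz K Y s‖ ≤ 1`. `fz_one`: if all `2^K ∣ s_t` and `Y` nonempty then `fz = 1`.
-/

set_option autoImplicit false

open scoped Matrix.Norms.Elementwise Real Topology
open Complex Matrix MP6feb Filter

noncomputable section

namespace SlopeB

private theorem yzF_prZ {b n : ℕ} [NeZero n] (y : Fin b → ZMod n) (s : Fin b → ℤ) :
    ((prZ y s : ℤ) : ZMod n) = pr y s := by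
  simp [prZ, pr]

private theorem yzF_ch {b K : ℕ} (y : Fin b → ZMod (2 ^ K)) (s : Fin b → ℤ) :
    ch K y s = ZMod.stdAddChar (pr y s) := by
  rw [← yzF_prZ, ZMod.stdAddChar_coe, ch]
  congr 1
  push_cast
  ring

private theorem yzF_pr_add {b n : ℕ} (y u : Fin b → ZMod n) (s : Fin b → ℤ) :
    pr (y + u) s = pr y s + pr u s := by
  simp [pr, add_mul, Finset.sum_add_distrib]

private theorem yzF_ch_add {b K : ℕ} (y u : Fin b → ZMod (2 ^ K)) (s : Fin b → ℤ) :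
    ch K (y + u) s = ch K y s * ch K u s := by
  rw [yzF_ch, yzF_ch, yzF_ch, yzF_pr_add, AddChar.map_add_eq_mul]

private theorem yzF_norm {b K : ℕ} (y : Fin b → ZMod (2 ^ K)) (s : Fin b → ℤ) : ‖ch K y s‖ = 1 := by
  have : ch K y s = cexp (((2 * π * ((prZ y s : ℝ) / 2 ^ K) : ℝ) : ℂ) * I) := by
    rw [ch]
    congr 1
    push_cast
    ring
  rw [this, Complex.norm_exp_ofReal_mul_I]

private theorem yzF_vanish {b K : ℕ} (Y : Finset (Fin b → ZMod (2 ^ K))) (u : Fin b → ZMod (2 ^ K))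
    (s : Fin b → ℤ) (hY : ∀ y ∈ Y, y + u ∈ Y) (hu : ch K u s ≠ 1) : ∑ y ∈ Y, ch K y s = 0 := by
  classical
  have hbij : ∑ y ∈ Y, ch K (y + u) s = ∑ y ∈ Y, ch K y s := by
    have himg : Y.image (fun y => y + u) = Y := by
      apply Finset.eq_of_subset_of_card_le
      · intro y hy
        obtain ⟨y', hy', rfl⟩ := Finset.mem_image.mp hy
        exact hY y' hy'
      · rw [Finset.card_image_of_injective _ (add_left_injective u)]
    conv_rhs => rw [← himg]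
    rw [Finset.sum_image (fun a _ b _ h => add_left_injective u h)]
  simp only [yzF_ch_add] at hbij
  rw [← Finset.sum_mul] at hbij
  have h1 : (∑ y ∈ Y, ch K y s) * (ch K u s - 1) = 0 := by
    rw [mul_sub, hbij]; ring
  rcases mul_eq_zero.mp h1 with h | h
  · exact h
  · exact absurd (sub_eq_zero.mp h) hu

private theorem yzF_avg {α : Type} [DecidableEq α] (Y Y' : Finset α) (hsub : Y' ⊆ Y) (hne : Y'.Nonempty) (f : α → ℂ)
    (hf : ∀ y, ‖f y‖ ≤ 1) (p : ℝ) (hp : ((Y \ Y').card : ℝ) ≤ p * Y.card) :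
    ‖(Y'.card : ℂ)⁻¹ * ∑ y ∈ Y', f y - (Y.card : ℂ)⁻¹ * ∑ y ∈ Y, f y‖ ≤ 2 * p := by
  have hY' : (0:ℝ) < Y'.card := by exact_mod_cast hne.card_pos
  have hYn : Y.Nonempty := hne.mono hsub
  have hY : (0:ℝ) < Y.card := by exact_mod_cast hYn.card_pos
  have hcard : (Y.card : ℝ) = Y'.card + (Y \ Y').card := by
    have := Finset.card_sdiff_add_card_eq_card hsub
    rw [← this]; push_cast; ring
  have hsum : ∑ y ∈ Y, f y = ∑ y ∈ Y \ Y', f y + ∑ y ∈ Y', f y := (Finset.sum_sdiff hsub).symm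
  have b1 : ‖∑ y ∈ Y', f y‖ ≤ Y'.card := by
    refine (norm_sum_le _ _).trans ?_
    refine (Finset.sum_le_sum fun y _ => hf y).trans ?_
    simp
  have b2 : ‖∑ y ∈ Y \ Y', f y‖ ≤ (Y \ Y').card := by
    refine (norm_sum_le _ _).trans ?_
    refine (Finset.sum_le_sum fun y _ => hf y).trans ?_
    simp
  have hY'c : (Y'.card : ℂ) ≠ 0 := by exact_mod_cast hY'.ne'
  have hYc : (Y.card : ℂ) ≠ 0 := by exact_mod_cast hY.ne'
  have hcc : (Y.card : ℂ) = Y'.card + (Y \ Y').card := by exact_mod_cast hcard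
  have e : (Y'.card : ℂ)⁻¹ * ∑ y ∈ Y', f y - (Y.card : ℂ)⁻¹ * ∑ y ∈ Y, f y =
      (Y.card : ℂ)⁻¹ * (((Y \ Y').card : ℂ) * ((Y'.card : ℂ)⁻¹ * ∑ y ∈ Y', f y) - ∑ y ∈ Y \ Y', f y) := by
    rw [hsum]
    field_simp
    rw [hcc]
    ring
  rw [e, norm_mul, norm_inv, Complex.norm_natCast]
  have b3 : ‖((Y \ Y').card : ℂ) * ((Y'.card : ℂ)⁻¹ * ∑ y ∈ Y', f y) - ∑ y ∈ Y \ Y', f y‖ ≤ 2 * (Y \ Y').card := by
    refine (norm_sub_le _ _).trans ?_
    rw [norm_mul, norm_mul, norm_inv, Complex.norm_natCast, Complex.norm_natCast]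
    have b4 : (Y'.card : ℝ)⁻¹ * ‖∑ y ∈ Y', f y‖ ≤ 1 := by
      rw [inv_mul_le_iff₀ hY']; linarith
    have b5 : ((Y \ Y').card : ℝ) * ((Y'.card : ℝ)⁻¹ * ‖∑ y ∈ Y', f y‖) ≤ (Y \ Y').card * 1 :=
      mul_le_mul_of_nonneg_left b4 (Nat.cast_nonneg _)
    linarith
  calc (Y.card : ℝ)⁻¹ * ‖_‖ ≤ (Y.card : ℝ)⁻¹ * (2 * (Y \ Y').card) :=
        mul_le_mul_of_nonneg_left b3 (by positivity)
    _ ≤ (Y.card : ℝ)⁻¹ * (2 * (p * Y.card)) := by
        apply mul_le_mul_of_nonneg_left _ (by positivity)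
        linarith
    _ = 2 * p := by field_simp

private theorem yzF_smul_pr {b n : ℕ} (a : ZMod n) (u : Fin b → ZMod n) (s : Fin b → ℤ) :
    pr (fun i => a * u i) s = a * pr u s := by
  simp [pr, Finset.mul_sum, mul_assoc]

private theorem yzF_mem_Y0 {b : ℕ} {E : Type} {c : E → (Fin b → ℤ) →+ ℤ} {K : ℕ} {z : Fin b → ℤ}
    {y : Fin b → ZMod (2 ^ K)} : y ∈ Y0 c K z ↔ ∀ k ∈ KK c z, ¬ ((2 : ZMod (2 ^ K)) ∣ pr y k) := by
  simp [Y0]

private theorem yzF_mem_Yz {b : ℕ} {E : Type} {c : E → (Fin b → ℤ) →+ ℤ} {K r : ℕ} {z : Fin b → ℤ}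
    {y : Fin b → ZMod (2 ^ K)} : y ∈ Yz c K r z ↔ y ∈ Y0 c K z ∧
      ∀ k ∈ OO c, ∀ k' ∈ OO c, k ≠ 0 → k' ≠ 0 → k' ≠ k → k' ≠ -k →
    ¬ ((2 : ZMod (2 ^ K)) ^ r ∣ pr y k ∧ (2 : ZMod (2 ^ K)) ^ r ∣ pr y k') := by
  simp [Yz]

/-- `Y0` is stable under adding functionals with even values on the common blocks -/
private theorem yzF_Y0_add {b : ℕ} {E : Type} {c : E → (Fin b → ℤ) →+ ℤ} {K : ℕ} {z : Fin b → ℤ}
    {y u : Fin b → ZMod (2 ^ K)} (hu : ∀ k ∈ KK c z, (2 : ZMod (2 ^ K)) ∣ pr u k)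
    (hy : y ∈ Y0 c K z) : y + u ∈ Y0 c K z := by
  rw [yzF_mem_Y0] at hy ⊢
  intro k hk h
  rw [yzF_pr_add] at h
  exact hy k hk ((dvd_add_left (hu k hk)).mp h)

private theorem yzF_Yz_add {b : ℕ} {E : Type} {c : E → (Fin b → ℤ) →+ ℤ} {K r : ℕ} (hr : 1 ≤ r) {z : Fin b → ℤ}
    {y u : Fin b → ZMod (2 ^ K)} (hu : ∀ k, (2 : ZMod (2 ^ K)) ^ r ∣ pr u k)
    (hy : y ∈ Yz c K r z) : y + u ∈ Yz c K r z := by
  rw [yzF_mem_Yz] at hy ⊢
  refine ⟨yzF_Y0_add (fun k _ => (dvd_pow_self 2 (by omega)).trans (hu k)) hy.1, ?_⟩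
  intro k hk k' hk' h1 h2 h3 h4 h
  rw [yzF_pr_add, yzF_pr_add] at h
  exact hy.2 k hk k' hk' h1 h2 h3 h4 ⟨(dvd_add_left (hu k)).mp h.1, (dvd_add_left (hu k')).mp h.2⟩

/-- character of a multiple of a unit vector -/
private theorem yzF_ch_single {b K : ℕ} (a : ℤ) (t : Fin b) (s : Fin b → ℤ) :
    ch K (fun i => (a : ZMod (2 ^ K)) * (Pi.single t 1 : Fin b → ZMod (2 ^ K)) i) s = 1 ↔
      (2 : ℤ) ^ K ∣ a * s t := by
  have h1 : pr (fun i => (a : ZMod (2 ^ K)) * (Pi.single t 1 : Fin b → ZMod (2 ^ K)) i) s = ((a * s t : ℤ) : ZMod (2 ^ K)) := by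
    rw [yzF_smul_pr, pr, Finset.sum_eq_single t]
    · simp
    · intro t' _ ht
      simp [Pi.single_eq_of_ne ht]
    · simp
  rw [yzF_ch, h1, ← AddChar.map_zero_eq_one (ZMod.stdAddChar (N := 2 ^ K)), ZMod.injective_stdAddChar.eq_iff,
    ZMod.intCast_zmod_eq_zero_iff_dvd]
  push_cast
  rfl

private theorem yzF_pr_smul {b n : ℕ} (j : ℤ) (y : Fin b → ZMod n) (s : Fin b → ℤ) :
    pr y (fun t => j * s t) = (j : ZMod n) * pr y s := by
  simp only [pr, Finset.mul_sum]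
  refine Finset.sum_congr rfl fun i _ => ?_
  push_cast
  ring

private theorem yzF_unit {K : ℕ} {j : ℤ} (hj : ¬ (2 : ℤ) ∣ j) : IsUnit (j : ZMod (2 ^ K)) := by
  have h1 : IsCoprime j ((2 ^ K : ℕ) : ℤ) := by
    push_cast
    apply IsCoprime.pow_right
    rw [Int.isCoprime_iff_gcd_eq_one, Int.gcd_comm]
    rcases Int.emod_two_eq_zero_or_one j with h | h
    · exact absurd (Int.dvd_of_emod_eq_zero h) hj
    · have : Int.gcd 2 j = Int.gcd 2 (j % 2) := by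
        rw [Int.gcd_comm 2 (j % 2), Int.gcd_comm 2 j]
        exact (Int.gcd_emod j 2).symm
      rw [this, h]
      rfl
  obtain ⟨a, c, h⟩ := h1
  have h2 := congrArg (fun x : ℤ => (x : ZMod (2 ^ K))) h
  simp only [Int.cast_add, Int.cast_mul, Int.cast_natCast, ZMod.natCast_self, mul_zero, add_zero, Int.cast_one] at h2
  exact IsUnit.of_mul_eq_one (a : ZMod (2 ^ K)) (by rw [mul_comm]; exact h2)

private theorem yzF_Y_odd {b : ℕ} {K : ℕ} (Y : Finset (Fin b → ZMod (2 ^ K))) {j : ℤ} (hj : ¬ (2 : ℤ) ∣ j)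
    (hY : ∀ y ∈ Y, (fun i => (j : ZMod (2 ^ K)) * y i) ∈ Y) (s : Fin b → ℤ) :
    ∑ y ∈ Y, ch K y (fun t => j * s t) = ∑ y ∈ Y, ch K y s := by
  classical
  have hu := yzF_unit (K := K) hj
  have hinj : Function.Injective (fun y : Fin b → ZMod (2 ^ K) => (fun i => (j : ZMod (2 ^ K)) * y i)) := by
    intro y y' h
    funext i
    exact hu.mul_left_cancel (congrFun h i)
  have himg : Y.image (fun y => (fun i => (j : ZMod (2 ^ K)) * y i)) = Y := by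
    apply Finset.eq_of_subset_of_card_le
    · intro y hy
      obtain ⟨y', hy', rfl⟩ := Finset.mem_image.mp hy
      exact hY y' hy'
    · rw [Finset.card_image_of_injective _ hinj]
  conv_rhs => rw [← himg]
  rw [Finset.sum_image (fun a _ b _ h => hinj h)]
  refine Finset.sum_congr rfl fun y _ => ?_
  rw [yzF_ch, yzF_ch, yzF_pr_smul, yzF_smul_pr]

variable {b K r : ℕ} {E : Type}

theorem fz_le (Y : Finset (Fin b → ZMod (2 ^ K))) (s : Fin b → ℤ) : ‖fz K Y s‖ ≤ 1 := by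
  rw [fz, norm_mul, norm_inv, Complex.norm_natCast]
  rcases Finset.eq_empty_or_nonempty Y with h | h
  · rw [h]; simp
  · have hc : (0:ℝ) < Y.card := by exact_mod_cast h.card_pos
    rw [inv_mul_le_iff₀ hc, mul_one]
    refine (norm_sum_le _ _).trans ?_
    refine (Finset.sum_le_sum fun y _ => (yzF_norm y s).le).trans ?_
    simp

theorem fz_one {Y : Finset (Fin b → ZMod (2 ^ K))} (hY : Y.Nonempty) {s : Fin b → ℤ}
    (h : ∀ t, (2 : ℤ) ^ K ∣ s t) : fz K Y s = 1 := by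
  have hc : (Y.card : ℂ) ≠ 0 := by exact_mod_cast hY.card_pos.ne'
  have h1 : ∀ y ∈ Y, ch K y s = 1 := by
    intro y _
    have h2 : pr y s = 0 := by
      rw [pr]
      refine Finset.sum_eq_zero fun i _ => ?_
      have : ((s i : ℤ) : ZMod (2 ^ K)) = 0 := by
        rw [ZMod.intCast_zmod_eq_zero_iff_dvd]
        exact_mod_cast h i
      rw [this, mul_zero]
    rw [yzF_ch, h2, AddChar.map_zero_eq_one]
  rw [fz, Finset.sum_congr rfl h1, Finset.sum_const, nsmul_eq_mul, mul_one, inv_mul_cancel₀ hc]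

theorem fz_odd (c : E → (Fin b → ℤ) →+ ℤ) (z s : Fin b → ℤ) {u : ℕ} (hu : ¬ 2 ∣ u) :
    fz K (Yz c K r z) ((u : ℤ) • s) = fz K (Yz c K r z) s := by
  have hu' : ¬ (2 : ℤ) ∣ (u : ℤ) := by exact_mod_cast hu
  have h := yzF_Y_odd (Yz c K r z) hu' (by
    intro y hy
    have hun := yzF_unit (K := K) hu'
    rw [yzF_mem_Yz, yzF_mem_Y0] at hy ⊢
    simp only [yzF_smul_pr, hun.dvd_mul_left]
    exact hy) s
  rw [fz, fz]
  exact congrArg _ h

theorem fz_real (c : E → (Fin b → ℤ) →+ ℤ) (z s : Fin b → ℤ) :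
    (starRingEnd ℂ) (fz K (Yz c K r z) s) = fz K (Yz c K r z) s := by
  have hu' : ¬ (2 : ℤ) ∣ (-1 : ℤ) := by norm_num
  have h := yzF_Y_odd (Yz c K r z) hu' (by
    intro y hy
    have hun := yzF_unit (K := K) hu'
    rw [yzF_mem_Yz, yzF_mem_Y0] at hy ⊢
    simp only [yzF_smul_pr, hun.dvd_mul_left]
    exact hy) s
  rw [fz, map_mul, map_inv₀, Complex.conj_natCast, map_sum, ← h]
  congr 1
  refine Finset.sum_congr rfl fun y _ => ?_
  have e1 : pr y (fun t => -1 * s t) = - pr y s := by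
    rw [yzF_pr_smul]
    push_cast
    ring
  rw [yzF_ch y (fun t => -1 * s t), e1, AddChar.map_neg_eq_inv, ← yzF_ch, Complex.inv_def,
    Complex.normSq_eq_norm_sq, yzF_norm]
  simp

theorem fz_high (hr : 1 ≤ r) (c : E → (Fin b → ℤ) →+ ℤ) (z : Fin b → ℤ) {s : Fin b → ℤ}
    (h : ∃ t, ¬ ((2 : ℤ) ^ K ∣ 2 ^ r * s t)) : fz K (Yz c K r z) s = 0 := by
  obtain ⟨t, ht⟩ := h
  rw [fz, yzF_vanish _ (fun i => (((2 : ℤ) ^ r : ℤ) : ZMod (2 ^ K)) *
    (Pi.single t 1 : Fin b → ZMod (2 ^ K)) i) s, mul_zero]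
  · intro y hy
    refine yzF_Yz_add hr (fun k => ?_) hy
    rw [yzF_smul_pr]
    exact ⟨_, by push_cast; rfl⟩
  · rw [Ne, yzF_ch_single]
    exact ht

theorem fz_diff (c : E → (Fin b → ℤ) →+ ℤ) (z s : Fin b → ℤ) {C₁ : ℕ}
    (hY : (Yz c K r z).Nonempty)
    (h : (Y0 c K z).card * 4 ^ r ≤ (Yz c K r z).card * 4 ^ r + C₁ * (Y0 c K z).card) :
    ‖fz K (Yz c K r z) s - fz K (Y0 c K z) s‖ ≤ 2 * C₁ * (1 / 4) ^ r := by
  classical
  have hsub : Yz c K r z ⊆ Y0 c K z := Finset.filter_subset _ _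
  have h1 := yzF_avg (Y0 c K z) (Yz c K r z) hsub hY (fun y => ch K y s) (fun y => (yzF_norm y s).le)
    (C₁ * (1 / 4) ^ r) (by
      have h2 : ((Y0 c K z \ Yz c K r z).card : ℝ) = (Y0 c K z).card - (Yz c K r z).card := by
        have := Finset.card_sdiff_add_card_eq_card hsub
        rw [← this]; push_cast; ring
      have h3 : ((Y0 c K z).card : ℝ) * 4 ^ r ≤ (Yz c K r z).card * 4 ^ r + C₁ * (Y0 c K z).card := by
        exact_mod_cast h
      have h4 : (0:ℝ) < 4 ^ r := by positivity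
      have h5 : (1 / 4 : ℝ) ^ r * 4 ^ r = 1 := by rw [← mul_pow]; norm_num
      rw [h2]
      have h6 : (((Y0 c K z).card : ℝ) - (Yz c K r z).card) * 4 ^ r ≤
          (C₁ * (1 / 4) ^ r * (Y0 c K z).card) * 4 ^ r := by
        calc (((Y0 c K z).card : ℝ) - (Yz c K r z).card) * 4 ^ r ≤ C₁ * (Y0 c K z).card := by linarith
          _ = C₁ * (Y0 c K z).card * ((1 / 4 : ℝ) ^ r * 4 ^ r) := by rw [h5, mul_one]
          _ = _ := by ring
      exact le_of_mul_le_mul_right h6 h4)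
  refine h1.trans (le_of_eq ?_)
  ring

end SlopeB
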