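import Pool.Agent.Lib.SlopeB.Defs
import Pool.Agent.Lib.SlopeB.Defs2
import Pool.Agent.Lib.SlopeB.FouZ
import Pool.Agent.Lib.SlopeB.YzF
import Pool.Agent.Lib.SlopeB.OrdL
import Pool.Agent.Lib.SlopeB.KapB
import Pool.Agent.Lib.SlopeB.Sys

/-!
# The Fourier coefficient of the law without isolated directions: bounds

Notation: `μ = (2/3)/2^b`, `δ = 2 C₁ (1/4)^r`; `σ` is a bounded function of the class.
`gam_small2`: the order `o` of `s` is at least two, so some `2^K ∤ 2 s_t` (`OrdE`, `i' = 1 < o`), and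
`fz K (Y0 c K (lf z)) s = 0` (`Y0_four4`), so `‖fz K Yz s‖ ≤ δ` (`fz_diff`), and the sum is at most
`2^b μ δ = (2/3) δ`.
`gam_small1`: `s = 2^(K-1) • d`, `d ∉ 2H` (`ordE_one`). `d` is not isolated, so there are `e, f` with `c e d`,
`c f d` odd and `h` with `c e h - c f h` odd. `c e`, `c f` take odd values (at `d`). If
`fz K (Y0 c K (lf z)) s ≠ 0` then `c e (lf z)` and `c f (lf z)` are odd (`Y0_four2`), so the number `N` of
such `z` satisfies `4 N ≤ 2^b` (`count_two`). `‖fz K Yz s‖ ≤ ‖fz K Y0 s‖ + δ` (`fz_diff`), `‖fz K Y0 s‖ ≤ 1`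
(`fz_le`), `= 0` for the other `z`: the sum is at most `μ N + 2^b μ δ ≤ 1/6 + (2/3) δ`.
-/

set_option autoImplicit false

open scoped Matrix.Norms.Elementwise Real Topology
open Complex Matrix MP6feb Filter

noncomputable section

namespace SlopeB

private theorem gfb_delta (C₁ r : ℕ) : (0 : ℝ) ≤ 2 * C₁ * (1 / 4) ^ r := by positivity

private theorem gfb_mu (b : ℕ) : ‖(2 / 3 / 2 ^ b : ℂ)‖ = 2 / 3 / 2 ^ b := by
  rw [norm_div, norm_div, norm_pow]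
  norm_num

private theorem gfb_card (b : ℕ) : (Finset.univ : Finset (Fin b → ZMod 2)).card = 2 ^ b := by
  rw [Finset.card_univ, Fintype.card_fun, ZMod.card, Fintype.card_fin]

theorem gam_small2 {b : ℕ} {E : Type} {c : E → (Fin b → ℤ) →+ ℤ}
    {r K C₁ : ℕ} (hYz : ∀ z, (Yz c K r z).Nonempty)
    (hC : ∀ z, (Y0 c K z).card * 4 ^ r ≤ (Yz c K r z).card * 4 ^ r + C₁ * (Y0 c K z).card)
    (σ : (Fin b → ZMod 2) → ℂ) (hσ : ∀ z, ‖σ z‖ ≤ 1) {s : Fin b → ℤ} {o : ℕ}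
    (hs : OrdE K s o) (ho : 2 ≤ o) :
    ‖∑ z : Fin b → ZMod 2, (if z = 0 then 0 else (2 / 3 / 2 ^ b : ℂ) * σ z *
        fz K (Yz c K r (lf z)) s)‖ ≤ 2 * C₁ * (1 / 4) ^ r := by
  have hδ := gfb_delta C₁ r
  have hs1 : ∃ t, ¬ ((2 : ℤ) ^ K ∣ 2 * s t) := by
    have h1 := hs.2 1 (by omega)
    simpa using h1
  have hterm : ∀ z : Fin b → ZMod 2, ‖(if z = 0 then 0 else (2 / 3 / 2 ^ b : ℂ) * σ z *
        fz K (Yz c K r (lf z)) s)‖ ≤ 2 / 3 / 2 ^ b * (2 * C₁ * (1 / 4) ^ r) := by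
    intro z
    split_ifs with hz
    · rw [norm_zero]
      positivity
    · have h0 : fz K (Y0 c K (lf z)) s = 0 := by
        rw [fz, Y0_four4 (lf z) hs1, mul_zero]
      have h1 := fz_diff c (lf z) s (hYz (lf z)) (hC (lf z))
      rw [h0, sub_zero] at h1
      rw [norm_mul, norm_mul, gfb_mu]
      have h2 : (2 / 3 / 2 ^ b : ℝ) * ‖σ z‖ ≤ 2 / 3 / 2 ^ b :=
        mul_le_of_le_one_right (by positivity) (hσ z)
      exact mul_le_mul h2 h1 (norm_nonneg _) (by positivity)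
  refine (norm_sum_le _ _).trans ((Finset.sum_le_sum fun z _ => hterm z).trans ?_)
  rw [Finset.sum_const, gfb_card, nsmul_eq_mul]
  push_cast
  have h3 : (2 : ℝ) ^ b * (2 / 3 / 2 ^ b * (2 * C₁ * (1 / 4) ^ r))
      = 2 / 3 * (2 * C₁ * (1 / 4) ^ r) := by
    field_simp
  rw [h3]
  linarith

theorem gam_small1 {b : ℕ} {E : Type} [Finite E] {c : E → (Fin b → ℤ) →+ ℤ} (hc : IsSys c)
    (hNI : ∀ d, ¬ Isol c d) {r K C₁ : ℕ} (hK : 1 ≤ K) (hYz : ∀ z, (Yz c K r z).Nonempty)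
    (hC : ∀ z, (Y0 c K z).card * 4 ^ r ≤ (Yz c K r z).card * 4 ^ r + C₁ * (Y0 c K z).card)
    (σ : (Fin b → ZMod 2) → ℂ) (hσ : ∀ z, ‖σ z‖ ≤ 1) {s : Fin b → ℤ} (hs : OrdE K s 1) :
    ‖∑ z : Fin b → ZMod 2, (if z = 0 then 0 else (2 / 3 / 2 ^ b : ℂ) * σ z *
        fz K (Yz c K r (lf z)) s)‖ ≤ 1 / 6 + 2 * C₁ * (1 / 4) ^ r := by
  classical
  have hδ := gfb_delta C₁ r
  obtain ⟨d, hd, hd2⟩ := ordE_one hK hs
  obtain ⟨e, f, he, hf, h, hh⟩ : ∃ e f, ¬ ((2 : ℤ) ∣ c e d) ∧ ¬ ((2 : ℤ) ∣ c f d) ∧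
      ∃ h, ¬ ((2 : ℤ) ∣ c e h - c f h) := by
    by_contra hcon
    refine hNI d ⟨hd2, fun e f he hf h => ?_⟩
    by_contra hh
    exact hcon ⟨e, f, he, hf, h, hh⟩
  have hcount := count_two (c e) (c f) ⟨d, he⟩ ⟨d, hf⟩ ⟨h, hh⟩
  set N := (Finset.univ.filter (fun z : Fin b → ZMod 2 =>
      ¬ ((2 : ℤ) ∣ c e (lf z)) ∧ ¬ ((2 : ℤ) ∣ c f (lf z)))).card with hN
  have hterm : ∀ z : Fin b → ZMod 2, ‖(if z = 0 then 0 else (2 / 3 / 2 ^ b : ℂ) * σ z *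
        fz K (Yz c K r (lf z)) s)‖ ≤ 2 / 3 / 2 ^ b * (2 * C₁ * (1 / 4) ^ r) +
        2 / 3 / 2 ^ b * (if ¬ ((2 : ℤ) ∣ c e (lf z)) ∧ ¬ ((2 : ℤ) ∣ c f (lf z)) then 1 else 0) := by
    intro z
    have hnn : (0 : ℝ) ≤ (if ¬ ((2 : ℤ) ∣ c e (lf z)) ∧ ¬ ((2 : ℤ) ∣ c f (lf z)) then 1 else 0) := by
      split_ifs <;> norm_num
    by_cases hz : z = 0
    · rw [if_pos hz, norm_zero]
      positivity
    · rw [if_neg hz]
      have h1 := fz_diff c (lf z) s (hYz (lf z)) (hC (lf z))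
      have h0 : ‖fz K (Y0 c K (lf z)) s‖ ≤
          (if ¬ ((2 : ℤ) ∣ c e (lf z)) ∧ ¬ ((2 : ℤ) ∣ c f (lf z)) then 1 else 0) := by
        by_cases hcase : ¬ ((2 : ℤ) ∣ c e (lf z)) ∧ ¬ ((2 : ℤ) ∣ c f (lf z))
        · rw [if_pos hcase]
          exact fz_le _ _
        · rw [if_neg hcase]
          have hz0 : ∑ y ∈ Y0 c K (lf z), ch K y s = 0 := by
            by_contra hne
            rw [hd] at hne
            exact hcase ⟨Y0_four2 hc hK (lf z) d hne he, Y0_four2 hc hK (lf z) d hne hf⟩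
          rw [fz, hz0, mul_zero, norm_zero]
      have h4 : ‖fz K (Yz c K r (lf z)) s‖ ≤ 2 * C₁ * (1 / 4) ^ r +
          (if ¬ ((2 : ℤ) ∣ c e (lf z)) ∧ ¬ ((2 : ℤ) ∣ c f (lf z)) then 1 else 0) := by
        calc ‖fz K (Yz c K r (lf z)) s‖
            = ‖(fz K (Yz c K r (lf z)) s - fz K (Y0 c K (lf z)) s) + fz K (Y0 c K (lf z)) s‖ := by
              rw [sub_add_cancel]
          _ ≤ _ := (norm_add_le _ _).trans (add_le_add h1 h0)
      rw [norm_mul, norm_mul, gfb_mu, ← mul_add]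
      have h2 : (2 / 3 / 2 ^ b : ℝ) * ‖σ z‖ ≤ 2 / 3 / 2 ^ b :=
        mul_le_of_le_one_right (by positivity) (hσ z)
      exact mul_le_mul h2 h4 (norm_nonneg _) (by positivity)
  refine (norm_sum_le _ _).trans ((Finset.sum_le_sum fun z _ => hterm z).trans ?_)
  rw [Finset.sum_add_distrib, Finset.sum_const, gfb_card, nsmul_eq_mul, ← Finset.mul_sum,
    Finset.sum_boole, ← hN]
  have hNr : (4 : ℝ) * (N : ℝ) = 2 ^ b := by exact_mod_cast hcount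
  have h3 : (((2 : ℕ) ^ b : ℕ) : ℝ) * (2 / 3 / 2 ^ b * (2 * C₁ * (1 / 4) ^ r))
      = 2 / 3 * (2 * C₁ * (1 / 4) ^ r) := by
    push_cast
    field_simp
  have h5 : (2 / 3 / 2 ^ b : ℝ) * (N : ℝ) = 1 / 6 := by
    rw [← hNr]
    have hNpos : (0 : ℝ) < N := by
      have : (0 : ℝ) < 2 ^ b := by positivity
      rw [← hNr] at this
      linarith
    field_simp
    norm_num
  rw [h3, h5]
  linarith

end SlopeB
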