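import Pool.Agent.Lib.SlopeB.Defs

/-!
# The classes R and Q

PROOF of `TT_succ`: the series is summable (geometric bound); split off the term `u = 0`
(`Summable.tsum_eq_zero_add`), `tsum_mul_left`, indices `w + 1 + (u + 1) = w + 1 + 1 + u`.
PROOF of `TT_one`: all `s (w + 1 + u) = 1`; geometric series `∑ (1/4)^(u+1) = 1/3`.
PROOF of `QQ_one`: `TT = 1/3`; q3 is void; q4: `η ∑_{v ≤ w} 4^-v ≤ (4/3) η ≤ (4/3) 4^-k' ≤ 4^-w / 3`
for `w < k'` (finite geometric sum `≤ 4/3`).
PROOF of `QQ_mul`. Let `t v = s v * a v`; `|a v| ≤ 1` in all cases, so `|t v| ≤ |s v| ≤ 1`. `t v = 1` for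
`v ≥ max i j`.
(A) if `j ≤ w + 1` then `TT t w = TT s w` (all `a (w+1+u) = 1`).
(B) if `w + 1 = j` then `|t w| ≤ |s w| / 3 ≤ TT s w = TT t w`: if `w < i` by q3 (and `TT s w ≥ 0`
because `0 ≤ |s w| ≤ TT s w`), if `i ≤ w` then `|s w| = 1`, `TT s w = 1/3` (`TT_one`).
(C) `0 ≤ TT t w` for all `w` with `w + 1 < j`: downward induction; `TT t w = (t (w+1) + TT t (w+1))/4`;
if `w + 2 = j` use (B) for `w + 1`: `t (w+1) + TT t (w+1) ≥ -|t (w+1)| + TT t (w+1) ≥ 0`; if
`w + 2 < j` then `t (w+1) = 0` and `TT t (w+1) ≥ 0` by induction.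
q3 for `t`, `w < max i j`: if `w + 1 < j`: `t w = 0`, (C). If `w + 1 = j`: (B). If `j ≤ w`: then `w < i`,
`a w = 1`, `t w = s w`, (A) and q3 for `s`.
q4 for `t`, `w < k'`: if `j ≤ w + 1`: left side `≤` left side for `s`, (A). If `w + 1 < j`: all `t v = 0`
for `v ≤ w`, the left side is `0`, (C).
-/

set_option autoImplicit false

open scoped Matrix.Norms.Elementwise Real Topology
open Complex Matrix MP6feb Filter

noncomputable section

namespace SlopeB

private theorem QR_summable {s : ℕ → ℝ} (hs : ∀ v, |s v| ≤ 1) (w : ℕ) :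
    Summable fun u : ℕ => (1 / 4 : ℝ) ^ (u + 1) * s (w + 1 + u) := by
  have h1 : Summable fun u : ℕ => (1 / 4 : ℝ) ^ (u + 1) :=
    (summable_nat_add_iff 1).2 (summable_geometric_of_lt_one (by norm_num) (by norm_num))
  refine Summable.of_norm_bounded h1 fun u => ?_
  rw [Real.norm_eq_abs, abs_mul, abs_of_nonneg (by positivity : (0 : ℝ) ≤ (1 / 4) ^ (u + 1))]
  exact mul_le_of_le_one_right (by positivity) (hs _)

private theorem QR_geom (w : ℕ) : ∑ v ∈ Finset.range w, (1 / 4 : ℝ) ^ v ≤ 4 / 3 := by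
  have h : ∑ v ∈ Finset.range w, (1 / 4 : ℝ) ^ v = 4 / 3 * (1 - (1 / 4) ^ w) := by
    induction w with
    | zero => simp
    | succ w ih =>
      rw [Finset.sum_range_succ, ih, pow_succ]
      ring
  rw [h]
  have h1 : (0 : ℝ) ≤ (1 / 4) ^ w := by positivity
  linarith

theorem TT_succ {s : ℕ → ℝ} (hs : ∀ v, |s v| ≤ 1) (w : ℕ) :
    TT s w = 1 / 4 * (s (w + 1) + TT s (w + 1)) := by
  unfold TT
  rw [(QR_summable hs w).tsum_eq_zero_add]
  have h1 : ∑' u : ℕ, (1 / 4 : ℝ) ^ (u + 1 + 1) * s (w + 1 + (u + 1)) =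
      1 / 4 * ∑' u : ℕ, (1 / 4 : ℝ) ^ (u + 1) * s (w + 1 + 1 + u) := by
    rw [← tsum_mul_left]
    refine tsum_congr fun u => ?_
    have h2 : w + 1 + (u + 1) = w + 1 + 1 + u := by omega
    rw [h2, pow_succ]
    ring
  rw [h1]
  simp only [zero_add, pow_one, add_zero]
  ring

theorem TT_one {s : ℕ → ℝ} {i w : ℕ} (h : ∀ v, i ≤ v → s v = 1) (hw : i ≤ w + 1) :
    TT s w = 1 / 3 := by
  unfold TT
  have h1 : ∀ u : ℕ, (1 / 4 : ℝ) ^ (u + 1) * s (w + 1 + u) = 1 / 4 * (1 / 4) ^ u := by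
    intro u
    rw [h (w + 1 + u) (by omega), mul_one, pow_succ]
    ring
  rw [tsum_congr h1, tsum_mul_left, tsum_geometric_of_lt_one (by norm_num) (by norm_num)]
  norm_num

theorem QQ_one {η : ℝ} {k' : ℕ} (hη0 : 0 ≤ η) (hη : η ≤ (1 / 4) ^ k') :
    QQ η k' 0 (fun _ => 1) := by
  refine ⟨fun v _ => rfl, fun v => by rw [abs_one], fun w hw => absurd hw (Nat.not_lt_zero w), ?_⟩
  intro w hw
  rw [TT_one (i := 0) (fun v _ => rfl) (Nat.zero_le _)]
  have h1 : ∑ v ∈ Finset.range (w + 1), (1 / 4 : ℝ) ^ v * |(1 : ℝ)| ≤ 4 / 3 := by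
    simp only [abs_one, mul_one]
    exact QR_geom (w + 1)
  have h2 : η ≤ (1 / 4 : ℝ) ^ (w + 1) :=
    hη.trans (pow_le_pow_of_le_one (by norm_num) (by norm_num) hw)
  have h3 : (0 : ℝ) ≤ (1 / 4) ^ w := by positivity
  calc η * ∑ v ∈ Finset.range (w + 1), (1 / 4 : ℝ) ^ v * |(1 : ℝ)| ≤ η * (4 / 3) :=
        mul_le_mul_of_nonneg_left h1 hη0
    _ ≤ (1 / 4 : ℝ) ^ (w + 1) * (4 / 3) := mul_le_mul_of_nonneg_right h2 (by norm_num)
    _ = (1 / 4 : ℝ) ^ w * (1 / 3) := by
        rw [pow_succ]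
        ring

theorem QQ_mul {η : ℝ} {k' i j : ℕ} {s a : ℕ → ℝ} (hη0 : 0 ≤ η) (h : QQ η k' i s)
    (ha : RR j a) : QQ η k' (max i j) (fun v => s v * a v) := by
  have ha1 : ∀ v, |a v| ≤ 1 := by
    intro v
    rcases lt_trichotomy (v + 1) j with h1 | h1 | h1
    · rw [ha.zero v h1, abs_zero]
      exact zero_le_one
    · exact (ha.third v h1).trans (by norm_num)
    · rw [ha.one v (by omega), abs_one]
  have hts : ∀ v, |s v * a v| ≤ |s v| := by
    intro v
    rw [abs_mul]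
    exact mul_le_of_le_one_right (abs_nonneg _) (ha1 v)
  have ht1 : ∀ v, |s v * a v| ≤ 1 := fun v => (hts v).trans (h.le v)
  have hA : ∀ w, j ≤ w + 1 → TT (fun v => s v * a v) w = TT s w := by
    intro w hw
    unfold TT
    refine tsum_congr fun u => ?_
    show (1 / 4 : ℝ) ^ (u + 1) * (s (w + 1 + u) * a (w + 1 + u)) = _
    rw [ha.one (w + 1 + u) (by omega), mul_one]
  have hB : ∀ w, w + 1 = j → |s w * a w| ≤ TT (fun v => s v * a v) w := by
    intro w hw
    rw [hA w hw.ge, abs_mul]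
    have h1 : |s w| * |a w| ≤ |s w| * (1 / 3) :=
      mul_le_mul_of_nonneg_left (ha.third w hw) (abs_nonneg _)
    rcases lt_or_ge w i with h2 | h2
    · have h3 := h.q3 w h2
      have h4 := abs_nonneg (s w)
      linarith
    · rw [TT_one (i := i) h.one (by omega)]
      rw [h.one w h2, abs_one] at h1 ⊢
      linarith
  have hC : ∀ d w, w + d + 2 = j → 0 ≤ TT (fun v => s v * a v) w := by
    intro d
    induction d with
    | zero =>
      intro w hw
      rw [TT_succ ht1 w]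
      have h1 := hB (w + 1) (by omega)
      have h2 := neg_abs_le (s (w + 1) * a (w + 1))
      have h3 : 0 ≤ s (w + 1) * a (w + 1) + TT (fun v => s v * a v) (w + 1) := by linarith
      exact mul_nonneg (by norm_num) h3
    | succ d ih =>
      intro w hw
      rw [TT_succ ht1 w]
      have h1 := ih (w + 1) (by omega)
      have h2 : s (w + 1) * a (w + 1) = 0 := by
        rw [ha.zero (w + 1) (by omega), mul_zero]
      have h3 : 0 ≤ s (w + 1) * a (w + 1) + TT (fun v => s v * a v) (w + 1) := by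
        rw [h2, zero_add]
        exact h1
      exact mul_nonneg (by norm_num) h3
  have hC' : ∀ w, w + 1 < j → 0 ≤ TT (fun v => s v * a v) w := by
    intro w hw
    exact hC (j - w - 2) w (by omega)
  refine ⟨?_, ht1, ?_, ?_⟩
  · intro v hv
    show s v * a v = 1
    rw [h.one v ((le_max_left i j).trans hv), ha.one v ((le_max_right i j).trans hv), mul_one]
  · intro w hw
    show |s w * a w| ≤ TT (fun v => s v * a v) w
    rcases lt_trichotomy (w + 1) j with h1 | h1 | h1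
    · rw [ha.zero w h1, mul_zero, abs_zero]
      exact hC' w h1
    · exact hB w h1
    · have h2 : w < i := by
        rcases lt_max_iff.1 hw with h3 | h3
        · exact h3
        · omega
      rw [hA w h1.le, ha.one w (by omega), mul_one]
      exact h.q3 w h2
  · intro w hw
    show η * ∑ v ∈ Finset.range (w + 1), (1 / 4 : ℝ) ^ v * |s v * a v| ≤
      (1 / 4 : ℝ) ^ w * TT (fun v => s v * a v) w
    rcases le_or_gt j (w + 1) with h1 | h1
    · rw [hA w h1]
      refine le_trans ?_ (h.q4 w hw)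
      refine mul_le_mul_of_nonneg_left ?_ hη0
      exact Finset.sum_le_sum fun v _ => mul_le_mul_of_nonneg_left (hts v) (by positivity)
    · have h2 : ∑ v ∈ Finset.range (w + 1), (1 / 4 : ℝ) ^ v * |s v * a v| = 0 := by
        refine Finset.sum_eq_zero fun v hv => ?_
        rw [Finset.mem_range] at hv
        rw [ha.zero v (by omega), mul_zero, abs_zero, mul_zero]
      rw [h2, mul_zero]
      exact mul_nonneg (by positivity) (hC' w h1)

end SlopeB
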