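import Pool.Agent.Lib.SlopeB.Defs
import Pool.Agent.Lib.SlopeB.QR

/-!
# The sequence of the non-isolated law is of class Q

Notation: `ρ = 1/4`, `φ o = phi J r o` (as a real number), `c = 2/3 - w₀/2 ≥ 5/12`, `T o = TT A (i - o)`
for `1 ≤ o ≤ i`. `|A v| ≤ 1` for all `v` (`w₀ φ o + δ + 1/6 ≤ 1/16 + 5/64 + 1/6`, `φ o ≤ 1/8` for
`o ≥ 1`; every `v < i` is `v + o = i` with `o ≥ 1`, and `o > r` gives `A v = 0` by `h2`).
Recursion (`TT_succ`, `TT_one`): `T 1 = 1/3`, `T (o+1) = (A (i-o) + T o)/4` for `o + 1 ≤ i`.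
PROOF, by induction on `o` (write `i = v + o`).
(1) `2 ≤ o ≤ J+1`: `T o ≥ (w₀/4) (1/2)^o + (1/4)^o c - δ/3`.
  `o = 2`: `A (i-1) ≥ w₀/8 - 1/6 - δ`, so `T 2 ≥ (w₀/8 - 1/6 - δ + 1/3)/4 = w₀/32 + 1/24 - δ/4`, and
  the right side is `w₀/16 + (2/3 - w₀/2)/16 - δ/3 = w₀/32 + 1/24 - δ/3`.
  Step (`2 ≤ o ≤ J`, so `φ o = ρ 2^-o`, `J < r`): `T (o+1) ≥ (w₀ρ2^-o - δ + w₀ρ2^-o + 4^-o c - δ/3)/4`.
(2) `J+1 ≤ o ≤ r+1`: `T o ≥ (w₀/4) 2^J (1/4)^o (o - J + 1) + (1/4)^o c - δ/3` (if `o ≥ 2`; `J ≥ 1` so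
  `J + 1 ≥ 2`). At `o = J+1` it is (1): `2^J 4^-(J+1) 2 = 2^-(J+1)`. Step: `φ o = ρ 2^J 4^-o`.
(3) `o > r+1`: `T o = 4^-(o-r-1) T (r+1)` (`A = 0` for orders `> r`).
(4) `T o ≥ (1/4)^o / 2` for all `1 ≤ o ≤ i`. `o = 1`: clear. `2 ≤ o ≤ J`: `δ/3 ≤ (5/48) 4^-J ≤ (5/48) 4^-o`,
  `w₀/4 ≥ 1/12`, `2^-o ≥ 4 · 4^-o`: `4^-o (5/12 - 5/48 + 4/12) ≥ 4^-o/2`. `J < o ≤ r+1`: `δ/3 ≤ 2^J 4^-r/48 ≤
  2^J 4^-o/12`, and `o - J + 1 ≥ 2`: `4^-o (2^J (2/12 - 1/12) + 5/12) ≥ 4^-o/2` (`2^J ≥ 2`). `o > r+1`: (3).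
(5) `T o ≥ w₀ φ o + δ` for `2 ≤ o ≤ r`, `T 1 = 1/3 ≥ w₀/8 + 1/6 + δ` (`w₀ ≤ 1/2`, `δ ≤ 5/64`).
  `2 ≤ o ≤ J`: `4^-o c ≥ (5/12) 4^-J ≥ (4/3) δ`. `J < o ≤ r`: `(w₀/4) 2^J 4^-o (o - J) ≥ 2^J 4^-r/12 ≥ (4/3) δ`.
q3, `w < i`, `o = i - w`: `o > r`: `A w = 0`, `T ≥ 0`. Otherwise `|A w| ≤ w₀ φ o + δ (+ 1/6 if o = 1) ≤ T o`.
q4, `w < k'`: let `η = (3/8) 4^-(k'+r)`; `∑_{v ≤ w} 4^-v |A v| ≤ 4/3`, so the left side is `≤ 4^-(k'+r)/2`.
  If `i ≤ w + 1`: `TT A w = 1/3`, `4^-w/3 ≥ 4^-k' ≥ 4^-(k'+r)`. If `w + 1 < i` and `w + r < i`: all `A v = 0` for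
  `v ≤ w`, the left side is `0`. If `w + 1 < i ≤ w + r`: `4^-w T (i - w) ≥ 4^-i/2 ≥ 4^-(k'+r)/2`.
(Suggestion: prove (1), (2), (4), (5) for functions of the natural number `o` with `i = v + o`; avoid
natural subtraction.)
-/

set_option autoImplicit false

open scoped Matrix.Norms.Elementwise Real Topology
open Complex Matrix MP6feb Filter

noncomputable section

namespace SlopeB

private def gsp (J r : ℕ) (o : ℕ) : ℝ :=
  if o = 0 then 1 else if o ≤ J then (1/4) * (1/2)^o else if o ≤ r then (1/4) * 2^J * (1/4)^o else 0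

private theorem gsp_eq (J r o : ℕ) : gsp J r o = (phi J r o : ℝ) := by
  unfold gsp phi
  split_ifs <;> push_cast <;> ring

private theorem gamSq_num (A T : ℕ → ℝ) (w₀ δ : ℝ) (J r : ℕ) (hw1 : 1/3 ≤ w₀) (hw2 : w₀ ≤ 1/2) (hδ0 : 0 ≤ δ)
    (hJ : 1 ≤ J) (hr : J < r) (hδ1 : δ ≤ (5/16) * (1/4)^J) (hδ2 : δ ≤ 2^J * (1/4)^r / 16)
    (hT1 : T 1 = 1/3) (hT : ∀ o, 1 ≤ o → T (o+1) = (A o + T o) / 4)
    (hA1 : |A 1 - w₀ * gsp J r 1| ≤ 1/6 + δ)
    (hA : ∀ o, 2 ≤ o → o ≤ r → |A o - w₀ * gsp J r o| ≤ δ)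
    (hA0 : ∀ o, r < o → A o = 0) :
    (∀ o, 1 ≤ o → |A o| ≤ T o) ∧ ∀ o, 1 ≤ o → (1/4)^o / 2 ≤ T o := by
  have hp : ∀ n : ℕ, (0:ℝ) < (1/4:ℝ)^n := fun n => by positivity
  have hp2 : ∀ n : ℕ, (0:ℝ) < (1/2:ℝ)^n := fun n => by positivity
  have hphi1 : gsp J r 1 = 1/8 := by simp [gsp, hJ]; norm_num
  have hphiA : ∀ o, 1 ≤ o → o ≤ J → gsp J r o = (1/4) * (1/2)^o := by
    intro o h1 h2
    simp [gsp, h2, show o ≠ 0 by omega]
  have hphiB : ∀ o, J < o → o ≤ r → gsp J r o = (1/4) * 2^J * (1/4)^o := by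
    intro o h1 h2
    simp [gsp, h2, show o ≠ 0 by omega, show ¬ o ≤ J by omega]
  set c : ℝ := 2/3 - w₀/2 with hc
  have hc1 : 5/12 ≤ c := by rw [hc]; linarith
  -- first range
  have I1 : ∀ o, 2 ≤ o → o ≤ J + 1 → (w₀/4) * (1/2)^o + (1/4)^o * c - δ/3 ≤ T o := by
    intro o ho
    induction o, ho using Nat.le_induction with
    | base =>
      intro _
      rw [hT 1 le_rfl, hT1]
      have := (abs_le.mp hA1).1
      rw [hphi1] at this
      rw [hc]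
      norm_num
      linarith
    | succ o ho ih =>
      intro h2
      have ih' := ih (by omega)
      rw [hT o (by omega)]
      have hA' := (abs_le.mp (hA o ho (by omega))).1
      rw [hphiA o (by omega) (by omega)] at hA'
      rw [pow_succ, pow_succ]
      have := hp2 o
      nlinarith
  have I2 : ∀ o, J + 1 ≤ o → o ≤ r + 1 →
      (w₀/4) * 2^J * (1/4)^o * ((o:ℝ) - J + 1) + (1/4)^o * c - δ/3 ≤ T o := by
    intro o ho
    induction o, ho using Nat.le_induction with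
    | base =>
      intro _
      have := I1 (J+1) (by omega) le_rfl
      have e : (2:ℝ)^J * (1/4)^(J+1) * 2 = (1/2)^(J+1) := by
        rw [show (1/4:ℝ) = (1/2) * (1/2) by norm_num, mul_pow, pow_succ (1/2:ℝ) J,
          show (2:ℝ)^J * ((1/2)^J * (1/2) * ((1/2)^J * (1/2))) * 2 = (2^J * (1/2)^J) * ((1/2)^J * (1/2)) by ring,
          ← mul_pow]
        norm_num
      push_cast
      rw [show (J:ℝ) + 1 - J + 1 = 2 by ring]
      calc (w₀/4) * 2^J * (1/4)^(J+1) * 2 + (1/4)^(J+1) * c - δ/3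
          = (w₀/4) * (2^J * (1/4)^(J+1) * 2) + (1/4)^(J+1) * c - δ/3 := by ring
        _ = (w₀/4) * (1/2)^(J+1) + (1/4)^(J+1) * c - δ/3 := by rw [e]
        _ ≤ _ := this
    | succ o ho ih =>
      intro h2
      have ih' := ih (by omega)
      rw [hT o (by omega)]
      have hA' := (abs_le.mp (hA o (by omega) (by omega))).1
      rw [hphiB o (by omega) (by omega)] at hA'
      rw [pow_succ]
      push_cast
      have e : (w₀/4) * 2^J * ((1/4)^o * (1/4)) * ((o:ℝ) + 1 - J + 1) + (1/4)^o * (1/4) * c - δ/3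
        = ((w₀ * ((1/4) * 2^J * (1/4)^o) - δ) + ((w₀/4) * 2^J * (1/4)^o * ((o:ℝ) - J + 1) + (1/4)^o * c - δ/3))/4 := by
        ring
      rw [e]
      linarith
  have I3 : ∀ o, r + 1 ≤ o → T o = (1/4)^(o - (r+1)) * T (r+1) := by
    intro o ho
    induction o, ho using Nat.le_induction with
    | base => simp
    | succ o ho ih =>
      rw [hT o (by omega), hA0 o (by omega), ih, show o + 1 - (r+1) = (o - (r+1)) + 1 by omega, pow_succ]
      ring
  have h2J : (2:ℝ) ≤ 2^J := by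
    calc (2:ℝ) = 2^1 := by norm_num
      _ ≤ 2^J := pow_le_pow_right₀ (by norm_num) hJ
  have hmono : ∀ a b : ℕ, a ≤ b → (1/4:ℝ)^b ≤ (1/4)^a := fun a b h =>
    pow_le_pow_of_le_one (by norm_num) (by norm_num) h
  -- lower bounds
  have L1 : ∀ o, 1 ≤ o → (1/4)^o / 2 ≤ T o := by
    intro o ho
    rcases Nat.lt_or_ge o 2 with h | h
    · have : o = 1 := by omega
      subst this
      rw [hT1]; norm_num
    rcases Nat.lt_or_ge o (J+1) with h1 | h1
    · have h3 := I1 o h (by omega)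
      have h4 : δ ≤ (5/16) * (1/4)^o := hδ1.trans (by have := hmono o J (by omega); linarith)
      have h5 : (4:ℝ) * (1/4)^o ≤ (1/2)^o := by
        have e : (1/2:ℝ)^o = 2^o * (1/4)^o := by rw [← mul_pow]; norm_num
        rw [e]
        have : (4:ℝ) ≤ 2^o := by
          calc (4:ℝ) = 2^2 := by norm_num
            _ ≤ 2^o := pow_le_pow_right₀ (by norm_num) h
        exact mul_le_mul_of_nonneg_right this (hp o).le
      have h6 := hp o
      nlinarith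
    rcases Nat.lt_or_ge o (r+2) with h2 | h2
    · have h3 := I2 o h1 (by omega)
      have h4 : (1/4:ℝ)^r ≤ 4 * (1/4)^o := by
        have : (1/4:ℝ)^(r+1) ≤ (1/4)^o := hmono o (r+1) (by omega)
        rw [pow_succ] at this
        linarith
      have h5 : δ ≤ 2^J * (1/4)^o / 4 := by
        refine hδ2.trans ?_
        have := mul_le_mul_of_nonneg_left h4 (show (0:ℝ) ≤ 2^J by positivity)
        linarith
      have h6 : (J:ℝ) + 1 ≤ o := by exact_mod_cast h1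
      have h7 : 0 < 2^J * (1/4:ℝ)^o := by positivity
      have h8 : (w₀/4) * (2^J * (1/4)^o) * 2 ≤ (w₀/4) * 2^J * (1/4)^o * ((o:ℝ) - J + 1) := by
        rw [show (w₀/4) * 2^J * (1/4:ℝ)^o * ((o:ℝ) - J + 1) = (w₀/4) * (2^J * (1/4)^o) * ((o:ℝ) - J + 1) by ring]
        exact mul_le_mul_of_nonneg_left (by linarith) (by nlinarith)
      have h9 : 2 * (1/4:ℝ)^o ≤ 2^J * (1/4)^o := mul_le_mul_of_nonneg_right h2J (hp o).le
      nlinarith [hp o]
    · rw [I3 o (by omega)]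
      have h3 := I2 (r+1) (by omega) le_rfl
      have h5 : δ ≤ 2^J * (1/4)^(r+1) / 4 := by
        refine hδ2.trans (le_of_eq ?_)
        rw [pow_succ]; ring
      have h6 : (J:ℝ) + 1 ≤ ((r+1:ℕ):ℝ) := by exact_mod_cast (by omega : J + 1 ≤ r + 1)
      have h7 : 0 < 2^J * (1/4:ℝ)^(r+1) := by positivity
      have h8 : (w₀/4) * (2^J * (1/4)^(r+1)) * 2 ≤ (w₀/4) * 2^J * (1/4)^(r+1) * (((r+1:ℕ):ℝ) - J + 1) := by
        rw [show (w₀/4) * 2^J * (1/4:ℝ)^(r+1) * (((r+1:ℕ):ℝ) - J + 1) = (w₀/4) * (2^J * (1/4)^(r+1)) * (((r+1:ℕ):ℝ) - J + 1) by ring]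
        exact mul_le_mul_of_nonneg_left (by linarith) (by nlinarith)
      have h9 : 2 * (1/4:ℝ)^(r+1) ≤ 2^J * (1/4)^(r+1) := mul_le_mul_of_nonneg_right h2J (hp (r+1)).le
      have h10 : (1/4)^(r+1) / 2 ≤ T (r+1) := by nlinarith [hp (r+1)]
      calc (1/4:ℝ)^o / 2 = (1/4)^(o-(r+1)) * ((1/4)^(r+1) / 2) := by
            rw [← mul_div_assoc, ← pow_add]; congr 2; omega
        _ ≤ _ := mul_le_mul_of_nonneg_left h10 (hp _).le
  refine ⟨?_, L1⟩
  intro o ho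
  rcases Nat.lt_or_ge o 2 with h | h
  · have : o = 1 := by omega
    subst this
    rw [hT1]
    have h1 := abs_le.mp hA1
    rw [hphi1] at h1
    have h2 : δ ≤ 5/64 := by
      refine hδ1.trans ?_
      have := hmono 1 J hJ
      rw [pow_one] at this
      linarith
    rw [abs_le]
    constructor <;> nlinarith [h1.1, h1.2]
  rcases Nat.lt_or_ge r o with h1 | h1
  · rw [hA0 o h1, abs_zero]
    exact (by have := hp o; linarith : (0:ℝ) ≤ (1/4)^o/2).trans (L1 o ho)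
  have h2 := abs_le.mp (hA o h h1)
  rcases Nat.lt_or_ge J o with h3 | h3
  · have h4 := I2 o (by omega) (by omega)
    rw [hphiB o h3 h1] at h2
    have h5 : δ ≤ 2^J * (1/4)^o / 16 := by
      refine hδ2.trans ?_
      have := mul_le_mul_of_nonneg_left (hmono o r h1) (show (0:ℝ) ≤ 2^J by positivity)
      linarith
    have h6 : (J:ℝ) + 1 ≤ o := by exact_mod_cast h3
    have h7 : 0 < 2^J * (1/4:ℝ)^o := by positivity
    have h8 : (w₀/4) * (2^J * (1/4)^o) * 2 ≤ (w₀/4) * 2^J * (1/4)^o * ((o:ℝ) - J + 1) := by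
      rw [show (w₀/4) * 2^J * (1/4:ℝ)^o * ((o:ℝ) - J + 1) = (w₀/4) * (2^J * (1/4)^o) * ((o:ℝ) - J + 1) by ring]
      exact mul_le_mul_of_nonneg_left (by linarith) (by nlinarith)
    have h9 := hp o
    have h10 : 0 ≤ w₀ * ((1/4) * 2^J * (1/4)^o) := by positivity
    have h11 : 2^J * (1/4)^o / 12 ≤ (w₀/4) * (2^J * (1/4)^o) := by
      have := mul_le_mul_of_nonneg_right (show (1/12:ℝ) ≤ w₀/4 by linarith) h7.le
      linarith
    have h12 : 0 ≤ (1/4:ℝ)^o * c := mul_nonneg h9.le (by linarith)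
    have h13 := h2.1
    have h14 := h2.2
    rw [abs_le]
    constructor <;> linarith
  · have h4 := I1 o h (by omega)
    rw [hphiA o (by omega) h3] at h2
    have h5 : δ ≤ (5/16) * (1/4)^o := hδ1.trans (by have := hmono o J h3; linarith)
    have h6 := hp2 o
    have h7 := hp o
    have h10 : 0 ≤ w₀ * ((1/4) * (1/2)^o) := by positivity
    rw [abs_le]
    constructor <;> nlinarith [h2.1, h2.2]


private theorem gamSq_T {i : ℕ} {A A' T : ℕ → ℝ} (hle : ∀ v, |A v| ≤ 1)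
    (h1 : ∀ v, i ≤ v → A v = 1) (hT1 : T 1 = 1 / 3)
    (hT : ∀ o, 1 ≤ o → T (o + 1) = (A' o + T o) / 4)
    (hA' : ∀ v o, v + o = i → A' o = A v) :
    ∀ o, 1 ≤ o → ∀ v, v + o = i → TT A v = T o := by
  intro o ho
  induction o, ho using Nat.le_induction with
  | base =>
    intro v hv
    rw [hT1]
    exact TT_one h1 (by omega)
  | succ o ho ih =>
    intro v hv
    rw [TT_succ hle, ih (v + 1) (by omega), hT o ho, hA' (v + 1) o (by omega)]
    ring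

theorem gam_QQ {J r i k' : ℕ} {w₀ δ : ℝ} (hJ : 1 ≤ J) (hJr : J < r) (hw : 1 / 3 ≤ w₀)
    (hw' : w₀ ≤ 1 / 2) (hδ : 0 ≤ δ) (hδ1 : δ ≤ 5 / 16 * (1 / 4) ^ J)
    (hδ2 : δ ≤ 2 ^ J * (1 / 4) ^ r / 16) {A : ℕ → ℝ} (hi : 1 ≤ i)
    (h1 : ∀ v, i ≤ v → A v = 1) (h2 : ∀ v, v + r < i → A v = 0)
    (h3 : ∀ v o, v + o = i → 2 ≤ o → o ≤ r → |A v - w₀ * (phi J r o : ℝ)| ≤ δ)
    (h4 : ∀ v, v + 1 = i → |A v - w₀ * (phi J r 1 : ℝ)| ≤ 1 / 6 + δ) :
    QQ (3 / 8 * (1 / 4) ^ (k' + r)) k' i A := by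
  have hp : ∀ n : ℕ, (0 : ℝ) < (1 / 4 : ℝ) ^ n := fun n => by positivity
  have hmono : ∀ a b : ℕ, a ≤ b → (1 / 4 : ℝ) ^ b ≤ (1 / 4) ^ a := fun a b h =>
    pow_le_pow_of_le_one (by norm_num) (by norm_num) h
  have hδ5 : δ ≤ 5 / 64 := by
    refine hδ1.trans ?_
    have := hmono 1 J hJ
    rw [pow_one] at this
    linarith
  -- bound of phi
  have hphi : ∀ o, 1 ≤ o → (phi J r o : ℝ) ≤ 1 / 8 ∧ 0 ≤ (phi J r o : ℝ) := by
    intro o ho
    rw [← gsp_eq]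
    unfold gsp
    rw [if_neg (by omega)]
    have h2 : (1 / 2 : ℝ) ^ o ≤ 1 / 2 := by
      calc (1 / 2 : ℝ) ^ o ≤ (1 / 2) ^ 1 :=
            pow_le_pow_of_le_one (by norm_num) (by norm_num) ho
        _ = 1 / 2 := by norm_num
    split_ifs with h3 h4
    · constructor
      · linarith
      · positivity
    · have h5 : (2 : ℝ) ^ J * (1 / 4) ^ o ≤ (1 / 2) ^ o := by
        have e : (1 / 2 : ℝ) ^ o = 2 ^ o * (1 / 4) ^ o := by rw [← mul_pow]; norm_num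
        rw [e]
        exact mul_le_mul_of_nonneg_right
          (pow_le_pow_right₀ (by norm_num) (by omega)) (hp o).le
      constructor
      · have : (1 / 4 : ℝ) * 2 ^ J * (1 / 4) ^ o = 1 / 4 * (2 ^ J * (1 / 4) ^ o) := by ring
        rw [this]
        linarith
      · positivity
    · norm_num
  have hle : ∀ v, |A v| ≤ 1 := by
    intro v
    by_cases hv : i ≤ v
    · rw [h1 v hv]; norm_num
    · push Not at hv
      obtain ⟨o, ho⟩ := Nat.exists_eq_add_of_lt hv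
      have ho' : v + (o + 1) = i := by omega
      rcases Nat.lt_or_ge r (o + 1) with hr | hr
      · rw [h2 v (by omega)]; norm_num
      · obtain ⟨h5, h6⟩ := hphi (o + 1) (by omega)
        have h7 : w₀ * (phi J r (o + 1) : ℝ) ≤ 1 / 16 := by
          calc w₀ * (phi J r (o + 1) : ℝ) ≤ 1 / 2 * (1 / 8) :=
                mul_le_mul hw' h5 h6 (by norm_num)
            _ = 1 / 16 := by norm_num
        have h8 : 0 ≤ w₀ * (phi J r (o + 1) : ℝ) := mul_nonneg (by linarith) h6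
        have h9 : |A v - w₀ * (phi J r (o + 1) : ℝ)| ≤ 1 / 6 + δ := by
          rcases Nat.eq_zero_or_pos o with h0 | h0
          · subst h0
            exact h4 v ho'
          · exact (h3 v (o + 1) ho' (by omega) hr).trans (by linarith)
        have h10 := abs_le.mp h9
        rw [abs_le]
        constructor <;> linarith [h10.1, h10.2]
  -- the sequences indexed by the order
  let A' : ℕ → ℝ := fun o => if o ≤ i then A (i - o) else w₀ * (phi J r o : ℝ)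
  let T : ℕ → ℝ := fun o => Nat.rec (1 / 3) (fun n t => (A' (n + 1) + t) / 4) (o - 1)
  have hT1 : T 1 = 1 / 3 := rfl
  have hT : ∀ o, 1 ≤ o → T (o + 1) = (A' o + T o) / 4 := by
    intro o ho
    obtain ⟨n, rfl⟩ : ∃ n, o = n + 1 := ⟨o - 1, by omega⟩
    rfl
  have hA' : ∀ v o, v + o = i → A' o = A v := by
    intro v o h
    show (if o ≤ i then A (i - o) else w₀ * (phi J r o : ℝ)) = A v
    rw [if_pos (by omega)]
    congr 1
    omega
  have hcore := gamSq_num A' T w₀ δ J r hw hw' hδ hJ hJr hδ1 hδ2 hT1 hT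
    (by
      have h5 := hA' (i - 1) 1 (by omega)
      rw [h5, gsp_eq]
      exact h4 (i - 1) (by omega))
    (by
      intro o ho hor
      rw [gsp_eq]
      by_cases h5 : o ≤ i
      · rw [hA' (i - o) o (by omega)]
        exact h3 (i - o) o (by omega) ho hor
      · show |(if o ≤ i then A (i - o) else w₀ * (phi J r o : ℝ)) - _| ≤ δ
        rw [if_neg h5, sub_self, abs_zero]
        exact hδ)
    (by
      intro o ho
      by_cases h5 : o ≤ i
      · rw [hA' (i - o) o (by omega)]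
        exact h2 (i - o) (by omega)
      · show (if o ≤ i then A (i - o) else w₀ * (phi J r o : ℝ)) = 0
        rw [if_neg h5, ← gsp_eq]
        unfold gsp
        rw [if_neg (by omega), if_neg (by omega), if_neg (by omega), mul_zero])
  have hTT := gamSq_T hle h1 hT1 hT hA'
  have hTT' : ∀ v, v < i → |A v| ≤ TT A v ∧ (1 / 4) ^ (i - v) / 2 ≤ TT A v := by
    intro v hv
    have h5 := hTT (i - v) (by omega) v (by omega)
    rw [h5, ← hA' v (i - v) (by omega)]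
    exact ⟨hcore.1 _ (by omega), hcore.2 _ (by omega)⟩
  refine ⟨h1, hle, fun w hw => (hTT' w hw).1, ?_⟩
  intro w hwk
  have hsum : ∑ v ∈ Finset.range (w + 1), (1 / 4 : ℝ) ^ v * |A v| ≤ 4 / 3 := by
    calc ∑ v ∈ Finset.range (w + 1), (1 / 4 : ℝ) ^ v * |A v|
        ≤ ∑ v ∈ Finset.range (w + 1), (1 / 4 : ℝ) ^ v :=
          Finset.sum_le_sum fun v _ => mul_le_of_le_one_right (hp v).le (hle v)
      _ ≤ 4 / 3 := by
          have h5 := geom_sum_eq (show (1 / 4 : ℝ) ≠ 1 by norm_num) (w + 1)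
          rw [h5]
          have := hp (w + 1)
          rw [div_le_iff_of_neg (by norm_num)]
          linarith
  have hη : (0 : ℝ) < 3 / 8 * (1 / 4) ^ (k' + r) := by positivity
  have hleft : 3 / 8 * (1 / 4 : ℝ) ^ (k' + r) *
      ∑ v ∈ Finset.range (w + 1), (1 / 4 : ℝ) ^ v * |A v| ≤ (1 / 4) ^ (k' + r) / 2 := by
    calc 3 / 8 * (1 / 4 : ℝ) ^ (k' + r) *
        ∑ v ∈ Finset.range (w + 1), (1 / 4 : ℝ) ^ v * |A v|
        ≤ 3 / 8 * (1 / 4 : ℝ) ^ (k' + r) * (4 / 3) := mul_le_mul_of_nonneg_left hsum hη.le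
      _ = (1 / 4) ^ (k' + r) / 2 := by ring
  by_cases hw1 : i ≤ w + 1
  · rw [TT_one h1 hw1]
    refine hleft.trans ?_
    have h5 : (1 / 4 : ℝ) ^ (k' + r) ≤ (1 / 4) ^ (w + 1) := hmono _ _ (by omega)
    rw [pow_succ] at h5
    have := hp w
    linarith
  · push Not at hw1
    by_cases hwr : w + r < i
    · have h5 : ∑ v ∈ Finset.range (w + 1), (1 / 4 : ℝ) ^ v * |A v| = 0 := by
        refine Finset.sum_eq_zero fun v hv => ?_
        rw [h2 v (by have := Finset.mem_range.mp hv; omega), abs_zero, mul_zero]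
      rw [h5, mul_zero]
      have h6 := (hTT' w (by omega)).1
      exact mul_nonneg (hp w).le ((abs_nonneg _).trans h6)
    · push Not at hwr
      refine hleft.trans ?_
      have h6 := (hTT' w (by omega)).2
      have h7 : (1 / 4 : ℝ) ^ w * ((1 / 4) ^ (i - w) / 2) ≤ (1 / 4) ^ w * TT A w :=
        mul_le_mul_of_nonneg_left h6 (hp w).le
      refine le_trans ?_ h7
      have h8 : (1 / 4 : ℝ) ^ w * ((1 / 4) ^ (i - w) / 2) = (1 / 4) ^ i / 2 := by
        rw [← mul_div_assoc, ← pow_add]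
        congr 2
        omega
      rw [h8]
      have h9 := hmono i (k' + r) (by omega)
      linarith

end SlopeB
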