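import Pool.Agent.Lib.SlopeB.Defs
import Pool.Agent.Lib.SlopeB.Defs2
import Pool.Agent.Lib.SlopeB.ChB
import Pool.Agent.Lib.SlopeB.YzF
import Pool.Agent.Lib.SlopeB.GFa
import Pool.Agent.Lib.SlopeB.GFb
import Pool.Agent.Lib.SlopeB.OrdL
import Pool.Agent.Lib.SlopeB.KapB
import Pool.Agent.Lib.SlopeB.GamSq
import Pool.Agent.Lib.SlopeB.QR

/-!
# The Fourier sequences of the law without isolated directions

Notation: `μ = (2/3)/2^b`, `w₀ = w0 b = 1/3 + μ`, `δ = 2 C₁ (1/4)^r`, `K ≥ r ≥ 2`.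
PROOF. Let `i` be the order of `s` (`exists_ordE`); `gam_formula` gives the coefficient at `j` as
`w₀ phi o + S_j`, where `o` is the order of `j • s`.
Case `i = 0`: all `2^K ∣ (j • s)_t`, order `0`, `phi 0 = 1`, `fz = 1` (`fz_one`): the coefficient is
`w₀ + μ ∑_{z≠0} (±1)`, sign `+` iff `2 ∣ j c'(lf z)`. For even `j` it is `w₀ + μ (2^b - 1) = 1`. For odd `j`
it is `w₀ - μ + μ ∑_z (±1)` (`c'(lf 0) = c' 0 = 0` has sign `+`), which is `1/3` if `c'` takes an odd value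
(`sum_sign`) and `1` otherwise. If `c'` is even everywhere: `i = 0`, `q = 1` (`QQ_one`;
`(3/8)(1/4)^(k'+r) ≤ (1/4)^k'`), and `s = 2 • w` by `ordE_zero`. Otherwise `q v = 1 * (if v = 0 then 1/3
else 1)`, of class `Q(max 0 1)` by `QQ_mul` (`RR 1`); the index is `≠ 0`.
Case `i ≥ 1`: define `q v` = real part of the coefficient at `j = 2^v`. For `j = 2^v u`, `u` odd, `v = v₂ j`,
the coefficient at `j` equals the one at `2^v`: the orders agree (`ordE_mul`, `ordE_mul_high`), `fz` at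
`j • s = u • (2^v • s)` is `fz` at `2^v • s` (`fz_odd`), `2 ∣ j m` iff `2 ∣ 2^v m`. It is real: `fz_real` and
real factors. Apply `gam_QQ` with `A = q`:
`h1`: `v ≥ i ≥ 1`: order `0`, all `fz = 1`, sign `+` (`2 ∣ 2^v`): `w₀ + μ (2^b - 1) = 1`.
For `v + o = i`, `o ≥ 1`, the order of `2^v • s` is `o` (`ordE_mul`, `padicValNat.prime_pow`).
`h2` (`v + r < i`): `o > r`: `phi o = 0`, `fz = 0` by `fz_high` (`OrdE`: `r < o`). `h3` (`2 ≤ o ≤ r`):
`gam_small2`. `h4` (`o = 1`): `gam_small1`. (`‖Re‖ ≤ ‖·‖`; `w₀ ≤ 1/2` because `b ≥ 2`, `w₀ ≥ 1/3`.)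
-/

set_option autoImplicit false

open scoped Matrix.Norms.Elementwise Real Topology
open Complex Matrix MP6feb Filter

noncomputable section

namespace SlopeB

section
variable {b : ℕ} {E : Type}

private noncomputable def gfS (c : E → (Fin b → ℤ) →+ ℤ) (K r : ℕ) (c' : (Fin b → ℤ) →+ ℤ)
    (s : Fin b → ℤ) (j : ℕ) : ℂ :=
  ∑ z : Fin b → ZMod 2, (if z = 0 then 0 else
    (2 / 3 / 2 ^ b : ℂ) * (if (2 : ℤ) ∣ (j : ℤ) * c' (lf z) then 1 else -1) *
      fz K (Yz c K r (lf z)) ((j : ℤ) • s))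

private theorem gf_div {c : E → (Fin b → ℤ) →+ ℤ} {K r : ℕ} (hYz : ∀ z, (Yz c K r z).Nonempty)
    (c' : (Fin b → ℤ) →+ ℤ) {s : Fin b → ℤ} {j : ℕ}
    (h : ∀ t, (2 : ℤ) ^ K ∣ ((j : ℤ) • s) t) :
    gfS c K r c' s j = ((∑ z : Fin b → ZMod 2, (if z = 0 then 0 else
      (2 / 3 / 2 ^ b : ℝ) * (if (2 : ℤ) ∣ (j : ℤ) * c' (lf z) then 1 else -1)) : ℝ) : ℂ) := by
  unfold gfS
  rw [Complex.ofReal_sum]
  refine Finset.sum_congr rfl fun z _ => ?_
  rw [fz_one (hYz _) h, mul_one]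
  split_ifs <;> push_cast <;> ring

private theorem gf_cut (b : ℕ) (f : (Fin b → ZMod 2) → ℝ) :
    ∑ z : Fin b → ZMod 2, (if z = 0 then 0 else f z) = ∑ z, f z - f 0 := by
  have h1 : ∀ z : Fin b → ZMod 2, (if z = 0 then 0 else f z) = f z - if z = 0 then f z else 0 := by
    intro z
    split_ifs <;> ring
  rw [Finset.sum_congr rfl fun z _ => h1 z, Finset.sum_sub_distrib]
  congr 1
  rw [Finset.sum_ite_eq' Finset.univ (0 : Fin b → ZMod 2) f, if_pos (Finset.mem_univ _)]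

private theorem gf_all (b : ℕ) (c' : (Fin b → ℤ) →+ ℤ) {j : ℕ}
    (h : ∀ z : Fin b → ZMod 2, (2 : ℤ) ∣ (j : ℤ) * c' (lf z)) :
    (w0 b : ℝ) + ∑ z : Fin b → ZMod 2, (if z = 0 then 0 else
      (2 / 3 / 2 ^ b : ℝ) * (if (2 : ℤ) ∣ (j : ℤ) * c' (lf z) then 1 else -1)) = 1 := by
  have h1 : ∀ z : Fin b → ZMod 2, (if z = 0 then (0 : ℝ) else
      (2 / 3 / 2 ^ b : ℝ) * (if (2 : ℤ) ∣ (j : ℤ) * c' (lf z) then 1 else -1)) =
      if z = 0 then 0 else (2 / 3 / 2 ^ b : ℝ) := by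
    intro z
    rw [if_pos (h z), mul_one]
  rw [Finset.sum_congr rfl fun z _ => h1 z, gf_cut b (fun _ => (2 / 3 / 2 ^ b : ℝ)),
    Finset.sum_const, Finset.card_univ, Fintype.card_fun, ZMod.card, Fintype.card_fin,
    nsmul_eq_mul]
  have h2 : (2 : ℝ) ^ b ≠ 0 := by positivity
  unfold w0
  push_cast
  field_simp
  ring

private theorem gf_odd (b : ℕ) (c' : (Fin b → ℤ) →+ ℤ) (hc : ∃ h, ¬ ((2 : ℤ) ∣ c' h)) {j : ℕ}
    (hj : ¬ 2 ∣ j) :
    (w0 b : ℝ) + ∑ z : Fin b → ZMod 2, (if z = 0 then 0 else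
      (2 / 3 / 2 ^ b : ℝ) * (if (2 : ℤ) ∣ (j : ℤ) * c' (lf z) then 1 else -1)) = 1 / 3 := by
  have hd : ∀ m : ℤ, (2 : ℤ) ∣ (j : ℤ) * m ↔ (2 : ℤ) ∣ m := by
    intro m
    have hp : Prime (2 : ℤ) := Int.prime_two
    rw [hp.dvd_mul]
    refine or_iff_right ?_
    intro h
    exact hj (by exact_mod_cast h)
  have h1 : ∀ z : Fin b → ZMod 2, (if z = 0 then (0 : ℝ) else
      (2 / 3 / 2 ^ b : ℝ) * (if (2 : ℤ) ∣ (j : ℤ) * c' (lf z) then 1 else -1)) =
      if z = 0 then 0 else (2 / 3 / 2 ^ b : ℝ) * (if (2 : ℤ) ∣ c' (lf z) then 1 else -1) := by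
    intro z
    simp only [hd]
  have h0 : c' (lf (0 : Fin b → ZMod 2)) = 0 := by
    have : lf (0 : Fin b → ZMod 2) = 0 := by
      funext i
      simp [lf]
    rw [this, map_zero]
  rw [Finset.sum_congr rfl fun z _ => h1 z,
    gf_cut b (fun z => (2 / 3 / 2 ^ b : ℝ) * (if (2 : ℤ) ∣ c' (lf z) then 1 else -1)),
    ← Finset.mul_sum, sum_sign c' hc, h0, if_pos (dvd_zero _)]
  unfold w0
  push_cast
  ring

private theorem gf_conj (c : E → (Fin b → ℤ) →+ ℤ) (K r : ℕ) (c' : (Fin b → ℤ) →+ ℤ)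
    (s : Fin b → ℤ) (j : ℕ) :
    (starRingEnd ℂ) (gfS c K r c' s j) = gfS c K r c' s j := by
  unfold gfS
  rw [map_sum]
  refine Finset.sum_congr rfl fun z _ => ?_
  split_ifs
  · exact map_zero _
  · rw [map_mul, map_mul, fz_real, map_one, map_div₀, map_div₀, map_pow, map_ofNat, map_ofNat]
  · rw [map_mul, map_mul, fz_real, map_neg, map_one, map_div₀, map_div₀, map_pow, map_ofNat,
      map_ofNat]

private theorem gf_eq (c : E → (Fin b → ℤ) →+ ℤ) (K r : ℕ) (c' : (Fin b → ℤ) →+ ℤ)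
    (s : Fin b → ℤ) {j v u : ℕ} (hj : j = 2 ^ v * u) (hu : ¬ 2 ∣ u) :
    gfS c K r c' s j = gfS c K r c' s (2 ^ v) := by
  unfold gfS
  refine Finset.sum_congr rfl fun z _ => ?_
  have hs : ((j : ℤ) • s) = (u : ℤ) • (((2 ^ v : ℕ) : ℤ) • s) := by
    rw [smul_smul, hj]
    push_cast
    rw [mul_comm]
  have hd : (2 : ℤ) ∣ (j : ℤ) * c' (lf z) ↔ (2 : ℤ) ∣ ((2 ^ v : ℕ) : ℤ) * c' (lf z) := by
    have hp : Prime (2 : ℤ) := Int.prime_two
    have hu' : ¬ (2 : ℤ) ∣ (u : ℤ) := fun h => hu (by exact_mod_cast h)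
    have e : (j : ℤ) * c' (lf z) = (u : ℤ) * (((2 ^ v : ℕ) : ℤ) * c' (lf z)) := by
      rw [hj]
      push_cast
      ring
    rw [e, hp.dvd_mul]
    exact or_iff_right hu'
  rw [hs, fz_odd c (lf z) _ hu]
  simp only [hd]

private theorem gf_w0 {b : ℕ} (hb : 2 ≤ b) : (1 : ℝ) / 3 ≤ (w0 b : ℝ) ∧ (w0 b : ℝ) ≤ 1 / 2 := by
  unfold w0
  push_cast
  have h1 : (0 : ℝ) < 2 ^ b := by positivity
  have h2 : (4 : ℝ) ≤ 2 ^ b := by
    calc (4 : ℝ) = 2 ^ 2 := by norm_num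
      _ ≤ 2 ^ b := pow_le_pow_right₀ (by norm_num) hb
  constructor
  · have : (0 : ℝ) ≤ 2 / 3 / 2 ^ b := by positivity
    linarith
  · have : (2 : ℝ) / 3 / 2 ^ b ≤ 1 / 6 := by
      rw [div_le_iff₀ h1]
      linarith
    linarith

end

theorem gam_four {b : ℕ} {E : Type} [Finite E] {c : E → (Fin b → ℤ) →+ ℤ} (hc : IsSys c)
    (hNI : ∀ d, ¬ Isol c d) (hb : 2 ≤ b) {J r K C₁ k' : ℕ} (hJ : 1 ≤ J) (hJr : J < r)
    (hrK : r ≤ K)
    (hδ1 : 2 * (C₁ : ℝ) * (1 / 4) ^ r ≤ 5 / 16 * (1 / 4) ^ J)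
    (hδ2 : 2 * (C₁ : ℝ) * (1 / 4) ^ r ≤ 2 ^ J * (1 / 4) ^ r / 16)
    (hYz : ∀ z, (Yz c K r z).Nonempty)
    (hC : ∀ z, (Y0 c K z).card * 4 ^ r ≤ (Yz c K r z).card * 4 ^ r + C₁ * (Y0 c K z).card)
    (c' : (Fin b → ℤ) →+ ℤ) (s : Fin b → ℤ) :
    ∃ (i : ℕ) (q : ℕ → ℝ), QQ (3 / 8 * (1 / 4) ^ (k' + r)) k' i q ∧
      (∀ j : ℕ, 1 ≤ j → ∑ i : GIx b r K, (gp c J r K i : ℂ) *
        cexp (2 * π * I * (j * ((c' (gzz i) : ℂ) / 2 + (gbb i s : ℂ)))) =
          (q (padicValNat 2 j) : ℂ)) ∧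
      (i = 0 → (∀ h, (2 : ℤ) ∣ c' h) ∧ ∃ w : Fin b → ℤ, s = 2 • w) := by
  classical
  have hK : 1 ≤ K := by omega
  set cf : ℕ → ℂ := fun j => ∑ i : GIx b r K, (gp c J r K i : ℂ) *
        cexp (2 * π * I * (j * ((c' (gzz i) : ℂ) / 2 + (gbb i s : ℂ)))) with hcf
  have hform : ∀ j o : ℕ, OrdE K ((j : ℤ) • s) o →
      cf j = (w0 b : ℂ) * (phi J r o : ℂ) + gfS c K r c' s j := fun j o ho =>
    gam_formula c hJr c' s ho
  have hphi0 : phi J r 0 = 1 := by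
    unfold phi
    rw [if_pos rfl]
  have hord0 : ∀ j : ℕ, (∀ t, (2 : ℤ) ^ K ∣ ((j : ℤ) • s) t) → OrdE K ((j : ℤ) • s) 0 := by
    intro j h
    refine ⟨fun t => ?_, fun i' hi' => absurd hi' (Nat.not_lt_zero _)⟩
    rw [pow_zero, one_mul]
    exact h t
  have hdiv : ∀ j : ℕ, (∀ t, (2 : ℤ) ^ K ∣ ((j : ℤ) • s) t) →
      cf j = (((w0 b : ℝ) + ∑ z : Fin b → ZMod 2, (if z = 0 then 0 else
      (2 / 3 / 2 ^ b : ℝ) * (if (2 : ℤ) ∣ (j : ℤ) * c' (lf z) then 1 else -1)) : ℝ) : ℂ) := by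
    intro j h
    rw [hform j 0 (hord0 j h), gf_div hYz c' h, hphi0]
    push_cast
    ring
  obtain ⟨i, hi⟩ := exists_ordE K s
  rcases Nat.eq_zero_or_pos i with hi0 | hi1
  · subst hi0
    have hall : ∀ j : ℕ, 1 ≤ j → ∀ t, (2 : ℤ) ^ K ∣ ((j : ℤ) • s) t := fun j hj t =>
      ordE_mul_high hi hj (Nat.zero_le _) t
    by_cases hc' : ∀ h, (2 : ℤ) ∣ c' h
    · refine ⟨0, fun _ => 1, QQ_one (by positivity) ?_, fun j hj => ?_, fun _ =>
        ⟨hc', ordE_zero hK hi⟩⟩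
      · have h1 : (1 / 4 : ℝ) ^ (k' + r) ≤ (1 / 4) ^ k' :=
          pow_le_pow_of_le_one (by norm_num) (by norm_num) (Nat.le_add_right _ _)
        have h2 : (0 : ℝ) ≤ (1 / 4) ^ (k' + r) := by positivity
        linarith
      · show cf j = _
        rw [hdiv j (hall j hj), gf_all b c' (fun z => (hc' _).mul_left _)]
    · push Not at hc'
      have hRR : RR 1 (fun v : ℕ => if v = 0 then (1 : ℝ) / 3 else 1) := by
        refine ⟨fun v hv => ?_, fun v hv => ?_, fun v hv => ?_⟩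
        · show (if v = 0 then (1 : ℝ) / 3 else 1) = 1
          rw [if_neg (by omega)]
        · have : v = 0 := by omega
          subst this
          show |(if (0 : ℕ) = 0 then (1 : ℝ) / 3 else 1)| ≤ 1 / 3
          rw [if_pos rfl, abs_of_nonneg (by norm_num)]
        · omega
      have hQQ := QQ_mul (η := 3 / 8 * (1 / 4) ^ (k' + r)) (k' := k') (by positivity)
        (QQ_one (k' := k') (η := 3 / 8 * (1 / 4) ^ (k' + r)) (by positivity) (by
          have h1 : (1 / 4 : ℝ) ^ (k' + r) ≤ (1 / 4) ^ k' :=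
            pow_le_pow_of_le_one (by norm_num) (by norm_num) (Nat.le_add_right _ _)
          have h2 : (0 : ℝ) ≤ (1 / 4) ^ (k' + r) := by positivity
          linarith)) hRR
      refine ⟨max 0 1, _, hQQ, fun j hj => ?_, fun h => absurd h (by decide)⟩
      show cf j = _
      rw [hdiv j (hall j hj)]
      by_cases h2 : 2 ∣ j
      · have hv : padicValNat 2 j ≠ 0 := by
          have := one_le_padicValNat_of_dvd (p := 2) (n := j) (by omega) h2
          omega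
        rw [gf_all b c' (fun z => by
          refine Dvd.dvd.mul_right ?_ _
          exact_mod_cast h2)]
        simp only [hv, if_false, mul_one]
      · have hv : padicValNat 2 j = 0 := padicValNat.eq_zero_of_not_dvd h2
        rw [gf_odd b c' hc' h2]
        simp only [hv, if_true, one_mul]
  · have hpow : ∀ v o : ℕ, v + o = i → OrdE K (((2 ^ v : ℕ) : ℤ) • s) o := by
      intro v o hvo
      refine ordE_mul hi (Nat.one_le_two_pow) ?_
      rw [padicValNat.prime_pow]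
      exact hvo
    have hpowd : ∀ v : ℕ, i ≤ v → ∀ t, (2 : ℤ) ^ K ∣ (((2 ^ v : ℕ) : ℤ) • s) t := by
      intro v hv
      refine ordE_mul_high hi (Nat.one_le_two_pow) ?_
      rw [padicValNat.prime_pow]
      exact hv
    have hreal : ∀ v, cf (2 ^ v) = ((cf (2 ^ v)).re : ℂ) := by
      intro v
      obtain ⟨o, ho⟩ := exists_ordE K (((2 ^ v : ℕ) : ℤ) • s)
      have h1 : (starRingEnd ℂ) (cf (2 ^ v)) = cf (2 ^ v) := by
        rw [hform _ o ho, map_add, map_mul, gf_conj]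
        have e1 : (starRingEnd ℂ) ((w0 b : ℚ) : ℂ) = ((w0 b : ℚ) : ℂ) := map_ratCast _ _
        have e2 : (starRingEnd ℂ) ((phi J r o : ℚ) : ℂ) = ((phi J r o : ℚ) : ℂ) := map_ratCast _ _
        rw [e1, e2]
      exact (Complex.conj_eq_iff_re.1 h1).symm
    have hsame : ∀ j, 1 ≤ j → cf j = cf (2 ^ padicValNat 2 j) := by
      intro j hj
      obtain ⟨u, hu1, hu2⟩ : ∃ u, j = 2 ^ padicValNat 2 j * u ∧ ¬ 2 ∣ u := by
        obtain ⟨u, hu⟩ := pow_padicValNat_dvd (p := 2) (n := j)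
        refine ⟨u, hu, fun h => ?_⟩
        obtain ⟨u', rfl⟩ := h
        have h3 : 2 ^ (padicValNat 2 j + 1) ∣ j := ⟨u', by rw [pow_succ, mul_assoc]; exact hu⟩
        exact pow_succ_padicValNat_not_dvd (by omega) h3
      obtain ⟨o, ho1, ho2⟩ : ∃ o, OrdE K ((j : ℤ) • s) o ∧
          OrdE K (((2 ^ padicValNat 2 j : ℕ) : ℤ) • s) o := by
        rcases Nat.lt_or_ge (padicValNat 2 j) i with h | h
        · exact ⟨i - padicValNat 2 j, ordE_mul hi hj (by omega), hpow _ _ (by omega)⟩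
        · exact ⟨0, hord0 j (ordE_mul_high hi hj h), hord0 _ (hpowd _ h)⟩
      rw [hform j o ho1, hform _ o ho2, gf_eq c K r c' s hu1 hu2]
    have hδ0 : (0 : ℝ) ≤ 2 * (C₁ : ℝ) * (1 / 4) ^ r := by positivity
    have hσ : ∀ (j : ℕ) (z : Fin b → ZMod 2),
        ‖(if (2 : ℤ) ∣ (j : ℤ) * c' (lf z) then (1 : ℂ) else -1)‖ ≤ 1 := by
      intro j z
      split_ifs <;> simp
    have hre : ∀ v o : ℕ, v + o = i →
        (cf (2 ^ v)).re - (w0 b : ℝ) * (phi J r o : ℝ) = (gfS c K r c' s (2 ^ v)).re := by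
      intro v o hvo
      rw [hform _ o (hpow v o hvo), Complex.add_re]
      have e : ((w0 b : ℂ) * (phi J r o : ℂ)) = (((w0 b : ℝ) * (phi J r o : ℝ) : ℝ) : ℂ) := by
        push_cast
        rfl
      rw [e, Complex.ofReal_re]
      ring
    obtain ⟨hw1, hw2⟩ := gf_w0 hb
    have hQ := gam_QQ (J := J) (r := r) (i := i) (k' := k') (w₀ := (w0 b : ℝ))
      (δ := 2 * (C₁ : ℝ) * (1 / 4) ^ r) hJ hJr hw1 hw2 hδ0 hδ1 hδ2
      (A := fun v => (cf (2 ^ v)).re) hi1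
      (by
        intro v hv
        show (cf (2 ^ v)).re = 1
        rw [hdiv _ (hpowd v hv), Complex.ofReal_re]
        refine gf_all b c' (fun z => ?_)
        refine Dvd.dvd.mul_right ?_ _
        have h2 : (2 : ℕ) ∣ 2 ^ v := dvd_pow_self 2 (by omega)
        exact_mod_cast h2)
      (by
        intro v hv
        obtain ⟨o, ho⟩ : ∃ o, v + o = i := ⟨i - v, by omega⟩
        have h3 := hpow v o ho
        have hphi : phi J r o = 0 := by
          unfold phi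
          rw [if_neg (by omega), if_neg (by omega), if_neg (by omega)]
        have h4 : gfS c K r c' s (2 ^ v) = 0 := by
          unfold gfS
          refine Finset.sum_eq_zero fun z _ => ?_
          rw [fz_high (by omega) c (lf z) (h3.2 r (by omega)), mul_zero, ite_self]
        show (cf (2 ^ v)).re = 0
        rw [hform _ o h3, hphi, h4]
        simp)
      (by
        intro v o hvo ho2 hor
        show |(cf (2 ^ v)).re - (w0 b : ℝ) * (phi J r o : ℝ)| ≤ _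
        rw [hre v o hvo]
        refine (Complex.abs_re_le_norm _).trans ?_
        exact gam_small2 hYz hC
          (fun z => if (2 : ℤ) ∣ ((2 ^ v : ℕ) : ℤ) * c' (lf z) then (1 : ℂ) else -1)
          (hσ (2 ^ v)) (hpow v o hvo) ho2)
      (by
        intro v hvo
        show |(cf (2 ^ v)).re - (w0 b : ℝ) * (phi J r 1 : ℝ)| ≤ _
        rw [hre v 1 hvo]
        refine (Complex.abs_re_le_norm _).trans ?_
        exact gam_small1 hc hNI hK hYz hC
          (fun z => if (2 : ℤ) ∣ ((2 ^ v : ℕ) : ℤ) * c' (lf z) then (1 : ℂ) else -1)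
          (hσ (2 ^ v)) (hpow v 1 hvo))
    refine ⟨i, fun v => (cf (2 ^ v)).re, hQ, fun j hj => ?_, fun h => absurd h (by omega)⟩
    show cf j = (((cf (2 ^ padicValNat 2 j)).re : ℝ) : ℂ)
    rw [hsame j hj]
    exact hreal _

end SlopeB
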