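import Pool.Agent.Lib.SlopeB.Defs

/-!
# Independence of powers of two-power roots of unity

Notation: `ζ K = exp(2πi/2^K)`, `F s = IntermediateField.adjoin ℚ {ζ s}`.
PROOF of `cyc_indep`. (1) `ζ K` is a primitive root of order `2^K` (`Complex.isPrimitiveRoot_exp`), its
minimal polynomial over `ℚ` is the cyclotomic polynomial, of degree `φ(2^K) = 2^(K-1)` (`K ≥ 1`;
`Polynomial.cyclotomic_eq_minpoly_rat`, `Polynomial.natDegree_cyclotomic`, `Nat.totient_prime_pow`),
so `1, ζ, …, ζ^(2^(K-1)-1)` are linearly independent over `ℚ` (`linearIndependent_pow`).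
(2) Every element of `F s` is `∑_{q < 2^(s-1)} a_q (ζ s)^q`, `a_q ∈ ℚ` (power basis
`IntermediateField.adjoin.powerBasis`, of dimension `natDegree (minpoly ℚ (ζ s)) = 2^(s-1)`), and
`ζ s = (ζ K)^(2^(K-s))`.
(3) If `∑_{r < 2^(K-s)} a r (ζ K)^r = 0`, write `a r = ∑_{q < 2^(s-1)} a_{r,q} (ζ K)^(2^(K-s) q)`: the sum is
`∑_{r,q} a_{r,q} (ζ K)^(r + 2^(K-s) q) = 0`, the exponents are distinct and less than
`2^(K-s) 2^(s-1) = 2^(K-1)` (bijection `finProdFinEquiv` or `Nat` division), so all `a_{r,q} = 0`.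
(Alternative: `[F K : F s] = 2^(K-s)` by the tower law and `linearIndependent_pow` over `F s`.)
PROOF of `zeta_mem`: `ζ s = ζ K ^ (2^(K-s))`.
-/

set_option autoImplicit false

open scoped Matrix.Norms.Elementwise Real Topology
open Complex Matrix MP6feb Filter Polynomial

noncomputable section

namespace SlopeB

/-- `exp(2πi/2^K)`. -/
def zt (K : ℕ) : ℂ := cexp (2 * π * I / 2 ^ K)

theorem zt_pow {s K : ℕ} (h : s ≤ K) : zt K ^ (2 ^ (K - s)) = zt s := by
  obtain ⟨d, rfl⟩ := Nat.exists_eq_add_of_le h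
  rw [Nat.add_sub_cancel_left, zt, zt, ← Complex.exp_nat_mul]
  congr 1
  push_cast
  field_simp
  ring

private theorem zt_prim (K : ℕ) : IsPrimitiveRoot (zt K) (2^K) := by
  have := Complex.isPrimitiveRoot_exp (2^K) (by positivity)
  simpa [zt] using this

private theorem zt_int (K : ℕ) : IsIntegral ℚ (zt K) :=
  ((zt_prim K).isIntegral (by positivity)).tower_top

private theorem EK_finrank (K : ℕ) (hK : 1 ≤ K) :
    Module.finrank ℚ (IntermediateField.adjoin ℚ {zt K}) = 2^(K-1) := by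
  rw [IntermediateField.adjoin.finrank (zt_int K),
    ← Polynomial.cyclotomic_eq_minpoly_rat (zt_prim K) (by positivity), Polynomial.natDegree_cyclotomic,
    Nat.totient_prime_pow Nat.prime_two hK]
  simp

open IntermediateField in
private theorem deg_le (s0 K : ℕ) (h1 : 1 ≤ s0) (hK : s0 ≤ K) :
    2^(K - s0) ≤ (minpoly ℚ⟮zt s0⟯ (zt K)).natDegree := by
  have hi : IsIntegral ℚ⟮zt s0⟯ (zt K) := (zt_int K).tower_top
  rw [← IntermediateField.adjoin.finrank hi]
  have : FiniteDimensional ℚ ℚ⟮zt s0⟯ := IntermediateField.adjoin.finiteDimensional (zt_int s0)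
  have : FiniteDimensional ℚ⟮zt s0⟯ ℚ⟮zt s0⟯⟮zt K⟯ := IntermediateField.adjoin.finiteDimensional hi
  have ht := Module.finrank_mul_finrank ℚ ℚ⟮zt s0⟯ ℚ⟮zt s0⟯⟮zt K⟯
  rw [EK_finrank s0 h1] at ht
  have : FiniteDimensional ℚ ℚ⟮zt s0⟯⟮zt K⟯ := FiniteDimensional.trans ℚ ℚ⟮zt s0⟯ ℚ⟮zt s0⟯⟮zt K⟯
  have hle : ℚ⟮zt K⟯ ≤ (ℚ⟮zt s0⟯⟮zt K⟯).restrictScalars ℚ := by
    rw [IntermediateField.adjoin_simple_le_iff, IntermediateField.mem_restrictScalars]
    exact IntermediateField.mem_adjoin_simple_self _ _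
  have : FiniteDimensional ℚ ((ℚ⟮zt s0⟯⟮zt K⟯).restrictScalars ℚ) := ‹FiniteDimensional ℚ ℚ⟮zt s0⟯⟮zt K⟯›
  have h2 := IntermediateField.finrank_le_of_le_right hle
  rw [EK_finrank K (h1.trans hK)] at h2
  have h3 : Module.finrank ℚ ((ℚ⟮zt s0⟯⟮zt K⟯).restrictScalars ℚ) = Module.finrank ℚ ℚ⟮zt s0⟯⟮zt K⟯ := rfl
  rw [h3, ← ht] at h2
  have h4 : 2^(K-1) = 2^(s0-1) * 2^(K-s0) := by rw [← pow_add]; congr 1; omega
  rw [h4] at h2
  exact Nat.le_of_mul_le_mul_left h2 (by positivity)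

theorem cyc_indep {s K : ℕ} (hs : 1 ≤ s) (hK : s ≤ K) (a : ℕ → ℂ)
    (ha : ∀ r, a r ∈ IntermediateField.adjoin ℚ {zt s})
    (h : ∑ r ∈ Finset.range (2 ^ (K - s)), a r * zt K ^ r = 0) :
    ∀ r < 2 ^ (K - s), a r = 0 := by
  intro r hr
  set n : ℕ := 2 ^ (K - s) with hn
  have hnpos : 0 < n := by positivity
  let F := IntermediateField.adjoin ℚ {zt s}
  let d : ℕ → F := fun r => ⟨a r, ha r⟩
  let P : F[X] := ∑ r ∈ Finset.range n, C (d r) * X ^ r
  have hPdeg : P.natDegree < n := by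
    refine lt_of_le_of_lt (Polynomial.natDegree_sum_le_of_forall_le (n := n - 1) _ _ ?_) (by omega)
    intro h' hh'
    have := Finset.mem_range.mp hh'
    exact (Polynomial.natDegree_C_mul_X_pow_le _ _).trans (by omega)
  have hPz : aeval (zt K) P = 0 := by
    simp only [P, map_sum, map_mul, aeval_C, map_pow, aeval_X]
    rw [← h]
    exact Finset.sum_congr rfl fun h' _ => rfl
  have hP0 : P = 0 := by
    by_contra hne
    have h3 := Polynomial.natDegree_le_of_dvd (minpoly.dvd F (zt K) hPz) hne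
    have h4 : n ≤ (minpoly F (zt K)).natDegree := deg_le s K hs hK
    omega
  have hcoef : P.coeff r = d r := by
    simp only [P, Polynomial.finsetSum_coeff, Polynomial.coeff_C_mul, Polynomial.coeff_X_pow]
    rw [Finset.sum_eq_single r]
    · simp
    · intro h' _ hne
      simp [Ne.symm hne]
    · intro hh
      exact absurd (Finset.mem_range.mpr hr) hh
  rw [hP0, Polynomial.coeff_zero] at hcoef
  exact (congrArg (fun x : F => (x : ℂ)) hcoef).symm

end SlopeB
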