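import Pool.Agent.Lib.SlopeB.Defs
import Pool.Agent.Lib.SlopeB.CycA

/-!
# Lemma C: vanishing sums with roots of unity of order `2 ^ K`

PROOF. Let `F s = IntermediateField.adjoin ℚ {zt s}`, increasing in `s` (`zt_pow`), and let
`F∞ = ⨆ s, F s` (directed union). View `ℂ` as a vector space over the field `F∞`; for `a : α` there is
an `F∞`-linear functional `λ_a : ℂ → F∞` with `λ_a (A a) ≠ 0` (coordinate of a basis:
`Module.Free.chooseBasis`/`Basis.ofVectorSpace`, `exists_dual_map_ne_zero`-type lemma such as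
`Module.exists_dual_forall_apply_eq_zero_iff`, or `exists_dual_eq_one`). All the finitely many
elements `λ_a (A a')`, `a, a' : α`, lie in one `F s₀`, `s₀ ≥ 1` (each element of a directed union lies
in some `F s`: `IntermediateField.mem_iSup_of_directed`-type lemma, or prove that the union is a
subfield; take the maximum over `α × α`).
Let `K ≥ s₀`, `∑_{h ∈ S} A h exp(2πi m_h/2^K) = 0`, and suppose that `h₀ ∈ S` has no `h' ≠ h₀` in `S` with
`2^(K-s₀) ∣ m_{h₀} - m_{h'}`. `exp(2πi m/2^K) = zt K ^ m` (zpow). Write `m_h = r_h + 2^(K-s₀) q_h` with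
`0 ≤ r_h < 2^(K-s₀)` (`Int.emod`, `Int.ediv`), so `zt K ^ m_h = zt K ^ r_h * zt s₀ ^ q_h`. Apply
`λ = λ_{h₀}` (linear over `F∞ ∋ zt K ^ m_h`): `∑_{h ∈ S} λ(A h) (zt s₀)^(q_h) (zt K)^(r_h) = 0`.
Group by `r`: `a r = ∑_{h ∈ S, r_h = r} λ(A h) (zt s₀)^(q_h) ∈ F s₀`; `∑_{r < 2^(K-s₀)} a r (zt K)^r = 0`, so by
`cyc_indep` all `a r = 0`. For `r = r_{h₀}` only `h = h₀` contributes (two elements with the same `r`
have `m` congruent modulo `2^(K-s₀)`), so `λ(A h₀) (zt s₀)^(q) = 0`, a contradiction.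
-/

set_option autoImplicit false

open scoped Matrix.Norms.Elementwise Real Topology
open Complex Matrix MP6feb Filter

noncomputable section

namespace SlopeB

private theorem zt_ne (K : ℕ) : zt K ≠ 0 := Complex.exp_ne_zero _

private theorem zt_zpow (K : ℕ) (m : ℤ) : zt K ^ m = cexp (2 * π * I * ((m : ℂ) / 2 ^ K)) := by
  rw [zt, ← Complex.exp_int_mul]
  congr 1
  ring

/-- the field generated by all roots of unity of two power order -/
private def Qinf : IntermediateField ℚ ℂ := ⨆ s : ℕ, IntermediateField.adjoin ℚ {zt s}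

private theorem E_mono : Monotone (fun s : ℕ => IntermediateField.adjoin ℚ {zt s}) := by
  intro s t hst
  simp only
  rw [IntermediateField.adjoin_simple_le_iff, ← zt_pow hst]
  exact pow_mem (IntermediateField.mem_adjoin_simple_self _ _) _

private theorem mem_Qinf {x : ℂ} (hx : x ∈ Qinf) :
    ∃ s : ℕ, x ∈ IntermediateField.adjoin ℚ {zt s} := by
  have h : (x : ℂ) ∈ ((⨆ s : ℕ, IntermediateField.adjoin ℚ {zt s} : IntermediateField ℚ ℂ) : Set ℂ) := hx
  rw [IntermediateField.coe_iSup_of_directed (Monotone.directed_le E_mono)] at h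
  simpa using h

private theorem E_le_Qinf (s : ℕ) : IntermediateField.adjoin ℚ {zt s} ≤ Qinf :=
  le_iSup (fun s : ℕ => IntermediateField.adjoin ℚ {zt s}) s

theorem cyc {α : Type} [Finite α] (A : α → ℂ) (hA : ∀ a, A a ≠ 0) :
    ∃ s₀ : ℕ, ∀ K, s₀ ≤ K → ∀ (S : Finset α) (m : α → ℤ),
      ∑ h ∈ S, A h * cexp (2 * π * I * ((m h : ℂ) / 2 ^ K)) = 0 →
      ∀ h ∈ S, ∃ h' ∈ S, h' ≠ h ∧ (2 : ℤ) ^ (K - s₀) ∣ m h - m h' := by
  classical
  have := Fintype.ofFinite α
  have hlam : ∀ h : α, ∃ φ : ℂ →ₗ[Qinf] Qinf, φ (A h) ≠ 0 := by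
    intro h
    by_contra hcon
    push Not at hcon
    exact hA h ((Module.forall_dual_apply_eq_zero_iff Qinf (A h)).mp hcon)
  choose lam hlam using hlam
  have hs : ∀ h h' : α, ∃ s : ℕ, ((lam h (A h') : Qinf) : ℂ) ∈ IntermediateField.adjoin ℚ {zt s} :=
    fun h h' => mem_Qinf (lam h (A h')).2
  choose s hs using hs
  refine ⟨1 + ∑ h, ∑ h', s h h', ?_⟩
  intro K hK S m hsum h hhS
  set s0 := 1 + ∑ h, ∑ h', s h h' with hs0
  have hmem : ∀ h', ((lam h (A h') : Qinf) : ℂ) ∈ IntermediateField.adjoin ℚ {zt s0} := by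
    intro h'
    refine E_mono ?_ (hs h h')
    have h1 : s h h' ≤ ∑ h', s h h' :=
      Finset.single_le_sum (f := fun h' => s h h') (fun _ _ => Nat.zero_le _) (Finset.mem_univ h')
    have h2 : ∑ h', s h h' ≤ ∑ h, ∑ h', s h h' :=
      Finset.single_le_sum (f := fun h => ∑ h', s h h') (fun _ _ => Nat.zero_le _) (Finset.mem_univ h)
    omega
  by_contra hcon
  push Not at hcon
  have hz : ∑ h' ∈ S, ((lam h (A h') : Qinf) : ℂ) * zt K ^ (m h') = 0 := by
    have hzt : ∀ m : ℤ, zt K ^ m ∈ Qinf := fun m =>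
      zpow_mem (E_le_Qinf K (IntermediateField.mem_adjoin_simple_self _ _)) m
    have e1 : lam h (∑ h' ∈ S, A h' * cexp (2 * π * I * ((m h' : ℂ) / 2 ^ K))) = 0 := by
      rw [hsum, map_zero]
    rw [map_sum] at e1
    have e2 : ∀ h' ∈ S, lam h (A h' * cexp (2 * π * I * ((m h' : ℂ) / 2 ^ K)))
        = (⟨zt K ^ (m h'), hzt (m h')⟩ : Qinf) * lam h (A h') := by
      intro h' _
      rw [← smul_eq_mul (α := Qinf), ← map_smul]
      congr 1
      rw [← zt_zpow, IntermediateField.smul_def, smul_eq_mul]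
      simp only
      ring
    rw [Finset.sum_congr rfl e2] at e1
    have e3 := congrArg (fun x : Qinf => (x : ℂ)) e1
    simp only [ZeroMemClass.coe_zero, AddSubmonoidClass.coe_finsetSum, MulMemClass.coe_mul] at e3
    rw [← e3]
    refine Finset.sum_congr rfl fun h' _ => ?_
    ring
  have h1 : 1 ≤ s0 := by omega
  set n : ℕ := 2^(K - s0) with hn
  have hnpos : 0 < n := by positivity
  have hzn : zt K ^ n = zt s0 := zt_pow hK
  let q : α → ℤ := fun h' => m h' / n
  let r : α → ℕ := fun h' => (m h' % n).toNat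
  have hr : ∀ h', (r h' : ℤ) = m h' % n :=
    fun h' => Int.toNat_of_nonneg (Int.emod_nonneg _ (by positivity))
  have hrlt : ∀ h', r h' < n := by
    intro h'
    have := Int.emod_lt_of_pos (m h') (b := (n:ℤ)) (by exact_mod_cast hnpos)
    rw [← hr] at this
    exact_mod_cast this
  have hzm : ∀ h', zt K ^ (m h') = zt s0 ^ (q h') * zt K ^ (r h') := by
    intro h'
    rw [← hzn, ← zpow_natCast, ← zpow_natCast, ← _root_.zpow_mul, ← zpow_add₀ (zt_ne K)]
    congr 1
    rw [hr]
    exact (Int.mul_ediv_add_emod (m h') n).symm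
  let d : α → ℂ := fun h' => ((lam h (A h') : Qinf) : ℂ) * zt s0 ^ (q h')
  have hdm : ∀ h', d h' ∈ IntermediateField.adjoin ℚ {zt s0} := fun h' =>
    mul_mem (hmem h') (zpow_mem (IntermediateField.mem_adjoin_simple_self _ _) _)
  let a : ℕ → ℂ := fun t => ∑ h' ∈ S with r h' = t, d h'
  have ha := cyc_indep h1 hK a (fun t => sum_mem fun h' _ => hdm h') (by
    rw [← hz]
    have e : ∀ t ∈ Finset.range n, a t * zt K ^ t = ∑ h' ∈ S with r h' = t, d h' * zt K ^ (r h') := by
      intro t _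
      simp only [a]
      rw [Finset.sum_mul]
      refine Finset.sum_congr rfl fun h' hh' => ?_
      rw [(Finset.mem_filter.mp hh').2]
    rw [Finset.sum_congr rfl e, Finset.sum_fiberwise_of_maps_to (fun h' _ => Finset.mem_range.mpr (hrlt h'))]
    refine Finset.sum_congr rfl fun h' _ => ?_
    rw [hzm h']
    ring) (r h) (hrlt h)
  have h5 : a (r h) = d h := by
    simp only [a]
    have : (S.filter (fun h' => r h' = r h)) = {h} := by
      ext h'
      simp only [Finset.mem_filter, Finset.mem_singleton]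
      constructor
      · rintro ⟨hh', he⟩
        by_contra hne
        apply hcon h' hh' hne
        have e : m h' % n = m h % n := by rw [← hr, ← hr, he]
        have e2 : (n : ℤ) ∣ m h - m h' := Int.ModEq.dvd e
        rw [hn] at e2
        push_cast at e2
        exact e2
      · rintro rfl
        exact ⟨hhS, rfl⟩
    rw [this, Finset.sum_singleton]
  rw [h5] at ha
  rcases mul_eq_zero.mp ha with h6 | h6
  · apply hlam h
    exact_mod_cast h6
  · exact zpow_ne_zero _ (zt_ne s0) h6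

end SlopeB
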