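import Pool.Agent.Lib.SlopeB.Defs
import Pool.Agent.Lib.SlopeB.Defs2
import Pool.Agent.Lib.SlopeB.ChB
import Pool.Agent.Lib.SlopeB.CycB
import Pool.Agent.Lib.SlopeB.Sys

/-!
# Non-vanishing for the law without isolated directions

PROOF. Apply `cyc` to the finite type `α = A × OO c` (`OO_finite`) and the numbers `F a h`: `s₀`. Let
`r + s₀ + 1 ≤ K`, `y ∈ Yz c K r z`, `O = Oz c z` (as a Finset). Suppose
`∑_{h ∈ O} F a h cexp(πI bet K y h) = 0`. `bet K y h = prZ y h / 2^K`, so `πI bet = 2πI (prZ y h)/2^(K+1)`.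
Apply `cyc` with `K + 1 ≥ s₀`, the finset `S = {(a, h) : h ∈ O}` (image of `O.attach` or
`Finset.map`/`subtype`; `O ⊆ OO c`) and `m (a, h) = prZ y h`: every `h ∈ O` has `h' ∈ O`, `h' ≠ h`, with
`2^(K+1-s₀) ∣ prZ y h - prZ y h' = prZ y (h - h')`. As `h, h' ∈ z + 2H`, `h - h' = 2 • k`, `k ≠ 0`,
`|c e k| = |c e h - c e h'|/2 ≤ 1`, so `k ∈ OO c`; `2 prZ y k` is divisible by `2^(K+1-s₀)`, so
`2^(K-s₀) ∣ prZ y k`, and `K - s₀ ≥ r + 1`: `2^r ∣ pr y k` (`dvd_pr`) and `2 ∣ pr y k`.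
`O` is not empty (`hc.p2`): let `h₁ ∈ O` with `k₁`. For every `h ∈ O`, with `k`: `k = k₁` or `k = -k₁`,
otherwise `y ∉ Yz`. So `h - 2 • k₁ = h' ∈ OO c` or `h + 2 • k₁ = h' ∈ OO c`. Hence `k₁ ∈ KK c z`, and
`¬ 2 ∣ pr y k₁` because `y ∈ Y0`: contradiction. (`Oz` membership of `h`: every `h ∈ Oz c z` is in `O` by
`hO`.)
-/

set_option autoImplicit false

open scoped Matrix.Norms.Elementwise Real Topology
open Complex Matrix MP6feb Filter

noncomputable section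

namespace SlopeB

private theorem nv_prZ {b K : ℕ} (y : Fin b → ZMod (2 ^ K)) (h h' k : Fin b → ℤ)
    (hk : h = h' + 2 • k) : prZ y h - prZ y h' = 2 * prZ y k := by
  subst hk
  unfold prZ
  rw [← Finset.sum_sub_distrib, Finset.mul_sum]
  refine Finset.sum_congr rfl fun i _ => ?_
  rw [Pi.add_apply, Pi.smul_apply, nsmul_eq_mul]
  push_cast
  ring

theorem gam_nv {b : ℕ} {E A : Type} [Finite E] [Finite A] {c : E → (Fin b → ℤ) →+ ℤ}
    (hc : IsSys c) (F : A → (Fin b → ℤ) → ℂ) (hF : ∀ a, ∀ h ∈ OO c, F a h ≠ 0) (r : ℕ) :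
    ∃ s₀ : ℕ, ∀ K, r + s₀ + 1 ≤ K → ∀ z : Fin b → ℤ, ∀ y ∈ Yz c K r z, ∀ a,
      ∀ O : Finset (Fin b → ℤ), (∀ h, h ∈ O ↔ h ∈ Oz c z) →
        ∑ h ∈ O, F a h * cexp (π * I * (bet K y h : ℂ)) ≠ 0 := by
  classical
  have hfin : Finite (OO c) := (OO_finite hc).to_subtype
  obtain ⟨s₀, hs⟩ := cyc (α := A × (OO c)) (fun x => F x.1 x.2) (fun x => hF x.1 x.2 x.2.2)
  refine ⟨s₀, ?_⟩
  intro K hK z y hy a O hO hsum
  -- every element of `O` has a partner
  have key : ∀ h ∈ O, ∃ k : Fin b → ℤ, k ∈ OO c ∧ k ≠ 0 ∧ h - 2 • k ∈ OO c ∧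
      (2 : ℤ) ^ (r + 1) ∣ prZ y k := by
    intro h hh
    have hOsub : ∀ x ∈ O, x ∈ OO c := fun x hx => ((hO x).mp hx).1
    let emb : (OO c) ↪ A × (OO c) := ⟨fun x => (a, x), fun x x' hx => (Prod.ext_iff.mp hx).2⟩
    have h1 := hs (K + 1) (by omega) ((O.subtype (· ∈ OO c)).map emb)
      (fun x => prZ y (x.2 : Fin b → ℤ)) (by
        rw [Finset.sum_map]
        have h2 : ∀ x ∈ O.subtype (· ∈ OO c),
            F (emb x).1 (emb x).2 * cexp (2 * π * I * ((prZ y ((emb x).2 : Fin b → ℤ) : ℂ) / 2 ^ (K + 1)))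
            = (fun h : Fin b → ℤ => F a h * cexp (π * I * (bet K y h : ℂ))) x := by
          intro x _
          change F a x * _ = F a x * _
          congr 2
          change 2 * π * I * ((prZ y (x : Fin b → ℤ) : ℂ) / 2 ^ (K + 1)) =
            π * I * (((prZ y (x : Fin b → ℤ) : ℝ) / 2 ^ K : ℝ) : ℂ)
          push_cast
          rw [pow_succ]
          field_simp
        rw [Finset.sum_congr rfl h2,
          Finset.sum_subtype_eq_sum_filter (s := O) (p := (· ∈ OO c))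
            (fun h : Fin b → ℤ => F a h * cexp (π * I * (bet K y h : ℂ))),
          Finset.filter_true_of_mem hOsub]
        exact hsum)
    obtain ⟨x', hx'S, hne, hdvd⟩ := h1 (a, ⟨h, hOsub h hh⟩) (by
      rw [Finset.mem_map]
      exact ⟨⟨h, hOsub h hh⟩, by simpa using hh, rfl⟩)
    rw [Finset.mem_map] at hx'S
    obtain ⟨h', hh'O, rfl⟩ := hx'S
    have hh' : (h' : Fin b → ℤ) ∈ O := by simpa using hh'O
    have hne' : (h' : Fin b → ℤ) ≠ h := by
      intro hcon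
      apply hne
      change (a, h') = (a, _)
      congr 1
      exact Subtype.ext hcon
    change (2 : ℤ) ^ (K + 1 - s₀) ∣ prZ y h - prZ y (h' : Fin b → ℤ) at hdvd
    obtain ⟨hh1, w, hw⟩ := (hO h).mp hh
    obtain ⟨hh2, w', hw'⟩ := (hO _).mp hh'
    have hk : h = (h' : Fin b → ℤ) + 2 • (w - w') := by
      rw [hw', smul_sub]
      rw [hw]
      abel
    refine ⟨w - w', ?_, ?_, ?_, ?_⟩
    · intro e
      have e1 : c e h = c e (h' : Fin b → ℤ) + 2 * c e (w - w') := by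
        conv_lhs => rw [hk]
        rw [map_add, map_nsmul, nsmul_eq_mul]
        norm_num
      have e2 := abs_le.mp (hh1 e)
      have e3 := abs_le.mp (hh2 e)
      rw [abs_le]
      omega
    · intro h0
      apply hne'
      rw [hk, h0]
      simp
    · have : h - 2 • (w - w') = (h' : Fin b → ℤ) := by
        rw [eq_comm, eq_sub_iff_add_eq]
        exact hk.symm
      rw [this]
      exact hh2
    · rw [nv_prZ y h _ _ hk] at hdvd
      have e1 : K + 1 - s₀ = (K - s₀) + 1 := by omega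
      rw [e1, pow_succ, mul_comm] at hdvd
      have e2 := (mul_dvd_mul_iff_left (two_ne_zero' ℤ)).mp hdvd
      exact (pow_dvd_pow 2 (by omega)).trans e2
  have key2 : ∀ k : Fin b → ℤ, (2 : ℤ) ^ (r + 1) ∣ prZ y k →
      (2 : ZMod (2 ^ K)) ^ r ∣ pr y k ∧ (2 : ZMod (2 ^ K)) ∣ pr y k := by
    intro k hk
    constructor
    · rw [dvd_pr (by omega)]
      exact (pow_dvd_pow 2 (by omega)).trans hk
    · have := (dvd_pr (r := 1) (K := K) (by omega) y k).mpr ((pow_dvd_pow 2 (by omega)).trans hk)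
      rwa [pow_one] at this
  unfold Yz at hy
  rw [Finset.mem_filter] at hy
  obtain ⟨hy0, hy1⟩ := hy
  unfold Y0 at hy0
  rw [Finset.mem_filter] at hy0
  obtain ⟨h₁, hh₁⟩ := hc.p2 z
  obtain ⟨k₁, hk1, hk10, -, hd1⟩ := key h₁ ((hO h₁).mpr hh₁)
  refine hy0.2 k₁ ⟨hk1, hk10, ?_⟩ (key2 k₁ hd1).2
  intro h hh
  obtain ⟨k, hk, hk0, hkh, hd⟩ := key h ((hO h).mpr hh)
  by_cases e1 : k = k₁
  · left
    rw [← e1]
    exact hkh
  · by_cases e2 : k = -k₁
    · right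
      have : h + 2 • k₁ = h - 2 • k := by
        rw [e2, smul_neg, sub_neg_eq_add]
      rw [this]
      exact hkh
    · exact absurd ⟨(key2 k₁ hd1).1, (key2 k hd).1⟩ (hy1 k₁ hk1 k hk hk10 hk0 e1 e2)

end SlopeB
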