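import Pool.Agent.Lib.SlopeB.Defs
import Pool.Agent.Lib.SlopeB.Defs2
import Pool.Agent.Lib.SlopeB.ChB
import Pool.Agent.Lib.SlopeB.FouZ
import Pool.Agent.Lib.SlopeB.ExcB
import Pool.Agent.Lib.SlopeB.MixL
import Pool.Agent.Lib.SlopeB.KapB
import Pool.Agent.Lib.SlopeB.GamNV
import Pool.Agent.Lib.SlopeB.GamF
import Pool.Agent.Lib.SlopeB.Sys

/-!
# The law theorem without isolated directions

PROOF. (1) `b ≥ 2`: if `b = 1`, `d = fun _ => 1` is isolated: it is not in `2H`, and for all `e, f` with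
`c e d`, `c f d` odd, `c e h - c f h = h 0 * (c e d - c f d)` is even; contradiction with `hNI`.
(2) `C₁` from `excl_few`. Choose `J ≥ 1` with `2^J ≥ 32 C₁`, and `r > J` with
`2 C₁ (1/4)^r ≤ (5/16) (1/4)^J` and `C₁ < 4^r`. This `r` is the number of `LawP` (it depends only on
`c`). (`hδ2`: `2 C₁ ≤ 2^J/16`.) For all `K ≥ r`, `K ≥ 1`, all `Yz c K r z` are nonempty: otherwise
`card Y0 * 4^r ≤ C₁ card Y0` with `card Y0 > 0` (`Y0_nonempty`).
(3) Given `k'`, `F`: `s₀` from `gam_nv` (with this `r`), `K = r + s₀ + 1`. The law: `Ix = GIx b r K`,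
`p = gp c J r K`, `z = gzz`, `β = gbb`, level `K`. `p ≥ 0`: `phi_anti`, `w0 b > 0`. Sum: `w0 b * 1`
(`phi_sum`, the number of `y` is `(2^K)^b`) plus `∑_{z ≠ 0} (2/3)/2^b = (2^b - 1)(2/3)/2^b`: total `1`.
`lev`: `2^K bet K y h = prZ y h`.
`Four`: `gam_four`. `NonV`: for `inl q`: `z = 0`, `O = {0}` (`Oz_even` with `w = 0`), the sum is
`F a 0 * cexp 0 ≠ 0` (`0 ∈ OO c`). For `inr q`: `p ≠ 0` implies `q.1 ≠ 0`, `q.2 ∈ Yz`: `gam_nv`.
`Tight`: `c e ≠ 0` takes an odd value (`exists_odd`); for `inl` the value `c e 0 = 0` is even; for `inr` the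
mass of the class `z ≠ 0` is `(2/3)/2^b` (sum over `q.2` of the uniform weights), and the classes with
`c e (lf z)` odd (they are `≠ 0`) are `2^(b-1)` many (`count_odd`): `(2/3)/2^b * 2^b/2 = 1/3`.
-/

set_option autoImplicit false

open scoped Matrix.Norms.Elementwise Real Topology
open Complex Matrix MP6feb Filter

noncomputable section

namespace SlopeB

private theorem gamL_two_le {b : ℕ} {E : Type} {c : E → (Fin b → ℤ) →+ ℤ}
    (hNI : ∀ d, ¬ Isol c d) (hb : 1 ≤ b) : 2 ≤ b := by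
  by_contra hcon
  obtain rfl : b = 1 := by omega
  refine hNI (fun _ => 1) ⟨?_, ?_⟩
  · rintro ⟨w, hw⟩
    have h := congrFun hw 0
    simp only [Pi.smul_apply, nsmul_eq_mul] at h
    push_cast at h
    omega
  · intro e f he hf h
    have h1 : h = h 0 • (fun _ : Fin 1 => (1 : ℤ)) := by
      funext i
      rw [Subsingleton.elim i 0]
      simp
    have h2 : ∀ e, c e h = h 0 * c e (fun _ => 1) := by
      intro e
      conv_lhs => rw [h1]
      rw [map_zsmul, smul_eq_mul]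
    rw [h2 e, h2 f, ← mul_sub]
    refine Dvd.dvd.mul_left ?_ _
    omega

private theorem gamL_sum_if {α : Type*} [Fintype α] (P : α → Prop) [DecidablePred P] (a : ℚ) :
    ∑ z, (if P z then 0 else a) = ((Finset.univ.filter fun z => ¬ P z).card : ℚ) * a := by
  rw [Finset.sum_ite]
  simp

private theorem gamL_inner {b : ℕ} {E : Type} {c : E → (Fin b → ℤ) →+ ℤ} {K r : ℕ}
    (hYz : ∀ z, (Yz c K r z).Nonempty) (z : Fin b → ℤ) (a : ℚ) :
    ∑ y : Fin b → ZMod (2 ^ K), (if y ∈ Yz c K r z then a / ((Yz c K r z).card : ℚ) else 0) =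
      a := by
  classical
  rw [← Finset.sum_filter, Finset.sum_const, nsmul_eq_mul]
  have h1 : (Finset.univ.filter fun y => y ∈ Yz c K r z) = Yz c K r z := by
    ext y
    simp
  rw [h1]
  have h2 : ((Yz c K r z).card : ℚ) ≠ 0 := by
    have := (hYz z).card_pos
    positivity
  field_simp

private theorem gamL_lf_zero {b : ℕ} : lf (0 : Fin b → ZMod 2) = 0 := by
  funext i
  simp [lf]

private theorem gamL_nonneg {b : ℕ} {E : Type} {c : E → (Fin b → ℤ) →+ ℤ} {J r K : ℕ}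
    (hJ : 1 ≤ J) (hJr : J < r) (i : GIx b r K) : 0 ≤ gp c J r K i := by
  classical
  rcases i with q | q
  · show 0 ≤ w0 b * (phi J r q.1 - phi J r (q.1 + 1)) / (2 ^ K) ^ b
    have h1 := phi_anti hJ hJr (q.1 : ℕ)
    have h2 : (0 : ℚ) ≤ w0 b := by unfold w0; positivity
    have h3 : (0 : ℚ) ≤ phi J r q.1 - phi J r (q.1 + 1) := by linarith
    positivity
  · show 0 ≤ (if q.1 = 0 then (0 : ℚ) else if q.2 ∈ Yz c K r (lf q.1) then
      2 / 3 / 2 ^ b / ((Yz c K r (lf q.1)).card : ℚ) else 0)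
    split_ifs <;> positivity

private theorem gamL_sum {b : ℕ} {E : Type} {c : E → (Fin b → ℤ) →+ ℤ} {J r K : ℕ}
    (hJr : J < r) (hYz : ∀ z, (Yz c K r z).Nonempty) : ∑ i, gp c J r K i = 1 := by
  classical
  rw [Fintype.sum_sum_type, Fintype.sum_prod_type, Fintype.sum_prod_type]
  have h1 : ∀ (j : Fin (r + 1)) (y : Fin b → ZMod (2 ^ K)), gp c J r K (Sum.inl (j, y)) =
      w0 b * (phi J r j - phi J r (j + 1)) / (2 ^ K) ^ b := fun _ _ => rfl
  have h2 : ∀ (z : Fin b → ZMod 2) (y : Fin b → ZMod (2 ^ K)), gp c J r K (Sum.inr (z, y)) =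
      if z = 0 then 0 else if y ∈ Yz c K r (lf z) then
      2 / 3 / 2 ^ b / ((Yz c K r (lf z)).card : ℚ) else 0 := fun _ _ => rfl
  have h3 : ∑ j : Fin (r + 1), ∑ y : Fin b → ZMod (2 ^ K), gp c J r K (Sum.inl (j, y)) =
      w0 b := by
    have h4 : ∀ j : Fin (r + 1), ∑ y : Fin b → ZMod (2 ^ K), gp c J r K (Sum.inl (j, y)) =
        w0 b * (phi J r j - phi J r (j + 1)) := by
      intro j
      rw [Finset.sum_congr rfl fun y _ => h1 j y, Finset.sum_const, Finset.card_univ,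
        Fintype.card_fun, ZMod.card, Fintype.card_fin, nsmul_eq_mul]
      push_cast
      field_simp
    rw [Finset.sum_congr rfl fun j _ => h4 j, ← Finset.mul_sum, phi_sum hJr, mul_one]
  have h5 : ∑ z : Fin b → ZMod 2, ∑ y : Fin b → ZMod (2 ^ K), gp c J r K (Sum.inr (z, y)) =
      (2 ^ b - 1) * (2 / 3 / 2 ^ b) := by
    have h6 : ∀ z : Fin b → ZMod 2, ∑ y : Fin b → ZMod (2 ^ K), gp c J r K (Sum.inr (z, y)) =
        if z = 0 then 0 else 2 / 3 / 2 ^ b := by
      intro z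
      rw [Finset.sum_congr rfl fun y _ => h2 z y]
      split_ifs with hz
      · simp
      · exact gamL_inner hYz (lf z) (2 / 3 / 2 ^ b)
    rw [Finset.sum_congr rfl fun z _ => h6 z, gamL_sum_if]
    congr 1
    have h7 : (Finset.univ.filter fun z : Fin b → ZMod 2 => ¬ z = 0) = Finset.univ.erase 0 := by
      ext z
      simp
    rw [h7, Finset.card_erase_of_mem (Finset.mem_univ _), Finset.card_univ, Fintype.card_fun,
      ZMod.card, Fintype.card_fin, Nat.cast_sub (Nat.one_le_two_pow)]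
    push_cast
    ring
  rw [h3, h5]
  unfold w0
  field_simp
  ring

private theorem gamL_lev {b r K : ℕ} (i : GIx b r K) (h : Fin b → ℤ) :
    ∃ m : ℤ, 2 ^ K * gbb i h = m := by
  have h1 : ∀ y : Fin b → ZMod (2 ^ K), ∃ m : ℤ, 2 ^ K * bet K y h = m := by
    intro y
    refine ⟨prZ y h, ?_⟩
    show (2 : ℝ) ^ K * ((prZ y h : ℝ) / 2 ^ K) = _
    field_simp
  rcases i with q | q
  · exact h1 _
  · exact h1 _

private theorem gamL_tight {b : ℕ} {E : Type} [Finite E] {c : E → (Fin b → ℤ) →+ ℤ}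
    (hc : IsSys c) {J r K : ℕ} (hYz : ∀ z, (Yz c K r z).Nonempty) {e : E} (he : c e ≠ 0) :
    ∑ i : GIx b r K, (if (2 : ℤ) ∣ c e (gzz i) then 0 else gp c J r K i) = 1 / 3 := by
  classical
  rw [Fintype.sum_sum_type, Fintype.sum_prod_type, Fintype.sum_prod_type]
  have h1 : ∀ (j : Fin (r + 1)) (y : Fin b → ZMod (2 ^ K)),
      (if (2 : ℤ) ∣ c e (gzz (Sum.inl (j, y) : GIx b r K)) then 0
        else gp c J r K (Sum.inl (j, y))) = 0 := by
    intro j y
    have h2 : (gzz (Sum.inl (j, y) : GIx b r K) : Fin b → ℤ) = 0 := rfl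
    rw [h2, map_zero, if_pos (dvd_zero _)]
  have h3 : ∀ z : Fin b → ZMod 2, ∑ y : Fin b → ZMod (2 ^ K),
      (if (2 : ℤ) ∣ c e (gzz (Sum.inr (z, y) : GIx b r K)) then 0
        else gp c J r K (Sum.inr (z, y))) =
      if (2 : ℤ) ∣ c e (lf z) then 0 else 2 / 3 / 2 ^ b := by
    intro z
    have h4 : ∀ y, (gzz (Sum.inr (z, y) : GIx b r K) : Fin b → ℤ) = lf z := fun _ => rfl
    have h2 : ∀ (y : Fin b → ZMod (2 ^ K)), gp c J r K (Sum.inr (z, y)) =
        if z = 0 then 0 else if y ∈ Yz c K r (lf z) then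
        2 / 3 / 2 ^ b / ((Yz c K r (lf z)).card : ℚ) else 0 := fun _ => rfl
    by_cases h5 : (2 : ℤ) ∣ c e (lf z)
    · rw [if_pos h5]
      refine Finset.sum_eq_zero fun y _ => ?_
      rw [h4, if_pos h5]
    · rw [if_neg h5]
      have hz : z ≠ 0 := by
        rintro rfl
        apply h5
        rw [gamL_lf_zero, map_zero]
        exact dvd_zero _
      rw [← gamL_inner hYz (lf z) (2 / 3 / 2 ^ b)]
      refine Finset.sum_congr rfl fun y _ => ?_
      rw [h4, if_neg h5, h2, if_neg hz]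
  rw [Finset.sum_eq_zero fun j _ => Finset.sum_eq_zero fun y _ => h1 j y, zero_add,
    Finset.sum_congr rfl fun z _ => h3 z, gamL_sum_if]
  have h6 := count_odd (c e) (exists_odd hc he)
  have h7 : (2 : ℚ) * ((Finset.univ.filter fun z : Fin b → ZMod 2 =>
      ¬ ((2 : ℤ) ∣ c e (lf z))).card : ℚ) = 2 ^ b := by exact_mod_cast h6
  have h8 : (2 : ℚ) ^ b ≠ 0 := by positivity
  field_simp
  linarith

theorem lawP_gam {b : ℕ} {E : Type} [Finite E] {c : E → (Fin b → ℤ) →+ ℤ} (hc : IsSys c)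
    (hNI : ∀ d, ¬ Isol c d) (hb : 1 ≤ b) : LawP c := by
  classical
  have hb2 := gamL_two_le hNI hb
  obtain ⟨C₁, hC₁⟩ := excl_few hc
  set J := C₁ + 5 with hJd
  set r := J + C₁ + 5 with hrd
  have hJ : 1 ≤ J := by omega
  have hJr : J < r := by omega
  have hC2 : C₁ < 2 ^ C₁ := Nat.lt_two_pow_self
  have hJ32 : 32 * C₁ ≤ 2 ^ J := by
    rw [hJd, pow_add]
    omega
  have hC4 : C₁ < 4 ^ r := by
    have h1 : 2 ^ C₁ ≤ 4 ^ C₁ := Nat.pow_le_pow_left (by norm_num) _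
    have h2 : 4 ^ C₁ ≤ 4 ^ r := Nat.pow_le_pow_right (by norm_num) (by omega)
    omega
  have hJ32' : 32 * (C₁ : ℝ) ≤ 2 ^ J := by exact_mod_cast hJ32
  have hδ2 : 2 * (C₁ : ℝ) * (1 / 4) ^ r ≤ 2 ^ J * (1 / 4) ^ r / 16 := by
    have h1 : (0 : ℝ) ≤ (1 / 4) ^ r := by positivity
    nlinarith [mul_le_mul_of_nonneg_right hJ32' h1]
  have hδ1 : 2 * (C₁ : ℝ) * (1 / 4) ^ r ≤ 5 / 16 * (1 / 4) ^ J := by
    have h1 : (1 / 4 : ℝ) ^ r = (1 / 4) ^ J * ((1 / 4) ^ C₁ * (1 / 4) ^ 5) := by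
      rw [hrd, add_assoc, pow_add, pow_add]
    have h2 : (C₁ : ℝ) * (1 / 4) ^ C₁ ≤ 1 := by
      have h3 : (C₁ : ℝ) ≤ 4 ^ C₁ := by
        have h4 : 2 ^ C₁ ≤ 4 ^ C₁ := Nat.pow_le_pow_left (by norm_num) _
        exact_mod_cast (by omega : C₁ ≤ 4 ^ C₁)
      rw [one_div, inv_pow]
      exact mul_inv_le_one_of_le₀ h3 (by positivity)
    rw [h1]
    have h5 : (0 : ℝ) ≤ (1 / 4) ^ J := by positivity
    have h6 : 2 * (C₁ : ℝ) * ((1 / 4) ^ J * ((1 / 4) ^ C₁ * (1 / 4) ^ 5)) =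
        (2 * (1 / 4) ^ 5) * ((C₁ : ℝ) * (1 / 4) ^ C₁) * (1 / 4) ^ J := by ring
    rw [h6]
    refine mul_le_mul_of_nonneg_right ?_ h5
    nlinarith
  refine ⟨r, fun k' A _ F hF => ?_⟩
  obtain ⟨s₀, hs₀⟩ := gam_nv hc F hF r
  have hK1 : 1 ≤ r + s₀ + 1 := by omega
  have hrK : r ≤ r + s₀ + 1 := by omega
  have hYz : ∀ z, (Yz c (r + s₀ + 1) r z).Nonempty := by
    intro z
    by_contra hne
    rw [Finset.not_nonempty_iff_eq_empty] at hne
    have h1 := hC₁ (r + s₀ + 1) r hK1 hrK z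
    rw [hne, Finset.card_empty, zero_mul, zero_add, mul_comm] at h1
    have h2 : 0 < (Y0 c (r + s₀ + 1) z).card := (Y0_nonempty hc hK1 z).card_pos
    have h3 := Nat.le_of_mul_le_mul_right h1 h2
    omega
  let L : Law (Fin b → ℤ) :=
    { Ix := GIx b r (r + s₀ + 1)
      fin := inferInstance
      p := gp c J r (r + s₀ + 1)
      z := gzz
      β := gbb
      K := r + s₀ + 1
      p_nonneg := gamL_nonneg hJ hJr
      p_sum := gamL_sum hJr hYz
      lev := gamL_lev }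
  refine ⟨L, ?_, ?_, ?_⟩
  · intro i hi a O hO
    rcases i with q | q
    · have h1 : O = {0} := by
        ext h
        rw [hO h]
        have h2 : Oz c (L.z (Sum.inl q)) = {0} := by
          have h3 := Oz_even hc (0 : Fin b → ℤ)
          rw [smul_zero] at h3
          exact h3
        rw [h2]
        simp
      rw [h1, Finset.sum_singleton]
      refine mul_ne_zero (hF a 0 ?_) (Complex.exp_ne_zero _)
      intro e
      rw [map_zero, abs_zero]
      norm_num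
    · have h1 : q.2 ∈ Yz c (r + s₀ + 1) r (lf q.1) := by
        by_contra h2
        apply hi
        show (if q.1 = 0 then (0 : ℚ) else if q.2 ∈ Yz c (r + s₀ + 1) r (lf q.1) then
          2 / 3 / 2 ^ b / ((Yz c (r + s₀ + 1) r (lf q.1)).card : ℚ) else 0) = 0
        rw [if_neg h2, ite_self]
      exact hs₀ _ le_rfl (lf q.1) q.2 h1 a O hO
  · intro c' s
    exact gam_four hc hNI hb2 hJ hJr hrK hδ1 hδ2 hYz (fun z => hC₁ _ r hK1 hrK z) c' s
  · intro e he
    exact gamL_tight hc hYz he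

end SlopeB
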