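import Pool.Agent.Lib.SlopeB.Defs
import Pool.Agent.Lib.SlopeB.Defs2

/-!
# The law of an isolated cycle

`n = 2^K`, `K ≥ 1`. PROOF of `ip_sum`: `2^K · (2/3)/2^K = 2/3`; there are `2^(K-1)` odd numbers
`y < 2^K`, total `1/3`.
PROOF of `iso_four`. `c₀ = c₀' 1` (so `c₀' t = t c₀`), `e(t) = exp(2πi t)`. The sum is
`(2/3) 2^-K ∑_{y < n} e(j s y/n) + (1/3) 2^-(K-1) (-1)^(j c₀) ∑_{y < n, y odd} e(j s y/n)`.
Geometric sums: `∑_{y<n} e(m y/n) = n` if `n ∣ m`, else `0`. `∑_{y odd} e(m y/n) =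
∑_{u < n/2} e(m (2u+1)/n) = e(m/n) ∑_{u<n/2} e(m u/(n/2))`, which is `(n/2) e(m/n)` if `(n/2) ∣ m`, else `0`;
and `e(m/n) = 1` if `n ∣ m`, `-1` if `(n/2) ∣ m`, `n ∤ m`.
Case 1: `n ∣ s`. The sum is `2/3 + (1/3) (-1)^(j c₀)`. If `c₀` is even: `j₀ = 0`, `a = 1`. If `c₀` is odd:
`j₀ = 1`, `a 0 = 1/3`, `a v = 1` for `v ≥ 1` (`(-1)^(j c₀) = (-1)^j`, `j` odd iff `v₂ j = 0`). In both cases
`s = 2 (n/2) (s/n)` is even.
Case 2: `n ∤ s`. Let `i ≥ 1` be the least number with `n ∣ 2^i s` (`i ≤ K`); for `j ≥ 1` `n ∣ j s` iff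
`i ≤ v₂ j`, and `(n/2) ∣ j s` iff `i ≤ v₂ j + 1`. The sum is `1` if `i ≤ v₂ j` (then `v₂ j ≥ 1`, `j` even,
the sign is `+`), `-(1/3) (-1)^(j c₀)` if `v₂ j = i - 1` (for `i ≥ 2` the sign is `+`; for `i = 1`, `j` odd,
it is `(-1)^(c₀)`), and `0` if `v₂ j < i - 1`. So `j₀ = i`, `a (i-1) = ∓1/3`.
-/

set_option autoImplicit false

open scoped Matrix.Norms.Elementwise Real Topology
open Complex Matrix MP6feb Filter

noncomputable section

namespace SlopeB

private theorem isoF_oddsum {M : Type*} [AddCommMonoid M] (g : ℕ → M) (m : ℕ) :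
    ∑ y ∈ Finset.range (2 * m), (if y % 2 = 1 then g y else 0) =
      ∑ u ∈ Finset.range m, g (2 * u + 1) := by
  induction m with
  | zero => simp
  | succ m ih =>
    have h1 : 2 * (m + 1) = 2 * m + 1 + 1 := by ring
    rw [h1, Finset.sum_range_succ, Finset.sum_range_succ, ih, Finset.sum_range_succ]
    have h2 : ¬ ((2 * m) % 2 = 1) := by omega
    have h3 : (2 * m + 1) % 2 = 1 := by omega
    rw [if_neg h2, if_pos h3, add_zero]

private theorem isoF_exp_one (t : ℤ) (n : ℕ) (hn : n ≠ 0) :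
    cexp (2 * π * I * ((t : ℂ) / n)) = 1 ↔ (n : ℤ) ∣ t := by
  have hn' : (n : ℂ) ≠ 0 := by exact_mod_cast hn
  rw [Complex.exp_eq_one_iff]
  have hpi : (2 * π * I : ℂ) ≠ 0 := Complex.two_pi_I_ne_zero
  constructor
  · rintro ⟨k, hk⟩
    refine ⟨k, ?_⟩
    have h1 : (t : ℂ) / n = k := by
      apply mul_left_cancel₀ hpi
      rw [hk]; ring
    rw [div_eq_iff hn'] at h1
    have h2 : (t : ℂ) = ((n * k : ℤ) : ℂ) := by
      rw [h1]; push_cast; ring
    exact_mod_cast h2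
  · rintro ⟨k, hk⟩
    refine ⟨k, ?_⟩
    rw [hk]
    push_cast
    field_simp

private theorem isoF_sgn (q : ℤ) :
    cexp (2 * π * I * ((q : ℂ) / 2)) = if (2 : ℤ) ∣ q then 1 else -1 := by
  split_ifs with h
  · have := (isoF_exp_one q 2 (by norm_num)).2 (by exact_mod_cast h)
    exact_mod_cast this
  · have hodd : ∃ k : ℤ, q = 2 * k + 1 := by
      refine ⟨q / 2, ?_⟩
      omega
    obtain ⟨k, rfl⟩ := hodd
    have h1 : (2 * π * I * (((2 * k + 1 : ℤ) : ℂ) / 2)) = (k : ℂ) * (2 * π * I) + π * I := by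
      push_cast; ring
    rw [h1, Complex.exp_add, Complex.exp_int_mul_two_pi_mul_I, Complex.exp_pi_mul_I, one_mul]

private theorem isoF_pow (t : ℤ) (n : ℕ) (y : ℕ) :
    cexp (2 * π * I * ((t : ℂ) / n)) ^ y = cexp (2 * π * I * ((t * y : ℤ) / n)) := by
  rw [← Complex.exp_nat_mul]
  congr 1
  push_cast
  ring

private theorem isoF_geo (t : ℤ) (n : ℕ) (hn : n ≠ 0) :
    ∑ y ∈ Finset.range n, cexp (2 * π * I * ((t : ℂ) / n)) ^ y =
      if (n : ℤ) ∣ t then (n : ℂ) else 0 := by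
  split_ifs with h
  · rw [(isoF_exp_one t n hn).2 h]
    simp
  · have hz : cexp (2 * π * I * ((t : ℂ) / n)) ≠ 1 := fun h' => h ((isoF_exp_one t n hn).1 h')
    have hzn : cexp (2 * π * I * ((t : ℂ) / n)) ^ n = 1 := by
      rw [isoF_pow]
      exact (isoF_exp_one _ n hn).2 ⟨t, by ring⟩
    rw [geom_sum_eq hz, hzn, sub_self, zero_div]

private theorem isoF_odd (t : ℤ) (m : ℕ) (hm : m ≠ 0) :
    ∑ y ∈ Finset.range (2 * m), (if y % 2 = 1 then
        cexp (2 * π * I * ((t : ℂ) / (2 * m : ℕ))) ^ y else 0) =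
      if ((2 * m : ℕ) : ℤ) ∣ t then (m : ℂ) else if ((2 * m : ℕ) : ℤ) ∣ 2 * t then -(m : ℂ)
        else 0 := by
  rw [isoF_oddsum]
  have hm' : (m : ℂ) ≠ 0 := by exact_mod_cast hm
  have h2m : 2 * m ≠ 0 := by omega
  set z := cexp (2 * π * I * ((t : ℂ) / (2 * m : ℕ))) with hz
  have hz2 : z ^ 2 = cexp (2 * π * I * ((t : ℂ) / m)) := by
    rw [hz, ← Complex.exp_nat_mul]
    congr 1
    push_cast
    field_simp
  have h1 : ∑ u ∈ Finset.range m, z ^ (2 * u + 1) =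
      z * ∑ u ∈ Finset.range m, cexp (2 * π * I * ((t : ℂ) / m)) ^ u := by
    rw [Finset.mul_sum]
    refine Finset.sum_congr rfl fun u _ => ?_
    rw [← hz2]
    ring
  rw [h1, isoF_geo t m hm]
  have hdv : ((2 * m : ℕ) : ℤ) ∣ 2 * t ↔ (m : ℤ) ∣ t := by
    push_cast
    exact mul_dvd_mul_iff_left (by norm_num)
  by_cases ha : ((2 * m : ℕ) : ℤ) ∣ t
  · rw [if_pos ha]
    have hb : (m : ℤ) ∣ t := hdv.1 (Dvd.dvd.mul_left ha 2)
    rw [if_pos hb]
    have : z = 1 := (isoF_exp_one t (2 * m) h2m).2 ha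
    rw [this, one_mul]
  · rw [if_neg ha]
    by_cases hb : (m : ℤ) ∣ t
    · rw [if_pos hb, if_pos (hdv.2 hb)]
      have hz1 : z ≠ 1 := fun h' => ha ((isoF_exp_one t (2 * m) h2m).1 h')
      have hzz : z ^ 2 = 1 := by
        rw [hz2]
        exact (isoF_exp_one t m hm).2 hb
      have : z = -1 := by
        have hf : (z - 1) * (z + 1) = 0 := by
          have : (z - 1) * (z + 1) = z ^ 2 - 1 := by ring
          rw [this, hzz, sub_self]
        rcases mul_eq_zero.1 hf with h | h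
        · exact absurd (sub_eq_zero.1 h) hz1
        · exact eq_neg_of_add_eq_zero_left h
      rw [this]; ring
    · rw [if_neg hb, if_neg (fun h => hb (hdv.1 h)), mul_zero]

private theorem isoF_c0 (c₀ : ℤ →+ ℤ) (h : ℤ) : c₀ h = h * c₀ 1 := by
  have := map_zsmul c₀ h 1
  simpa using this

private theorem isoF_main (m : ℕ) (K : ℕ) (hm : 2 ^ K = 2 * m) (hm1 : 2 ^ (K - 1) = m)
    (c₀ : ℤ →+ ℤ) (s : ℤ) (j : ℕ) :
    ∑ i, (ip K i : ℂ) *
        cexp (2 * π * I * (j * ((c₀ (iz K i) : ℂ) / 2 + (ib K i s : ℂ)))) =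
      2 / 3 * (if ((2 ^ K : ℕ) : ℤ) ∣ j * s then 1 else 0) +
      1 / 3 * (if (2 : ℤ) ∣ j * c₀ 1 then 1 else -1) *
        (if ((2 ^ K : ℕ) : ℤ) ∣ j * s then 1 else if ((2 ^ K : ℕ) : ℤ) ∣ 2 * (j * s) then -1
          else 0) := by
  have hm0 : m ≠ 0 := by
    rintro rfl
    have : (0 : ℕ) < 2 ^ K := by positivity
    omega
  have hm' : (m : ℂ) ≠ 0 := by exact_mod_cast hm0
  have hn0 : 2 ^ K ≠ 0 := by positivity
  have hn' : ((2 : ℂ) ^ K) ≠ 0 := pow_ne_zero _ two_ne_zero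
  rw [Fintype.sum_sum_type]
  congr 1
  · have h1 : ∀ y : Fin (2 ^ K), (ip K (Sum.inl y) : ℂ) *
        cexp (2 * π * I * (j * ((c₀ (iz K (Sum.inl y)) : ℂ) / 2 + (ib K (Sum.inl y) s : ℂ)))) =
        2 / 3 / 2 ^ K * cexp (2 * π * I * (((j * s : ℤ) : ℂ) / (2 ^ K : ℕ))) ^ (y : ℕ) := by
      intro y
      rw [isoF_pow]
      have e1 : ((ip K (Sum.inl y) : ℚ) : ℂ) = 2 / 3 / 2 ^ K := by
        simp [ip]
      rw [e1]
      congr 2
      simp only [iz, ib, iy, map_zero, AddMonoidHom.coe_mk, ZeroHom.coe_mk]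
      push_cast
      ring
    rw [Finset.sum_congr rfl fun y _ => h1 y, ← Finset.mul_sum,
      Finset.sum_range (n := 2 ^ K)
        (fun y => cexp (2 * π * I * (((j * s : ℤ) : ℂ) / (2 ^ K : ℕ))) ^ y) |>.symm,
      isoF_geo _ _ hn0]
    split_ifs
    · push_cast; field_simp
    · simp
  · have h1 : ∀ y : Fin (2 ^ K), (ip K (Sum.inr y) : ℂ) *
        cexp (2 * π * I * (j * ((c₀ (iz K (Sum.inr y)) : ℂ) / 2 + (ib K (Sum.inr y) s : ℂ)))) =
        1 / 3 / m * (if (2 : ℤ) ∣ j * c₀ 1 then 1 else -1) *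
          (if (y : ℕ) % 2 = 1 then
            cexp (2 * π * I * (((j * s : ℤ) : ℂ) / (2 * m : ℕ))) ^ (y : ℕ) else 0) := by
      intro y
      by_cases hy : (y : ℕ) % 2 = 1
      · rw [if_pos hy, isoF_pow]
        have e1 : ((ip K (Sum.inr y) : ℚ) : ℂ) = 1 / 3 / m := by
          simp only [ip, if_pos hy]
          push_cast
          rw [← hm1]
          push_cast
          ring
        rw [e1, ← isoF_sgn, mul_assoc (1 / 3 / (m : ℂ)) (cexp _), ← Complex.exp_add]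
        congr 2
        simp only [iz, ib, iy, AddMonoidHom.coe_mk, ZeroHom.coe_mk]
        rw [← hm]
        push_cast
        ring
      · rw [if_neg hy]
        have e1 : ((ip K (Sum.inr y) : ℚ) : ℂ) = 0 := by
          simp only [ip, if_neg hy]
          simp
        rw [e1]
        simp
    rw [Finset.sum_congr rfl fun y _ => h1 y, ← Finset.mul_sum,
      Finset.sum_range (n := 2 ^ K)
        (fun y => if y % 2 = 1 then
            cexp (2 * π * I * (((j * s : ℤ) : ℂ) / (2 * m : ℕ))) ^ y else 0) |>.symm, hm,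
      isoF_odd _ _ hm0]
    by_cases h1 : ((2 * m : ℕ) : ℤ) ∣ j * s
    · simp only [if_pos h1]
      field_simp
    · simp only [if_neg h1]
      by_cases h2 : ((2 * m : ℕ) : ℤ) ∣ 2 * (j * s)
      · simp only [if_pos h2]
        field_simp
      · simp only [if_neg h2]
        simp

private theorem isoF_dvd (K : ℕ) (s : ℤ) (j : ℕ) (hj : 1 ≤ j) (e : ℕ) :
    (2 : ℤ) ^ K ∣ 2 ^ e * (j * s) ↔ (2 : ℤ) ^ K ∣ 2 ^ (padicValNat 2 j + e) * s := by
  obtain ⟨q, hq⟩ : 2 ^ padicValNat 2 j ∣ j := pow_padicValNat_dvd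
  have hqodd : ¬ 2 ∣ q := by
    rintro ⟨r, hr⟩
    have h1 : 2 ^ (padicValNat 2 j + 1) ∣ j := by
      refine ⟨r, ?_⟩
      rw [pow_succ, mul_assoc, ← hr]
      exact hq
    exact pow_succ_padicValNat_not_dvd (by omega) h1
  have hcop : IsCoprime ((2 : ℤ) ^ K) (q : ℤ) := by
    apply IsCoprime.pow_left
    rw [Int.isCoprime_iff_gcd_eq_one]
    have : Nat.Coprime 2 q := (Nat.Prime.coprime_iff_not_dvd Nat.prime_two).2 hqodd
    exact_mod_cast this
  have h1 : (2 : ℤ) ^ e * (j * s) = (q : ℤ) * (2 ^ (padicValNat 2 j + e) * s) := by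
    have hq' : (j : ℤ) = 2 ^ padicValNat 2 j * q := by exact_mod_cast hq
    conv_lhs => rw [hq']
    rw [pow_add]; ring
  rw [h1]
  exact ⟨fun h => hcop.dvd_of_dvd_mul_left h, fun h => Dvd.dvd.mul_left h _⟩

theorem ip_nonneg (K : ℕ) (i : Fin (2 ^ K) ⊕ Fin (2 ^ K)) : 0 ≤ ip K i := by
  cases i with
  | inl y => simp only [ip]; positivity
  | inr y =>
    simp only [ip]
    split_ifs
    · positivity
    · exact le_refl _

theorem ip_sum {K : ℕ} (hK : 1 ≤ K) : ∑ i, ip K i = 1 := by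
  obtain ⟨k, rfl⟩ : ∃ k, K = k + 1 := ⟨K - 1, by omega⟩
  rw [Fintype.sum_sum_type]
  simp only [ip]
  rw [← Finset.sum_range (n := 2 ^ (k + 1))
    (fun y => if y % 2 = 1 then (1 / 3 / 2 ^ (k + 1 - 1) : ℚ) else 0)]
  rw [show 2 ^ (k + 1) = 2 * 2 ^ k from by rw [pow_succ]; ring, isoF_oddsum]
  simp only [Finset.sum_const, Finset.card_univ, Fintype.card_fin, Finset.card_range,
    nsmul_eq_mul, Nat.add_sub_cancel]
  push_cast
  have h2 : (2 : ℚ) ^ k ≠ 0 := pow_ne_zero _ two_ne_zero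
  field_simp
  rw [pow_succ]
  ring

theorem iso_four {K : ℕ} (hK : 1 ≤ K) (c₀ : ℤ →+ ℤ) (s : ℤ) :
    ∃ (j₀ : ℕ) (a : ℕ → ℝ), RR j₀ a ∧
      (∀ j : ℕ, 1 ≤ j → ∑ i, (ip K i : ℂ) *
        cexp (2 * π * I * (j * ((c₀ (iz K i) : ℂ) / 2 + (ib K i s : ℂ)))) =
          (a (padicValNat 2 j) : ℂ)) ∧
      (j₀ = 0 → (∀ h, (2 : ℤ) ∣ c₀ h) ∧ ∃ w : ℤ, s = 2 • w) := by
  have hm : 2 ^ K = 2 * 2 ^ (K - 1) := by
    rw [← pow_succ']
    congr 1
    omega
  have key := isoF_main (2 ^ (K - 1)) K hm rfl c₀ s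
  have hP : ∃ v : ℕ, (2 : ℤ) ^ K ∣ 2 ^ v * s := ⟨K, Dvd.intro _ rfl⟩
  classical
  obtain ⟨i, hi, hmin⟩ : ∃ i : ℕ, (2 : ℤ) ^ K ∣ 2 ^ i * s ∧
      ∀ v < i, ¬ (2 : ℤ) ^ K ∣ 2 ^ v * s :=
    ⟨Nat.find hP, Nat.find_spec hP, fun v hv => Nat.find_min hP hv⟩
  have hmono : ∀ v, i ≤ v → (2 : ℤ) ^ K ∣ 2 ^ v * s := by
    intro v hv
    obtain ⟨d, rfl⟩ := Nat.exists_eq_add_of_le hv
    rw [pow_add, mul_comm ((2 : ℤ) ^ i), mul_assoc]
    exact Dvd.dvd.mul_left hi _
  have hiff : ∀ v, (2 : ℤ) ^ K ∣ 2 ^ v * s ↔ i ≤ v := fun v =>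
    ⟨fun h => by
      by_contra hlt
      exact hmin v (by omega) h, hmono v⟩
  have hd1 : ∀ j : ℕ, 1 ≤ j → (((2 ^ K : ℕ) : ℤ) ∣ j * s ↔ i ≤ padicValNat 2 j) := by
    intro j hj
    have := isoF_dvd K s j hj 0
    rw [pow_zero, one_mul, add_zero, hiff] at this
    rw [← this]
    push_cast
    rfl
  have hd2 : ∀ j : ℕ, 1 ≤ j → (((2 ^ K : ℕ) : ℤ) ∣ 2 * (j * s) ↔ i ≤ padicValNat 2 j + 1) := by
    intro j hj
    have := isoF_dvd K s j hj 1
    rw [pow_one, hiff] at this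
    rw [← this]
    push_cast
    rfl
  have hev : ∀ j : ℕ, 1 ≤ padicValNat 2 j → (2 : ℤ) ∣ j * c₀ 1 := by
    intro j hj
    have h1 : 2 ∣ j := dvd_of_one_le_padicValNat hj
    exact Dvd.dvd.mul_right (by exact_mod_cast h1) _
  have hodd : ∀ j : ℕ, 1 ≤ j → padicValNat 2 j = 0 →
      ((2 : ℤ) ∣ j * c₀ 1 ↔ (2 : ℤ) ∣ c₀ 1) := by
    intro j hj h0
    have h1 : ¬ 2 ∣ j := by
      intro h
      have := one_le_padicValNat_of_dvd (p := 2) (by omega) h
      omega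
    constructor
    · intro h
      rcases Int.prime_two.dvd_or_dvd h with h' | h'
      · exact absurd (by exact_mod_cast h') h1
      · exact h'
    · intro h
      exact Dvd.dvd.mul_left h _
  rcases Nat.eq_zero_or_pos i with hi0 | hipos
  · subst hi0
    have hs : (2 : ℤ) ^ K ∣ s := by simpa using hi
    by_cases hc : (2 : ℤ) ∣ c₀ 1
    · refine ⟨0, fun _ => 1, ⟨fun _ _ => rfl, fun v hv => by omega, fun v hv => by omega⟩,
        ?_, ?_⟩
      · intro j hj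
        rw [key j, if_pos ((hd1 j hj).2 (Nat.zero_le _)), if_pos ((hd1 j hj).2 (Nat.zero_le _)),
          if_pos (Dvd.dvd.mul_left hc _)]
        push_cast
        norm_num
      · intro _
        refine ⟨fun h => by rw [isoF_c0]; exact Dvd.dvd.mul_left hc _, ?_⟩
        obtain ⟨w, hw⟩ := dvd_trans (dvd_pow_self (2 : ℤ) (by omega : K ≠ 0)) hs
        exact ⟨w, by rw [hw]; simp⟩
    · refine ⟨1, fun v => if v = 0 then 1 / 3 else 1, ⟨fun v hv => ?_, fun v hv => ?_,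
        fun v hv => by omega⟩, ?_, fun h => by omega⟩
      · rw [if_neg (by omega)]
      · rw [if_pos (by omega)]
        rw [abs_of_pos (by norm_num)]
      · intro j hj
        rw [key j, if_pos ((hd1 j hj).2 (Nat.zero_le _)), if_pos ((hd1 j hj).2 (Nat.zero_le _))]
        beta_reduce
        by_cases h0 : padicValNat 2 j = 0
        · rw [if_neg (fun h => hc ((hodd j hj h0).1 h)), if_pos h0]
          push_cast
          norm_num
        · rw [if_pos (hev j (by omega)), if_neg h0]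
          push_cast
          norm_num
  · refine ⟨i, fun v => if i ≤ v then 1 else if v + 1 = i then
        (if i = 1 ∧ ¬ (2 : ℤ) ∣ c₀ 1 then 1 / 3 else -1 / 3) else 0,
        ⟨fun v hv => ?_, fun v hv => ?_, fun v hv => ?_⟩, ?_, fun h => by omega⟩
    · rw [if_pos hv]
    · rw [if_neg (by omega), if_pos hv]
      split_ifs
      · rw [abs_of_pos (by norm_num)]
      · rw [abs_of_neg (by norm_num)]
        norm_num
    · rw [if_neg (by omega), if_neg (by omega)]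
    · intro j hj
      rw [key j]
      beta_reduce
      by_cases h1 : i ≤ padicValNat 2 j
      · rw [if_pos ((hd1 j hj).2 h1), if_pos ((hd1 j hj).2 h1), if_pos h1,
          if_pos (hev j (by omega))]
        push_cast
        norm_num
      · have hn1 : ¬ (((2 ^ K : ℕ) : ℤ) ∣ j * s) := fun h => h1 ((hd1 j hj).1 h)
        rw [if_neg hn1, if_neg hn1, if_neg h1]
        by_cases h2 : padicValNat 2 j + 1 = i
        · rw [if_pos ((hd2 j hj).2 (by omega)), if_pos h2]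
          by_cases h3 : i = 1
          · have h0 : padicValNat 2 j = 0 := by omega
            by_cases h4 : (2 : ℤ) ∣ c₀ 1
            · rw [if_pos ((hodd j hj h0).2 h4), if_neg (fun h => h.2 h4)]
              push_cast
              norm_num
            · rw [if_neg (fun h => h4 ((hodd j hj h0).1 h)), if_pos ⟨h3, h4⟩]
              push_cast
              norm_num
          · rw [if_pos (hev j (by omega)), if_neg (fun h => h3 h.1)]
            push_cast
            norm_num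
        · have hn2 : ¬ (((2 ^ K : ℕ) : ℤ) ∣ 2 * (j * s)) := fun h =>
            h2 (by have := (hd2 j hj).1 h; omega)
          rw [if_neg hn2, if_neg h2]
          push_cast
          ring

end SlopeB
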