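import Pool.Agent.Lib.SlopeB.Defs
import Pool.Agent.Lib.SlopeB.Defs2
import Pool.Agent.Lib.SlopeB.Sys

/-!
# Splitting off an isolated direction

PROOF of `isol_split`. Not all `c e d` are even (`even_of_even`, as `d` is not in `2H`): fix `e₀` with
`c e₀ d` odd, `c₀ = c e₀`. Take `k ∈ Oz c d`; `c₀ k` is odd and bounded, so `±1`; replace `k` by `-k` if
necessary (`-k ∈ OO c`, still `≡ d` modulo two) so that `c₀ k = 1`. For every `e`: if `c e d` is odd then
`c e ≡ c₀` modulo two (`hd.2`), so by `c_pm` `c e = ± c₀`; if `c e d` is even then `c e k` is even and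
bounded, so `c e k = 0`. Every `h` is `c₀ h • k + (h - c₀ h • k)` with the second part in `ker c₀`. Let
`b' = finrank ℤ (ker c₀)` and `B` a basis of the free module `ker c₀` (as a submodule of `Fin b → ℤ`;
`Module.finBasis`, `Submodule` of a free module over a PID is free and finite); define
`φ (t, h') = t • k + ∑ h'_i B_i`, an additive equivalence, with inverse
`h ↦ (c₀ h, B.repr (h - c₀ h • k))`. `b = b' + 1` by comparing `finrank ℤ`
(`LinearEquiv.finrank_eq` for `φ` as a `ℤ`-linear map, `Module.finrank_prod`,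
`Module.finrank_fin_fun`). `c' e h' = c e (φ (0, h'))`.
`Split`: `res` by definition; `alt`: `c e (φ (1,0)) = c e k`; either it is `0` or `c e = ± c₀`, `|c e k| = 1` and
`c' e h' = ± c₀ (..) = 0`; `ex`: `e₀`.
`IsSys c'`: `p2`: let `z'` be given, `h ∈ Oz c (φ (0, z'))`, `h = φ (0,z') + 2w`. `c₀ h` is even and
bounded, so `0`, `h = φ (0, h')`; also `c₀ w = 0`, `w = φ (0, w')`, so `h' = z' + 2w'` and
`|c' e h'| = |c e h| ≤ 1`. `sp`: if all `c' e h' = 0` then all `c e (φ (0,h')) = 0`, so `φ (0,h') = 0`, `h' = 0`.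
PROOF of `split_OO`, `split_Oz`. `c e (φ (ε, h')) = ε * c e (φ (1,0)) + c' e h'` (`(ε, h') = ε • (1,0) + (0,h')`). If
`|ε| ≤ 1`, `h' ∈ OO c'`: in the first case of `alt` the value is `c' e h'`, in the second it is `± ε`.
Conversely: for `e` from `ex` the value is `± ε`, so `|ε| ≤ 1`; for every `e` in the first case of `alt` the
value is `c' e h'`, in the second case `c' e h' = 0`. For `Oz`: `φ (ε,h') = φ (z₀,z') + 2w` iff `w = φ (t, w')`,
`ε = z₀ + 2t`, `h' = z' + 2w'`.
-/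

set_option autoImplicit false

open scoped Matrix.Norms.Elementwise Real Topology
open Complex Matrix MP6feb Filter

noncomputable section

namespace SlopeB

private theorem isoS_small {n : ℤ} (h2 : (2 : ℤ) ∣ n) (h1 : |n| ≤ 1) : n = 0 := by
  rw [abs_le] at h1
  omega

private theorem isoS_equiv {b : ℕ} (f : (Fin b → ℤ) →+ ℤ) (k : Fin b → ℤ) (hk : f k = 1) :
    ∃ (b' : ℕ) (φ : ℤ × (Fin b' → ℤ) ≃+ (Fin b → ℤ)), b = b' + 1 ∧
      (∀ t h', f (φ (t, h')) = t) ∧ φ (1, 0) = k := by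
  classical
  let fL : (Fin b → ℤ) →ₗ[ℤ] ℤ := f.toIntLinearMap
  have hfL : ∀ x, fL x = f x := fun x => rfl
  let b' := Module.finrank ℤ (LinearMap.ker fL)
  let B : Module.Basis (Fin b') ℤ (LinearMap.ker fL) := Module.finBasis ℤ _
  let ψ : (ℤ × LinearMap.ker fL) ≃ₗ[ℤ] (Fin b → ℤ) :=
    { toFun := fun p => p.1 • k + (p.2 : Fin b → ℤ)
      map_add' := by
        intro p q
        simp only [Prod.fst_add, Prod.snd_add, Submodule.coe_add, add_smul]
        abel
      map_smul' := by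
        intro m p
        simp only [Prod.smul_fst, Prod.smul_snd, SetLike.val_smul, RingHom.id_apply, smul_add,
          smul_eq_mul, mul_smul]
      invFun := fun h => (fL h, ⟨h - fL h • k, by
        rw [LinearMap.mem_ker, map_sub, map_smul, hfL k, hk]
        simp⟩)
      left_inv := by
        rintro ⟨t, v, hv⟩
        rw [LinearMap.mem_ker] at hv
        have h1 : fL (t • k + v) = t := by
          rw [map_add, map_smul, hfL k, hk, hv]
          simp
        simp only [Prod.mk.injEq]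
        refine ⟨h1, ?_⟩
        apply Subtype.ext
        simp only [h1]
        abel
      right_inv := by
        intro h
        simp }
  let φL : (ℤ × (Fin b' → ℤ)) ≃ₗ[ℤ] (Fin b → ℤ) :=
    ((LinearEquiv.refl ℤ ℤ).prodCongr B.equivFun.symm).trans ψ
  have hφ : ∀ t h', φL (t, h') = t • k + ((B.equivFun.symm h' : LinearMap.ker fL) : Fin b → ℤ) :=
    fun t h' => rfl
  refine ⟨b', φL.toAddEquiv, ?_, ?_, ?_⟩
  · have := φL.finrank_eq
    rw [Module.finrank_prod, Module.finrank_fin_fun, Module.finrank_fin_fun,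
      Module.finrank_self] at this
    omega
  · intro t h'
    have h0 : f ((B.equivFun.symm h' : LinearMap.ker fL) : Fin b → ℤ) = 0 := by
      have := (B.equivFun.symm h' : LinearMap.ker fL).2
      rwa [LinearMap.mem_ker, hfL] at this
    have h1 : f (φL (t, h')) = t := by
      rw [hφ, map_add, map_zsmul, hk, h0]
      simp
    exact h1
  · have h1 : φL (1, 0) = k := by
      rw [hφ, map_zero]
      simp
    exact h1

theorem isol_split {b : ℕ} {E : Type} [Finite E] {c : E → (Fin b → ℤ) →+ ℤ} (hc : IsSys c)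
    {d : Fin b → ℤ} (hd : Isol c d) :
    ∃ (b' : ℕ) (φ : ℤ × (Fin b' → ℤ) ≃+ (Fin b → ℤ)) (c' : E → (Fin b' → ℤ) →+ ℤ),
      b = b' + 1 ∧ IsSys c' ∧ Split c c' φ := by
  classical
  have hex : ∃ e₀, ¬ ((2 : ℤ) ∣ c e₀ d) := by
    by_contra hcon
    push Not at hcon
    exact hd.1 (even_of_even hc hcon)
  obtain ⟨e₀, he₀⟩ := hex
  -- the bounded element
  have hk : ∃ k ∈ OO c, c e₀ k = 1 ∧ ∀ e, (2 : ℤ) ∣ c e d → c e k = 0 := by
    obtain ⟨k₀, hk₀, w, hw⟩ := hc.p2 d
    have hval : ∀ e, c e k₀ = c e d + 2 * c e w := by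
      intro e
      rw [hw, map_add, map_nsmul]
      simp
    have hev : ∀ e, (2 : ℤ) ∣ c e d → c e k₀ = 0 := by
      intro e he
      apply isoS_small _ (hk₀ e)
      rw [hval]
      exact dvd_add he (dvd_mul_right _ _)
    have h1 := hk₀ e₀
    have h2 : ¬ ((2 : ℤ) ∣ c e₀ k₀) := by
      rw [hval]
      intro h
      exact he₀ ((dvd_add_left (dvd_mul_right _ _)).1 h)
    rw [abs_le] at h1
    have h3 : c e₀ k₀ = 1 ∨ c e₀ k₀ = -1 := by omega
    rcases h3 with h3 | h3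
    · exact ⟨k₀, hk₀, h3, hev⟩
    · refine ⟨-k₀, ?_, ?_, ?_⟩
      · intro e
        rw [map_neg, abs_neg]
        exact hk₀ e
      · rw [map_neg, h3]
        norm_num
      · intro e he
        rw [map_neg, hev e he, neg_zero]
  obtain ⟨k, hkO, hk1, hkev⟩ := hk
  have hkey : ∀ e, c e k = 0 ∨ ((∀ z, c e z = c e₀ z) ∨ (∀ z, c e z = - c e₀ z)) := by
    intro e
    by_cases he : (2 : ℤ) ∣ c e d
    · exact Or.inl (hkev e he)
    · exact Or.inr (c_pm hc (hd.2 e₀ e he₀ he))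
  obtain ⟨b', φ, hb, hφ0, hφ1⟩ := isoS_equiv (c e₀) k hk1
  let c' : E → (Fin b' → ℤ) →+ ℤ := fun e =>
    (c e).comp (φ.toAddMonoidHom.comp (AddMonoidHom.inr ℤ (Fin b' → ℤ)))
  have hc' : ∀ e h', c' e h' = c e (φ (0, h')) := fun e h' => rfl
  have hker : ∀ h, c e₀ h = 0 → ∃ h', h = φ (0, h') := by
    intro h hh
    obtain ⟨⟨t, h'⟩, rfl⟩ := φ.surjective h
    rw [hφ0] at hh
    subst hh
    exact ⟨h', rfl⟩
  refine ⟨b', φ, c', hb, ⟨?_, ?_⟩, ⟨?_, ?_, ?_⟩⟩
  · intro z'
    obtain ⟨h, hO, w, hw⟩ := hc.p2 (φ (0, z'))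
    have h1 : c e₀ h = 2 * c e₀ w := by
      rw [hw, map_add, map_nsmul, hφ0]
      simp
    have h2 : c e₀ h = 0 := isoS_small ⟨_, h1⟩ (hO e₀)
    have h3 : c e₀ w = 0 := by omega
    obtain ⟨h', hh'⟩ := hker h h2
    obtain ⟨w', hw'⟩ := hker w h3
    refine ⟨h', ?_, w', ?_⟩
    · intro e
      rw [hc', ← hh']
      exact hO e
    · have h4 : φ (0, h') = φ (0, z' + 2 • w') := by
        rw [← hh', hw, hw', ← map_nsmul, ← map_add]
        simp
      have h5 := φ.injective h4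
      simpa using h5
  · intro h' hh'
    have h1 : φ (0, h') = 0 := hc.sp _ (fun e => by rw [← hc']; exact hh' e)
    have h2 : φ (0, h') = φ 0 := by rw [h1, map_zero]
    have h3 := φ.injective h2
    exact (Prod.mk.injEq _ _ _ _ ▸ h3 : (0 : ℤ) = 0 ∧ h' = 0).2
  · intro e h'
    rfl
  · intro e
    rw [hφ1]
    rcases hkey e with h | h | h
    · exact Or.inl h
    · right
      refine ⟨by rw [h, hk1]; simp, ?_⟩
      intro h'
      rw [hc', h, hφ0]
    · right
      refine ⟨by rw [h, hk1]; simp, ?_⟩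
      intro h'
      rw [hc', h, hφ0, neg_zero]
  · refine ⟨e₀, ?_⟩
    rw [hφ1, hk1]
    norm_num

private theorem isoS_val {H H' E : Type} [AddCommGroup H] [AddCommGroup H'] {c : E → H →+ ℤ}
    {c' : E → H' →+ ℤ} {φ : ℤ × H' ≃+ H} (h : Split c c' φ) (ε : ℤ) (h' : H') (e : E) :
    c e (φ (ε, h')) = ε * c e (φ (1, 0)) + c' e h' := by
  have h1 : ((ε, h') : ℤ × H') = ε • ((1, 0) : ℤ × H') + (0, h') := by
    simp
  rw [h1, map_add, map_add, map_zsmul, map_zsmul, h.res, smul_eq_mul]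

theorem split_OO {H H' E : Type} [AddCommGroup H] [AddCommGroup H'] {c : E → H →+ ℤ}
    {c' : E → H' →+ ℤ} {φ : ℤ × H' ≃+ H} (h : Split c c' φ) (ε : ℤ) (h' : H') :
    φ (ε, h') ∈ OO c ↔ |ε| ≤ 1 ∧ h' ∈ OO c' := by
  constructor
  · intro hm
    obtain ⟨e₀, he₀⟩ := h.ex
    constructor
    · have h1 := hm e₀
      rw [isoS_val h] at h1
      rcases h.alt e₀ with h2 | ⟨h2, h3⟩
      · exact absurd h2 he₀
      · rw [h3, add_zero, abs_mul, h2, mul_one] at h1
        exact h1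
    · intro e
      have h1 := hm e
      rw [isoS_val h] at h1
      rcases h.alt e with h2 | ⟨h2, h3⟩
      · rw [h2, mul_zero, zero_add] at h1
        exact h1
      · rw [h3]
        simp
  · rintro ⟨hε, hh⟩ e
    rw [isoS_val h]
    rcases h.alt e with h2 | ⟨h2, h3⟩
    · rw [h2, mul_zero, zero_add]
      exact hh e
    · rw [h3, add_zero, abs_mul, h2, mul_one]
      exact hε

theorem split_Oz {H H' E : Type} [AddCommGroup H] [AddCommGroup H'] {c : E → H →+ ℤ}
    {c' : E → H' →+ ℤ} {φ : ℤ × H' ≃+ H} (h : Split c c' φ) (z₀ ε : ℤ) (z' h' : H') :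
    φ (ε, h') ∈ Oz c (φ (z₀, z')) ↔ |ε| ≤ 1 ∧ (2 : ℤ) ∣ ε - z₀ ∧ h' ∈ Oz c' z' := by
  constructor
  · rintro ⟨hO, w, hw⟩
    obtain ⟨hε, hh'⟩ := (split_OO h ε h').1 hO
    obtain ⟨⟨t, w'⟩, rfl⟩ := φ.surjective w
    rw [← map_nsmul, ← map_add] at hw
    have h1 := φ.injective hw
    have h2 : ε = z₀ + 2 * t ∧ h' = z' + 2 • w' := by
      have h3 := congrArg Prod.fst h1
      have h4 := congrArg Prod.snd h1
      constructor
      · simpa using h3
      · simpa using h4
    refine ⟨hε, ⟨t, by rw [h2.1]; ring⟩, hh', w', h2.2⟩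
  · rintro ⟨hε, ⟨t, ht⟩, hO, w', hw'⟩
    refine ⟨(split_OO h ε h').2 ⟨hε, hO⟩, φ (t, w'), ?_⟩
    rw [← map_nsmul, ← map_add]
    congr 1
    have h1 : ε = z₀ + 2 * t := by omega
    rw [hw', h1]
    ext <;> simp

end SlopeB
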