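import Pool.Agent.Lib.SlopeB.Defs
import Pool.Agent.Lib.SlopeB.Defs2
import Pool.Agent.Lib.SlopeB.IsoS
import Pool.Agent.Lib.SlopeB.IsoF
import Pool.Agent.Lib.SlopeB.QR
import Pool.Agent.Lib.SlopeB.Sys

/-!
# The isolated step of the law theorem

PROOF. Let `r` be the number of `hL` (the same `r` works). Given `k'`, `A`, `F` with `F a ≠ 0` on `OO c`.
Put `A' = A × Fin 3` (or `A × {-1,0,1}`), `F' (a, ε) h' = F a (φ (ε, h'))`, `ε ∈ {-1, 0, 1}`; it does not vanish
on `OO c'` (`split_OO`). Let `L'` be the law for `k'`, `F'`. Its index set is finite. For `i : L'.Ix` with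
`p i ≠ 0` let `O' = Oz c' (z i)` (finite, `OO_finite` for `IsSys c'`) and
`G_ε(a, i) = ∑_{h' ∈ O'} F a (φ (ε, h')) cexp(πI β_i h') ≠ 0`. Choose `K ≥ 1` such that for all `(a, i)` with
`p i ≠ 0` the number `q = - G_{-1}/G_1` is not a primitive root of unity of order `2^K`: every `q` is a
primitive root for at most one order, and there are finitely many pairs `(a, i)`, infinitely many `K`
(e.g. `{K | ∃ (a,i), IsPrimitiveRoot q (2^K)}` is finite: `IsPrimitiveRoot.unique`; finite union of sets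
with at most one element; `Set.Finite.exists_notMem`/`Infinite`).
The law `L` on `H`: index set `(Fin (2^K) ⊕ Fin (2^K)) × L'.Ix`, weight `ip K i₀ * L'.p i`, class
`φ (iz K i₀, L'.z i)`, functional `h ↦ ib K i₀ (φ⁻¹ h).1 + L'.β i (φ⁻¹ h).2`, level `max K L'.K`.
Sum of weights `1` (`ip_sum`, `Fintype.sum_prod_type`, `Finset.sum_mul_sum`).
`Four`: for `(c₁, s)` the Fourier coefficient is the product of the one of `ib`, at
`(t ↦ c₁ (φ (t, 0)), (φ⁻¹ s).1)` (`iso_four`) and the one of `L'` at `(h' ↦ c₁ (φ (0,h')), (φ⁻¹ s).2)`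
(`exp_add`, `Finset.sum_mul_sum`); use `QQ_mul` (`0 ≤ η`). If `max i j₀ = 0` both are `0`, so
`c₁ (φ (t, 0))` and `c₁ (φ (0, h'))` are even, so `c₁` is even, and `s = φ (2w₁, 2w') = 2 φ (w₁, w')`.
`NonV`: let `(i₀, i)` have nonzero weight, so `ip K i₀ ≠ 0`, `L'.p i ≠ 0`; let `O = Oz c (φ (z₀, z'))`
(as a Finset). By `split_Oz`, `O` is the image of `{ε : |ε| ≤ 1, ε ≡ z₀} × O'` under `φ`. If
`i₀ = inl y`, `z₀ = 0`: `ε = 0`, `ib (0) = 0`, the sum is `G_0 ≠ 0`. If `i₀ = inr y`, `z₀ = 1`, `y` odd (because the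
weight is not zero): `ε = ±1` and the sum is `e(y/2^(K+1)) G_1 + e(-y/2^(K+1)) G_{-1}`
(`cexp(πI y/2^K)`); if it is zero then `cexp(2πI y/2^K) = -G_{-1}/G_1`, which is a primitive root of order
`2^K` because `y` is odd (`Complex.isPrimitiveRoot_exp_of_coprime`): contradiction.
`Tight`: for `e` in the second case of `alt`: `c e (φ (z₀, z')) = ± z₀`, odd iff `z₀ = 1`: mass `1/3`. In the
first case it is `c' e z'` and `c' e ≠ 0` (otherwise `c e = 0` because `c e (φ (t, h')) = 0`), use `L'.Tight`.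
-/

set_option autoImplicit false

open scoped Matrix.Norms.Elementwise Real Topology
open Complex Matrix MP6feb Filter

noncomputable section

namespace SlopeB

private theorem isoL_val {H H' E : Type} [AddCommGroup H] [AddCommGroup H'] {c : E → H →+ ℤ}
    {c' : E → H' →+ ℤ} {φ : ℤ × H' ≃+ H} (h : Split c c' φ) (ε : ℤ) (h' : H') (e : E) :
    c e (φ (ε, h')) = ε * c e (φ (1, 0)) + c' e h' := by
  have h1 : ((ε, h') : ℤ × H') = ε • ((1, 0) : ℤ × H') + (0, h') := by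
    simp
  rw [h1, map_add, map_add, map_zsmul, map_zsmul, h.res, smul_eq_mul]

/-- The level avoiding finitely many numbers. -/
private theorem isoL_level {ι : Type} [Finite ι] (q : ι → ℂ) :
    ∃ K : ℕ, 1 ≤ K ∧ ∀ i, ¬ IsPrimitiveRoot (q i) (2 ^ K) := by
  have hfin : (⋃ i, {K : ℕ | IsPrimitiveRoot (q i) (2 ^ K)}).Finite := by
    refine Set.finite_iUnion fun i => Set.Subsingleton.finite ?_
    intro K hK K' hK'
    have h1 : (2 : ℕ) ^ K = 2 ^ K' := IsPrimitiveRoot.unique hK hK'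
    exact Nat.pow_right_injective (le_refl 2) h1
  obtain ⟨K, hK1, hK2⟩ := (Set.Ici_infinite (1 : ℕ)).exists_notMem_finite hfin
  refine ⟨K, hK1, fun i hi => hK2 ?_⟩
  exact Set.mem_iUnion.2 ⟨i, hi⟩

/-- The functional of the product law. -/
private def isoL_beta {H H' : Type} [AddCommGroup H] [AddCommGroup H'] (φ : ℤ × H' ≃+ H)
    (b₀ : ℤ →+ ℝ) (b' : H' →+ ℝ) : H →+ ℝ :=
  (b₀.comp (AddMonoidHom.fst ℤ H') + b'.comp (AddMonoidHom.snd ℤ H')).comp
    (φ.symm : H →+ ℤ × H')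

private theorem isoL_beta_apply {H H' : Type} [AddCommGroup H] [AddCommGroup H']
    (φ : ℤ × H' ≃+ H) (b₀ : ℤ →+ ℝ) (b' : H' →+ ℝ) (s : H) :
    isoL_beta φ b₀ b' s = b₀ (φ.symm s).1 + b' (φ.symm s).2 := rfl

private theorem isoL_beta_phi {H H' : Type} [AddCommGroup H] [AddCommGroup H']
    (φ : ℤ × H' ≃+ H) (b₀ : ℤ →+ ℝ) (b' : H' →+ ℝ) (ε : ℤ) (h' : H') :
    isoL_beta φ b₀ b' (φ (ε, h')) = b₀ ε + b' h' := by
  rw [isoL_beta_apply, φ.symm_apply_apply]

/-- The product law. -/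
private def isoL_law {H H' : Type} [AddCommGroup H] [AddCommGroup H'] (φ : ℤ × H' ≃+ H)
    (K : ℕ) (hK : 1 ≤ K) (L' : Law H') : Law H where
  Ix := (Fin (2 ^ K) ⊕ Fin (2 ^ K)) × L'.Ix
  fin := inferInstance
  p i := ip K i.1 * L'.p i.2
  z i := φ (iz K i.1, L'.z i.2)
  β i := isoL_beta φ (ib K i.1) (L'.β i.2)
  K := max K L'.K
  p_nonneg i := mul_nonneg (ip_nonneg K i.1) (L'.p_nonneg i.2)
  p_sum := by
    rw [Fintype.sum_prod_type]
    simp only
    rw [← Finset.sum_mul_sum, ip_sum hK, L'.p_sum, one_mul]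
  lev i h := by
    obtain ⟨m, hm⟩ := L'.lev i.2 (φ.symm h).2
    refine ⟨2 ^ (max K L'.K - K) * ((iy K i.1 : ℤ) * (φ.symm h).1) +
      2 ^ (max K L'.K - L'.K) * m, ?_⟩
    rw [isoL_beta_apply, mul_add]
    have h1 : (2 : ℝ) ^ (max K L'.K) = 2 ^ (max K L'.K - K) * 2 ^ K := by
      rw [← pow_add, Nat.sub_add_cancel (le_max_left _ _)]
    have h2 : (2 : ℝ) ^ (max K L'.K) = 2 ^ (max K L'.K - L'.K) * 2 ^ L'.K := by
      rw [← pow_add, Nat.sub_add_cancel (le_max_right _ _)]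
    have h3 : (2 : ℝ) ^ (max K L'.K) * ib K i.1 (φ.symm h).1 =
        2 ^ (max K L'.K - K) * ((iy K i.1 : ℝ) * ((φ.symm h).1 : ℝ)) := by
      rw [h1]
      change 2 ^ (max K L'.K - K) * 2 ^ K *
        ((iy K i.1 : ℝ) * (((φ.symm h).1 : ℤ) : ℝ) / 2 ^ K) = _
      field_simp
    have h4 : (2 : ℝ) ^ (max K L'.K) * L'.β i.2 (φ.symm h).2 =
        2 ^ (max K L'.K - L'.K) * m := by
      rw [h2, mul_assoc, hm]
    rw [h3, h4]
    push_cast
    ring

/-- The sum over a class. -/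
private theorem isoL_sum {H H' E : Type} [AddCommGroup H] [AddCommGroup H']
    {c : E → H →+ ℤ} {c' : E → H' →+ ℤ} {φ : ℤ × H' ≃+ H} (h : Split c c' φ) (z₀ : ℤ)
    (z' : H') (O' : Finset H') (hO' : ∀ h', h' ∈ O' ↔ h' ∈ Oz c' z') (O : Finset H)
    (hO : ∀ x, x ∈ O ↔ x ∈ Oz c (φ (z₀, z'))) (f : H → ℂ) :
    ∑ x ∈ O, f x = ∑ ε ∈ ({-1, 0, 1} : Finset ℤ).filter (fun ε => (2 : ℤ) ∣ ε - z₀),
      ∑ h' ∈ O', f (φ (ε, h')) := by
  have h1 : O = ((({-1, 0, 1} : Finset ℤ).filter (fun ε => (2 : ℤ) ∣ ε - z₀)) ×ˢ O').map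
      φ.toEquiv.toEmbedding := by
    ext x
    rw [hO, Finset.mem_map]
    obtain ⟨⟨ε, h'⟩, rfl⟩ := φ.surjective x
    rw [split_Oz h]
    constructor
    · rintro ⟨h2, h3, h4⟩
      refine ⟨(ε, h'), ?_, rfl⟩
      rw [Finset.mem_product, Finset.mem_filter]
      refine ⟨⟨?_, h3⟩, (hO' h').2 h4⟩
      rw [abs_le] at h2
      simp only [Finset.mem_insert, Finset.mem_singleton]
      omega
    · rintro ⟨⟨ε', h''⟩, h2, h3⟩
      have h4 : (ε', h'') = (ε, h') := φ.injective h3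
      rw [h4, Finset.mem_product, Finset.mem_filter] at h2
      obtain ⟨⟨h5, h6⟩, h7⟩ := h2
      refine ⟨?_, h6, (hO' h').1 h7⟩
      simp only [Finset.mem_insert, Finset.mem_singleton] at h5
      rw [abs_le]
      omega
  rw [h1, Finset.sum_map, Finset.sum_product]
  rfl

theorem lawP_split {H H' E : Type} [AddCommGroup H] [AddCommGroup H'] [Finite E]
    {c : E → H →+ ℤ} {c' : E → H' →+ ℤ} {φ : ℤ × H' ≃+ H} (h : Split c c' φ)
    (hc' : IsSys c') (hL : LawP c') : LawP c := by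
  obtain ⟨r, hr⟩ := hL
  refine ⟨r, fun k' A hA F hF => ?_⟩
  obtain ⟨L', hN, hFo, hT⟩ := hr k' (A × Fin 3) inferInstance
    (fun a h' => F a.1 (φ (((a.2 : ℕ) : ℤ) - 1, h'))) (by
      rintro ⟨a, k⟩ h' hh'
      refine hF a _ ((split_OO h _ _).2 ⟨?_, hh'⟩)
      have := k.2
      rw [abs_le]
      constructor
      · simp only; omega
      · simp only; omega)
  have hfin : ∀ z', (Oz c' z').Finite := fun z' =>
    (OO_finite hc').subset fun x hx => hx.1
  set O' : L'.Ix → Finset H' := fun i => (hfin (L'.z i)).toFinset with hO'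
  have hmem : ∀ i h', h' ∈ O' i ↔ h' ∈ Oz c' (L'.z i) := fun i h' => by
    rw [hO']
    simp
  set G : ℤ → A → L'.Ix → ℂ := fun ε a i =>
    ∑ h' ∈ O' i, F a (φ (ε, h')) * cexp (π * I * (L'.β i h' : ℂ)) with hG
  have hG0 : ∀ k : Fin 3, ∀ a i, L'.p i ≠ 0 → G (((k : ℕ) : ℤ) - 1) a i ≠ 0 := fun k a i hi =>
    hN i hi (a, k) (O' i) (hmem i)
  obtain ⟨K, hK, hKq⟩ := isoL_level (fun i : A × L'.Ix => -G (-1) i.1 i.2 / G 1 i.1 i.2)
  refine ⟨isoL_law φ K hK L', ?_, ?_, ?_⟩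
  · rintro ⟨i₀, i⟩ hp a O hO
    have hp' : ip K i₀ * L'.p i ≠ 0 := hp
    have hip : ip K i₀ ≠ 0 := left_ne_zero_of_mul hp'
    have hp2 : L'.p i ≠ 0 := right_ne_zero_of_mul hp'
    have hO2 : ∀ x, x ∈ O ↔ x ∈ Oz c (φ (iz K i₀, L'.z i)) := hO
    rw [isoL_sum h (iz K i₀) (L'.z i) (O' i) (hmem i) O hO2]
    have hβ : ∀ ε h', (isoL_law φ K hK L').β (i₀, i) (φ (ε, h')) =
        ib K i₀ ε + L'.β i h' := fun ε h' => isoL_beta_phi φ _ _ ε h'
    have hterm : ∀ ε : ℤ, ∑ h' ∈ O' i, F a (φ (ε, h')) *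
        cexp (π * I * (((isoL_law φ K hK L').β (i₀, i) (φ (ε, h')) : ℝ) : ℂ)) =
        cexp (π * I * (ib K i₀ ε : ℂ)) * G ε a i := by
      intro ε
      rw [hG]
      simp only
      rw [Finset.mul_sum]
      refine Finset.sum_congr rfl fun h' _ => ?_
      rw [hβ]
      push_cast
      rw [mul_add, Complex.exp_add]
      ring
    simp only [hterm]
    cases i₀ with
    | inl y =>
      have h1 : ({-1, 0, 1} : Finset ℤ).filter (fun ε => (2 : ℤ) ∣ ε - iz K (Sum.inl y)) =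
          {0} := by
        simp only [iz]
        decide
      rw [h1, Finset.sum_singleton, map_zero]
      simp only [ofReal_zero, mul_zero, Complex.exp_zero, one_mul]
      have := hG0 1 a i hp2
      simpa using this
    | inr y =>
      have h1 : ({-1, 0, 1} : Finset ℤ).filter (fun ε => (2 : ℤ) ∣ ε - iz K (Sum.inr y)) =
          {-1, 1} := by
        simp only [iz]
        decide
      rw [h1, Finset.sum_pair (by norm_num)]
      have hy : (y : ℕ) % 2 = 1 := by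
        by_contra hcon
        apply hip
        simp only [ip]
        rw [if_neg hcon]
      have hg1 : G 1 a i ≠ 0 := by
        have := hG0 2 a i hp2
        simpa using this
      intro hzero
      have hcop : Nat.Coprime (y : ℕ) (2 ^ K) := by
        apply Nat.Coprime.pow_right
        rw [Nat.coprime_comm, Nat.Prime.coprime_iff_not_dvd Nat.prime_two]
        omega
      have hprim := Complex.isPrimitiveRoot_exp_of_coprime (y : ℕ) (2 ^ K) (by positivity) hcop
      apply hKq (a, i)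
      have hib1 : (ib K (Sum.inr y) 1 : ℝ) = (y : ℕ) / 2 ^ K := by
        change ((iy K (Sum.inr y) : ℕ) : ℝ) * ((1 : ℤ) : ℝ) / 2 ^ K = _
        simp [iy]
      have hibm : (ib K (Sum.inr y) (-1) : ℝ) = -((y : ℕ) / 2 ^ K) := by
        rw [map_neg, hib1]
      rw [hib1, hibm] at hzero
      have hE : cexp (2 * π * I * ((y : ℕ) / (2 ^ K : ℕ))) =
          cexp (π * I * (((y : ℕ) / 2 ^ K : ℝ) : ℂ)) *
          cexp (π * I * (((y : ℕ) / 2 ^ K : ℝ) : ℂ)) := by
        rw [← Complex.exp_add]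
        congr 1
        push_cast
        ring
      have hinv : cexp (π * I * ((-((y : ℕ) / 2 ^ K) : ℝ) : ℂ)) *
          cexp (π * I * (((y : ℕ) / 2 ^ K : ℝ) : ℂ)) = 1 := by
        rw [← Complex.exp_add, ← Complex.exp_zero]
        congr 1
        push_cast
        ring
      have hq : -G (-1) a i / G 1 a i = cexp (2 * π * I * ((y : ℕ) / (2 ^ K : ℕ))) := by
        rw [hE, div_eq_iff hg1]
        have h2 := congrArg (fun t => t * cexp (π * I * (((y : ℕ) / 2 ^ K : ℝ) : ℂ))) hzero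
        simp only [add_mul, zero_mul] at h2
        have h3 : cexp (π * I * ((-((y : ℕ) / 2 ^ K) : ℝ) : ℂ)) * G (-1) a i *
            cexp (π * I * (((y : ℕ) / 2 ^ K : ℝ) : ℂ)) = G (-1) a i := by
          rw [mul_right_comm, hinv, one_mul]
        rw [h3] at h2
        linear_combination -h2
      change IsPrimitiveRoot (-G (-1) a i / G 1 a i) (2 ^ K)
      rw [hq]
      exact hprim
  · intro c₁ s
    obtain ⟨j₀, a, hRR, ha, ha0⟩ := iso_four hK
      (c₁.comp ((φ : ℤ × H' →+ H).comp (AddMonoidHom.inl ℤ H'))) (φ.symm s).1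
    obtain ⟨i, q, hQQ, hq, hq0⟩ := hFo
      (c₁.comp ((φ : ℤ × H' →+ H).comp (AddMonoidHom.inr ℤ H'))) (φ.symm s).2
    refine ⟨max i j₀, fun v => q v * a v, QQ_mul (by positivity) hQQ hRR, ?_, ?_⟩
    · intro j hj
      have h1 := ha j hj
      have h2 := hq j hj
      have h3 : (isoL_law φ K hK L').four c₁ s j =
          (∑ i₀, (ip K i₀ : ℂ) * cexp (2 * π * I * (j *
            (((c₁.comp ((φ : ℤ × H' →+ H).comp (AddMonoidHom.inl ℤ H'))) (iz K i₀) : ℂ) / 2 +
              (ib K i₀ (φ.symm s).1 : ℂ))))) *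
          L'.four (c₁.comp ((φ : ℤ × H' →+ H).comp (AddMonoidHom.inr ℤ H'))) (φ.symm s).2 j := by
        rw [Law.four, Law.four, Finset.sum_mul_sum]
        change ∑ x : (Fin (2 ^ K) ⊕ Fin (2 ^ K)) × L'.Ix, _ = _
        rw [Fintype.sum_prod_type]
        refine Finset.sum_congr rfl fun i₀ _ => Finset.sum_congr rfl fun i' _ => ?_
        change ((ip K i₀ * L'.p i' : ℚ) : ℂ) * cexp (2 * π * I * (j *
          (((c₁ (φ (iz K i₀, L'.z i')) : ℤ) : ℂ) / 2 +
            ((isoL_beta φ (ib K i₀) (L'.β i') s : ℝ) : ℂ)))) = _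
        have h5 : c₁ (φ (iz K i₀, L'.z i')) = c₁ (φ (iz K i₀, 0)) + c₁ (φ (0, L'.z i')) := by
          rw [← map_add, ← map_add]
          simp
        rw [isoL_beta_apply, h5]
        have h6 : (c₁.comp ((φ : ℤ × H' →+ H).comp (AddMonoidHom.inl ℤ H'))) (iz K i₀) =
            c₁ (φ (iz K i₀, 0)) := rfl
        have h7 : (c₁.comp ((φ : ℤ × H' →+ H).comp (AddMonoidHom.inr ℤ H'))) (L'.z i') =
            c₁ (φ (0, L'.z i')) := rfl
        rw [h6, h7]
        have h8 : cexp (2 * π * I * (j * (((c₁ (φ (iz K i₀, 0)) + c₁ (φ (0, L'.z i')) : ℤ) : ℂ) / 2 +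
            ((ib K i₀ (φ.symm s).1 + L'.β i' (φ.symm s).2 : ℝ) : ℂ)))) =
            cexp (2 * π * I * (j * ((c₁ (φ (iz K i₀, 0)) : ℂ) / 2 +
              (ib K i₀ (φ.symm s).1 : ℂ)))) *
            cexp (2 * π * I * (j * ((c₁ (φ (0, L'.z i')) : ℂ) / 2 +
              (L'.β i' (φ.symm s).2 : ℂ)))) := by
          rw [← Complex.exp_add]
          congr 1
          push_cast
          ring
        rw [h8, Rat.cast_mul]
        ring
      rw [h3, h1, h2]
      push_cast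
      ring
    · intro hmax
      have hi0 : i = 0 := by omega
      have hj0 : j₀ = 0 := by omega
      obtain ⟨h1, w₁, hw₁⟩ := ha0 hj0
      obtain ⟨h2, w', hw'⟩ := hq0 hi0
      constructor
      · intro x
        obtain ⟨⟨t, h'⟩, rfl⟩ := φ.surjective x
        have h5 : c₁ (φ (t, h')) = c₁ (φ (t, 0)) + c₁ (φ (0, h')) := by
          rw [← map_add, ← map_add]
          simp
        rw [h5]
        exact dvd_add (h1 t) (h2 h')
      · refine ⟨φ (w₁, w'), ?_⟩
        rw [← map_nsmul, ← φ.apply_symm_apply s]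
        congr 1
        rw [Prod.smul_mk, ← hw₁, ← hw']
  · intro e he
    change ∑ x : (Fin (2 ^ K) ⊕ Fin (2 ^ K)) × L'.Ix,
      (if (2 : ℤ) ∣ c e (φ (iz K x.1, L'.z x.2)) then 0 else ip K x.1 * L'.p x.2) = 1 / 3
    rw [Fintype.sum_prod_type]
    rcases h.alt e with h1 | ⟨h1, h2⟩
    · have hce : c' e ≠ 0 := by
        intro h0
        apply he
        ext x
        obtain ⟨⟨t, h'⟩, rfl⟩ := φ.surjective x
        rw [isoL_val h, h1, h0]
        simp
      have h3 := hT e hce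
      have h4 : ∀ (i₀ : Fin (2 ^ K) ⊕ Fin (2 ^ K)) (i : L'.Ix),
          (if (2 : ℤ) ∣ c e (φ (iz K i₀, L'.z i)) then 0 else ip K i₀ * L'.p i) =
          ip K i₀ * (if (2 : ℤ) ∣ c' e (L'.z i) then 0 else L'.p i) := by
        intro i₀ i
        rw [isoL_val h, h1, mul_zero, zero_add]
        split_ifs
        · simp
        · rfl
      simp only [h4]
      rw [← Finset.sum_mul_sum, ip_sum hK, one_mul]
      exact h3
    · have h4 : ∀ (i₀ : Fin (2 ^ K) ⊕ Fin (2 ^ K)) (i : L'.Ix),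
          (if (2 : ℤ) ∣ c e (φ (iz K i₀, L'.z i)) then 0 else ip K i₀ * L'.p i) =
          (if (2 : ℤ) ∣ iz K i₀ then 0 else ip K i₀) * L'.p i := by
        intro i₀ i
        have h5 : ((2 : ℤ) ∣ c e (φ (iz K i₀, L'.z i))) ↔ (2 : ℤ) ∣ iz K i₀ := by
          rw [isoL_val h, h2, add_zero]
          rcases (abs_eq (by norm_num : (0 : ℤ) ≤ 1)).1 h1 with h6 | h6
          · rw [h6, mul_one]
          · rw [h6, mul_neg, mul_one, dvd_neg]
        by_cases h6 : (2 : ℤ) ∣ iz K i₀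
        · rw [if_pos (h5.2 h6), if_pos h6, zero_mul]
        · rw [if_neg (fun h7 => h6 (h5.1 h7)), if_neg h6]
      simp only [h4]
      rw [← Finset.sum_mul_sum, L'.p_sum, mul_one]
      have h5 := ip_sum hK
      rw [Fintype.sum_sum_type] at h5 ⊢
      have h6 : ∑ y : Fin (2 ^ K), ip K (Sum.inl y) = 2 / 3 := by
        simp only [ip]
        rw [Finset.sum_const, Finset.card_univ, Fintype.card_fin, nsmul_eq_mul]
        push_cast
        field_simp
      have h7 : ∑ y : Fin (2 ^ K), (if (2 : ℤ) ∣ iz K (Sum.inl y) then (0 : ℚ)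
          else ip K (Sum.inl y)) = 0 := by
        refine Finset.sum_eq_zero fun y _ => ?_
        simp [iz]
      have h8 : ∑ y : Fin (2 ^ K), (if (2 : ℤ) ∣ iz K (Sum.inr y) then (0 : ℚ)
          else ip K (Sum.inr y)) = ∑ y : Fin (2 ^ K), ip K (Sum.inr y) := by
        refine Finset.sum_congr rfl fun y _ => ?_
        rw [if_neg]
        simp only [iz]
        norm_num
      rw [h7, h8]
      linarith

end SlopeB
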