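import Pool.Agent.Lib.SlopeB.Defs
import Pool.Agent.Lib.SlopeB.QR
import Pool.Agent.Lib.SlopeB.Sys

/-!
# The law theorem in rank zero

PROOF. `r = 0`. The law: `Ix = Unit`, `p = 1`, `z = 0`, `β = 0`, `K = 0`. All elements of `H` are equal to `0`.
`NonV`: `O` consists of the elements of `Oz c 0`; `0 ∈ OO c`, so `0 ∈ Oz c 0`, `O = {0}`, and the sum is
`F a 0 * cexp 0 ≠ 0`. `Four`: `i = 0`, `q = 1` (`QQ_one`, `η = (3/8) (1/4)^(k'+0) ≤ (1/4)^k'`); the Fourier
coefficient is `cexp (2πI (j (0/2 + 0))) = 1`; `c' h = c' 0 = 0` is even, `s = 0 = 2 • 0`. `Tight`: `c e = 0` for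
all `e`, void.
-/

set_option autoImplicit false

open scoped Matrix.Norms.Elementwise Real Topology
open Complex Matrix MP6feb Filter

noncomputable section

namespace SlopeB

/-- The trivial law. -/
private def lawZ_law (H : Type) [AddCommGroup H] : Law H where
  Ix := Unit
  fin := inferInstance
  p := fun _ => 1
  z := fun _ => 0
  β := fun _ => 0
  K := 0
  p_nonneg := fun _ => zero_le_one
  p_sum := by simp
  lev := fun _ _ => ⟨0, by simp⟩

theorem lawP_zero {H E : Type} [AddCommGroup H] [Subsingleton H] (c : E → H →+ ℤ) : LawP c := by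
  refine ⟨0, fun k' A _ F hF => ⟨lawZ_law H, ?_, ?_, ?_⟩⟩
  · intro i _ a O hO
    have h0 : (0 : H) ∈ OO c := fun e => by simp
    have h1 : (0 : H) ∈ O := by
      rw [hO]
      refine ⟨h0, 0, Subsingleton.elim _ _⟩
    have h2 : O = {0} := by
      ext h
      rw [Finset.mem_singleton]
      exact ⟨fun _ => Subsingleton.elim _ _, fun hh => hh ▸ h1⟩
    rw [h2, Finset.sum_singleton, map_zero]
    simpa using hF a 0 h0
  · intro c' s
    refine ⟨0, fun _ => 1, QQ_one (by positivity) ?_, ?_, fun _ => ⟨fun h => ?_, 0, Subsingleton.elim _ _⟩⟩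
    · have h1 : (0 : ℝ) ≤ (1 / 4) ^ k' := by positivity
      rw [add_zero]
      linarith
    · intro j _
      have hs : s = 0 := Subsingleton.elim _ _
      subst hs
      have h1 : (lawZ_law H).four c' 0 j =
          ∑ i : Unit, ((1 : ℚ) : ℂ) *
            cexp (2 * π * I * (j * ((c' (0 : H) : ℂ) / 2 + (((0 : H →+ ℝ) (0 : H) : ℝ) : ℂ)))) := rfl
      rw [h1]
      simp
    · have hh : h = 0 := Subsingleton.elim _ _
      rw [hh, map_zero]
      exact dvd_zero _
  · intro e he
    exfalso
    apply he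
    ext h
    have hh : h = 0 := Subsingleton.elim _ _
    rw [hh, map_zero, map_zero]

end SlopeB
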