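import Pool.Agent.Lib.SlopeB.Defs
import Pool.Agent.Lib.SlopeB.Defs2
import Pool.Agent.Lib.SlopeB.IsoS
import Pool.Agent.Lib.SlopeB.IsoL
import Pool.Agent.Lib.SlopeB.LawZ
import Pool.Agent.Lib.SlopeB.GamL

/-!
# The law theorem

PROOF. Induction on `b`. `b = 0`: `lawP_zero` (`Fin 0 → ℤ` is a subsingleton). `b ≥ 1`: if some `d` is
isolated, `isol_split` gives `b = b' + 1`, `φ`, `c'`; the induction hypothesis gives `LawP c'`
(strong induction, or `subst`), and `lawP_split` gives `LawP c`. Otherwise `lawP_gam`.
-/

set_option autoImplicit false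

open scoped Matrix.Norms.Elementwise Real Topology
open Complex Matrix MP6feb Filter

noncomputable section

namespace SlopeB

theorem lawP_all {E : Type} [Finite E] : ∀ (b : ℕ) (c : E → (Fin b → ℤ) →+ ℤ), IsSys c →
    LawP c := by
  intro b
  induction b with
  | zero =>
    intro c _
    exact lawP_zero c
  | succ b ih =>
    intro c hc
    by_cases hI : ∃ d, Isol c d
    · obtain ⟨d, hd⟩ := hI
      obtain ⟨b', φ, c', hb, hc', hs⟩ := isol_split hc hd
      have h1 : b = b' := by omega
      subst h1
      exact lawP_split hs hc' (ih c' hc')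
    · exact lawP_gam hc (fun d hd => hI ⟨d, hd⟩) (by omega)

end SlopeB
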