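import Pool.Agent.Lib.SlopeB.Defs
import Pool.Agent.Lib.MP_6febbd_ag.ThC

/-!
# The limit of theta constants along a cone

PROOF. Notation: `S_e(n) = ∑_i c_e i (n i + a i)`, `r_e = ∑ c_e i a_i`, `nd c a e = (r_e - round r_e)²`.
(1) `S_e(n) - r_e` is an integer, so `S_e(n)² ≥ nd c a e` (`round_le`: `|x - round x| ≤ |x - k|`).
(2) `thTerm a b (τ' + cone c t) n * cexp(-(πI ∑ t_e nd_e)) =
thTerm a b τ' n * cexp(πI ∑ t_e (S_e(n)² - nd_e))`: `qf` is additive in the matrix and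
`qf (cone c t) (n + a) = ∑ t_e S_e(n)²`.
(3) `cone c (fun _ => T₀ I)`: let `δ` be from `posIm_near hc₀ hpos`. Eventually `‖τ' - τ₀‖ < δ` and
`Im t_e ≥ T₀` for all `e` (the filter: `Filter.Eventually.prod_inl`/`prod_inr`,
`Filter.eventually_comap`, `Filter.eventually_ge_atTop (fun _ => T₀)`). Then
`‖term(n)‖ = exp(-π ∑∑ (n+a)_i Im(τ')_ij (n+a)_j) exp(-π ∑ Im t_e (S_e² - nd_e))` (`norm_thTerm`)
`≤ exp(-π ∑∑ (n+a) Im(τ' + cone (T₀ I)) (n+a)) exp(π T₀ ∑ nd_e)`
`≤ exp(π T₀ ∑ nd_e) exp(-π (c₀/2) ∑ (n_i + a_i)²)` because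
`Im t_e (S_e² - nd_e) ≥ T₀ (S_e² - nd_e)` and `PosIm (c₀/2) (τ' + cone c (T₀ I))`. The bound is
summable over `n`: it is a multiple of `‖thTerm a b ((c₀/2) I • 1) n‖` (`summable_thTerm`,
`norm_thTerm`), or of the bound in `norm_thTerm_le`.
(4) For fixed `n` the term converges: if `n ∈ Surv` the second factor is `1` and
`thTerm a b τ' n → thTerm a b τ₀ n` by continuity of `qf` in `τ'`. If `n ∉ Surv` some
`S_{e₁}² - nd_{e₁} =: κ > 0`, the norm of the second factor is at most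
`exp(-π κ Im t_{e₁})` as soon as all `Im t_e ≥ 0`, so it tends to `0`
(`squeeze_zero_norm'`), and `thTerm a b τ' n` converges.
(5) `tendsto_tsum_of_dominated_convergence` for the filter `𝓝 τ₀ ×ˢ ImInf E`; finally
`th a b (..) * cexp(..) = ∑' n, (thTerm .. * cexp(..))` (`tsum_mul_right`).
-/

set_option autoImplicit false

open scoped Matrix.Norms.Elementwise Real Topology
open Complex Matrix MP6feb Filter

noncomputable section

namespace SlopeB

theorem qf_cone {ι E : Type} [Fintype ι] [Fintype E] (c : E → ι → ℤ) (t : E → ℂ) (v : ι → ℂ) :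
    qf (cone c t) v = ∑ e, t e * (∑ i, (c e i : ℂ) * v i) ^ 2 := by
  have h1 : ∀ e, t e * (∑ i, (c e i : ℂ) * v i) ^ 2 =
      ∑ i, ∑ j, v i * (t e * ((c e i : ℂ) * (c e j : ℂ))) * v j := by
    intro e
    rw [pow_two, Finset.sum_mul_sum, Finset.mul_sum]
    refine Finset.sum_congr rfl fun i _ => ?_
    rw [Finset.mul_sum]
    refine Finset.sum_congr rfl fun j _ => ?_
    ring
  rw [Finset.sum_congr rfl fun e _ => h1 e, Finset.sum_comm]
  unfold qf
  refine Finset.sum_congr rfl fun i _ => ?_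
  rw [Finset.sum_comm]
  refine Finset.sum_congr rfl fun j _ => ?_
  have h2 : cone c t i j = ∑ e, t e * ((c e i : ℂ) * (c e j : ℂ)) := by
    unfold cone
    rw [Matrix.sum_apply]
    rfl
  rw [h2, Finset.mul_sum, Finset.sum_mul]

theorem nd_le {ι E : Type} [Fintype ι] (c : E → ι → ℤ) (a : ι → ℝ) (n : ι → ℤ) (e : E) :
    nd c a e ≤ (∑ i, (c e i : ℝ) * ((n i : ℝ) + a i)) ^ 2 := by
  unfold nd
  have h1 : ∑ i, (c e i : ℝ) * ((n i : ℝ) + a i) =
      (∑ i, (c e i : ℝ) * a i) - ((-(∑ i, c e i * n i) : ℤ) : ℝ) := by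
    push_cast
    rw [sub_neg_eq_add, ← Finset.sum_add_distrib]
    refine Finset.sum_congr rfl fun i _ => ?_
    ring
  rw [h1]
  exact sq_le_sq.2 (round_le _ _)

private theorem ThLim_qf_add {ι : Type} [Fintype ι] (τ M : Matrix ι ι ℂ) (v : ι → ℂ) :
    qf (τ + M) v = qf τ v + qf M v := by
  unfold qf
  rw [← Finset.sum_add_distrib]
  refine Finset.sum_congr rfl fun i _ => ?_
  rw [← Finset.sum_add_distrib]
  refine Finset.sum_congr rfl fun j _ => ?_
  rw [Matrix.add_apply]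
  ring

private theorem ThLim_term {ι E : Type} [Fintype ι] [Fintype E] (c : E → ι → ℤ) (a b : ι → ℝ)
    (τ : Matrix ι ι ℂ) (t : E → ℂ) (n : ι → ℤ) :
    thTerm a b (τ + cone c t) n * cexp (-(π * I * ∑ e, t e * (nd c a e : ℂ))) =
      thTerm a b τ n * cexp (π * I * ∑ e, t e *
        (((∑ i, (c e i : ℝ) * ((n i : ℝ) + a i)) ^ 2 - nd c a e : ℝ) : ℂ)) := by
  unfold thTerm
  rw [← Complex.exp_add, ← Complex.exp_add, ThLim_qf_add, qf_cone]
  congr 1
  have h1 : ∀ e, t e * (((∑ i, (c e i : ℝ) * ((n i : ℝ) + a i)) ^ 2 - nd c a e : ℝ) : ℂ) =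
      t e * (∑ i, (c e i : ℂ) * ((n i : ℂ) + a i)) ^ 2 - t e * (nd c a e : ℂ) := by
    intro e
    push_cast
    ring
  rw [Finset.sum_congr rfl fun e _ => h1 e, Finset.sum_sub_distrib]
  ring

private theorem ThLim_norm {ι E : Type} [Fintype ι] [Fintype E] (c : E → ι → ℤ) (a b : ι → ℝ)
    (τ : Matrix ι ι ℂ) (t : E → ℂ) (n : ι → ℤ) :
    ‖thTerm a b (τ + cone c t) n * cexp (-(π * I * ∑ e, t e * (nd c a e : ℂ)))‖ =
      ‖thTerm a b τ n‖ * Real.exp (-(π * ∑ e, (t e).im *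
        ((∑ i, (c e i : ℝ) * ((n i : ℝ) + a i)) ^ 2 - nd c a e))) := by
  rw [ThLim_term, norm_mul, Complex.norm_exp]
  congr 2
  have h1 : (∑ e, t e * (((∑ i, (c e i : ℝ) * ((n i : ℝ) + a i)) ^ 2 - nd c a e : ℝ) : ℂ)).im =
      ∑ e, (t e).im * ((∑ i, (c e i : ℝ) * ((n i : ℝ) + a i)) ^ 2 - nd c a e) := by
    rw [Complex.im_sum]
    refine Finset.sum_congr rfl fun e _ => ?_
    rw [Complex.im_mul_ofReal]
  rw [← h1]
  generalize ∑ e, t e * (((∑ i, (c e i : ℝ) * ((n i : ℝ) + a i)) ^ 2 - nd c a e : ℝ) : ℂ) = S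
  have h2 : (π : ℂ) * I * S = ((π : ℝ) : ℂ) * (I * S) := by ring
  rw [h2, Complex.re_ofReal_mul, Complex.I_mul_re]
  ring

private theorem ThLim_ev (E : Type) (T : ℝ) :
    ∀ᶠ t in ImInf E, ∀ e, T ≤ (t e).im := by
  have h := (Filter.eventually_ge_atTop (fun _ : E => T)).comap
    (fun (t : E → ℂ) (e : E) => (t e).im)
  exact h

private theorem ThLim_cont {ι : Type} [Fintype ι] (a b : ι → ℝ) (n : ι → ℤ) :
    Continuous fun τ : Matrix ι ι ℂ => thTerm a b τ n := by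
  unfold thTerm qf
  refine Complex.continuous_exp.comp ?_
  refine Continuous.add (Continuous.mul continuous_const ?_) continuous_const
  refine continuous_finsetSum _ fun i _ => continuous_finsetSum _ fun j _ => ?_
  exact (continuous_const.mul (continuous_id.matrix_elem i j)).mul continuous_const

theorem th_limit {ι E : Type} [Fintype ι] [Fintype E] (c : E → ι → ℤ) (a b : ι → ℝ)
    {τ₀ : Matrix ι ι ℂ} {c₀ T₀ : ℝ} (hc₀ : 0 < c₀)
    (hpos : PosIm c₀ (τ₀ + cone c (fun _ => (T₀ : ℂ) * I))) :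
    Tendsto (fun p : Matrix ι ι ℂ × (E → ℂ) => th a b (p.1 + cone c p.2) *
        cexp (-(π * I * ∑ e, p.2 e * (nd c a e : ℂ))))
      (𝓝 τ₀ ×ˢ ImInf E) (𝓝 (limTh c a b τ₀)) := by
  classical
  have hsum : ∀ p : Matrix ι ι ℂ × (E → ℂ), th a b (p.1 + cone c p.2) *
      cexp (-(π * I * ∑ e, p.2 e * (nd c a e : ℂ))) =
      ∑' n : ι → ℤ, thTerm a b (p.1 + cone c p.2) n *
        cexp (-(π * I * ∑ e, p.2 e * (nd c a e : ℂ))) := by
    intro p
    rw [th, tsum_mul_right]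
  rw [show (fun p : Matrix ι ι ℂ × (E → ℂ) => th a b (p.1 + cone c p.2) *
      cexp (-(π * I * ∑ e, p.2 e * (nd c a e : ℂ)))) = fun p =>
      ∑' n : ι → ℤ, thTerm a b (p.1 + cone c p.2) n *
        cexp (-(π * I * ∑ e, p.2 e * (nd c a e : ℂ))) from funext hsum]
  unfold limTh
  obtain ⟨δ, hδ, hnear⟩ := posIm_near hc₀ hpos
  refine tendsto_tsum_of_dominated_convergence
    (bound := fun n : ι → ℤ => Real.exp (π * ∑ e, T₀ * nd c a e) *
      Real.exp (-(π * (c₀ / 2) * ∑ i, ((n i : ℝ) + a i) ^ 2))) ?_ ?_ ?_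
  · exact (summable_gauss (mul_pos Real.pi_pos (half_pos hc₀)) a).mul_left _
  · intro n
    by_cases hn : n ∈ Surv c a
    · rw [if_pos hn]
      have h1 : (fun p : Matrix ι ι ℂ × (E → ℂ) => thTerm a b (p.1 + cone c p.2) n *
          cexp (-(π * I * ∑ e, p.2 e * (nd c a e : ℂ)))) = fun p => thTerm a b p.1 n := by
        funext p
        rw [ThLim_term]
        have h2 : ∑ e, p.2 e *
            (((∑ i, (c e i : ℝ) * ((n i : ℝ) + a i)) ^ 2 - nd c a e : ℝ) : ℂ) = 0 := by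
          refine Finset.sum_eq_zero fun e _ => ?_
          have h3 : (∑ i, (c e i : ℝ) * ((n i : ℝ) + a i)) ^ 2 = nd c a e := hn e
          rw [h3, sub_self]
          simp
        rw [h2, mul_zero, Complex.exp_zero, mul_one]
      rw [h1]
      exact ((ThLim_cont a b n).tendsto τ₀).comp tendsto_fst
    · rw [if_neg hn]
      have hn' : ∃ e₁, (∑ i, (c e₁ i : ℝ) * ((n i : ℝ) + a i)) ^ 2 ≠ nd c a e₁ := by
        by_contra hcon
        refine hn fun e => ?_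
        by_contra h4
        exact hcon ⟨e, h4⟩
      obtain ⟨e₁, he₁⟩ := hn'
      set κ : ℝ := (∑ i, (c e₁ i : ℝ) * ((n i : ℝ) + a i)) ^ 2 - nd c a e₁ with hκ
      have hκ0 : 0 < κ := sub_pos.2 (lt_of_le_of_ne (nd_le c a n e₁) he₁.symm)
      have hb : ∀ᶠ p : Matrix ι ι ℂ × (E → ℂ) in 𝓝 τ₀ ×ˢ ImInf E,
          ‖thTerm a b (p.1 + cone c p.2) n * cexp (-(π * I * ∑ e, p.2 e * (nd c a e : ℂ)))‖ ≤
            ‖thTerm a b p.1 n‖ * Real.exp (-(π * κ * (p.2 e₁).im)) := by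
        filter_upwards [(ThLim_ev E 0).prod_inr (𝓝 τ₀)] with p hp
        rw [ThLim_norm]
        refine mul_le_mul_of_nonneg_left (Real.exp_le_exp.2 (neg_le_neg ?_)) (norm_nonneg _)
        have h5 : (p.2 e₁).im * κ ≤ ∑ e, (p.2 e).im *
            ((∑ i, (c e i : ℝ) * ((n i : ℝ) + a i)) ^ 2 - nd c a e) := by
          rw [hκ]
          exact Finset.single_le_sum
            (f := fun e => (p.2 e).im *
              ((∑ i, (c e i : ℝ) * ((n i : ℝ) + a i)) ^ 2 - nd c a e))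
            (fun e _ => mul_nonneg (hp e) (sub_nonneg.2 (nd_le c a n e))) (Finset.mem_univ e₁)
        have h6 := mul_le_mul_of_nonneg_left h5 Real.pi_pos.le
        calc π * κ * (p.2 e₁).im = π * ((p.2 e₁).im * κ) := by ring
          _ ≤ _ := h6
      refine squeeze_zero_norm' hb ?_
      have h7 : Tendsto (fun p : Matrix ι ι ℂ × (E → ℂ) => (p.2 e₁).im)
          (𝓝 τ₀ ×ˢ ImInf E) atTop := by
        rw [tendsto_atTop]
        intro T
        filter_upwards [(ThLim_ev E T).prod_inr (𝓝 τ₀)] with p hp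
        exact hp e₁
      have h8 : Tendsto (fun p : Matrix ι ι ℂ × (E → ℂ) =>
          Real.exp (-(π * κ * (p.2 e₁).im))) (𝓝 τ₀ ×ˢ ImInf E) (𝓝 0) :=
        Real.tendsto_exp_neg_atTop_nhds_zero.comp
          (h7.const_mul_atTop (mul_pos Real.pi_pos hκ0))
      have h9 : Tendsto (fun p : Matrix ι ι ℂ × (E → ℂ) => ‖thTerm a b p.1 n‖)
          (𝓝 τ₀ ×ˢ ImInf E) (𝓝 ‖thTerm a b τ₀ n‖) :=
        (((ThLim_cont a b n).norm).tendsto τ₀).comp tendsto_fst
      have h10 := h9.mul h8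
      rw [mul_zero] at h10
      exact h10
  · have hA : ∀ᶠ τ : Matrix ι ι ℂ in 𝓝 τ₀, ‖τ - τ₀‖ < δ := by
      have h1 : Tendsto (fun τ : Matrix ι ι ℂ => ‖τ - τ₀‖) (𝓝 τ₀) (𝓝 ‖τ₀ - τ₀‖) :=
        ((continuous_id.sub continuous_const).norm).tendsto τ₀
      rw [sub_self, norm_zero] at h1
      exact h1.eventually (gt_mem_nhds hδ)
    filter_upwards [hA.prod_inl (ImInf E), (ThLim_ev E T₀).prod_inr (𝓝 τ₀)] with p h1 h2
    intro n
    rw [ThLim_norm]
    have h3 : PosIm (c₀ / 2) (p.1 + cone c (fun _ => (T₀ : ℂ) * I)) := by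
      refine hnear _ ?_
      have h4 : p.1 + cone c (fun _ => (T₀ : ℂ) * I) - (τ₀ + cone c (fun _ => (T₀ : ℂ) * I)) =
          p.1 - τ₀ := by abel
      rw [h4]
      exact h1
    have h5 := ThLim_norm c a b p.1 (fun _ => (T₀ : ℂ) * I) n
    have him : ((T₀ : ℂ) * I).im = T₀ := by simp
    simp only [him] at h5
    have h6 : ‖cexp (-(π * I * ∑ e, (T₀ : ℂ) * I * (nd c a e : ℂ)))‖ =
        Real.exp (π * ∑ e, T₀ * nd c a e) := by
      rw [Complex.norm_exp]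
      congr 1
      have h7 : -((π : ℂ) * I * ∑ e, (T₀ : ℂ) * I * (nd c a e : ℂ)) =
          ((π * ∑ e, T₀ * nd c a e : ℝ) : ℂ) := by
        push_cast
        rw [Finset.mul_sum, Finset.mul_sum, ← Finset.sum_neg_distrib]
        refine Finset.sum_congr rfl fun e _ => ?_
        have := Complex.I_mul_I
        linear_combination (-(π : ℂ) * T₀ * (nd c a e : ℂ)) * this
      rw [h7, Complex.ofReal_re]
    rw [norm_mul, h6] at h5
    calc ‖thTerm a b p.1 n‖ * Real.exp (-(π * ∑ e, (p.2 e).im *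
          ((∑ i, (c e i : ℝ) * ((n i : ℝ) + a i)) ^ 2 - nd c a e)))
        ≤ ‖thTerm a b p.1 n‖ * Real.exp (-(π * ∑ e, T₀ *
          ((∑ i, (c e i : ℝ) * ((n i : ℝ) + a i)) ^ 2 - nd c a e))) := by
          refine mul_le_mul_of_nonneg_left (Real.exp_le_exp.2 (neg_le_neg ?_)) (norm_nonneg _)
          refine mul_le_mul_of_nonneg_left (Finset.sum_le_sum fun e _ => ?_) Real.pi_pos.le
          exact mul_le_mul_of_nonneg_right (h2 e) (sub_nonneg.2 (nd_le c a n e))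
      _ = ‖thTerm a b (p.1 + cone c fun _ => (T₀ : ℂ) * I) n‖ *
          Real.exp (π * ∑ e, T₀ * nd c a e) := h5.symm
      _ ≤ Real.exp (-(π * (c₀ / 2) * ∑ i, ((n i : ℝ) + a i) ^ 2)) *
          Real.exp (π * ∑ e, T₀ * nd c a e) :=
          mul_le_mul_of_nonneg_right (norm_thTerm_le a b h3 n) (Real.exp_pos _).le
      _ = _ := mul_comm _ _

end SlopeB
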