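import Pool.Agent.Lib.SlopeB.Defs
import Pool.Agent.Lib.SlopeB.ThLim
import Pool.Agent.Lib.MP_6febbd_ag.ThT

/-!
# Integral translations of the characteristic in the limit

PROOF. By `th_period` `th (a + p) (b + q) τ = exp(2πi a·q) th a b τ` for all `τ`, and
`nd c (a + p) e = nd c a e` because `∑ c_e i p_i` is an integer (`round_add_intCast`). So both
functions in `th_limit` differ by the constant factor `exp(2πi a·q)`, and the limits are unique
(`tendsto_nhds_unique`; the filter `𝓝 τ₀ ×ˢ ImInf E` is not `⊥`: `ImInf E` is the comap of `atTop`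
under the surjective map `t ↦ (Im t_e)`, `Filter.comap_neBot_iff`/`Filter.NeBot.comap_of_surj`;
`E → ℝ` is directed and nonempty).
-/

set_option autoImplicit false

open scoped Matrix.Norms.Elementwise Real Topology
open Complex Matrix MP6feb Filter

noncomputable section

namespace SlopeB

theorem imInf_neBot (E : Type) : (ImInf E).NeBot := by
  unfold ImInf
  have h : Function.Surjective (fun (t : E → ℂ) (e : E) => (t e).im) := by
    intro s
    refine ⟨fun e => (s e : ℂ) * I, ?_⟩
    funext e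
    simp
  exact Filter.NeBot.comap_of_surj inferInstance h

private theorem nd_period {ι E : Type} [Fintype ι] (c : E → ι → ℤ) (a : ι → ℝ) (p : ι → ℤ)
    (e : E) : nd c (fun i => a i + (p i : ℝ)) e = nd c a e := by
  unfold nd
  have h : ∑ i, (c e i : ℝ) * (a i + (p i : ℝ)) =
      (∑ i, (c e i : ℝ) * a i) + ((∑ i, c e i * p i : ℤ) : ℝ) := by
    push_cast
    rw [← Finset.sum_add_distrib]
    refine Finset.sum_congr rfl fun i _ => ?_
    ring
  rw [h, round_add_intCast]
  push_cast
  ring

theorem limTh_period {ι E : Type} [Fintype ι] [Fintype E] (c : E → ι → ℤ) (a b : ι → ℝ)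
    (p q : ι → ℤ) {τ₀ : Matrix ι ι ℂ} {c₀ T₀ : ℝ} (hc₀ : 0 < c₀)
    (hpos : PosIm c₀ (τ₀ + cone c (fun _ => (T₀ : ℂ) * I))) :
    limTh c (fun i => a i + (p i : ℝ)) (fun i => b i + (q i : ℝ)) τ₀ =
      cexp (2 * π * I * ∑ i, (a i : ℂ) * (q i : ℂ)) * limTh c a b τ₀ := by
  haveI := imInf_neBot E
  have h1 := th_limit c (fun i => a i + (p i : ℝ)) (fun i => b i + (q i : ℝ)) hc₀ hpos
  have h2 := (th_limit c a b hc₀ hpos).const_mul
    (cexp (2 * π * I * ∑ i, (a i : ℂ) * (q i : ℂ)))
  refine tendsto_nhds_unique h1 (h2.congr fun x => ?_)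
  simp only [nd_period]
  rw [th_period, ← mul_assoc]

end SlopeB
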