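import Pool.Agent.Lib.SlopeB.Defs
import Pool.Agent.Lib.MP_6febbd_ag.ThC

/-!
# Positivity for large cone parameters
-/

set_option autoImplicit false

open scoped Matrix.Norms.Elementwise Real Topology
open Complex Matrix MP6feb Filter

noncomputable section

namespace SlopeB

private theorem PosB_bil {ι κ : Type} [Fintype ι] [Fintype κ] {K : ℝ} (M : ι → κ → ℝ)
    (hM : ∀ i j, |M i j| ≤ K) (x : ι → ℝ) (y : κ → ℝ) :
    |∑ i, ∑ j, x i * M i j * y j| ≤ K * ((∑ i, |x i|) * ∑ j, |y j|) := by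
  refine (Finset.abs_sum_le_sum_abs _ _).trans ?_
  rw [Finset.sum_mul_sum, Finset.mul_sum]
  refine Finset.sum_le_sum fun i _ => ?_
  refine (Finset.abs_sum_le_sum_abs _ _).trans ?_
  rw [Finset.mul_sum]
  refine Finset.sum_le_sum fun j _ => ?_
  rw [abs_mul, abs_mul]
  calc |x i| * |M i j| * |y j| ≤ |x i| * K * |y j| := by
        gcongr
        exact hM i j
    _ = K * (|x i| * |y j|) := by ring

private theorem PosB_sq {ι : Type} [Fintype ι] (x : ι → ℝ) :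
    (∑ i, |x i|) ^ 2 ≤ Fintype.card ι * ∑ i, x i ^ 2 := by
  have h4 := sq_sum_le_card_mul_sum_sq (s := Finset.univ) (f := fun i => |x i|)
  simpa only [sq_abs, Finset.card_univ] using h4

/-- the real matrix of the functionals has trivial kernel -/
private theorem PosB_inj {b : ℕ} {E : Type} [Fintype E] (c : E → Fin b → ℤ)
    (hsp : ∀ h : Fin b → ℤ, (∀ e, ∑ i, c e i * h i = 0) → h = 0) (v : Fin b → ℝ)
    (hv : ∀ e, ∑ i, (c e i : ℝ) * v i = 0) : v = 0 := by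
  set C : Matrix E (Fin b) ℤ := Matrix.of c with hC
  have hdet : (Cᵀ * C).det ≠ 0 := by
    intro h0
    obtain ⟨w, hw, hw0⟩ := Matrix.exists_mulVec_eq_zero_iff.2 h0
    apply hw
    apply hsp
    have h1 : (C *ᵥ w) ⬝ᵥ (C *ᵥ w) = 0 := by
      have h2 : w ⬝ᵥ ((Cᵀ * C) *ᵥ w) = 0 := by rw [hw0, dotProduct_zero]
      rw [← Matrix.mulVec_mulVec, Matrix.dotProduct_mulVec, Matrix.vecMul_transpose] at h2
      exact h2
    intro e
    have h3 : ∑ e, (C *ᵥ w) e * (C *ᵥ w) e = 0 := h1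
    have h4 := (Finset.sum_eq_zero_iff_of_nonneg (fun e _ => mul_self_nonneg _)).1 h3 e
      (Finset.mem_univ e)
    have h5 : (C *ᵥ w) e = 0 := mul_self_eq_zero.1 h4
    exact h5
  have hdetR : ((Cᵀ * C).map (Int.cast : ℤ → ℝ)).det ≠ 0 := by
    have h1 : ((Cᵀ * C).map (Int.cast : ℤ → ℝ)).det = (((Cᵀ * C).det : ℤ) : ℝ) := by
      have h2 := RingHom.map_det (Int.castRingHom ℝ) (Cᵀ * C)
      exact h2.symm
    rw [h1]
    exact_mod_cast hdet
  by_contra hne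
  apply hdetR
  apply Matrix.exists_mulVec_eq_zero_iff.1
  refine ⟨v, hne, ?_⟩
  have h1 : (Cᵀ * C).map (Int.cast : ℤ → ℝ) =
      (C.map (Int.cast : ℤ → ℝ))ᵀ * C.map (Int.cast : ℤ → ℝ) := by
    ext i j
    simp only [Matrix.map_apply, Matrix.mul_apply, Matrix.transpose_apply]
    push_cast
    rfl
  rw [h1, ← Matrix.mulVec_mulVec]
  have h2 : C.map (Int.cast : ℤ → ℝ) *ᵥ v = 0 := by
    funext e
    exact hv e
  rw [h2, Matrix.mulVec_zero]

private theorem PosB_Q {b : ℕ} {E : Type} [Fintype E] (c : E → Fin b → ℤ)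
    (hsp : ∀ h : Fin b → ℤ, (∀ e, ∑ i, c e i * h i = 0) → h = 0) :
    ∃ c₁ : ℝ, 0 < c₁ ∧ ∀ v : Fin b → ℝ,
      c₁ * ∑ i, v i ^ 2 ≤ ∑ e, (∑ i, (c e i : ℝ) * v i) ^ 2 := by
  classical
  set A : Matrix E (Fin b) ℝ := Matrix.of (fun e i => (c e i : ℝ)) with hA
  have hinj : Function.Injective A.mulVec := by
    intro v w hvw
    have h1 : v - w = 0 := by
      apply PosB_inj c hsp
      intro e
      have h2 : (A *ᵥ v) e = (A *ᵥ w) e := congrFun hvw e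
      have h3 : ∑ i, (c e i : ℝ) * v i = ∑ i, (c e i : ℝ) * w i := h2
      have h4 : ∑ i, (c e i : ℝ) * (v - w) i =
          ∑ i, (c e i : ℝ) * v i - ∑ i, (c e i : ℝ) * w i := by
        rw [← Finset.sum_sub_distrib]
        refine Finset.sum_congr rfl fun i _ => ?_
        rw [Pi.sub_apply]
        ring
      rw [h4, h3, sub_self]
    exact sub_eq_zero.1 h1
  have hpd : (Aᴴ * A).PosDef := Matrix.PosDef.conjTranspose_mul_self A hinj
  have hS : (Aᴴ * A).map (fun r : ℝ => (r : ℂ) * I) ∈ Siegel b := by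
    refine ⟨?_, ?_⟩
    · have h1 : (Aᴴ * A).IsSymm := by
        have h2 := hpd.isHermitian
        have h3 : (Aᴴ * A)ᴴ = (Aᴴ * A) := h2
        unfold Matrix.IsSymm
        rw [← h3]
        ext i j
        simp [Matrix.conjTranspose_apply, Matrix.transpose_apply]
      unfold Matrix.IsSymm
      ext i j
      have := congrFun (congrFun h1 i) j
      simp only [Matrix.transpose_apply, Matrix.map_apply] at this ⊢
      rw [this]
    · have h1 : ((Aᴴ * A).map (fun r : ℝ => (r : ℂ) * I)).map Complex.im = Aᴴ * A := by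
        ext i j
        simp [Matrix.map_apply]
      rw [h1]
      exact hpd
  obtain ⟨c₁, hc₁, hP⟩ := exists_posIm hS
  refine ⟨c₁, hc₁, fun v => (hP v).trans (le_of_eq ?_)⟩
  have h1 : ∀ i j, ((Aᴴ * A).map (fun r : ℝ => (r : ℂ) * I) i j).im =
      ∑ e, (c e i : ℝ) * (c e j : ℝ) := by
    intro i j
    simp [Matrix.map_apply, Matrix.mul_apply, hA]
  simp only [h1]
  have h2 : ∀ i j, v i * (∑ e, (c e i : ℝ) * (c e j : ℝ)) * v j =
      ∑ e, ((c e i : ℝ) * v i) * ((c e j : ℝ) * v j) := by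
    intro i j
    rw [Finset.mul_sum, Finset.sum_mul]
    refine Finset.sum_congr rfl fun e _ => ?_
    ring
  simp only [h2]
  have h3 : ∀ i, ∑ j, ∑ e, ((c e i : ℝ) * v i) * ((c e j : ℝ) * v j) =
      ∑ e, ∑ j, ((c e i : ℝ) * v i) * ((c e j : ℝ) * v j) := fun i => Finset.sum_comm
  simp only [h3]
  rw [Finset.sum_comm]
  refine Finset.sum_congr rfl fun e _ => ?_
  rw [pow_two, Finset.sum_mul_sum]

theorem exists_posIm_cone {b g' : ℕ} {E : Type} [Fintype E] (c : E → Fin b → ℤ)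
    (hsp : ∀ h : Fin b → ℤ, (∀ e, ∑ i, c e i * h i = 0) → h = 0)
    {τ₀ : Matrix (Fin (b + g')) (Fin (b + g')) ℂ}
    (h2 : τ₀.submatrix (Fin.natAdd b) (Fin.natAdd b) ∈ Siegel g') :
    ∃ c₀ T₀ : ℝ, 0 < c₀ ∧ 0 ≤ T₀ ∧
      PosIm c₀ (τ₀ + cone (fun e => Fin.append (c e) (fun _ : Fin g' => (0 : ℤ)))
        (fun _ => (T₀ : ℂ) * I)) := by
  obtain ⟨c₁, hc₁, hQ⟩ := PosB_Q c hsp
  obtain ⟨c₂, hc₂, hP⟩ := exists_posIm h2
  obtain ⟨K, hK, hKb⟩ : ∃ K : ℝ, 0 < K ∧ ∀ i j, |(τ₀ i j).im| ≤ K := by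
    refine ⟨1 + ∑ i, ∑ j, |(τ₀ i j).im|, by positivity, fun i j => ?_⟩
    have h3 : |(τ₀ i j).im| ≤ ∑ j, |(τ₀ i j).im| :=
      Finset.single_le_sum (f := fun j => |(τ₀ i j).im|) (fun j _ => abs_nonneg _)
        (Finset.mem_univ j)
    have h4 : ∑ j, |(τ₀ i j).im| ≤ ∑ i, ∑ j, |(τ₀ i j).im| :=
      Finset.single_le_sum (f := fun i => ∑ j, |(τ₀ i j).im|)
        (fun i _ => Finset.sum_nonneg fun j _ => abs_nonneg _) (Finset.mem_univ i)
    linarith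
  set M : ℝ := 2 * K ^ 2 * (g' + 1) / c₂ with hM
  have hMpos : 0 < M := by positivity
  set T₀ : ℝ := ((K + M) * b + c₂ / 2) / c₁ with hT
  have hT0 : 0 ≤ T₀ := by positivity
  refine ⟨c₂ / 2, T₀, by positivity, hT0, fun v => ?_⟩
  -- the parts of the vector
  set x : Fin b → ℝ := fun i => v (Fin.castAdd g' i) with hx
  set y : Fin g' → ℝ := fun j => v (Fin.natAdd b j) with hy
  have hsum : ∑ i, v i ^ 2 = ∑ i, x i ^ 2 + ∑ j, y j ^ 2 := by
    rw [Fin.sum_univ_add]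
  have him : ∀ i j, ((τ₀ + cone (fun e => Fin.append (c e) (fun _ : Fin g' => (0 : ℤ)))
      (fun _ => (T₀ : ℂ) * I)) i j).im = (τ₀ i j).im +
      T₀ * ∑ e, ((Fin.append (c e) (fun _ : Fin g' => (0 : ℤ)) i : ℤ) : ℝ) *
        ((Fin.append (c e) (fun _ : Fin g' => (0 : ℤ)) j : ℤ) : ℝ) := by
    intro i j
    rw [Matrix.add_apply, Complex.add_im]
    congr 1
    unfold cone
    rw [Matrix.sum_apply, Complex.im_sum, Finset.mul_sum]
    refine Finset.sum_congr rfl fun e _ => ?_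
    rw [Matrix.smul_apply, Matrix.of_apply, smul_eq_mul]
    have h3 : (T₀ : ℂ) * I * (((Fin.append (c e) (fun _ : Fin g' => (0 : ℤ)) i : ℤ) : ℂ) *
        ((Fin.append (c e) (fun _ : Fin g' => (0 : ℤ)) j : ℤ) : ℂ)) =
        ((T₀ * (((Fin.append (c e) (fun _ : Fin g' => (0 : ℤ)) i : ℤ) : ℝ) *
        ((Fin.append (c e) (fun _ : Fin g' => (0 : ℤ)) j : ℤ) : ℝ)) : ℝ) : ℂ) * I := by
      push_cast
      ring
    rw [h3, Complex.im_ofReal_mul, Complex.I_im, mul_one]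
  simp only [him]
  have hsplit : ∑ i, ∑ j, v i * ((τ₀ i j).im +
      T₀ * ∑ e, ((Fin.append (c e) (fun _ : Fin g' => (0 : ℤ)) i : ℤ) : ℝ) *
        ((Fin.append (c e) (fun _ : Fin g' => (0 : ℤ)) j : ℤ) : ℝ)) * v j =
      ∑ i, ∑ j, v i * (τ₀ i j).im * v j + T₀ * ∑ e, (∑ i, (c e i : ℝ) * x i) ^ 2 := by
    have h3 : ∀ e, ∑ i, ((Fin.append (c e) (fun _ : Fin g' => (0 : ℤ)) i : ℤ) : ℝ) * v i =
        ∑ i, (c e i : ℝ) * x i := by
      intro e
      rw [Fin.sum_univ_add]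
      simp [hx]
    have h4 : T₀ * ∑ e, (∑ i, (c e i : ℝ) * x i) ^ 2 =
        ∑ i, ∑ j, v i * (T₀ * ∑ e, ((Fin.append (c e) (fun _ : Fin g' => (0 : ℤ)) i : ℤ) : ℝ) *
        ((Fin.append (c e) (fun _ : Fin g' => (0 : ℤ)) j : ℤ) : ℝ)) * v j := by
      have h5 : ∀ e, (∑ i, (c e i : ℝ) * x i) ^ 2 =
          ∑ i, ∑ j, (((Fin.append (c e) (fun _ : Fin g' => (0 : ℤ)) i : ℤ) : ℝ) * v i) *
            (((Fin.append (c e) (fun _ : Fin g' => (0 : ℤ)) j : ℤ) : ℝ) * v j) := by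
        intro e
        rw [← h3 e, pow_two, Finset.sum_mul_sum]
      simp only [h5]
      rw [Finset.mul_sum, Finset.sum_congr rfl fun e _ => Finset.mul_sum _ _ _,
        Finset.sum_comm]
      refine Finset.sum_congr rfl fun i _ => ?_
      rw [Finset.sum_congr rfl fun e _ => Finset.mul_sum _ _ _, Finset.sum_comm]
      refine Finset.sum_congr rfl fun j _ => ?_
      rw [Finset.mul_sum, Finset.mul_sum, Finset.sum_mul]
      refine Finset.sum_congr rfl fun e _ => ?_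
      ring
    rw [h4, ← Finset.sum_add_distrib]
    refine Finset.sum_congr rfl fun i _ => ?_
    rw [← Finset.sum_add_distrib]
    refine Finset.sum_congr rfl fun j _ => ?_
    ring
  rw [hsplit, hsum]
  have hblock : ∑ i, ∑ j, v i * (τ₀ i j).im * v j =
      ∑ i, ∑ j, x i * (τ₀ (Fin.castAdd g' i) (Fin.castAdd g' j)).im * x j +
      ∑ i, ∑ j, x i * (τ₀ (Fin.castAdd g' i) (Fin.natAdd b j)).im * y j +
      ∑ i, ∑ j, y i * (τ₀ (Fin.natAdd b i) (Fin.castAdd g' j)).im * x j +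
      ∑ i, ∑ j, y i * (τ₀ (Fin.natAdd b i) (Fin.natAdd b j)).im * y j := by
    rw [Fin.sum_univ_add]
    simp only [Fin.sum_univ_add, Finset.sum_add_distrib]
    ring
  rw [hblock]
  set s := ∑ i, |x i| with hs
  set t := ∑ j, |y j| with ht
  have hs0 : 0 ≤ s := Finset.sum_nonneg fun i _ => abs_nonneg _
  have ht0 : 0 ≤ t := Finset.sum_nonneg fun i _ => abs_nonneg _
  have e1 := abs_le.1 (PosB_bil (K := K)
    (fun i j => (τ₀ (Fin.castAdd g' i) (Fin.castAdd g' j)).im) (fun i j => hKb _ _) x x)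
  have e2 := abs_le.1 (PosB_bil (K := K)
    (fun i j => (τ₀ (Fin.castAdd g' i) (Fin.natAdd b j)).im) (fun i j => hKb _ _) x y)
  have e3 := abs_le.1 (PosB_bil (K := K)
    (fun i j => (τ₀ (Fin.natAdd b i) (Fin.castAdd g' j)).im) (fun i j => hKb _ _) y x)
  have e4 : c₂ * ∑ j, y j ^ 2 ≤
      ∑ i, ∑ j, y i * (τ₀ (Fin.natAdd b i) (Fin.natAdd b j)).im * y j := hP y
  have e5 := hQ x
  have e6 : s ^ 2 ≤ b * ∑ i, x i ^ 2 := by
    have := PosB_sq x
    rwa [Fintype.card_fin] at this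
  have e7 : t ^ 2 ≤ g' * ∑ j, y j ^ 2 := by
    have := PosB_sq y
    rwa [Fintype.card_fin] at this
  have hX : 0 ≤ ∑ i, x i ^ 2 := Finset.sum_nonneg fun i _ => sq_nonneg _
  have hY : 0 ≤ ∑ j, y j ^ 2 := Finset.sum_nonneg fun i _ => sq_nonneg _
  rw [← hs] at e1 e2 e3
  rw [← ht] at e2 e3
  have hg1 : (0 : ℝ) < g' + 1 := by positivity
  have e8 : 2 * (K * (s * t)) ≤ c₂ / (2 * (g' + 1)) * t ^ 2 + M * s ^ 2 := by
    have h3 : 0 ≤ c₂ / (2 * (g' + 1)) * (t - 2 * (g' + 1) * K / c₂ * s) ^ 2 := by positivity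
    have h4 : c₂ / (2 * (g' + 1)) * (t - 2 * (g' + 1) * K / c₂ * s) ^ 2 =
        c₂ / (2 * (g' + 1)) * t ^ 2 + M * s ^ 2 - 2 * (K * (s * t)) := by
      rw [hM]
      field_simp
      ring
    linarith
  have e9 : c₂ / (2 * (g' + 1)) * t ^ 2 ≤ c₂ / 2 * ∑ j, y j ^ 2 := by
    calc c₂ / (2 * (g' + 1)) * t ^ 2 ≤ c₂ / (2 * (g' + 1)) * ((g' + 1) * ∑ j, y j ^ 2) := by
          gcongr
          nlinarith
      _ = c₂ / 2 * ∑ j, y j ^ 2 := by field_simp
  have e10 : (K + M) * s ^ 2 ≤ (K + M) * (b * ∑ i, x i ^ 2) := by gcongr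
  have e11 : T₀ * (c₁ * ∑ i, x i ^ 2) ≤ T₀ * ∑ e, (∑ i, (c e i : ℝ) * x i) ^ 2 :=
    mul_le_mul_of_nonneg_left e5 hT0
  have e12 : T₀ * (c₁ * ∑ i, x i ^ 2) = ((K + M) * b + c₂ / 2) * ∑ i, x i ^ 2 := by
    rw [hT]
    field_simp
  have e13 : K * (t * s) = K * (s * t) := by ring
  have e14 : K * (s * s) = K * s ^ 2 := by ring
  rw [e13] at e3
  rw [e14] at e1
  nlinarith [e1.1, e2.1, e3.1]

end SlopeB
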