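import Pool.Agent.Lib.SlopeB.Defs
import Pool.Agent.Lib.MP_6febbd_ag.Fam
import Pool.Agent.Lib.MP_6febbd_ag.ThH
import Pool.Agent.Lib.MP_6febbd_ag.SpA
import Pool.Agent.Lib.MP_6febbd_ag.SpS
import Pool.Agent.Lib.MP_6febbd_ag.SpG

/-!
# Weighted power sums are level one Siegel forms

PROOF. This is `MP_6febbd_ag/Fam.lean` with weights; copy it and adapt. `mem_famW`: unfold,
`Finset.mem_filter`, `Finset.mem_piAntidiag` (the first part of `InW` is the membership in
`piAntidiag`, supports in `univ` are automatic).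
`Pw_gen`: let `e` be the permutation of `move_gen hn hs`. The map `w ↦ (fun y => w (e.symm y))` is a
permutation of `famW g n W`: `∑_y w (e.symm y) Bf (lc n c y) = ∑_x w x Bf (lc n c (e x))
= ∑_x w x Bf (lc n d x) ≥ 0` (`Equiv.sum_comp`), it is injective, hence surjective on the finite
family. For `w` in the family `∏_x TX n x (act s τ) ^ w x = ∏_x (det^(12n²) TX n (e x) τ)^(w x)
= det^(12 n² W) ∏_y TX n y τ ^ (w (e.symm y))` (`Finset.prod_pow_eq_pow_sum`, `Equiv.prod_comp`).
`Pw_gam`, `Pw_form`: word for word as `Pj_gam`, `Pj_form`.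
-/

set_option autoImplicit false

open scoped Matrix.Norms.Elementwise Real Topology
open Complex Matrix MP6feb Filter

noncomputable section

namespace SlopeB

theorem mem_famW {g n W : ℕ} [NeZero n] {w : (Fin g ⊕ Fin g → ZMod n) → ℕ} :
    w ∈ famW g n W ↔ InW g n W w := by
  classical
  unfold famW
  rw [Finset.mem_filter, Finset.mem_piAntidiag]
  refine ⟨fun h => h.2, fun h => ⟨⟨h.1, fun i _ => Finset.mem_univ i⟩, h⟩⟩

theorem Pw_gen {g n W j : ℕ} [NeZero n] (hn : Even n)
    {s : Matrix (Fin g ⊕ Fin g) (Fin g ⊕ Fin g) ℤ} (hs : IsGen g s)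
    {τ : Matrix (Fin g) (Fin g) ℂ} (hτ : τ ∈ Siegel g) :
    Pw g n W j (act s τ) = (den s τ).det ^ (12 * (n ^ 2 * W * j)) * Pw g n W j τ := by
  obtain ⟨e, he1, he2⟩ := move_gen hn hs
  have hmem : ∀ w ∈ famW g n W, (fun y => w (e.symm y)) ∈ famW g n W := by
    intro w hw
    rw [mem_famW] at hw ⊢
    refine ⟨by rw [Equiv.sum_comp e.symm w]; exact hw.1, fun c hc => ?_⟩
    obtain ⟨d, hd, hcd⟩ := he2 c hc
    have h1 : ∑ y, (w (e.symm y) : ℝ) * Bf (lc n c y) = ∑ x, (w x : ℝ) * Bf (lc n d x) := by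
      rw [← Equiv.sum_comp e]
      refine Finset.sum_congr rfl fun x _ => ?_
      rw [e.symm_apply_apply, hcd x]
    beta_reduce
    rw [h1]
    exact hw.2 d hd
  have hinj : Set.InjOn (fun (w : (Fin g ⊕ Fin g → ZMod n) → ℕ) => fun y => w (e.symm y))
      (famW g n W) := by
    intro w _ w' _ h
    funext x
    have h2 := congrFun h (e x)
    simpa using h2
  have hsurj : Set.SurjOn (fun (w : (Fin g ⊕ Fin g → ZMod n) → ℕ) => fun y => w (e.symm y))
      (famW g n W) (famW g n W) :=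
    Finset.surjOn_of_injOn_of_card_le _ (fun w hw => hmem w hw) hinj le_rfl
  unfold Pw
  rw [Finset.mul_sum]
  refine Finset.sum_nbij (fun w => fun y => w (e.symm y)) hmem hinj hsurj fun w hw => ?_
  have h1 : ∏ x, TX n x (act s τ) ^ w x =
      (den s τ).det ^ (12 * (n ^ 2 * W)) * ∏ y, TX n y τ ^ w (e.symm y) := by
    rw [← Equiv.prod_comp e fun y => TX n y τ ^ w (e.symm y)]
    have h2 : ∀ x, TX n x (act s τ) ^ w x =
        ((den s τ).det ^ (12 * n ^ 2)) ^ w x * TX n (e x) τ ^ w (e.symm (e x)) := by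
      intro x
      rw [he1 x τ hτ, mul_pow, e.symm_apply_apply]
    rw [Finset.prod_congr rfl fun x _ => h2 x, Finset.prod_mul_distrib,
      Finset.prod_pow_eq_pow_sum, (mem_famW.mp hw).1, ← pow_mul]
    congr 2
    ring
  rw [h1, mul_pow, ← pow_mul]
  congr 2
  ring

theorem Pw_gam {g n W j : ℕ} [NeZero n] (hn : Even n)
    {γ : Matrix (Fin g ⊕ Fin g) (Fin g ⊕ Fin g) ℤ} (hγ : γ ∈ Gam g)
    {τ : Matrix (Fin g) (Fin g) ℂ} (hτ : τ ∈ Siegel g) :
    Pw g n W j (act γ τ) = (den γ τ).det ^ (12 * (n ^ 2 * W * j)) * Pw g n W j τ := by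
  induction hγ using Submonoid.closure_induction generalizing τ with
  | mem s hs => exact Pw_gen hn hs hτ
  | one => rw [act_one, den_one, Matrix.det_one, one_pow, one_mul]
  | mul γ₂ γ h₂ h₁ ih₂ ih₁ =>
    have hs := act_mem_siegel (gam_le h₁) hτ
    rw [act_mul _ _ _ hs.2, den_mul _ _ _ hs.2, ih₂ hs.1, ih₁ hτ, Matrix.det_mul, mul_pow]
    ring

private lemma WFam_diffOn_prod {E α : Type} [NormedAddCommGroup E] [NormedSpace ℂ E]
    {s : Set E} (u : Finset α) (f : α → E → ℂ) (h : ∀ i ∈ u, DifferentiableOn ℂ (f i) s) :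
    DifferentiableOn ℂ (fun x => ∏ i ∈ u, f i x) s := by
  classical
  induction u using Finset.induction_on with
  | empty => simp only [Finset.prod_empty]; exact differentiableOn_const 1
  | insert a u ha ih =>
    simp only [Finset.prod_insert ha]
    exact (h a (Finset.mem_insert_self a u)).mul
      (ih fun i hi => h i (Finset.mem_insert_of_mem hi))

theorem Pw_form {g n W j : ℕ} [NeZero n] (hn : Even n) :
    IsSiegelForm g (12 * (n ^ 2 * W * j)) (Pw g n W j) := by
  refine ⟨?_, fun γ hγ τ hτ => Pw_gam hn (symplectic_le hγ) hτ⟩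
  have hP : Pw g n W j = fun τ => ∑ w ∈ famW g n W,
      (∏ x, (thx n x τ ^ (24 * n ^ 2)) ^ w x) ^ j := rfl
  rw [hP]
  refine DifferentiableOn.fun_sum fun w _ => ?_
  have h1 : DifferentiableOn ℂ (fun τ => ∏ x, (thx n x τ ^ (24 * n ^ 2)) ^ w x) (Siegel g) :=
    WFam_diffOn_prod Finset.univ _ fun x _ =>
      DifferentiableOn.fun_pow (DifferentiableOn.fun_pow (th_differentiableOn _ _) _) _
  exact DifferentiableOn.fun_pow h1 _

end SlopeB
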