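import Pool.Agent.Lib.SlopeB.Defs
import Pool.Agent.Lib.SlopeB.WFam
import Pool.Agent.Lib.SlopeB.ThLim
import Pool.Agent.Lib.MP_6febbd_ag.Mv0
import Pool.Agent.Lib.MP_6febbd_ag.PowS

/-!
# The limit of the weighted power sums

PROOF. `N = n`. For `x` let `a_x i = (x (inl i)).val / n`, `b_x i = (x (inr i)).val / n`, so
`TX n x τ = th a_x b_x τ ^ (24 n²)`, and let `Λ x = limTh c a_x b_x τ₀`. By `th_limit` (power `24 n² w x`,
`Tendsto.pow`, `tendsto_finset_prod`) for every `w`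
`(∏_x TX n x (τ' + cone c t) ^ w x) * cexp(-(πI ∑_x 24 n² w x ∑_e t_e nd c a_x e)) →
∏_x Λ x ^ (24 n² w x)`.
`nd c a_x e = Bf (lc n (Sum.elim (c e) 0) x) + 1/12` (as `hlc` in `MP_6febbd_ag/Cusp.lean`). Put
`k_e = ∑_x w x Bf (lc n (Sum.elim (c e) 0) x)`; for `w` in the family `k_e ≥ 0` (by `hodd`), and
`∑_x w x nd c a_x e = k_e + W/12`. Hence
`(∏_x TX^w x) * cexp(-(2πI n² W ∑ t_e)) = [(∏ TX^w x) cexp(-(πI 24 n² ∑_e t_e (k_e + W/12)))] *
cexp(2πI 12 n² ∑_e t_e k_e)`, the last factor is `1` if all `k_e = 0` and tends to `0` if some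
`k_e > 0` (its norm is `exp(-2π 12 n² ∑ Im t_e k_e)`, at most `exp(-24π n² k_{e₁} Im t_{e₁})` when all
`Im t_e ≥ 0`). So it tends to `V w := ∏ Λ x ^ (24 n² w x)` if all `k_e = 0`, and to `V w := 0`
otherwise. `Pw g n W j (..) * cexp(-(2πI n² W j ∑ t_e)) = ∑_w ((∏ TX^w x) cexp(-(2πI n² W ∑ t_e)))^j →
∑_w (V w)^j`. For `w₀` in the family, tight, with `Λ x ≠ 0` on the support, `V w₀ ≠ 0`
(`Λ x ^ 0 = 1` off the support), and `power_sum_ne` gives `j ≥ 1` with a nonzero limit.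
-/

set_option autoImplicit false

open scoped Matrix.Norms.Elementwise Real Topology
open Complex Matrix MP6feb Filter

noncomputable section

namespace SlopeB

private def pwA {g : ℕ} (n : ℕ) (x : Fin g ⊕ Fin g → ZMod n) : Fin g → ℝ :=
  fun i => ((x (Sum.inl i)).val : ℝ) / n

private def pwB {g : ℕ} (n : ℕ) (x : Fin g ⊕ Fin g → ZMod n) : Fin g → ℝ :=
  fun i => ((x (Sum.inr i)).val : ℝ) / n

private theorem pw_nd {g n : ℕ} {E : Type} (c : E → Fin g → ℤ)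
    (x : Fin g ⊕ Fin g → ZMod n) (e : E) :
    nd c (pwA n x) e = Bf (lc n (Sum.elim (c e) (fun _ => 0)) x) + 1 / 12 := by
  have hlc : lc n (Sum.elim (c e) (fun _ => 0)) x =
      ∑ i, (c e i : ℝ) * (((x (Sum.inl i)).val : ℝ) / n) := by
    unfold lc
    rw [Fintype.sum_sum_type]
    simp only [Sum.elim_inl, Sum.elim_inr, Int.cast_zero, zero_mul, mul_zero,
      Finset.sum_const_zero, add_zero, zero_div]
    rw [Finset.sum_div]
    exact Finset.sum_congr rfl fun i _ => by ring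
  unfold Bf nd pwA
  rw [hlc]
  ring

private theorem pw_ev (E : Type) (T : ℝ) : ∀ᶠ t in ImInf E, ∀ e, T ≤ (t e).im := by
  have h := (Filter.eventually_ge_atTop (fun _ : E => T)).comap
    (fun (t : E → ℂ) (e : E) => (t e).im)
  exact h

/-- the exponential factor tends to zero if some exponent is positive -/
private theorem pw_exp {X E : Type} [Fintype E] (F : Filter X) {K : ℝ} (hK : 0 < K)
    (k : E → ℝ) (hk : ∀ e, 0 ≤ k e) (hk1 : ∃ e, k e ≠ 0) :
    Tendsto (fun p : X × (E → ℂ) => cexp (K * π * I * ∑ e, p.2 e * (k e : ℂ)))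
      (F ×ˢ ImInf E) (𝓝 0) := by
  obtain ⟨e₁, he₁⟩ := hk1
  have hke : 0 < k e₁ := lt_of_le_of_ne (hk e₁) he₁.symm
  have hb : ∀ᶠ p : X × (E → ℂ) in F ×ˢ ImInf E,
      ‖cexp (K * π * I * ∑ e, p.2 e * (k e : ℂ))‖ ≤
        Real.exp (-(K * π * k e₁ * (p.2 e₁).im)) := by
    filter_upwards [(pw_ev E 0).prod_inr F] with p hp
    rw [Complex.norm_exp]
    have h1 : (K * π * I * ∑ e, p.2 e * (k e : ℂ)).re =
        -(K * π * ∑ e, (p.2 e).im * k e) := by
      have h2 : (∑ e, p.2 e * (k e : ℂ)).im = ∑ e, (p.2 e).im * k e := by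
        rw [Complex.im_sum]
        refine Finset.sum_congr rfl fun e _ => ?_
        rw [Complex.im_mul_ofReal]
      have h3 : (K * π * I * ∑ e, p.2 e * (k e : ℂ)) =
          ((K * π : ℝ) : ℂ) * (I * ∑ e, p.2 e * (k e : ℂ)) := by
        push_cast
        ring
      rw [h3, Complex.re_ofReal_mul, Complex.I_mul_re, h2]
      ring
    rw [h1]
    refine Real.exp_le_exp.2 (neg_le_neg ?_)
    have h5 : (p.2 e₁).im * k e₁ ≤ ∑ e, (p.2 e).im * k e :=
      Finset.single_le_sum (f := fun e => (p.2 e).im * k e)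
        (fun e _ => mul_nonneg (hp e) (hk e)) (Finset.mem_univ e₁)
    have h6 := mul_le_mul_of_nonneg_left h5 (mul_pos hK Real.pi_pos).le
    calc K * π * k e₁ * (p.2 e₁).im = K * π * ((p.2 e₁).im * k e₁) := by ring
      _ ≤ _ := h6
  refine squeeze_zero_norm' hb ?_
  have h7 : Tendsto (fun p : X × (E → ℂ) => (p.2 e₁).im) (F ×ˢ ImInf E) atTop := by
    rw [tendsto_atTop]
    intro T
    filter_upwards [(pw_ev E T).prod_inr F] with p hp
    exact hp e₁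
  have h8 : Tendsto (fun p : X × (E → ℂ) => K * π * k e₁ * (p.2 e₁).im)
      (F ×ˢ ImInf E) atTop :=
    Tendsto.const_mul_atTop (mul_pos (mul_pos hK Real.pi_pos) hke) h7
  exact Real.tendsto_exp_neg_atTop_nhds_zero.comp h8

theorem Pw_limit {g n W : ℕ} [NeZero n] {E : Type} [Fintype E] (c : E → Fin g → ℤ)
    (hodd : ∀ e, ∃ i, ¬ ((2 : ℤ) ∣ c e i)) {τ₀ : Matrix (Fin g) (Fin g) ℂ} {c₀ T₀ : ℝ}
    (hc₀ : 0 < c₀) (hpos : PosIm c₀ (τ₀ + cone c (fun _ => (T₀ : ℂ) * I)))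
    {w₀ : (Fin g ⊕ Fin g → ZMod n) → ℕ} (hw : InW g n W w₀)
    (htight : ∀ e, ∑ x, (w₀ x : ℝ) * Bf (lc n (Sum.elim (c e) (fun _ => 0)) x) = 0)
    (hne : ∀ x, w₀ x ≠ 0 → limTh c (fun i => ((x (Sum.inl i)).val : ℝ) / n)
      (fun i => ((x (Sum.inr i)).val : ℝ) / n) τ₀ ≠ 0) :
    ∃ (j : ℕ) (ℓ : ℂ), 1 ≤ j ∧ ℓ ≠ 0 ∧
      Tendsto (fun p : Matrix (Fin g) (Fin g) ℂ × (E → ℂ) => Pw g n W j (p.1 + cone c p.2) *
          cexp (-(2 * π * I * ((n ^ 2 * W * j : ℕ) : ℂ) * ∑ e, p.2 e)))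
        (𝓝 τ₀ ×ˢ ImInf E) (𝓝 ℓ) := by
  classical
  set Λ : (Fin g ⊕ Fin g → ZMod n) → ℂ := fun x => limTh c (pwA n x) (pwB n x) τ₀ with hΛ
  set k : ((Fin g ⊕ Fin g → ZMod n) → ℕ) → E → ℝ := fun w e =>
    ∑ x, (w x : ℝ) * Bf (lc n (Sum.elim (c e) (fun _ => 0)) x) with hk
  set V : ((Fin g ⊕ Fin g → ZMod n) → ℕ) → ℂ := fun w =>
    if ∀ e, k w e = 0 then ∏ x, Λ x ^ (24 * n ^ 2 * w x) else 0 with hV
  have hn0 : 0 < (24 * (n : ℝ) ^ 2) := by
    have : (n : ℝ) ≠ 0 := by exact_mod_cast NeZero.ne n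
    positivity
  have hbase : ∀ x, Tendsto (fun p : Matrix (Fin g) (Fin g) ℂ × (E → ℂ) =>
      thx n x (p.1 + cone c p.2) * cexp (-(π * I * ∑ e, p.2 e * (nd c (pwA n x) e : ℂ))))
      (𝓝 τ₀ ×ˢ ImInf E) (𝓝 (Λ x)) := fun x => th_limit c (pwA n x) (pwB n x) hc₀ hpos
  -- one weight
  have hone : ∀ w ∈ famW g n W, Tendsto (fun p : Matrix (Fin g) (Fin g) ℂ × (E → ℂ) =>
      (∏ x, TX n x (p.1 + cone c p.2) ^ w x) *
        cexp (-(2 * π * I * ((n ^ 2 * W : ℕ) : ℂ) * ∑ e, p.2 e)))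
      (𝓝 τ₀ ×ˢ ImInf E) (𝓝 (V w)) := by
    intro w hwf
    have hin : InW g n W w := mem_famW.1 hwf
    have hid : ∀ p : Matrix (Fin g) (Fin g) ℂ × (E → ℂ),
        (∏ x, TX n x (p.1 + cone c p.2) ^ w x) *
          cexp (-(2 * π * I * ((n ^ 2 * W : ℕ) : ℂ) * ∑ e, p.2 e)) =
        (∏ x, (thx n x (p.1 + cone c p.2) *
          cexp (-(π * I * ∑ e, p.2 e * (nd c (pwA n x) e : ℂ)))) ^ (24 * n ^ 2 * w x)) *
        cexp (((24 * (n : ℝ) ^ 2 : ℝ) : ℂ) * π * I * ∑ e, p.2 e * (k w e : ℂ)) := by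
      intro p
      have h1 : ∀ x, (thx n x (p.1 + cone c p.2) *
          cexp (-(π * I * ∑ e, p.2 e * (nd c (pwA n x) e : ℂ)))) ^ (24 * n ^ 2 * w x) =
          TX n x (p.1 + cone c p.2) ^ w x *
            cexp (∑ e, -(((24 * n ^ 2 : ℕ) : ℂ) * π * I * p.2 e *
              ((w x : ℂ) * ((Bf (lc n (Sum.elim (c e) (fun _ => 0)) x) : ℂ) + 1 / 12)))) := by
        intro x
        rw [mul_pow, pow_mul]
        congr 1
        rw [← Complex.exp_nat_mul]
        congr 1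
        rw [Finset.mul_sum, ← Finset.sum_neg_distrib, Finset.mul_sum]
        refine Finset.sum_congr rfl fun e _ => ?_
        rw [pw_nd]
        push_cast
        ring
      rw [Finset.prod_congr rfl fun x _ => h1 x, Finset.prod_mul_distrib, ← Complex.exp_sum]
      symm
      rw [mul_assoc, ← Complex.exp_add]
      congr 2
      rw [Finset.sum_comm]
      have h2 : ∀ e, ∑ x, -(((24 * n ^ 2 : ℕ) : ℂ) * π * I * p.2 e *
          ((w x : ℂ) * ((Bf (lc n (Sum.elim (c e) (fun _ => 0)) x) : ℂ) + 1 / 12))) =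
          -(((24 * n ^ 2 : ℕ) : ℂ) * π * I * p.2 e * ((k w e : ℂ) + W / 12)) := by
        intro e
        rw [Finset.sum_neg_distrib, ← Finset.mul_sum]
        congr 2
        have h3 : (k w e : ℂ) = ∑ x, (w x : ℂ) *
            (Bf (lc n (Sum.elim (c e) (fun _ => 0)) x) : ℂ) := by
          simp only [hk]
          push_cast
          rfl
        have h4 : (W : ℂ) = ∑ x, (w x : ℂ) := by
          rw [← hin.1]
          push_cast
          rfl
        rw [h3, h4, Finset.sum_div, ← Finset.sum_add_distrib]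
        refine Finset.sum_congr rfl fun x _ => ?_
        ring
      rw [Finset.sum_congr rfl fun e _ => h2 e, Finset.mul_sum, Finset.mul_sum,
        ← Finset.sum_neg_distrib, ← Finset.sum_add_distrib]
      refine Finset.sum_congr rfl fun e _ => ?_
      push_cast
      ring
    rw [show (fun p : Matrix (Fin g) (Fin g) ℂ × (E → ℂ) =>
        (∏ x, TX n x (p.1 + cone c p.2) ^ w x) *
          cexp (-(2 * π * I * ((n ^ 2 * W : ℕ) : ℂ) * ∑ e, p.2 e))) = _ from funext hid]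
    have hprod : Tendsto (fun p : Matrix (Fin g) (Fin g) ℂ × (E → ℂ) =>
        ∏ x, (thx n x (p.1 + cone c p.2) *
          cexp (-(π * I * ∑ e, p.2 e * (nd c (pwA n x) e : ℂ)))) ^ (24 * n ^ 2 * w x))
        (𝓝 τ₀ ×ˢ ImInf E) (𝓝 (∏ x, Λ x ^ (24 * n ^ 2 * w x))) :=
      tendsto_finsetProd _ fun x _ => (hbase x).pow _
    have hk0 : ∀ e, 0 ≤ k w e := by
      intro e
      obtain ⟨i, hi⟩ := hodd e
      exact hin.2 _ ⟨Sum.inl i, by simpa using hi⟩
    by_cases h0 : ∀ e, k w e = 0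
    · have hVw : V w = (∏ x, Λ x ^ (24 * n ^ 2 * w x)) * 1 := by
        rw [mul_one]
        exact if_pos h0
      rw [hVw]
      refine hprod.mul ?_
      have h1 : (fun p : Matrix (Fin g) (Fin g) ℂ × (E → ℂ) =>
          cexp (((24 * (n : ℝ) ^ 2 : ℝ) : ℂ) * π * I * ∑ e, p.2 e * (k w e : ℂ))) =
          fun _ => 1 := by
        funext p
        have h2 : ∑ e, p.2 e * (k w e : ℂ) = 0 :=
          Finset.sum_eq_zero fun e _ => by rw [h0 e]; simp
        rw [h2, mul_zero, Complex.exp_zero]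
      rw [h1]
      exact tendsto_const_nhds
    · have hVw : V w = (∏ x, Λ x ^ (24 * n ^ 2 * w x)) * 0 := by
        rw [mul_zero]
        exact if_neg h0
      rw [hVw]
      exact hprod.mul (pw_exp _ hn0 (k w) hk0 (not_forall.1 h0))
  -- the weight `w₀`
  have hV0 : V w₀ ≠ 0 := by
    have h1 : V w₀ = ∏ x, Λ x ^ (24 * n ^ 2 * w₀ x) := if_pos htight
    rw [h1, Finset.prod_ne_zero_iff]
    intro x _
    by_cases hx : w₀ x = 0
    · rw [hx, mul_zero, pow_zero]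
      exact one_ne_zero
    · exact pow_ne_zero _ (hne x hx)
  obtain ⟨j, hj, hj0⟩ := power_sum_ne (famW g n W) V (mem_famW.2 hw) hV0
  refine ⟨j, ∑ w ∈ famW g n W, V w ^ j, hj, hj0, ?_⟩
  have hfin : ∀ p : Matrix (Fin g) (Fin g) ℂ × (E → ℂ), Pw g n W j (p.1 + cone c p.2) *
      cexp (-(2 * π * I * ((n ^ 2 * W * j : ℕ) : ℂ) * ∑ e, p.2 e)) =
      ∑ w ∈ famW g n W, ((∏ x, TX n x (p.1 + cone c p.2) ^ w x) *
        cexp (-(2 * π * I * ((n ^ 2 * W : ℕ) : ℂ) * ∑ e, p.2 e))) ^ j := by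
    intro p
    unfold Pw
    rw [Finset.sum_mul]
    refine Finset.sum_congr rfl fun w _ => ?_
    rw [mul_pow, ← Complex.exp_nat_mul]
    congr 2
    push_cast
    ring
  rw [show (fun p : Matrix (Fin g) (Fin g) ℂ × (E → ℂ) => Pw g n W j (p.1 + cone c p.2) *
      cexp (-(2 * π * I * ((n ^ 2 * W * j : ℕ) : ℂ) * ∑ e, p.2 e))) = _ from funext hfin]
  exact tendsto_finsetSum _ fun w hw => (hone w hw).pow j

end SlopeB
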