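import Pool.Agent.Lib.SlopeB.Defs
import Pool.Agent.Lib.MP_6febbd_ag.Ari

/-!
# The dyadic lower bound for the averages of `Bf`

PROOF. By `Bf_hasSum'` and linearity (`hasSum_sum`, `HasSum.mul_left`) the sum
`∑ i, p i * Bf (l i)` is the sum over `j : ℕ` of `(-1)^j C_j / (π² j²)`,
`C_j = ∑ i, p i cos(2π j l_i)` (the term `j = 0` is `0`, division by zero). For `j ≥ 1` it is at least
`D (v₂ j) / (π² j²)` by hypothesis.
Telescoping: for `j ≥ 1` `D (v₂ j) = D 0 + ∑_{w=1}^{Lv} (D w - D (w-1)) [2^w ∣ j]`, because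
`2^w ∣ j` iff `w ≤ v₂ j` (`padicValNat_dvd_iff_le`) and `D v = D Lv` for `v ≥ Lv`. With
`hasSum_dvd` (`∑_{n ∣ j} 1/j² = π²/(6 n²)`) the sum over `j` of `D (v₂ j)/(π² j²)` is
`(1/6) (D 0 + ∑_{w=1}^{Lv} (D w - D (w-1)) 4^-w)`.
On the other side `∑' v, 4^-v D v = ∑_{v < Lv} 4^-v D v + 4^-Lv D Lv (4/3)` (geometric series); Abel
summation: `D 0 + ∑_{w=1}^{Lv} (D w - D (w-1)) 4^-w = (3/4) ∑_{v<Lv} 4^-v D v + 4^-Lv D Lv`
(induction on `Lv`), so both agree. (`hasSum_le` for the comparison.)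
-/

set_option autoImplicit false

open scoped Matrix.Norms.Elementwise Real Topology
open Complex Matrix MP6feb Filter

noncomputable section

namespace SlopeB

private theorem dyad_abel (D : ℕ → ℝ) (L : ℕ) :
    D 0 + ∑ w ∈ Finset.range L, (D (w + 1) - D w) * (1 / 4 : ℝ) ^ (w + 1) =
      3 / 4 * ∑ v ∈ Finset.range L, (1 / 4 : ℝ) ^ v * D v + (1 / 4 : ℝ) ^ L * D L := by
  induction L with
  | zero => simp
  | succ L ih =>
    rw [Finset.sum_range_succ, Finset.sum_range_succ, ← add_assoc, ih]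
    ring

private theorem dyad_tsum (D : ℕ → ℝ) (L : ℕ) (hD : ∀ v, L ≤ v → D v = D L) :
    ∑' v : ℕ, (1 / 4 : ℝ) ^ v * D v =
      ∑ v ∈ Finset.range L, (1 / 4 : ℝ) ^ v * D v + 4 / 3 * ((1 / 4 : ℝ) ^ L * D L) := by
  have h0 : HasSum (fun v : ℕ => (1 / 4 : ℝ) ^ v) (1 - 1 / 4)⁻¹ :=
    hasSum_geometric_of_lt_one (by norm_num) (by norm_num)
  have h1 := h0.mul_right ((1 / 4 : ℝ) ^ L * D L)
  have h2 : HasSum (fun v : ℕ => (1 / 4 : ℝ) ^ (v + L) * D (v + L))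
      (4 / 3 * ((1 / 4 : ℝ) ^ L * D L)) := by
    have e : (fun v : ℕ => (1 / 4 : ℝ) ^ (v + L) * D (v + L)) =
        fun v : ℕ => (1 / 4 : ℝ) ^ v * ((1 / 4 : ℝ) ^ L * D L) := by
      funext v
      rw [hD (v + L) (Nat.le_add_left _ _), pow_add]
      ring
    rw [e, show (4 / 3 : ℝ) = (1 - 1 / 4)⁻¹ by norm_num]
    exact h1
  have h3 := (hasSum_nat_add_iff (f := fun v : ℕ => (1 / 4 : ℝ) ^ v * D v) L).mp h2
  rw [h3.tsum_eq]
  ring

private theorem dyad_tele (D : ℕ → ℝ) (m : ℕ) :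
    ∑ w ∈ Finset.range m, (D (w + 1) - D w) = D m - D 0 := by
  rw [Finset.sum_range_sub]

private theorem dyad_point (D : ℕ → ℝ) (L : ℕ) (hD : ∀ v, L ≤ v → D v = D L) (j : ℕ)
    (hj : 1 ≤ j) :
    D 0 * (1 / (j : ℝ) ^ 2) + ∑ w ∈ Finset.range L, (D (w + 1) - D w) *
      (if 2 ^ (w + 1) ∣ j then (1 : ℝ) / (j : ℝ) ^ 2 else 0) =
      D (padicValNat 2 j) * (1 / (j : ℝ) ^ 2) := by
  obtain ⟨v, hv⟩ : ∃ v, padicValNat 2 j = v := ⟨_, rfl⟩
  have hdvd : ∀ w, (2 ^ (w + 1) ∣ j) ↔ w < v := by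
    intro w
    have : Fact (Nat.Prime 2) := ⟨Nat.prime_two⟩
    rw [padicValNat_dvd_iff_le (by omega), hv]
    omega
  rw [hv]
  have e1 : ∑ w ∈ Finset.range L, (D (w + 1) - D w) *
      (if 2 ^ (w + 1) ∣ j then (1 : ℝ) / (j : ℝ) ^ 2 else 0) =
      (∑ w ∈ Finset.range (min L v), (D (w + 1) - D w)) * (1 / (j : ℝ) ^ 2) := by
    rw [Finset.sum_mul]
    have hs : Finset.range (min L v) ⊆ Finset.range L := by
      intro w hw
      rw [Finset.mem_range] at hw ⊢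
      omega
    rw [← Finset.sum_subset hs]
    · apply Finset.sum_congr rfl
      intro w hw
      rw [Finset.mem_range] at hw
      rw [if_pos ((hdvd w).mpr (by omega))]
    · intro w hw hw'
      rw [Finset.mem_range] at hw hw'
      rw [if_neg (fun h => ?_), mul_zero]
      have := (hdvd w).mp h
      omega
  rw [e1, dyad_tele]
  have e2 : D (min L v) = D v := by
    rcases le_total L v with h | h
    · rw [min_eq_left h, hD v h]
    · rw [min_eq_right h]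
  rw [e2]
  ring

theorem bf_dyad {ι : Type} [Fintype ι] (p l : ι → ℝ) (D : ℕ → ℝ) (Lv : ℕ)
    (hD : ∀ v, Lv ≤ v → D v = D Lv)
    (h : ∀ j : ℕ, 1 ≤ j →
      D (padicValNat 2 j) ≤ (-1) ^ j * ∑ i, p i * Real.cos (2 * π * j * l i)) :
    1 / 8 * ∑' v : ℕ, (1 / 4 : ℝ) ^ v * D v ≤ ∑ i, p i * Bf (l i) := by
  have hpi : (π : ℝ) ≠ 0 := Real.pi_ne_zero
  -- the series of the right hand side
  have hs : HasSum (fun j : ℕ => ∑ i, p i *
      ((-1 : ℝ) ^ j * Real.cos (2 * π * j * l i) / (π ^ 2 * (j : ℝ) ^ 2)))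
      (∑ i, p i * Bf (l i)) :=
    hasSum_sum (fun i _ => (Bf_hasSum' (l i)).mul_left (p i))
  -- the lower series
  have hz : HasSum (fun j : ℕ => (1 : ℝ) / (j : ℝ) ^ 2) (π ^ 2 / 6) := hasSum_zeta_two
  have hg : HasSum (fun j : ℕ => 1 / π ^ 2 * (D 0 * (1 / (j : ℝ) ^ 2) +
      ∑ w ∈ Finset.range Lv, (D (w + 1) - D w) *
        (if 2 ^ (w + 1) ∣ j then (1 : ℝ) / (j : ℝ) ^ 2 else 0)))
      (1 / π ^ 2 * (D 0 * (π ^ 2 / 6) + ∑ w ∈ Finset.range Lv, (D (w + 1) - D w) *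
        (π ^ 2 / (6 * (((2 ^ (w + 1) : ℕ) : ℝ)) ^ 2)))) := by
    refine ((hz.mul_left (D 0)).add (hasSum_sum (fun w _ => ?_))).mul_left (1 / π ^ 2)
    exact (hasSum_dvd (n := 2 ^ (w + 1)) (by positivity)).mul_left (D (w + 1) - D w)
  have hval : 1 / π ^ 2 * (D 0 * (π ^ 2 / 6) + ∑ w ∈ Finset.range Lv, (D (w + 1) - D w) *
        (π ^ 2 / (6 * (((2 ^ (w + 1) : ℕ) : ℝ)) ^ 2))) =
      1 / 6 * (D 0 + ∑ w ∈ Finset.range Lv, (D (w + 1) - D w) * (1 / 4 : ℝ) ^ (w + 1)) := by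
    have e : ∀ w, (D (w + 1) - D w) * (π ^ 2 / (6 * (((2 ^ (w + 1) : ℕ) : ℝ)) ^ 2)) =
        π ^ 2 / 6 * ((D (w + 1) - D w) * (1 / 4 : ℝ) ^ (w + 1)) := by
      intro w
      have h4 : ((((2 ^ (w + 1) : ℕ) : ℝ)) ^ 2) = (4 : ℝ) ^ (w + 1) := by
        push_cast
        rw [← pow_mul, mul_comm (w + 1) 2, pow_mul]
        norm_num
      rw [h4, one_div, inv_pow]
      have : (4 : ℝ) ^ (w + 1) ≠ 0 := by positivity
      field_simp
    rw [Finset.sum_congr rfl (fun w _ => e w), ← Finset.mul_sum]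
    field_simp
  rw [hval, dyad_abel] at hg
  have hfin : 1 / 8 * ∑' v : ℕ, (1 / 4 : ℝ) ^ v * D v =
      1 / 6 * (3 / 4 * ∑ v ∈ Finset.range Lv, (1 / 4 : ℝ) ^ v * D v +
        (1 / 4 : ℝ) ^ Lv * D Lv) := by
    rw [dyad_tsum D Lv hD]
    ring
  rw [hfin]
  refine hasSum_le (fun j => ?_) hg hs
  rcases Nat.eq_zero_or_pos j with hj | hj
  · subst hj
    simp
  · rw [dyad_point D Lv hD j hj]
    have hj' : (0 : ℝ) < (j : ℝ) := by exact_mod_cast hj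
    have e3 : ∑ i, p i * ((-1 : ℝ) ^ j * Real.cos (2 * π * j * l i) / (π ^ 2 * (j : ℝ) ^ 2)) =
        1 / π ^ 2 * (((-1 : ℝ) ^ j * ∑ i, p i * Real.cos (2 * π * j * l i)) *
          (1 / (j : ℝ) ^ 2)) := by
      rw [Finset.mul_sum, Finset.sum_mul, Finset.mul_sum]
      apply Finset.sum_congr rfl
      intro i _
      field_simp
    rw [e3]
    have hpos : (0 : ℝ) ≤ 1 / π ^ 2 := by positivity
    have hpos2 : (0 : ℝ) ≤ 1 / (j : ℝ) ^ 2 := by positivity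
    exact mul_le_mul_of_nonneg_left (mul_le_mul_of_nonneg_right (h j hj) hpos2) hpos

end SlopeB
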