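import Pool.Agent.Lib.SlopeB.Defs
import Pool.Agent.Lib.SlopeB.QR
import Pool.Agent.Lib.SlopeB.Dyad

/-!
# Class Q implies the cusp inequality

PROOF of `cusp_a`. `bf_dyad` with `D 0 = -|s 0|`, `D v = s v` for `v ≥ 1`, `Lv = max i 1`: for `j` odd
(`v₂ j = 0`) `(-1)^j C_j = -C_j ≥ -|s 0|`; for `j` even (`v₂ j ≥ 1`) `(-1)^j C_j = C_j = s (v₂ j)`. Then
`∑' v, 4^-v D v = -|s 0| + TT s 0 ≥ 0` by q3 at `w = 0 < i` (`Summable.tsum_eq_zero_add`,
`TT s 0 = ∑' u, (1/4)^(u+1) s (0 + 1 + u)`).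
PROOF of `cusp_b`. `D v = -η |s v|` for `v < lv`, `D v = s v` for `v ≥ lv`; `Lv = max i lv`. For `j ≥ 1`
with `v = v₂ j < lv`: `|C_j| ≤ η |s v|`, so `(-1)^j C_j ≥ -η |s v|`. For `v ≥ lv ≥ 1`: `j` is even and
`C_j = s v`. With `w = lv - 1 < k'`: `∑' v, 4^-v D v = -η ∑_{v ≤ w} 4^-v |s v| + 4^-w TT s w ≥ 0` by q4
(`Summable.sum_add_tsum_nat_add`: the tail `∑' u, 4^-(w+1+u) s (w+1+u) = 4^-w TT s w`).
(Parity: `v₂ j = 0` iff `j` odd for `j ≥ 1`: `padicValNat.eq_zero_of_not_dvd`,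
`one_le_padicValNat_of_dvd`.)
-/

set_option autoImplicit false

open scoped Matrix.Norms.Elementwise Real Topology
open Complex Matrix MP6feb Filter

noncomputable section

namespace SlopeB

private theorem CuspQ_summable {D : ℕ → ℝ} {M : ℝ} (hD : ∀ v, |D v| ≤ M) :
    Summable fun v : ℕ => (1 / 4 : ℝ) ^ v * D v := by
  have h1 : Summable fun u : ℕ => (1 / 4 : ℝ) ^ u * M :=
    (summable_geometric_of_lt_one (by norm_num) (by norm_num)).mul_right M
  refine Summable.of_norm_bounded h1 fun u => ?_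
  rw [Real.norm_eq_abs, abs_mul, abs_of_nonneg (by positivity : (0 : ℝ) ≤ (1 / 4) ^ u)]
  exact mul_le_mul_of_nonneg_left (hD u) (by positivity)

private theorem CuspQ_even {j : ℕ} (h : 1 ≤ padicValNat 2 j) : (-1 : ℝ) ^ j = 1 := by
  have h2 : 2 ∣ j := dvd_of_one_le_padicValNat h
  obtain ⟨m, rfl⟩ := h2
  rw [pow_mul]
  norm_num

private theorem CuspQ_odd {j : ℕ} (hj : 1 ≤ j) (h : padicValNat 2 j = 0) : (-1 : ℝ) ^ j = -1 := by
  have h2 : ¬ 2 ∣ j := by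
    intro hd
    have h3 := one_le_padicValNat_of_dvd (p := 2) (by omega : j ≠ 0) hd
    omega
  have h3 : Odd j := Nat.not_even_iff_odd.1 (fun he => h2 he.two_dvd)
  exact h3.neg_one_pow

private theorem CuspQ_tail (s : ℕ → ℝ) (w : ℕ) :
    ∑' u : ℕ, (1 / 4 : ℝ) ^ (u + (w + 1)) * s (u + (w + 1)) = (1 / 4 : ℝ) ^ w * TT s w := by
  unfold TT
  rw [← tsum_mul_left]
  refine tsum_congr fun u => ?_
  have h1 : u + (w + 1) = w + 1 + u := by omega
  rw [h1]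
  have h2 : (1 / 4 : ℝ) ^ (w + 1 + u) = (1 / 4 : ℝ) ^ w * (1 / 4 : ℝ) ^ (u + 1) := by
    rw [← pow_add]
    congr 1
    omega
  rw [h2]
  ring

theorem cusp_a {ι : Type} [Fintype ι] (p l : ι → ℝ) {η : ℝ} {k' i : ℕ} {s : ℕ → ℝ}
    (hs : QQ η k' i s) (hi : 1 ≤ i)
    (h0 : ∀ j : ℕ, 1 ≤ j → padicValNat 2 j = 0 →
      |∑ i, p i * Real.cos (2 * π * j * l i)| ≤ |s 0|)
    (h1 : ∀ j : ℕ, 1 ≤ j → 1 ≤ padicValNat 2 j →
      ∑ i, p i * Real.cos (2 * π * j * l i) = s (padicValNat 2 j)) :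
    0 ≤ ∑ i, p i * Bf (l i) := by
  obtain ⟨D, hD⟩ : ∃ D : ℕ → ℝ, D = fun v => if v = 0 then -|s 0| else s v := ⟨_, rfl⟩
  have hD0 : D 0 = -|s 0| := by rw [hD]; exact if_pos rfl
  have hD1 : ∀ v, 1 ≤ v → D v = s v := by
    intro v hv
    rw [hD]
    exact if_neg (by omega)
  have hDb : ∀ v, |D v| ≤ 1 := by
    intro v
    rcases Nat.eq_zero_or_pos v with hv | hv
    · rw [hv, hD0, abs_neg, abs_abs]
      exact hs.le 0
    · rw [hD1 v hv]
      exact hs.le v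
  have hst : ∀ v, max i 1 ≤ v → D v = D (max i 1) := by
    intro v hv
    have hv1 : 1 ≤ v := (le_max_right i 1).trans hv
    have hv2 : i ≤ v := (le_max_left i 1).trans hv
    rw [hD1 v hv1, hD1 _ (le_max_right i 1), hs.one v hv2, hs.one _ (le_max_left i 1)]
  have hmain := bf_dyad p l D (max i 1) hst (by
    intro j hj
    rcases Nat.eq_zero_or_pos (padicValNat 2 j) with hv | hv
    · rw [hv, hD0, CuspQ_odd hj hv]
      have h2 := h0 j hj hv
      have h3 := le_abs_self (∑ i, p i * Real.cos (2 * π * j * l i))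
      linarith
    · rw [hD1 _ hv, CuspQ_even hv, one_mul, h1 j hj hv])
  refine le_trans ?_ hmain
  refine mul_nonneg (by norm_num) ?_
  rw [← (CuspQ_summable hDb).sum_add_tsum_nat_add 1]
  have h2 : ∑' u : ℕ, (1 / 4 : ℝ) ^ (u + 1) * D (u + 1) = TT s 0 := by
    have h3 := CuspQ_tail s 0
    rw [pow_zero, one_mul] at h3
    rw [← h3]
    refine tsum_congr fun u => ?_
    rw [hD1 (u + 1) (by omega)]
  rw [h2, Finset.sum_range_one, pow_zero, one_mul, hD0]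
  have h4 := hs.q3 0 (by omega)
  linarith

theorem cusp_b {ι : Type} [Fintype ι] (p l : ι → ℝ) {η : ℝ} {k' i lv : ℕ} {s : ℕ → ℝ}
    (hη : 0 ≤ η) (hs : QQ η k' i s) (hl : 1 ≤ lv) (hl' : lv ≤ k')
    (h0 : ∀ j : ℕ, 1 ≤ j → padicValNat 2 j < lv →
      |∑ i, p i * Real.cos (2 * π * j * l i)| ≤ η * |s (padicValNat 2 j)|)
    (h1 : ∀ j : ℕ, 1 ≤ j → lv ≤ padicValNat 2 j →
      ∑ i, p i * Real.cos (2 * π * j * l i) = s (padicValNat 2 j)) :
    0 ≤ ∑ i, p i * Bf (l i) := by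
  obtain ⟨w, rfl⟩ : ∃ w, lv = w + 1 := ⟨lv - 1, by omega⟩
  obtain ⟨D, hD⟩ : ∃ D : ℕ → ℝ, D = fun v => if v < w + 1 then -(η * |s v|) else s v := ⟨_, rfl⟩
  have hD0 : ∀ v, v < w + 1 → D v = -(η * |s v|) := by
    intro v hv
    rw [hD]
    exact if_pos hv
  have hD1 : ∀ v, w + 1 ≤ v → D v = s v := by
    intro v hv
    rw [hD]
    exact if_neg (by omega)
  have hDb : ∀ v, |D v| ≤ max η 1 := by
    intro v
    rcases lt_or_ge v (w + 1) with hv | hv
    · rw [hD0 v hv, abs_neg, abs_mul, abs_abs, abs_of_nonneg hη]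
      exact (mul_le_of_le_one_right hη (hs.le v)).trans (le_max_left _ _)
    · rw [hD1 v hv]
      exact (hs.le v).trans (le_max_right _ _)
  have hst : ∀ v, max i (w + 1) ≤ v → D v = D (max i (w + 1)) := by
    intro v hv
    have hv1 : w + 1 ≤ v := (le_max_right i (w + 1)).trans hv
    have hv2 : i ≤ v := (le_max_left i (w + 1)).trans hv
    rw [hD1 v hv1, hD1 _ (le_max_right i (w + 1)), hs.one v hv2, hs.one _ (le_max_left i _)]
  have hmain := bf_dyad p l D (max i (w + 1)) hst (by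
    intro j hj
    rcases lt_or_ge (padicValNat 2 j) (w + 1) with hv | hv
    · rw [hD0 _ hv]
      have h2 := h0 j hj hv
      have h3 : |(-1 : ℝ) ^ j * ∑ i, p i * Real.cos (2 * π * j * l i)| ≤
          η * |s (padicValNat 2 j)| := by
        rw [abs_mul, abs_pow, abs_neg, abs_one, one_pow, one_mul]
        exact h2
      exact (abs_le.1 h3).1
    · rw [hD1 _ hv, CuspQ_even (by omega), one_mul, h1 j hj hv])
  refine le_trans ?_ hmain
  refine mul_nonneg (by norm_num) ?_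
  rw [← (CuspQ_summable hDb).sum_add_tsum_nat_add (w + 1)]
  have h2 : ∑' u : ℕ, (1 / 4 : ℝ) ^ (u + (w + 1)) * D (u + (w + 1)) = (1 / 4 : ℝ) ^ w * TT s w := by
    rw [← CuspQ_tail s w]
    refine tsum_congr fun u => ?_
    rw [hD1 (u + (w + 1)) (by omega)]
  have h3 : ∑ v ∈ Finset.range (w + 1), (1 / 4 : ℝ) ^ v * D v =
      -(η * ∑ v ∈ Finset.range (w + 1), (1 / 4 : ℝ) ^ v * |s v|) := by
    rw [Finset.mul_sum, ← Finset.sum_neg_distrib]
    refine Finset.sum_congr rfl fun v hv => ?_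
    rw [hD0 v (Finset.mem_range.1 hv)]
    ring
  rw [h2, h3]
  have h4 := hs.q4 w (by omega)
  linarith

end SlopeB
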