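import Pool.Agent.Lib.SlopeB.Defs
import Pool.Agent.Lib.SlopeB.Defs2
import Pool.Agent.Lib.SlopeB.QR
import Pool.Agent.Lib.SlopeB.CuspQ
import Pool.Agent.Lib.MP_6febbd_ag.Chr

/-!
# The cusp inequality for the total law

PROOF. If `X.card = m > 0`; it suffices to treat the weights `p (i, x) = L.p i / m` on
`ι = L.Ix × X` (subtype), `l (i, x) = lT c (z i) (β i) x` (then multiply by `m`;
`Fintype.sum_prod_type`, `Finset.sum_coe_sort`). Put `v₁ = fn (fun i => c (inl (castAdd i)))`,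
`s i = c (inr (castAdd i))`, `c₂ = Sum.elim (fun j => c (inl (natAdd j))) (fun j => c (inr (natAdd j)))`,
`P = ∑_i c (inl i) * c (inr i)`. For `j ≥ 1`
`∑ p cexp(2πI j l) = e(j P/2) * L.four v₁ s j * (S_j / m)`, `S_j = ∑_{x ∈ X} chr (2^k') (j c₂) x`
(`exp_add`; `v₁ (z i) = ∑ c z`), and `C_j := ∑ p cos(2π j l)` is its real part. `e(j P/2) = ±1`, and it is `1` for
even `j`. Let `(i₀, q)` be from `hL v₁ s`: `L.four v₁ s j = q (v₂ j)`, real. So
`C_j = ± q (v₂ j) * Re(S_j/m)`, sign `+` for even `j`.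
Let `lv` be the least number with `2^k' ∣ 2^lv * c₂ t` for all `t` (`Nat.find`, `lv ≤ k'`); for `j ≥ 1` all
`2^k' ∣ j c₂ t` iff `lv ≤ v₂ j` (`j = 2^v u`, `u` odd); then `S_j = m`.
(a) `lv = 0`: `S_j = m` for all `j`. `i₀ ≥ 1`: otherwise `v₁` is even, so all `c (inl (castAdd i))` are even
(apply to `Pi.single i 1`), `s = 2 • w`, and all `c₂ t` are divisible by `2^k'`, `k' ≥ 1`, so by `2`: then all
`c i` are even (`Fin.addCases`), contradicting `hc`. `cusp_a`.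
(b) `lv ≥ 1`, `c₂` of type beta with `θ₀`: `S_j/m = a (v₂ j)` with `a v = 1` (`lv ≤ v`), `θ₀` (`v + 1 = lv`),
`0` (`v + 1 < lv`): class `RR lv`; `QQ_mul` and `cusp_a` with `max i₀ lv ≥ 1`. (All `2^k' ∣ 2 (j c₂ t)` iff
`lv ≤ v₂ j + 1`.)
(c) `lv ≥ 1`, `c₂` of type alpha: `cusp_b`: for `v₂ j < lv` `|C_j| ≤ |q (v₂ j)| η` (`‖S_j‖ ≤ η m`,
`η = (3/8)(1/4)^r(1/4)^k' = (3/8)(1/4)^(k'+r)`); for `v₂ j ≥ lv ≥ 1` `j` is even and `C_j = q (v₂ j)`.
-/

set_option autoImplicit false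

open scoped Matrix.Norms.Elementwise Real Topology
open Complex Matrix MP6feb Filter

noncomputable section

namespace SlopeB

private theorem TotC_int (N : ℤ) : cexp (2 * π * I * (N : ℂ)) = 1 := by
  have h := Complex.exp_int_mul_two_pi_mul_I N
  rw [← h]
  congr 1
  ring

private theorem TotC_chr {g n : ℕ} [NeZero n] (c : Fin g ⊕ Fin g → ℤ)
    (hc : ∀ t, (n : ℤ) ∣ c t) (x : Fin g ⊕ Fin g → ZMod n) : chr n c x = 1 := by
  choose d hd using hc
  have hn : (n : ℂ) ≠ 0 := by exact_mod_cast NeZero.ne n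
  unfold chr
  have h1 : (∑ j, (c j : ℂ) * ((x j).val : ℂ)) / n =
      ((∑ j, d j * ((x j).val : ℤ) : ℤ) : ℂ) := by
    rw [div_eq_iff hn]
    push_cast
    rw [Finset.sum_mul]
    refine Finset.sum_congr rfl fun j _ => ?_
    rw [hd j]
    push_cast
    ring
  rw [h1]
  exact TotC_int _

private theorem TotC_sign (j : ℕ) (P : ℤ) :
    ∃ e : ℝ, cexp (2 * π * I * ((j : ℂ) * ((P : ℂ) / 2))) = (e : ℂ) ∧ |e| = 1 ∧
      (1 ≤ padicValNat 2 j → e = 1) := by
  refine ⟨(-1 : ℝ) ^ ((j : ℤ) * P), ?_, ?_, ?_⟩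
  · have h1 : 2 * (π : ℂ) * I * ((j : ℂ) * ((P : ℂ) / 2)) =
        (((j : ℤ) * P : ℤ) : ℂ) * ((π : ℂ) * I) := by
      push_cast
      ring
    rw [h1, Complex.exp_int_mul, Complex.exp_pi_mul_I]
    push_cast
    rfl
  · rw [abs_zpow, abs_neg, abs_one, _root_.one_zpow]
  · intro h
    have h2 : 2 ∣ j := dvd_of_one_le_padicValNat h
    obtain ⟨m, rfl⟩ := h2
    have h3 : Even (((2 * m : ℕ) : ℤ) * P) := by
      push_cast
      exact ⟨(m : ℤ) * P, by ring⟩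
    exact h3.neg_one_zpow

private theorem TotC_four {b g' k' : ℕ} (L : Law (Fin b → ℤ))
    (X : Finset (Fin g' ⊕ Fin g' → ZMod (2 ^ k')))
    (c : Fin (b + g') ⊕ Fin (b + g') → ℤ) (m : ℝ) (j : ℕ) :
    ∑ q : L.Ix × X, (((L.p q.1 : ℝ) / m : ℝ) : ℂ) *
        cexp (2 * π * I * ((j : ℂ) * ((lT c (L.z q.1) (L.β q.1) q.2.1 : ℝ) : ℂ))) =
    cexp (2 * π * I * ((j : ℂ) * (((∑ i, c (Sum.inl i) * c (Sum.inr i) : ℤ) : ℂ) / 2))) *
      L.four (fn (fun i => c (Sum.inl (Fin.castAdd g' i))))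
        (fun i => c (Sum.inr (Fin.castAdd g' i))) j *
      ((∑ x ∈ X, chr (2 ^ k') (fun t => (j : ℤ) *
        (Sum.elim (fun t => c (Sum.inl (Fin.natAdd b t)))
          (fun t => c (Sum.inr (Fin.natAdd b t))) : Fin g' ⊕ Fin g' → ℤ) t) x) / m) := by
  rw [Fintype.sum_prod_type]
  unfold Law.four
  rw [Finset.mul_sum, Finset.sum_mul]
  refine Finset.sum_congr rfl fun i _ => ?_
  rw [Finset.sum_div, Finset.mul_sum]
  rw [Finset.sum_coe_sort X (fun x => (((L.p i : ℝ) / m : ℝ) : ℂ) *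
    cexp (2 * π * I * ((j : ℂ) * ((lT c (L.z i) (L.β i) x : ℝ) : ℂ))))]
  refine Finset.sum_congr rfl fun x _ => ?_
  have h1 : 2 * (π : ℂ) * I * ((j : ℂ) * ((lT c (L.z i) (L.β i) x : ℝ) : ℂ)) =
      2 * (π : ℂ) * I * ((j : ℂ) * (((∑ i, c (Sum.inl i) * c (Sum.inr i) : ℤ) : ℂ) / 2)) +
      2 * π * I * ((j : ℂ) * (((fn (fun i => c (Sum.inl (Fin.castAdd g' i))) (L.z i) : ℤ) : ℂ) / 2 +
        ((L.β i (fun i => c (Sum.inr (Fin.castAdd g' i))) : ℝ) : ℂ))) +
      2 * π * I * ((∑ t, (((j : ℤ) * (Sum.elim (fun t => c (Sum.inl (Fin.natAdd b t)))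
          (fun t => c (Sum.inr (Fin.natAdd b t))) : Fin g' ⊕ Fin g' → ℤ) t : ℤ) : ℂ) *
          ((x t).val : ℂ)) / ((2 ^ k' : ℕ) : ℂ)) := by
    rw [Fintype.sum_sum_type]
    simp only [lT, fn, AddMonoidHom.coe_mk, ZeroHom.coe_mk, Sum.elim_inl, Sum.elim_inr]
    push_cast
    have h2 : (∑ t, (j : ℂ) * (c (Sum.inl (Fin.natAdd b t)) : ℂ) * ((x (Sum.inl t)).val : ℂ)) =
        (j : ℂ) * ∑ t, (c (Sum.inl (Fin.natAdd b t)) : ℂ) * ((x (Sum.inl t)).val : ℂ) := by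
      rw [Finset.mul_sum]
      exact Finset.sum_congr rfl fun t _ => by ring
    have h3 : (∑ t, (j : ℂ) * (c (Sum.inr (Fin.natAdd b t)) : ℂ) * ((x (Sum.inr t)).val : ℂ)) =
        (j : ℂ) * ∑ t, (c (Sum.inr (Fin.natAdd b t)) : ℂ) * ((x (Sum.inr t)).val : ℂ) := by
      rw [Finset.mul_sum]
      exact Finset.sum_congr rfl fun t _ => by ring
    rw [h2, h3]
    ring
  rw [h1, Complex.exp_add, Complex.exp_add]
  unfold chr
  push_cast
  ring


private theorem TotC_lev {ι : Type} (k' : ℕ) (c : ι → ℤ) : ∃ lv : ℕ, lv ≤ k' ∧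
    (∀ j : ℕ, 1 ≤ j →
      ((∀ t, ((2 ^ k' : ℕ) : ℤ) ∣ (j : ℤ) * c t) ↔ lv ≤ padicValNat 2 j)) := by
  classical
  have hex : ∃ l : ℕ, ∀ t, ((2 ^ k' : ℕ) : ℤ) ∣ (2 : ℤ) ^ l * c t := by
    refine ⟨k', fun t => ?_⟩
    push_cast
    exact Dvd.intro _ rfl
  refine ⟨Nat.find hex, Nat.find_min' hex (fun t => ?_), fun j hj => ?_⟩
  · push_cast
    exact Dvd.intro _ rfl
  · obtain ⟨v, u, hu, hjv⟩ := Nat.exists_eq_two_pow_mul_odd (n := j) (by omega)
    have hu0 : u ≠ 0 := by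
      rintro rfl
      exact absurd hu (by decide)
    have hv : padicValNat 2 j = v := by
      rw [hjv, padicValNat.mul (by positivity) hu0, padicValNat.prime_pow,
        padicValNat.eq_zero_of_not_dvd hu.not_two_dvd_nat, add_zero]
    rw [hv]
    have hcop : IsCoprime (((2 ^ k' : ℕ) : ℤ)) (u : ℤ) := by
      rw [Nat.isCoprime_iff_coprime]
      exact Nat.Coprime.pow_left _ (Nat.coprime_two_left.2 hu)
    constructor
    · intro h
      refine Nat.find_min' hex fun t => ?_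
      have h1 := h t
      rw [hjv] at h1
      have h2 : ((2 ^ k' : ℕ) : ℤ) ∣ (u : ℤ) * ((2 : ℤ) ^ v * c t) := by
        refine h1.trans (dvd_of_eq ?_)
        push_cast
        ring
      exact hcop.dvd_of_dvd_mul_left h2
    · intro h t
      have h1 := Nat.find_spec hex t
      have h2 : (2 : ℤ) ^ (Nat.find hex) * c t ∣ (j : ℤ) * c t := by
        rw [hjv]
        push_cast
        refine mul_dvd_mul_right ?_ _
        exact (pow_dvd_pow _ h).trans (Dvd.intro _ rfl)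
      exact h1.trans h2

theorem tot_cusp {b g' k' r : ℕ} (hk' : 1 ≤ k') (L : Law (Fin b → ℤ))
    (hL : L.Four (3 / 8 * (1 / 4) ^ (k' + r)) k')
    {X : Finset (Fin g' ⊕ Fin g' → ZMod (2 ^ k'))}
    (hX : GoodX (2 ^ k') (3 / 8 * (1 / 4) ^ r * (1 / 4) ^ k') X)
    (c : Fin (b + g') ⊕ Fin (b + g') → ℤ) (hc : ∃ i, ¬ ((2 : ℤ) ∣ c i)) :
    0 ≤ ∑ i : L.Ix, ∑ x ∈ X, (L.p i : ℝ) * Bf (lT c (L.z i) (L.β i) x) := by
  classical
  obtain ⟨hXne, hXc⟩ := hX
  have hm0 : (0 : ℝ) < (X.card : ℝ) := by exact_mod_cast hXne.card_pos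
  obtain ⟨m, hm⟩ : ∃ m : ℝ, m = (X.card : ℝ) := ⟨_, rfl⟩
  rw [← hm] at hm0
  obtain ⟨v₁, hv₁⟩ : ∃ v : (Fin b → ℤ) →+ ℤ,
    v = fn (fun i => c (Sum.inl (Fin.castAdd g' i))) := ⟨_, rfl⟩
  obtain ⟨s, hs⟩ : ∃ s : Fin b → ℤ, s = (fun i => c (Sum.inr (Fin.castAdd g' i))) := ⟨_, rfl⟩
  obtain ⟨c₂, hc₂⟩ : ∃ c₂ : Fin g' ⊕ Fin g' → ℤ,
    c₂ = Sum.elim (fun t => c (Sum.inl (Fin.natAdd b t)))
      (fun t => c (Sum.inr (Fin.natAdd b t))) := ⟨_, rfl⟩
  obtain ⟨i₀, q, hQ, hq, hi₀⟩ := hL v₁ s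
  obtain ⟨lv, hlvk, hlv⟩ := TotC_lev k' c₂
  obtain ⟨S, hS⟩ : ∃ S : ℕ → ℂ,
    S = fun j : ℕ => ∑ x ∈ X, chr (2 ^ k') (fun t => (j : ℤ) * c₂ t) x := ⟨_, rfl⟩
  -- reduction to the product index set
  have hred : ∑ i : L.Ix, ∑ x ∈ X, (L.p i : ℝ) * Bf (lT c (L.z i) (L.β i) x) =
      m * ∑ w : L.Ix × X, ((L.p w.1 : ℝ) / m) * Bf (lT c (L.z w.1) (L.β w.1) w.2.1) := by
    rw [Fintype.sum_prod_type, Finset.mul_sum]
    refine Finset.sum_congr rfl fun i _ => ?_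
    rw [Finset.sum_coe_sort X (fun x => ((L.p i : ℝ) / m) * Bf (lT c (L.z i) (L.β i) x)),
      Finset.mul_sum]
    refine Finset.sum_congr rfl fun x _ => ?_
    field_simp
  rw [hred]
  refine mul_nonneg hm0.le ?_
  -- the Fourier coefficients
  have hC : ∀ j : ℕ, 1 ≤ j → ∃ e : ℝ, |e| = 1 ∧ (1 ≤ padicValNat 2 j → e = 1) ∧
      ∑ w : L.Ix × X, ((L.p w.1 : ℝ) / m) *
        Real.cos (2 * π * j * lT c (L.z w.1) (L.β w.1) w.2.1) =
      e * q (padicValNat 2 j) * ((S j).re / m) := by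
    intro j hj
    obtain ⟨e, he, he1, he2⟩ := TotC_sign j (∑ i, c (Sum.inl i) * c (Sum.inr i))
    refine ⟨e, he1, he2, ?_⟩
    have h1 := TotC_four L X c m j
    rw [← hv₁, ← hs, ← hc₂, hq j hj, he] at h1
    have h2 := congrArg Complex.re h1
    have h3 : (((e : ℂ) * (q (padicValNat 2 j) : ℂ)) *
        ((∑ x ∈ X, chr (2 ^ k') (fun t => (j : ℤ) * c₂ t) x) / (m : ℂ))).re =
        e * q (padicValNat 2 j) * ((S j).re / m) := by
      rw [← Complex.ofReal_mul, Complex.re_ofReal_mul, Complex.div_ofReal_re, hS]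
    rw [h3] at h2
    rw [← h2, Complex.re_sum]
    refine Finset.sum_congr rfl fun w _ => ?_
    rw [Complex.re_ofReal_mul]
    congr 1
    have h4 : 2 * (π : ℂ) * I * ((j : ℂ) * ((lT c (L.z w.1) (L.β w.1) w.2.1 : ℝ) : ℂ)) =
        ((2 * π * j * lT c (L.z w.1) (L.β w.1) w.2.1 : ℝ) : ℂ) * I := by
      push_cast
      ring
    rw [h4, Complex.exp_ofReal_mul_I_re]
  -- the sums over `X`
  have hS1 : ∀ j : ℕ, 1 ≤ j → lv ≤ padicValNat 2 j → S j = (m : ℂ) := by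
    intro j hj h
    have h1 := (hlv j hj).2 h
    rw [hS]
    show ∑ x ∈ X, chr (2 ^ k') (fun t => (j : ℤ) * c₂ t) x = (m : ℂ)
    rw [Finset.sum_congr rfl (fun x _ => TotC_chr (fun t => (j : ℤ) * c₂ t) h1 x)]
    rw [Finset.sum_const, nsmul_eq_mul, mul_one, hm]
    push_cast
    rfl
  have hη0 : (0 : ℝ) ≤ 3 / 8 * (1 / 4) ^ (k' + r) := by positivity
  have hηe : (3 / 8 * (1 / 4) ^ r * (1 / 4) ^ k' : ℝ) = 3 / 8 * (1 / 4) ^ (k' + r) := by
    rw [pow_add]
    ring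
  -- positivity of the level
  have hpos : 1 ≤ max i₀ lv := by
    by_contra hcon
    have hi : i₀ = 0 := by omega
    have hl : lv = 0 := by omega
    obtain ⟨hev, w, hw⟩ := hi₀ hi
    have h2 : ∀ t, (2 : ℤ) ∣ c₂ t := by
      intro t
      have h3 := (hlv 1 le_rfl).2 (by omega) t
      rw [Nat.cast_one, one_mul] at h3
      refine dvd_trans ?_ h3
      push_cast
      exact dvd_pow_self _ (by omega)
    obtain ⟨t, ht⟩ := hc
    apply ht
    rcases t with t | t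
    · refine Fin.addCases (fun i => ?_) (fun i => ?_) t
      · have h4 := hev (Pi.single i 1)
        rw [hv₁] at h4
        simpa [fn, Pi.single_apply] using h4
      · have h4 := h2 (Sum.inl i)
        rw [hc₂] at h4
        exact h4
    · refine Fin.addCases (fun i => ?_) (fun i => ?_) t
      · have h4 := congrFun hw i
        rw [hs] at h4
        have h5 : c (Sum.inr (Fin.castAdd g' i)) = 2 * w i := by
          simpa using h4
        rw [h5]
        exact Dvd.intro _ rfl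
      · have h4 := h2 (Sum.inr i)
        rw [hc₂] at h4
        exact h4
  -- the cases (a) and (b)
  have hab : (∃ a : ℕ → ℝ, RR lv a ∧ ∀ j : ℕ, 1 ≤ j → (S j).re / m = a (padicValNat 2 j)) →
      0 ≤ ∑ w : L.Ix × X, ((L.p w.1 : ℝ) / m) * Bf (lT c (L.z w.1) (L.β w.1) w.2.1) := by
    rintro ⟨a, ha, haS⟩
    refine cusp_a (fun w : L.Ix × X => (L.p w.1 : ℝ) / m)
      (fun w => lT c (L.z w.1) (L.β w.1) w.2.1) (QQ_mul hη0 hQ ha) hpos ?_ ?_
    · intro j hj hv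
      obtain ⟨e, he1, he2, he3⟩ := hC j hj
      rw [he3, haS j hj, hv, mul_assoc, abs_mul, he1, one_mul]
    · intro j hj hv
      obtain ⟨e, he1, he2, he3⟩ := hC j hj
      rw [he3, haS j hj, he2 hv, one_mul]
  rcases Nat.eq_zero_or_pos lv with h0 | h0
  · refine hab ⟨fun _ => 1, ⟨fun _ _ => rfl, fun v hv => ?_, fun v hv => ?_⟩, fun j hj => ?_⟩
    · omega
    · omega
    · rw [hS1 j hj (by omega), Complex.ofReal_re, div_self hm0.ne']
  rcases hXc c₂ with hA | ⟨θ₀, hθ, hB⟩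
  · refine cusp_b (fun w : L.Ix × X => (L.p w.1 : ℝ) / m)
      (fun w => lT c (L.z w.1) (L.β w.1) w.2.1) hη0 hQ h0 hlvk ?_ ?_
    · intro j hj hv
      obtain ⟨e, he1, he2, he3⟩ := hC j hj
      rw [he3, mul_assoc, abs_mul, he1, one_mul, abs_mul, mul_comm]
      refine mul_le_mul_of_nonneg_right ?_ (abs_nonneg _)
      have h1 : ∃ i, ¬ (((2 ^ k' : ℕ) : ℤ) ∣ (j : ℤ) * c₂ i) := by
        by_contra hcon
        push Not at hcon
        have h2 := (hlv j hj).1 hcon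
        omega
      have h2 := hA j h1
      rw [hηe, ← hm] at h2
      rw [abs_div, abs_of_pos hm0, div_le_iff₀ hm0]
      refine (Complex.abs_re_le_norm _).trans ?_
      rw [hS]
      exact h2
    · intro j hj hv
      obtain ⟨e, he1, he2, he3⟩ := hC j hj
      rw [he3, he2 (by omega), hS1 j hj hv, Complex.ofReal_re, div_self hm0.ne', one_mul, mul_one]
  · refine hab ⟨fun v => if lv ≤ v then 1 else if v + 1 = lv then θ₀ else 0,
      ⟨fun v hv => ?_, fun v hv => ?_, fun v hv => ?_⟩, fun j hj => ?_⟩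
    · exact if_pos hv
    · rw [if_neg (by omega), if_pos hv]
      exact hθ
    · rw [if_neg (by omega), if_neg (by omega)]
    · have hj2 : (∀ t, ((2 ^ k' : ℕ) : ℤ) ∣ 2 * ((j : ℤ) * c₂ t)) ↔ lv ≤ padicValNat 2 j + 1 := by
        have h1 := hlv (2 * j) (by omega)
        rw [padicValNat.mul (by norm_num) (by omega), padicValNat.self (by norm_num),
          add_comm 1] at h1
        rw [← h1]
        refine forall_congr' fun t => ?_
        push_cast
        rw [mul_assoc]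
      obtain ⟨hB1, hB2⟩ := hB j
      rcases lt_trichotomy (padicValNat 2 j + 1) lv with h1 | h1 | h1
      · have h2 : ∃ i, ¬ (((2 ^ k' : ℕ) : ℤ) ∣ 2 * ((j : ℤ) * c₂ i)) := by
          by_contra hcon
          push Not at hcon
          have h3 := hj2.1 hcon
          omega
        have h3 : S j = 0 := by
          rw [hS]
          exact hB1 h2
        show _ = if lv ≤ padicValNat 2 j then (1 : ℝ) else
          if padicValNat 2 j + 1 = lv then θ₀ else 0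
        rw [h3, if_neg (by omega), if_neg (by omega), Complex.zero_re, zero_div]
      · have h2 : ∃ i, ¬ (((2 ^ k' : ℕ) : ℤ) ∣ (j : ℤ) * c₂ i) := by
          by_contra hcon
          push Not at hcon
          have h3 := (hlv j hj).1 hcon
          omega
        have h3 : S j = ((θ₀ * m : ℝ) : ℂ) := by
          rw [hS, hm]
          push_cast
          exact hB2 (hj2.2 (by omega)) h2
        show _ = if lv ≤ padicValNat 2 j then (1 : ℝ) else
          if padicValNat 2 j + 1 = lv then θ₀ else 0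
        rw [h3, if_neg (by omega), if_pos h1, Complex.ofReal_re, mul_div_assoc,
          div_self hm0.ne', mul_one]
      · show _ = if lv ≤ padicValNat 2 j then (1 : ℝ) else
          if padicValNat 2 j + 1 = lv then θ₀ else 0
        rw [if_pos (by omega), hS1 j hj (by omega), Complex.ofReal_re, div_self hm0.ne']

end SlopeB
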