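import Pool.Agent.Lib.SlopeB.Defs
import Pool.Agent.Lib.SlopeB.Defs2
import Pool.Agent.Lib.SlopeB.TotC
import Pool.Agent.Lib.MP_6febbd_ag.Mv0

/-!
# Natural weights on the characteristics

PROOF. `M = L.K + k' + 1`, `n = 2^M`, `g = b + g'`. For `i : L.Ix`, `x ∈ X` let `Z(i,x) : Fin g ⊕ Fin g → ℤ` be
the integral vector with entries
`inl (castAdd a) ↦ 2^(M-1) * z_i a`, `inl (natAdd j) ↦ 2^(M-k') * (x (inl j)).val`,
`inr (castAdd a) ↦` the integer `m` with `m = 2^M * β_i (Pi.single a 1)` (`lev`, times `2^(M-K)`),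
`inr (natAdd j) ↦ 2^(M-k') * (x (inr j)).val` (`Fin.append`/`Fin.addCases`), and `pt (i,x)` its class modulo
`n`. Then `(∑_j c j * Z_j)/n + (∑ c (inl i) c (inr i))/2 = lT c z_i β_i x` (`Fin.sum_univ_add`,
`Fintype.sum_sum_type`; `β (fun a => c (inr (castAdd a))) = ∑ c (inr (castAdd a)) β (single a 1)`), so by
`lc_intCast` `Bf (lc n c (pt (i,x))) = Bf (lT c z_i β_i x)`.
Let `D = ∏_i (L.p i).den ≥ 1`, `n_i = (D * L.p i)` as a natural number (`L.p i ≥ 0`; `D * p i` is an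
integer because the denominator divides `D`). `w y = ∑_i ∑_{x ∈ X} if pt (i,x) = y then n_i else 0`,
`W = D * X.card` (`∑ n_i = D`), `≥ 1`. For every function `f` `∑_y w y f y = ∑_i ∑_{x∈X} n_i f (pt (i,x))`
(`Finset.sum_comm`, `Finset.sum_ite_eq`). `InW`: `tot_cusp` times `D`.
Support: if `w y ≠ 0` some `(i, x)` has `pt (i,x) = y`, `n_i ≠ 0`, so `L.p i ≠ 0`; `y t = (Z t : ZMod n)`, so
`Z t = (y t).val + n * P t` for an integer `P t`, and `Z t / n` is the required real number: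
`2^(M-1) z / 2^M = z/2`, `2^(M-k') v / 2^M = v / 2^k'`.
Tight: for `c = Sum.elim (append (c e ·) 0) 0` `lT = (c e z_i)/2` (`c e z = ∑ z_a c e (single a 1)`), and
`Bf (m/2) = -1/12` if `m` is even, `1/4 - 1/12 = 1/6` if `m` is odd (`Bf_add_int`, `m/2 = 1/2 + integer`,
`round (1/2)`), so `∑_i p_i Bf = (1/3)(1/6) - (2/3)(1/12) = 0` by `hT` (sum of all `p_i` is `1`).
-/

set_option autoImplicit false

open scoped Matrix.Norms.Elementwise Real Topology
open Complex Matrix MP6feb Filter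

noncomputable section

namespace SlopeB

private theorem tw_lin {b : ℕ} (f : (Fin b → ℤ) →+ ℝ) (v : Fin b → ℤ) :
    f v = ∑ a, (v a : ℝ) * f (Pi.single a 1) := by
  have h1 : v = ∑ a, v a • (Pi.single a 1 : Fin b → ℤ) := by
    funext j
    rw [Finset.sum_apply]
    simp [Pi.single_apply]
  conv_lhs => rw [h1]
  rw [map_sum]
  refine Finset.sum_congr rfl fun a _ => ?_
  rw [map_zsmul, zsmul_eq_mul]

private theorem tw_linZ {b : ℕ} (f : (Fin b → ℤ) →+ ℤ) (v : Fin b → ℤ) :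
    f v = ∑ a, v a * f (Pi.single a 1) := by
  have h1 : v = ∑ a, v a • (Pi.single a 1 : Fin b → ℤ) := by
    funext j
    rw [Finset.sum_apply]
    simp [Pi.single_apply]
  conv_lhs => rw [h1]
  rw [map_sum]
  refine Finset.sum_congr rfl fun a _ => ?_
  rw [map_zsmul, smul_eq_mul]

private theorem tw_den {ι : Type} [Fintype ι] (p : ι → ℚ) (hp : ∀ i, 0 ≤ p i) :
    ∃ D : ℕ, 1 ≤ D ∧ ∀ i, ∃ N : ℕ, (N : ℚ) = D * p i := by
  classical
  refine ⟨∏ i, (p i).den, Finset.prod_pos fun i _ => (p i).den_pos, fun i => ?_⟩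
  obtain ⟨d, hd⟩ := Finset.dvd_prod_of_mem (fun i => (p i).den) (Finset.mem_univ i)
  have h0 : 0 ≤ (p i).num := Rat.num_nonneg.2 (hp i)
  refine ⟨d * (p i).num.toNat, ?_⟩
  rw [hd]
  push_cast
  have h1 : (((p i).num.toNat : ℕ) : ℚ) = ((p i).num : ℚ) := by
    have h2 : (((p i).num.toNat : ℕ) : ℤ) = (p i).num := Int.toNat_of_nonneg h0
    exact_mod_cast h2
  have h3 : (p i) * ((p i).den : ℚ) = ((p i).num : ℚ) := Rat.mul_den_eq_num (p i)
  rw [h1, ← h3]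
  ring

private theorem tw_half (m : ℤ) : Bf ((m : ℝ) / 2) = if (2 : ℤ) ∣ m then -1 / 12 else 1 / 6 := by
  split_ifs with h
  · obtain ⟨k, rfl⟩ := h
    have h1 : (((2 * k : ℤ) : ℝ)) / 2 = 0 + (k : ℝ) := by
      push_cast
      ring
    rw [h1, Bf_add_int]
    unfold Bf
    rw [round_zero]
    norm_num
  · have h2 : m % 2 = 1 := by omega
    have h3 : m = 1 + 2 * (m / 2) := by omega
    have h1 : (m : ℝ) / 2 = 1 / 2 + ((m / 2 : ℤ) : ℝ) := by
      have h4 : (m : ℝ) = 1 + 2 * ((m / 2 : ℤ) : ℝ) := by exact_mod_cast h3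
      rw [h4]
      ring
    rw [h1, Bf_add_int]
    unfold Bf
    have h5 : round (1 / 2 : ℝ) = 1 := by
      rw [round_eq]
      norm_num
    rw [h5]
    norm_num

/-- the integral vector -/
private def twZ {b g' k' K : ℕ} (z : Fin b → ℤ) (m : Fin b → ℤ)
    (x : Fin g' ⊕ Fin g' → ZMod (2 ^ k')) : Fin (b + g') ⊕ Fin (b + g') → ℤ :=
  Sum.elim (Fin.append (fun a => 2 ^ (K + k') * z a)
      (fun j => 2 ^ (K + 1) * ((x (Sum.inl j)).val : ℤ)))
    (Fin.append (fun a => 2 ^ (k' + 1) * m a)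
      (fun j => 2 ^ (K + 1) * ((x (Sum.inr j)).val : ℤ)))

private theorem tw_inl {b g' k' K : ℕ} (z : Fin b → ℤ) (m : Fin b → ℤ)
    (x : Fin g' ⊕ Fin g' → ZMod (2 ^ k')) (t : Fin (b + g')) :
    ((twZ (K := K) z m x (Sum.inl t) : ℤ) : ℝ) / 2 ^ (K + k' + 1) =
      Fin.append (fun a => (z a : ℝ) / 2)
        (fun j => ((x (Sum.inl j)).val : ℝ) / 2 ^ k') t := by
  unfold twZ
  rw [Sum.elim_inl]
  refine Fin.addCases (fun a => ?_) (fun j => ?_) t
  · rw [Fin.append_left, Fin.append_left]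
    push_cast
    rw [pow_succ (2 : ℝ) (K + k')]
    field_simp
  · rw [Fin.append_right, Fin.append_right]
    push_cast
    rw [show K + k' + 1 = (K + 1) + k' by ring, pow_add (2 : ℝ) (K + 1) k']
    field_simp

private theorem tw_inr {b g' k' K : ℕ} (z : Fin b → ℤ) (m : Fin b → ℤ) (β : Fin b → ℝ)
    (hm : ∀ a, 2 ^ K * β a = m a)
    (x : Fin g' ⊕ Fin g' → ZMod (2 ^ k')) (t : Fin (b + g')) :
    ((twZ (K := K) z m x (Sum.inr t) : ℤ) : ℝ) / 2 ^ (K + k' + 1) =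
      Fin.append β (fun j => ((x (Sum.inr j)).val : ℝ) / 2 ^ k') t := by
  unfold twZ
  rw [Sum.elim_inr]
  refine Fin.addCases (fun a => ?_) (fun j => ?_) t
  · rw [Fin.append_left, Fin.append_left]
    push_cast
    rw [← hm a, show K + k' + 1 = (k' + 1) + K by ring, pow_add (2 : ℝ) (k' + 1) K]
    field_simp
  · rw [Fin.append_right, Fin.append_right]
    push_cast
    rw [show K + k' + 1 = (K + 1) + k' by ring, pow_add (2 : ℝ) (K + 1) k']
    field_simp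

private theorem tw_lT {b g' k' K : ℕ} (z : Fin b → ℤ) (m : Fin b → ℤ)
    (β : (Fin b → ℤ) →+ ℝ) (hm : ∀ a, 2 ^ K * β (Pi.single a 1) = m a)
    (x : Fin g' ⊕ Fin g' → ZMod (2 ^ k')) (c : Fin (b + g') ⊕ Fin (b + g') → ℤ) :
    (∑ j, (c j : ℝ) * ((twZ (K := K) z m x j : ℤ) : ℝ)) / 2 ^ (K + k' + 1) +
      (∑ i, (c (Sum.inl i) : ℝ) * (c (Sum.inr i) : ℝ)) / 2 = lT c z β x := by
  have h1 : (∑ j, (c j : ℝ) * ((twZ (K := K) z m x j : ℤ) : ℝ)) / 2 ^ (K + k' + 1) =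
      ∑ t, (c (Sum.inl t) : ℝ) * Fin.append (fun a => (z a : ℝ) / 2)
        (fun j => ((x (Sum.inl j)).val : ℝ) / 2 ^ k') t +
      ∑ t, (c (Sum.inr t) : ℝ) * Fin.append (fun a => β (Pi.single a 1))
        (fun j => ((x (Sum.inr j)).val : ℝ) / 2 ^ k') t := by
    rw [Finset.sum_div, Fintype.sum_sum_type]
    congr 1
    · refine Finset.sum_congr rfl fun t _ => ?_
      rw [mul_div_assoc, tw_inl]
    · refine Finset.sum_congr rfl fun t _ => ?_
      rw [mul_div_assoc, tw_inr z m (fun a => β (Pi.single a 1)) hm x t]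
  rw [h1, Fin.sum_univ_add, Fin.sum_univ_add]
  simp only [Fin.append_left, Fin.append_right]
  unfold lT
  rw [tw_lin β (fun i => c (Sum.inr (Fin.castAdd g' i)))]
  have h2 : ∑ i, (c (Sum.inl (Fin.castAdd g' i)) : ℝ) * ((z i : ℝ) / 2) =
      (∑ i, (c (Sum.inl (Fin.castAdd g' i)) : ℝ) * (z i : ℝ)) / 2 := by
    rw [Finset.sum_div]
    exact Finset.sum_congr rfl fun i _ => by ring
  have h3 : ∑ j, (c (Sum.inl (Fin.natAdd b j)) : ℝ) * (((x (Sum.inl j)).val : ℝ) / 2 ^ k') =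
      (∑ j, (c (Sum.inl (Fin.natAdd b j)) : ℝ) * ((x (Sum.inl j)).val : ℝ)) / 2 ^ k' := by
    rw [Finset.sum_div]
    exact Finset.sum_congr rfl fun i _ => by ring
  have h4 : ∑ j, (c (Sum.inr (Fin.natAdd b j)) : ℝ) * (((x (Sum.inr j)).val : ℝ) / 2 ^ k') =
      (∑ j, (c (Sum.inr (Fin.natAdd b j)) : ℝ) * ((x (Sum.inr j)).val : ℝ)) / 2 ^ k' := by
    rw [Finset.sum_div]
    exact Finset.sum_congr rfl fun i _ => by ring
  rw [h2, h3, h4]
  ring

private theorem tw_val {n : ℕ} [NeZero n] (Z : ℤ) :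
    ((((Z : ZMod n)).val : ℕ) : ℝ) / (n : ℝ) + ((Z / (n : ℤ) : ℤ) : ℝ) = (Z : ℝ) / n := by
  have hn : (n : ℝ) ≠ 0 := by exact_mod_cast NeZero.ne n
  have h1 : (((Z : ZMod n).val : ℕ) : ℤ) = Z % (n : ℤ) := ZMod.val_intCast Z
  have h2 : (((Z : ZMod n).val : ℕ) : ℤ) + (n : ℤ) * (Z / n) = Z := by
    rw [h1]
    exact Int.emod_add_mul_ediv Z n
  have h3 : ((((Z : ZMod n)).val : ℕ) : ℝ) + (n : ℝ) * ((Z / (n : ℤ) : ℤ) : ℝ) = (Z : ℝ) := by
    exact_mod_cast h2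
  rw [← h3]
  field_simp

theorem tot_weights {b g' k' r : ℕ} (hk' : 1 ≤ k') (L : Law (Fin b → ℤ))
    (hL : L.Four (3 / 8 * (1 / 4) ^ (k' + r)) k')
    {X : Finset (Fin g' ⊕ Fin g' → ZMod (2 ^ k'))}
    (hX : GoodX (2 ^ k') (3 / 8 * (1 / 4) ^ r * (1 / 4) ^ k') X)
    {E : Type} {c : E → (Fin b → ℤ) →+ ℤ} (hT : L.Tight c) :
    ∃ (M W : ℕ) (w : (Fin (b + g') ⊕ Fin (b + g') → ZMod (2 ^ M)) → ℕ),
      1 ≤ M ∧ 1 ≤ W ∧ InW (b + g') (2 ^ M) W w ∧
      (∀ y, w y ≠ 0 → ∃ i : L.Ix, L.p i ≠ 0 ∧ ∃ x ∈ X, ∃ P Q : Fin (b + g') → ℤ,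
        (fun t => ((y (Sum.inl t)).val : ℝ) / ((2 ^ M : ℕ) : ℝ) + (P t : ℝ)) =
          Fin.append (fun a => (L.z i a : ℝ) / 2)
            (fun j => ((x (Sum.inl j)).val : ℝ) / ((2 ^ k' : ℕ) : ℝ)) ∧
        (fun t => ((y (Sum.inr t)).val : ℝ) / ((2 ^ M : ℕ) : ℝ) + (Q t : ℝ)) =
          Fin.append (fun a => L.β i (Pi.single a 1))
            (fun j => ((x (Sum.inr j)).val : ℝ) / ((2 ^ k' : ℕ) : ℝ))) ∧
      (∀ e, c e ≠ 0 → ∑ y, (w y : ℝ) * Bf (lc (2 ^ M) (Sum.elim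
        (Fin.append (fun a => c e (Pi.single a 1)) (fun _ : Fin g' => (0 : ℤ)))
          (fun _ => 0)) y) = 0) := by
  classical
  obtain ⟨D, hD1, hD⟩ := tw_den L.p L.p_nonneg
  choose N hN using hD
  choose m hm using L.lev
  set M : ℕ := L.K + k' + 1 with hM
  set Z : L.Ix → (Fin g' ⊕ Fin g' → ZMod (2 ^ k')) → Fin (b + g') ⊕ Fin (b + g') → ℤ :=
    fun i x => twZ (K := L.K) (L.z i) (fun a => m i (Pi.single a 1)) x with hZ
  set pt : L.Ix → (Fin g' ⊕ Fin g' → ZMod (2 ^ k')) →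
    Fin (b + g') ⊕ Fin (b + g') → ZMod (2 ^ M) := fun i x t => ((Z i x t : ℤ) : ZMod (2 ^ M))
    with hpt
  set w : (Fin (b + g') ⊕ Fin (b + g') → ZMod (2 ^ M)) → ℕ := fun y =>
    ∑ i, ∑ x ∈ X, if pt i x = y then N i else 0 with hw
  have hsumN : ∑ i, N i = D := by
    have h1 : ((∑ i, N i : ℕ) : ℚ) = D := by
      push_cast
      rw [Finset.sum_congr rfl fun i _ => hN i, ← Finset.mul_sum, L.p_sum, mul_one]
    exact_mod_cast h1
  have hNR : ∀ i, (N i : ℝ) = (D : ℝ) * ((L.p i : ℚ) : ℝ) := by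
    intro i
    have h1 := hN i
    exact_mod_cast congrArg (fun q : ℚ => (q : ℝ)) h1
  have hkey : ∀ f : (Fin (b + g') ⊕ Fin (b + g') → ZMod (2 ^ M)) → ℝ,
      ∑ y, (w y : ℝ) * f y = ∑ i, ∑ x ∈ X, (N i : ℝ) * f (pt i x) := by
    intro f
    have h1 : ∀ y, (w y : ℝ) * f y =
        ∑ i, ∑ x ∈ X, (if pt i x = y then (N i : ℝ) * f y else 0) := by
      intro y
      simp only [hw]
      push_cast
      rw [Finset.sum_mul]
      refine Finset.sum_congr rfl fun i _ => ?_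
      rw [Finset.sum_mul]
      refine Finset.sum_congr rfl fun x _ => ?_
      split_ifs <;> simp
    rw [Finset.sum_congr rfl fun y _ => h1 y, Finset.sum_comm]
    refine Finset.sum_congr rfl fun i _ => ?_
    rw [Finset.sum_comm]
    refine Finset.sum_congr rfl fun x _ => ?_
    rw [Finset.sum_ite_eq]
    simp
  have hlc : ∀ (c' : Fin (b + g') ⊕ Fin (b + g') → ℤ) i x,
      Bf (lc (2 ^ M) c' (pt i x)) = Bf (lT c' (L.z i) (L.β i) x) := by
    intro c' i x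
    have h1 := lc_intCast (n := 2 ^ M) c' (Z i x)
    have h2 := tw_lT (K := L.K) (L.z i) (fun a => m i (Pi.single a 1)) (L.β i)
      (fun a => hm i (Pi.single a 1)) x c'
    rw [← h2]
    rw [hpt]
    rw [h1]
    push_cast
    rfl
  have hWsum : ∑ y, w y = D * X.card := by
    simp only [hw]
    rw [Finset.sum_comm]
    have h1 : ∀ i, ∑ y, ∑ x ∈ X, (if pt i x = y then N i else 0) = N i * X.card := by
      intro i
      rw [Finset.sum_comm]
      have h2 : ∀ x ∈ X, ∑ y, (if pt i x = y then N i else 0) = N i := by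
        intro x _
        rw [Finset.sum_ite_eq]
        simp
      rw [Finset.sum_congr rfl h2, Finset.sum_const, smul_eq_mul, mul_comm]
    rw [Finset.sum_congr rfl fun i _ => h1 i, ← Finset.sum_mul, hsumN]
  refine ⟨M, D * X.card, w, by omega, ?_, ⟨hWsum, ?_⟩, ?_, ?_⟩
  · exact Nat.mul_pos hD1 (Finset.card_pos.2 hX.1)
  · intro c' hc'
    rw [hkey]
    have h1 := tot_cusp hk' L hL hX c' hc'
    have h2 : ∑ i, ∑ x ∈ X, (N i : ℝ) * Bf (lc (2 ^ M) c' (pt i x)) =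
        (D : ℝ) * ∑ i, ∑ x ∈ X, (L.p i : ℝ) * Bf (lT c' (L.z i) (L.β i) x) := by
      rw [Finset.mul_sum]
      refine Finset.sum_congr rfl fun i _ => ?_
      rw [Finset.mul_sum]
      refine Finset.sum_congr rfl fun x _ => ?_
      rw [hlc, hNR i]
      ring
    rw [h2]
    exact mul_nonneg (Nat.cast_nonneg D) h1
  · intro y hy
    obtain ⟨i, _, hi⟩ := Finset.exists_ne_zero_of_sum_ne_zero hy
    obtain ⟨x, hx, hix⟩ := Finset.exists_ne_zero_of_sum_ne_zero hi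
    have h1 : pt i x = y ∧ N i ≠ 0 := by
      by_cases h : pt i x = y
      · rw [if_pos h] at hix
        exact ⟨h, hix⟩
      · rw [if_neg h] at hix
        exact absurd rfl hix
    obtain ⟨h2, h3⟩ := h1
    have hcast : ((2 ^ M : ℕ) : ℝ) = 2 ^ (L.K + k' + 1) := by
      rw [hM]
      push_cast
      rfl
    have hcast' : ((2 ^ k' : ℕ) : ℝ) = 2 ^ k' := by push_cast; rfl
    refine ⟨i, ?_, x, hx, fun t => Z i x (Sum.inl t) / ((2 ^ M : ℕ) : ℤ),
      fun t => Z i x (Sum.inr t) / ((2 ^ M : ℕ) : ℤ), ?_, ?_⟩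
    · intro h0
      apply h3
      have h4 := hN i
      rw [h0, mul_zero] at h4
      exact_mod_cast h4
    · funext t
      rw [← h2]
      change ((((Z i x (Sum.inl t) : ℤ) : ZMod (2 ^ M)).val : ℕ) : ℝ) / ((2 ^ M : ℕ) : ℝ) +
        ((Z i x (Sum.inl t) / ((2 ^ M : ℕ) : ℤ) : ℤ) : ℝ) = _
      rw [tw_val, hcast, hcast']
      exact tw_inl _ _ _ _
    · funext t
      rw [← h2]
      change ((((Z i x (Sum.inr t) : ℤ) : ZMod (2 ^ M)).val : ℕ) : ℝ) / ((2 ^ M : ℕ) : ℝ) +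
        ((Z i x (Sum.inr t) / ((2 ^ M : ℕ) : ℤ) : ℤ) : ℝ) = _
      rw [tw_val, hcast, hcast']
      exact tw_inr _ _ (fun a => L.β i (Pi.single a 1)) (fun a => hm i (Pi.single a 1)) _ _
  · intro e he
    rw [hkey]
    have hTe := hT e he
    have h1 : ∀ i x, Bf (lc (2 ^ M) (Sum.elim
        (Fin.append (fun a => c e (Pi.single a 1)) (fun _ : Fin g' => (0 : ℤ)))
          (fun _ => 0)) (pt i x)) = if (2 : ℤ) ∣ c e (L.z i) then -1 / 12 else 1 / 6 := by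
      intro i x
      rw [hlc, ← tw_half]
      congr 1
      unfold lT
      have h2 : (c e (L.z i) : ℤ) = ∑ a, L.z i a * c e (Pi.single a 1) := tw_linZ (c e) (L.z i)
      have h3 : L.β i (fun _ => 0) = 0 := map_zero (L.β i)
      simp only [Sum.elim_inl, Sum.elim_inr, Fin.append_left, Fin.append_right, Int.cast_zero,
        zero_mul, mul_zero, Finset.sum_const_zero, add_zero, zero_div, h3]
      rw [h2]
      push_cast
      congr 1
      exact Finset.sum_congr rfl fun a _ => mul_comm _ _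
    have h2 : ∑ i, ∑ x ∈ X, (N i : ℝ) * Bf (lc (2 ^ M) (Sum.elim
        (Fin.append (fun a => c e (Pi.single a 1)) (fun _ : Fin g' => (0 : ℤ)))
          (fun _ => 0)) (pt i x)) = (X.card : ℝ) * (D : ℝ) *
        ∑ i, ((L.p i : ℚ) : ℝ) * (if (2 : ℤ) ∣ c e (L.z i) then -1 / 12 else 1 / 6) := by
      rw [Finset.mul_sum]
      refine Finset.sum_congr rfl fun i _ => ?_
      rw [Finset.sum_congr rfl fun x _ => by rw [h1 i x], Finset.sum_const, nsmul_eq_mul, hNR i]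
      ring
    rw [h2]
    have h3 : ∑ i, ((L.p i : ℚ) : ℝ) * (if (2 : ℤ) ∣ c e (L.z i) then (-1 / 12 : ℝ) else 1 / 6) =
        ((∑ i, (if (2 : ℤ) ∣ c e (L.z i) then 0 else L.p i) : ℚ) : ℝ) / 4 -
          ((∑ i, L.p i : ℚ) : ℝ) / 12 := by
      push_cast
      rw [Finset.sum_div, Finset.sum_div, ← Finset.sum_sub_distrib]
      refine Finset.sum_congr rfl fun i _ => ?_
      split_ifs
      · push_cast
        ring
      · ring
    rw [h3, L.p_sum]
    have h4 : (∑ i, (if (2 : ℤ) ∣ c e (L.z i) then 0 else L.p i) : ℚ) = 1 / 3 := by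
      rw [← hTe]
    rw [h4]
    push_cast
    ring

end SlopeB
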