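import Pool.Agent.Lib.SlopeB.Defs
import Pool.Agent.Lib.SlopeB.WFam
import Pool.Agent.Lib.MP_6febbd_ag.ThD
import Pool.Agent.Lib.MP_6febbd_ag.Mv0

/-!
# Weighted power sums vanish at the boundary

PROOF. This is `Pj_cusp` in `MP_6febbd_ag/Cusp.lean` with weights; copy it (including the private
lemma `two_part`, with a new prefix) and adapt: the constant is
`∑ w ∈ famW, (∏ x, (C x ^ (24 n²)) ^ w x) ^ j`, and for `w` in the family
`∏_x ‖TX n x τ'‖ ^ w x ≤ ∏_x (C x ^ (24 n²))^(w x) · exp(-(π s 24 n²) ∑_x w x (Bf (lc n c x) + 1/12))`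
with `∑_x w x (Bf + 1/12) ≥ W/12` by `InW`.
-/

set_option autoImplicit false

open scoped Matrix.Norms.Elementwise Real Topology
open Complex Matrix MP6feb Filter

noncomputable section

namespace SlopeB

private lemma wcusp_two_part {g : ℕ} : ∀ (N : ℕ) (v : Fin g → ℤ), (∑ i, (v i).natAbs) ≤ N → v ≠ 0 →
    ∃ (e : ℕ) (w : Fin g → ℤ), (∃ i, ¬ ((2 : ℤ) ∣ w i)) ∧ ∀ i, v i = 2 ^ e * w i := by
  intro N
  induction N with
  | zero =>
    intro v hv hne
    exfalso
    apply hne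
    funext i
    have h1 : (v i).natAbs ≤ ∑ i, (v i).natAbs :=
      Finset.single_le_sum (f := fun i => (v i).natAbs) (fun _ _ => Nat.zero_le _)
        (Finset.mem_univ i)
    have : (v i).natAbs = 0 := by omega
    simpa using this
  | succ N ih =>
    intro v hv hne
    by_cases h : ∃ i, ¬ ((2 : ℤ) ∣ v i)
    · exact ⟨0, v, h, fun i => by simp⟩
    · push Not at h
      choose w hw using h
      have hwne : w ≠ 0 := by
        intro h0
        apply hne
        funext i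
        rw [hw i, h0]
        simp
      have hsum : (∑ i, (w i).natAbs) ≤ N := by
        have h2 : ∑ i, (v i).natAbs = 2 * ∑ i, (w i).natAbs := by
          rw [Finset.mul_sum]
          refine Finset.sum_congr rfl fun i _ => ?_
          rw [hw i, Int.natAbs_mul]
          rfl
        have h3 : 0 < ∑ i, (w i).natAbs := by
          rw [Nat.pos_iff_ne_zero]
          intro h0
          apply hwne
          funext i
          have := (Finset.sum_eq_zero_iff.mp h0) i (Finset.mem_univ i)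
          simpa using this
        omega
      obtain ⟨e, w', hw', he⟩ := ih w hsum hwne
      refine ⟨e + 1, w', hw', fun i => ?_⟩
      rw [hw i, he i]
      ring

theorem Pw_cusp {g n W j : ℕ} [NeZero n] :
    VanishesAtBoundary g (n ^ 2 * W * j) (Pw g n W j) := by
  intro τ hτ v hv
  have hn0 : (n : ℝ) ≠ 0 := by exact_mod_cast NeZero.ne n
  obtain ⟨e, w, hw, hvw⟩ := wcusp_two_part _ v le_rfl hv
  -- decay constants
  have hdec : ∀ x : Fin g ⊕ Fin g → ZMod n, ∃ C : ℝ, 0 ≤ C ∧ ∀ s : ℝ, 0 ≤ s →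
      ‖thx n x (τ + ((s : ℂ) * I) • Matrix.of (fun i j => (w i : ℂ) * (w j : ℂ)))‖ ≤
        C * Real.exp (-(π * s * ((∑ i, (w i : ℝ) * (((x (Sum.inl i)).val : ℝ) / n)) -
          round (∑ i, (w i : ℝ) * (((x (Sum.inl i)).val : ℝ) / n))) ^ 2)) := fun x =>
    th_decay _ _ hτ w
  choose C hC0 hC using hdec
  set c : Fin g ⊕ Fin g → ℤ := Sum.elim w (fun _ => 0) with hc
  have hc2 : ∃ i, ¬ ((2 : ℤ) ∣ c i) := by
    obtain ⟨i, hi⟩ := hw
    exact ⟨Sum.inl i, by simpa [hc] using hi⟩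
  have hlc : ∀ x : Fin g ⊕ Fin g → ZMod n,
      lc n c x = ∑ i, (w i : ℝ) * (((x (Sum.inl i)).val : ℝ) / n) := by
    intro x
    unfold lc
    rw [Fintype.sum_sum_type]
    simp only [hc, Sum.elim_inl, Sum.elim_inr, Int.cast_zero, zero_mul, mul_zero,
      Finset.sum_const_zero, add_zero, zero_div]
    rw [Finset.sum_div]
    exact Finset.sum_congr rfl fun i _ => by ring
  have hC' : ∀ (x : Fin g ⊕ Fin g → ZMod n) (s : ℝ), 0 ≤ s →
      ‖TX n x (τ + ((s : ℂ) * I) • Matrix.of (fun i j => (w i : ℂ) * (w j : ℂ)))‖ ≤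
        C x ^ (24 * n ^ 2) * Real.exp (-(π * s * (24 * n ^ 2) * (Bf (lc n c x) + 1 / 12))) := by
    intro x s hs
    unfold TX
    rw [norm_pow]
    refine (pow_le_pow_left₀ (norm_nonneg _) (hC x s hs) _).trans ?_
    rw [mul_pow, ← Real.exp_nat_mul, ← hlc x]
    refine le_of_eq ?_
    congr 2
    unfold Bf
    push_cast
    ring
  refine ⟨∑ w ∈ famW g n W, (∏ x, (C x ^ (24 * n ^ 2)) ^ w x) ^ j, fun t ht => ?_⟩
  -- rewrite the ray
  set s : ℝ := t * (2 ^ e) ^ 2 with hs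
  have hs0 : 0 ≤ s := by positivity
  have hst : t ≤ s := by
    have h1 : (1 : ℝ) ≤ (2 ^ e) ^ 2 := one_le_pow₀ (one_le_pow₀ (by norm_num))
    calc t = t * 1 := by ring
      _ ≤ t * (2 ^ e) ^ 2 := mul_le_mul_of_nonneg_left h1 ht
  have hray : τ + ((t : ℂ) * I) • Matrix.of (fun i j => (v i : ℂ) * (v j : ℂ)) =
      τ + ((s : ℂ) * I) • Matrix.of (fun i j => (w i : ℂ) * (w j : ℂ)) := by
    congr 1
    ext i j
    simp only [Matrix.smul_apply, Matrix.of_apply, smul_eq_mul, hs, hvw i, hvw j]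
    push_cast
    ring
  rw [hray]
  set τ' := τ + ((s : ℂ) * I) • Matrix.of (fun i j => (w i : ℂ) * (w j : ℂ)) with hτ'
  unfold Pw
  refine (norm_sum_le _ _).trans ?_
  rw [Finset.sum_mul]
  refine Finset.sum_le_sum fun u hu => ?_
  have hfam : InW g n W u := mem_famW.mp hu
  have hprod : ‖∏ x, TX n x τ' ^ u x‖ ≤
      (∏ x, (C x ^ (24 * n ^ 2)) ^ u x) * Real.exp (-(2 * π * (n ^ 2 * W) * t)) := by
    rw [norm_prod]
    have hx : ∀ x ∈ (Finset.univ : Finset (Fin g ⊕ Fin g → ZMod n)), ‖TX n x τ' ^ u x‖ ≤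
        (C x ^ (24 * n ^ 2)) ^ u x *
          Real.exp ((u x : ℝ) * -(π * s * (24 * n ^ 2) * (Bf (lc n c x) + 1 / 12))) := by
      intro x _
      rw [norm_pow]
      refine (pow_le_pow_left₀ (norm_nonneg _) (hC' x s hs0) _).trans ?_
      rw [mul_pow, ← Real.exp_nat_mul]
    refine (Finset.prod_le_prod (fun x _ => norm_nonneg _) hx).trans ?_
    rw [Finset.prod_mul_distrib, ← Real.exp_sum]
    refine mul_le_mul_of_nonneg_left ?_
      (Finset.prod_nonneg fun x _ => pow_nonneg (pow_nonneg (hC0 x) _) _)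
    rw [Real.exp_le_exp]
    have hcast : ∑ x, (u x : ℝ) = (W : ℝ) := by
      rw [← hfam.1]
      push_cast
      rfl
    have hsum : ∑ x, (u x : ℝ) * -(π * s * (24 * n ^ 2) * (Bf (lc n c x) + 1 / 12)) =
        -(π * s * (24 * (n : ℝ) ^ 2) * (∑ x, (u x : ℝ) * Bf (lc n c x) + W * (1 / 12 : ℝ))) := by
      rw [← hcast, Finset.sum_mul, ← Finset.sum_add_distrib, Finset.mul_sum,
        ← Finset.sum_neg_distrib]
      exact Finset.sum_congr rfl fun x _ => by ring
    rw [hsum, neg_le_neg_iff]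
    have hB := hfam.2 c hc2
    have hπ := Real.pi_pos
    have hK : 0 ≤ π * s * (24 * (n : ℝ) ^ 2) := by positivity
    have h1 : π * s * (24 * (n : ℝ) ^ 2) * (W * (1 / 12 : ℝ)) ≤
        π * s * (24 * (n : ℝ) ^ 2) * (∑ x, (u x : ℝ) * Bf (lc n c x) + W * (1 / 12 : ℝ)) :=
      mul_le_mul_of_nonneg_left (by linarith) hK
    refine le_trans ?_ h1
    have h2 : 0 ≤ 2 * π * ((n : ℝ) ^ 2 * W) := by positivity
    calc 2 * π * ((n : ℝ) ^ 2 * W) * t ≤ 2 * π * ((n : ℝ) ^ 2 * W) * s :=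
          mul_le_mul_of_nonneg_left hst h2
      _ = π * s * (24 * (n : ℝ) ^ 2) * (W * (1 / 12 : ℝ)) := by ring
  rw [norm_pow]
  refine (pow_le_pow_left₀ (norm_nonneg _) hprod _).trans ?_
  rw [mul_pow, ← Real.exp_nat_mul]
  refine le_of_eq ?_
  congr 2
  push_cast
  ring

end SlopeB
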