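import Pool.Agent.Lib.SlopeB.Defs
import Pool.Agent.Lib.SlopeB.Defs2
import Pool.Agent.Lib.SlopeB.EvAll
import Pool.Agent.Lib.SlopeB.WFam
import Pool.Agent.Lib.SlopeB.WCusp
import Pool.Agent.Lib.SlopeB.PosB
import Pool.Agent.Lib.SlopeB.PwLim
import Pool.Agent.Lib.SlopeB.LimPer
import Pool.Agent.Lib.SlopeB.Blk
import Pool.Agent.Lib.SlopeB.Sys
import Pool.Agent.Lib.SlopeB.LawA
import Pool.Agent.Lib.SlopeB.TotW
import Pool.Agent.Lib.MP_6febbd_ag.LatE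
import Pool.Agent.Lib.MP_6febbd_ag.ThF

/-!
# The boundary theorem for systems
-/

set_option autoImplicit false

open scoped Matrix.Norms.Elementwise Real Topology
open Complex Matrix MP6feb Filter

noncomputable section

namespace SlopeB

private theorem bndM_lat {g' : ℕ} {τ₂ : Matrix (Fin g') (Fin g') ℂ} (h2 : τ₂ ∈ Siegel g')
    (v : Fin g' → ℂ) : ∃ ξ : Fin g' ⊕ Fin g' → ℝ, Lat τ₂ ξ = v := by
  cases g' with
  | zero => exact ⟨fun _ => 0, funext fun i => i.elim0⟩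
  | succ k =>
    obtain ⟨L, hL⟩ := exists_crd h2
    obtain ⟨ξ, hξ⟩ := L.surjective v
    exact ⟨ξ, by rw [← hL]; exact hξ⟩

private theorem bndM_lat_add {g' : ℕ} (τ₂ : Matrix (Fin g') (Fin g') ℂ)
    (x y : Fin g' ⊕ Fin g' → ℝ) (j : Fin g') :
    Lat τ₂ (fun i => x i + y i) j = Lat τ₂ x j + Lat τ₂ y j := by
  simp only [MP6feb.Lat, Complex.ofReal_add, mul_add, Finset.sum_add_distrib]
  ring

private theorem bndM_th {g' k : ℕ} {τ₂ : Matrix (Fin g') (Fin g') ℂ} (h2 : τ₂ ∈ Siegel g')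
    (x : Fin g' ⊕ Fin g' → ZMod (2 ^ k)) (ξ : Fin g' ⊕ Fin g' → ℝ)
    (h : thS (2 ^ k) ξ x τ₂ ≠ 0) :
    Th τ₂ (fun j => Lat τ₂ (Sum.elim (fun j => ((x (Sum.inl j)).val : ℝ) / ((2 ^ k : ℕ) : ℝ))
      (fun j => ((x (Sum.inr j)).val : ℝ) / ((2 ^ k : ℕ) : ℝ))) j + Lat τ₂ ξ j) ≠ 0 := by
  intro h0
  apply h
  unfold thS
  rw [th_eq_Th h2]
  have h1 : Lat τ₂ (Sum.elim (fun i => ((x (Sum.inl i)).val : ℝ) / ((2 ^ k : ℕ) : ℝ) +
      ξ (Sum.inl i)) (fun i => ((x (Sum.inr i)).val : ℝ) / ((2 ^ k : ℕ) : ℝ) +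
      ξ (Sum.inr i))) = fun j => Lat τ₂ (Sum.elim
        (fun j => ((x (Sum.inl j)).val : ℝ) / ((2 ^ k : ℕ) : ℝ))
        (fun j => ((x (Sum.inr j)).val : ℝ) / ((2 ^ k : ℕ) : ℝ))) j + Lat τ₂ ξ j := by
    funext j
    rw [← bndM_lat_add]
    congr 1
    funext i
    cases i <;> rfl
  rw [h1, h0, mul_zero]

theorem boundary_nz {b g' : ℕ} {E : Type} [Fintype E] (c : E → Fin b → ℤ)
    (hc : IsSys (fun e => fn (c e))) (hne : ∀ e, c e ≠ 0)
    {τ₀ : Matrix (Fin (b + g')) (Fin (b + g')) ℂ} (hsym : τ₀.IsSymm)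
    (h2 : τ₀.submatrix (Fin.natAdd b) (Fin.natAdd b) ∈ Siegel g') :
    ∃ (m : ℕ) (F : Matrix (Fin (b + g')) (Fin (b + g')) ℂ → ℂ) (ℓ : ℂ), 1 ≤ m ∧
      IsSiegelForm (b + g') (12 * m) F ∧ VanishesAtBoundary (b + g') m F ∧ ℓ ≠ 0 ∧
      Tendsto (fun p : Matrix (Fin (b + g')) (Fin (b + g')) ℂ × (E → ℂ) =>
        F (p.1 + cone (fun e => Fin.append (c e) (fun _ : Fin g' => (0 : ℤ))) p.2) *
          cexp (-(2 * π * I * (m : ℂ) * ∑ e, p.2 e)))
        (𝓝 τ₀ ×ˢ ImInf E) (𝓝 ℓ) := by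
  classical
  obtain ⟨r, hr⟩ := lawP_all b (fun e => fn (c e)) hc
  choose ξ hξ using fun h : Fin b → ℤ => bndM_lat h2 (blkW τ₀ h)
  have hfin : (OO (fun e => fn (c e))).Finite := OO_finite hc
  have hε : (0 : ℝ) < 3 / 8 * (1 / 4) ^ r := by positivity
  obtain ⟨k', ⟨X, hX, hXnz⟩, hk'⟩ := ((evX_all g' _ h2 (hfin.toFinset.image ξ) _ hε).and
    (eventually_ge_atTop 1)).exists
  -- the family
  let F : {x // x ∈ X} → (Fin b → ℤ) → ℂ := fun x h =>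
    blkC τ₀ h * blkU τ₀ h (fun j => ((x.1 (Sum.inl j)).val : ℝ) / ((2 ^ k' : ℕ) : ℝ))
      (fun j => ((x.1 (Sum.inr j)).val : ℝ) / ((2 ^ k' : ℕ) : ℝ)) *
    Th (τ₀.submatrix (Fin.natAdd b) (Fin.natAdd b))
      (fun j => Lat (τ₀.submatrix (Fin.natAdd b) (Fin.natAdd b))
        (Sum.elim (fun j => ((x.1 (Sum.inl j)).val : ℝ) / ((2 ^ k' : ℕ) : ℝ))
          (fun j => ((x.1 (Sum.inr j)).val : ℝ) / ((2 ^ k' : ℕ) : ℝ))) j + blkW τ₀ h j)
  have hF : ∀ x, ∀ h ∈ OO (fun e => fn (c e)), F x h ≠ 0 := by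
    intro x h hh
    refine mul_ne_zero (mul_ne_zero (Complex.exp_ne_zero _) (Complex.exp_ne_zero _)) ?_
    rw [← hξ h]
    exact bndM_th h2 x.1 (ξ h) (hXnz x.1 x.2 (ξ h)
      (Finset.mem_image_of_mem _ (hfin.mem_toFinset.mpr hh)))
  obtain ⟨L, hLN, hLF, hLT⟩ := hr k' {x // x ∈ X} inferInstance F hF
  obtain ⟨M, W, w, hM, hW, hw, hsupp, htight⟩ := tot_weights hk' L hLF hX hLT
  have hsp : ∀ h : Fin b → ℤ, (∀ e, ∑ i, c e i * h i = 0) → h = 0 := fun h hh =>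
    hc.sp h fun e => hh e
  obtain ⟨c₀, T₀, hc₀, hT₀, hpos⟩ := exists_posIm_cone c hsp h2
  have hodd : ∀ e, ∃ i, ¬ ((2 : ℤ) ∣ Fin.append (c e) (fun _ : Fin g' => (0 : ℤ)) i) := by
    intro e
    have hfe : (fun e => fn (c e)) e ≠ 0 := by
      intro h0
      apply hne e
      funext i
      have h1 := DFunLike.congr_fun h0 (Pi.single i 1)
      simpa [fn, Pi.single_apply] using h1
    obtain ⟨z, hz⟩ := exists_odd hc hfe
    by_contra hcon
    push Not at hcon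
    apply hz
    change (2 : ℤ) ∣ ∑ i, c e i * z i
    refine Finset.dvd_sum fun i _ => Dvd.dvd.mul_right ?_ _
    have h1 := hcon (Fin.castAdd g' i)
    rwa [Fin.append_left] at h1
  have hfn : ∀ e a, (fun e => fn (c e)) e (Pi.single a 1) = c e a := by
    intro e a
    simp [fn, Pi.single_apply]
  have hce : (fun e => Fin.append (fun i => (fun e => fn (c e)) e (Pi.single i 1))
      (fun _ : Fin g' => (0 : ℤ))) =
      fun e => Fin.append (c e) (fun _ : Fin g' => (0 : ℤ)) := by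
    funext e
    congr 1
    funext i
    exact hfn e i
  obtain ⟨j, ℓ, hj, hℓ, hlim⟩ := Pw_limit (fun e => Fin.append (c e) (fun _ : Fin g' => (0 : ℤ)))
    hodd hc₀ hpos hw (by
      intro e
      have hfe : (fun e => fn (c e)) e ≠ 0 := by
        intro h0
        apply hne e
        funext i
        have h1 := DFunLike.congr_fun h0 (Pi.single i 1)
        simpa [fn, Pi.single_apply] using h1
      have h1 := htight e hfe
      have h2 := congrFun hce e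
      rw [h2] at h1
      exact h1) (by
      intro y hy h0
      obtain ⟨i, hi, x, hx, P, Q, hP, hQ⟩ := hsupp y hy
      have h1 := limTh_period (fun e => Fin.append (c e) (fun _ : Fin g' => (0 : ℤ)))
        (fun t => ((y (Sum.inl t)).val : ℝ) / ((2 ^ M : ℕ) : ℝ))
        (fun t => ((y (Sum.inr t)).val : ℝ) / ((2 ^ M : ℕ) : ℝ)) P Q hc₀ hpos
      have hOf : (Oz (fun e => fn (c e)) (L.z i)).Finite := hfin.subset fun h hh => hh.1
      have h3 := limTh_block (fun e => fn (c e)) hsym h2 (L.z i) (L.β i)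
        (fun j => ((x (Sum.inl j)).val : ℝ) / ((2 ^ k' : ℕ) : ℝ))
        (fun j => ((x (Sum.inr j)).val : ℝ) / ((2 ^ k' : ℕ) : ℝ)) hOf.toFinset
        (fun h => hOf.mem_toFinset)
      rw [hce, ← hP, ← hQ, h1, h0, mul_zero] at h3
      exact hLN i hi ⟨x, hx⟩ hOf.toFinset (fun h => hOf.mem_toFinset) h3.symm)
  refine ⟨(2 ^ M) ^ 2 * W * j, Pw (b + g') (2 ^ M) W j, ℓ, ?_, ?_, Pw_cusp, hℓ, hlim⟩
  · have : 0 < (2 ^ M) ^ 2 * W * j := by positivity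
    exact this
  · exact Pw_form ⟨2 ^ (M - 1), by
      rw [← two_mul, ← pow_succ']
      congr 1
      omega⟩

end SlopeB
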