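import Pool.Agent.Lib.MP_6febbd_ag.Defs

/-!
# Definitions for the boundary part of MP_6febbd_ag

Twelve `L` minus `D` has no base points along the matroidal part of the boundary.
-/

set_option autoImplicit false

open scoped Matrix.Norms.Elementwise Real Topology
open Complex Matrix MP6feb Filter

noncomputable section

namespace SlopeB

/-! ## Degenerations -/

/-- `∑ t_e c_e c_eᵀ`. -/
def cone {ι E : Type} [Fintype E] (c : E → ι → ℤ) (t : E → ℂ) : Matrix ι ι ℂ :=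
  ∑ e, t e • Matrix.of (fun i j => (c e i : ℂ) * (c e j : ℂ))

/-- All imaginary parts tend to infinity. -/
def ImInf (E : Type) : Filter (E → ℂ) :=
  Filter.comap (fun (t : E → ℂ) (e : E) => (t e).im) Filter.atTop

/-- Square of the distance of `c_e · a` to the nearest integer. -/
def nd {ι E : Type} [Fintype ι] (c : E → ι → ℤ) (a : ι → ℝ) (e : E) : ℝ :=
  ((∑ i, (c e i : ℝ) * a i) - round (∑ i, (c e i : ℝ) * a i)) ^ 2

/-- The surviving indices. -/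
def Surv {ι E : Type} [Fintype ι] (c : E → ι → ℤ) (a : ι → ℝ) : Set (ι → ℤ) :=
  {n | ∀ e, (∑ i, (c e i : ℝ) * ((n i : ℝ) + a i)) ^ 2 = nd c a e}

open Classical in
/-- The limit of the normalized theta constant. -/
def limTh {ι E : Type} [Fintype ι] (c : E → ι → ℤ) (a b : ι → ℝ) (τ : Matrix ι ι ℂ) : ℂ :=
  ∑' n : ι → ℤ, if n ∈ Surv c a then thTerm a b τ n else 0

/-! ## Weighted families -/

/-- Natural weights of total mass `W` with nonnegative averages of `Bf (lc n c x)`. -/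
def InW (g n W : ℕ) [NeZero n] (w : (Fin g ⊕ Fin g → ZMod n) → ℕ) : Prop :=
  ∑ x, w x = W ∧ ∀ c : Fin g ⊕ Fin g → ℤ, (∃ i, ¬ ((2 : ℤ) ∣ c i)) →
    0 ≤ ∑ x, (w x : ℝ) * Bf (lc n c x)

open Classical in
/-- The finite family of these weights. -/
def famW (g n W : ℕ) [NeZero n] : Finset ((Fin g ⊕ Fin g → ZMod n) → ℕ) :=
  (Finset.piAntidiag Finset.univ W).filter (fun w => InW g n W w)

/-- The power sums of the weighted products of theta constants. -/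
def Pw (g n W j : ℕ) [NeZero n] (τ : Matrix (Fin g) (Fin g) ℂ) : ℂ :=
  ∑ w ∈ famW g n W, (∏ x, TX n x τ ^ w x) ^ j

/-! ## The abelian part -/

/-- The theta constant with characteristic `x / n + ξ`. -/
def thS {g : ℕ} (n : ℕ) (ξ : Fin g ⊕ Fin g → ℝ) (x : Fin g ⊕ Fin g → ZMod n)
    (τ : Matrix (Fin g) (Fin g) ℂ) : ℂ :=
  th (fun i => ((x (Sum.inl i)).val : ℝ) / n + ξ (Sum.inl i))
    (fun i => ((x (Sum.inr i)).val : ℝ) / n + ξ (Sum.inr i)) τ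

/-- Type alpha: all non-trivial multiples of the character are small on `X`. -/
def TyA {g : ℕ} (n : ℕ) (η : ℝ) (X : Finset (Fin g ⊕ Fin g → ZMod n))
    (c : Fin g ⊕ Fin g → ℤ) : Prop :=
  ∀ j : ℕ, (∃ i, ¬ ((n : ℤ) ∣ (j : ℤ) * c i)) →
    ‖∑ x ∈ X, chr n (fun i => (j : ℤ) * c i) x‖ ≤ η * X.card

/-- Type beta: the multiples of order two have the value `θ₀`, those of larger order
vanish. -/
def TyB {g : ℕ} (n : ℕ) (X : Finset (Fin g ⊕ Fin g → ZMod n))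
    (c : Fin g ⊕ Fin g → ℤ) : Prop :=
  ∃ θ₀ : ℝ, |θ₀| ≤ 1 / 3 ∧ ∀ j : ℕ,
    ((∃ i, ¬ ((n : ℤ) ∣ 2 * ((j : ℤ) * c i))) →
      ∑ x ∈ X, chr n (fun i => (j : ℤ) * c i) x = 0) ∧
    ((∀ i, (n : ℤ) ∣ 2 * ((j : ℤ) * c i)) → (∃ i, ¬ ((n : ℤ) ∣ (j : ℤ) * c i)) →
      ∑ x ∈ X, chr n (fun i => (j : ℤ) * c i) x = θ₀ * X.card)

/-- Every character is of type alpha or beta. -/
def GoodX {g : ℕ} (n : ℕ) (η : ℝ) (X : Finset (Fin g ⊕ Fin g → ZMod n)) : Prop :=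
  X.Nonempty ∧ ∀ c : Fin g ⊕ Fin g → ℤ, TyA n η X c ∨ TyB n X c

/-- For all large levels `2 ^ k` there is a good set on which finitely many translated theta
constants do not vanish. -/
def EvX {g : ℕ} (τ : Matrix (Fin g) (Fin g) ℂ) : Prop :=
  ∀ (Ξ : Finset (Fin g ⊕ Fin g → ℝ)) (ε : ℝ), 0 < ε → ∀ᶠ k : ℕ in Filter.atTop,
    ∃ X : Finset (Fin g ⊕ Fin g → ZMod (2 ^ k)), GoodX (2 ^ k) (ε * (1 / 4) ^ k) X ∧
      ∀ x ∈ X, ∀ ξ ∈ Ξ, thS (2 ^ k) ξ x τ ≠ 0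

/-- The points of exact order `2 ^ k` in genus one. -/
def exO (k : ℕ) : Finset (Fin 1 ⊕ Fin 1 → ZMod (2 ^ k)) :=
  Finset.univ.filter (fun x => ∃ i, ¬ (2 ∣ (x i).val))

/-- Joining characteristics of genus one and genus `k`. -/
def jn {R : Type} {k : ℕ} (q : (Fin 1 ⊕ Fin 1 → R) × (Fin k ⊕ Fin k → R)) :
    Fin (k + 1) ⊕ Fin (k + 1) → R :=
  Sum.elim (Fin.cons (q.1 (Sum.inl 0)) (fun i => q.2 (Sum.inl i)))
    (Fin.cons (q.1 (Sum.inr 0)) (fun i => q.2 (Sum.inr i)))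

/-! ## Systems of functionals -/

/-- The elements on which all functionals are bounded by one. -/
def OO {H E : Type} [AddCommGroup H] (c : E → H →+ ℤ) : Set H := {h | ∀ e, |c e h| ≤ 1}

/-- Those congruent to `z` modulo two. -/
def Oz {H E : Type} [AddCommGroup H] (c : E → H →+ ℤ) (z : H) : Set H :=
  {h | h ∈ OO c ∧ ∃ w : H, h = z + 2 • w}

/-- A system: every class modulo two has a bounded representative, and the functionals
separate points. -/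
structure IsSys {H E : Type} [AddCommGroup H] (c : E → H →+ ℤ) : Prop where
  p2 : ∀ z, (Oz c z).Nonempty
  sp : ∀ h, (∀ e, c e h = 0) → h = 0

/-- Isolated direction: all functionals odd on `d` are congruent modulo two. -/
def Isol {H E : Type} [AddCommGroup H] (c : E → H →+ ℤ) (d : H) : Prop :=
  (¬ ∃ w : H, d = 2 • w) ∧
    ∀ e f, ¬ ((2 : ℤ) ∣ c e d) → ¬ ((2 : ℤ) ∣ c f d) → ∀ h, (2 : ℤ) ∣ c e h - c f h

/-- The common blocks of the class of `z`. -/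
def KK {H E : Type} [AddCommGroup H] (c : E → H →+ ℤ) (z : H) : Set H :=
  {k | k ∈ OO c ∧ k ≠ 0 ∧ ∀ h ∈ Oz c z, h - 2 • k ∈ OO c ∨ h + 2 • k ∈ OO c}

/-! ## Sequences -/

/-- `T_w(s) = ∑_{u ≥ 1} 4^(-u) s_{w+u}`. -/
def TT (s : ℕ → ℝ) (w : ℕ) : ℝ := ∑' u : ℕ, (1 / 4 : ℝ) ^ (u + 1) * s (w + 1 + u)

/-- Class R. -/
structure RR (j : ℕ) (a : ℕ → ℝ) : Prop where
  one : ∀ v, j ≤ v → a v = 1
  third : ∀ v, v + 1 = j → |a v| ≤ 1 / 3
  zero : ∀ v, v + 1 < j → a v = 0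

/-- Class Q. -/
structure QQ (η : ℝ) (k' i : ℕ) (s : ℕ → ℝ) : Prop where
  one : ∀ v, i ≤ v → s v = 1
  le : ∀ v, |s v| ≤ 1
  q3 : ∀ w, w < i → |s w| ≤ TT s w
  q4 : ∀ w, w < k' →
    η * ∑ v ∈ Finset.range (w + 1), (1 / 4 : ℝ) ^ v * |s v| ≤ (1 / 4 : ℝ) ^ w * TT s w

/-- Fourier coefficients of the multi-scale mixture. -/
def phi (J r i : ℕ) : ℚ :=
  if i = 0 then 1 else if i ≤ J then 1 / 4 * (1 / 2) ^ i
  else if i ≤ r then 1 / 4 * 2 ^ J * (1 / 4) ^ i else 0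

/-! ## Laws -/

/-- A finite law on classes modulo two and two-power torsion functionals. -/
structure Law (H : Type) [AddCommGroup H] where
  Ix : Type
  fin : Fintype Ix
  p : Ix → ℚ
  z : Ix → H
  β : Ix → H →+ ℝ
  K : ℕ
  p_nonneg : ∀ i, 0 ≤ p i
  p_sum : ∑ i, p i = 1
  lev : ∀ i h, ∃ m : ℤ, 2 ^ K * β i h = m

attribute [instance] Law.fin

/-- Fourier coefficient of the multiple `j` of `(c', s)`. -/
def Law.four {H : Type} [AddCommGroup H] (L : Law H) (c' : H →+ ℤ) (s : H) (j : ℕ) : ℂ :=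
  ∑ i, (L.p i : ℂ) * cexp (2 * π * I * (j * ((c' (L.z i) : ℂ) / 2 + (L.β i s : ℂ))))

/-- Non-vanishing of the limit sums for the family `F`. -/
def Law.NonV {H E A : Type} [AddCommGroup H] (L : Law H) (c : E → H →+ ℤ)
    (F : A → H → ℂ) : Prop :=
  ∀ i, L.p i ≠ 0 → ∀ a, ∀ O : Finset H, (∀ h, h ∈ O ↔ h ∈ Oz c (L.z i)) →
    ∑ h ∈ O, F a h * cexp (π * I * (L.β i h : ℂ)) ≠ 0

/-- All Fourier sequences are of class Q. -/
def Law.Four {H : Type} [AddCommGroup H] (L : Law H) (η : ℝ) (k' : ℕ) : Prop :=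
  ∀ (c' : H →+ ℤ) (s : H), ∃ (i : ℕ) (q : ℕ → ℝ), QQ η k' i q ∧
    (∀ j : ℕ, 1 ≤ j → L.four c' s j = (q (padicValNat 2 j) : ℂ)) ∧
    (i = 0 → (∀ h, (2 : ℤ) ∣ c' h) ∧ ∃ w : H, s = 2 • w)

open Classical in
/-- Every functional is odd with probability one third. -/
def Law.Tight {H E : Type} [AddCommGroup H] (L : Law H) (c : E → H →+ ℤ) : Prop :=
  ∀ e, c e ≠ 0 → ∑ i, (if (2 : ℤ) ∣ c e (L.z i) then 0 else L.p i) = 1 / 3

/-- The law theorem for the system `c`. -/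
def LawP {H E : Type} [AddCommGroup H] (c : E → H →+ ℤ) : Prop :=
  ∃ r : ℕ, ∀ (k' : ℕ) (A : Type) (_ : Finite A) (F : A → H → ℂ),
    (∀ a, ∀ h ∈ OO c, F a h ≠ 0) →
    ∃ L : Law H, L.NonV c F ∧ L.Four (3 / 8 * (1 / 4) ^ (k' + r)) k' ∧ L.Tight c

end SlopeB
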