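import Pool.Agent.Lib.SlopeB.Defs
import Pool.Agent.Lib.SlopeB.Defs2

/-!
# A directed cycle through an edge of a circulation

PROOF. For an edge `e` with `z e ≠ 0` let `tail e = src e`, `head e = tgt e`, `s e = 1` if `0 < z e`, and
`tail e = tgt e`, `head e = src e`, `s e = -1` if `z e < 0`. `hz` says that for every vertex `v`
`∑_{e : z e ≠ 0, head e = v} |z e| = ∑_{e : z e ≠ 0, tail e = v} |z e|` (move the negative terms to the
other side). Let `u₀ = tail e₀`, `v₀ = head e₀`, and `R` the set of vertices reachable from `v₀`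
(`Relation.ReflTransGen` of `∃ e, z e ≠ 0 ∧ tail e = v ∧ head e = w`). Summing over `v ∈ R`:
`∑_{head e ∈ R} |z e| = ∑_{tail e ∈ R} |z e|`; every edge with `tail e ∈ R` has `head e ∈ R`, so all edges
(`z e ≠ 0`) with `head e ∈ R` have `tail e ∈ R`; in particular `u₀ ∈ R`. Take a sequence
`w_0 = v₀, w_1, …, w_n = u₀` of vertices with edges `e_i` from `w_i` to `w_{i+1}` (`i < n`) and `n` minimal;
then the `w_i` are distinct (if `w_i = w_j`, `i < j`, cut out the part between). The edges
`e_0, …, e_{n-1}, e₀` have the distinct tails `w_0, …, w_{n-1}, w_n`, so they are distinct. Let `χ e = s e` on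
these edges and `0` elsewhere. `IsCirc χ`: the boundary of the edge `e` with coefficient `s e` is
`[head e] - [tail e]`, and the sum `∑ ([w_{i+1}] - [w_i]) + [v₀] - [u₀] = 0`.
(Suggestion: prove by induction on the length of a walk the statement `for a walk of length n from v to u
with distinct vertices there is χ with χ e ∈ {0, s e}, supported on edges with tails on the walk
except its last vertex, and boundary [u] - [v]`; or use `SimpleGraph`/`List.IsChain` tools.)
-/

set_option autoImplicit false

open scoped Matrix.Norms.Elementwise Real Topology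
open Complex Matrix MP6feb Filter

noncomputable section

namespace SlopeB

/-- tail of an edge in the direction of the circulation -/
def flTl {V E : Type} (src tgt : E → V) (z : E → ℤ) (e : E) : V := if 0 < z e then src e else tgt e

/-- head of an edge in the direction of the circulation -/
def flHd {V E : Type} (src tgt : E → V) (z : E → ℤ) (e : E) : V := if 0 < z e then tgt e else src e

/-- vertices reachable in exactly `n` steps from `v₀` -/
def FlStp {V E : Type} (src tgt : E → V) (z : E → ℤ) (v₀ : V) : ℕ → V → Prop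
  | 0, v => v = v₀
  | n + 1, w => ∃ e, z e ≠ 0 ∧ FlStp src tgt z v₀ n (flTl src tgt z e) ∧ flHd src tgt z e = w

/-- boundary of a chain -/
def flBd {V E : Type} [Fintype E] [DecidableEq V] (src tgt : E → V) (χ : E → ℤ) (v : V) : ℤ :=
  ∑ e, ((if tgt e = v then χ e else 0) - (if src e = v then χ e else 0))

theorem flBd_zero {V E : Type} [Fintype E] [DecidableEq V] (src tgt : E → V) (v : V) :
    flBd src tgt (fun _ => 0) v = 0 := by
  simp [flBd]

theorem flBd_circ {V E : Type} [Fintype E] [DecidableEq V] (src tgt : E → V) (χ : E → ℤ) :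
    IsCirc src tgt χ ↔ ∀ v, flBd src tgt χ v = 0 := by
  unfold IsCirc flBd
  simp only [Finset.sum_sub_distrib, sub_eq_zero]

/-- adding an edge in the direction of the circulation -/
theorem flBd_add {V E : Type} [Fintype E] [DecidableEq V] [DecidableEq E] (src tgt : E → V)
    (z χ : E → ℤ) (e₁ : E) (h1 : z e₁ ≠ 0) (h0 : χ e₁ = 0) (v : V) :
    flBd src tgt (Function.update χ e₁ (if 0 < z e₁ then 1 else -1)) v =
      flBd src tgt χ v + ((if flHd src tgt z e₁ = v then 1 else 0)
        - (if flTl src tgt z e₁ = v then 1 else 0)) := by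
  unfold flBd
  rw [← Finset.add_sum_erase Finset.univ _ (Finset.mem_univ e₁),
    ← Finset.add_sum_erase Finset.univ
      (fun e => ((if tgt e = v then χ e else 0) - (if src e = v then χ e else 0)))
      (Finset.mem_univ e₁)]
  have hsum : ∑ e ∈ Finset.univ.erase e₁,
      ((if tgt e = v then Function.update χ e₁ (if 0 < z e₁ then 1 else -1) e else 0)
        - (if src e = v then Function.update χ e₁ (if 0 < z e₁ then 1 else -1) e else 0)) =
      ∑ e ∈ Finset.univ.erase e₁, ((if tgt e = v then χ e else 0)
        - (if src e = v then χ e else 0)) := by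
    refine Finset.sum_congr rfl fun e he => ?_
    have hne : e ≠ e₁ := (Finset.mem_erase.1 he).1
    rw [Function.update_of_ne hne]
  rw [hsum]
  simp only [Function.update_self, h0, ite_self, sub_zero, zero_add]
  unfold flHd flTl
  by_cases hp : 0 < z e₁
  · simp only [hp, if_true]
    ring
  · simp only [hp, if_false]
    split_ifs <;> ring

theorem fl_path {V E : Type} [Fintype E] [DecidableEq V] [DecidableEq E] (src tgt : E → V)
    (z : E → ℤ) (v₀ : V) : ∀ (n : ℕ) (w : V), FlStp src tgt z v₀ n w →
      (∀ m < n, ¬ FlStp src tgt z v₀ m w) →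
      ∃ χ : E → ℤ, (∀ e, χ e = 0 ∨ (χ e = (if 0 < z e then 1 else -1) ∧ z e ≠ 0)) ∧
        (∀ e, χ e ≠ 0 → ∃ m < n, FlStp src tgt z v₀ m (flTl src tgt z e)) ∧
        ∀ v, flBd src tgt χ v = (if w = v then 1 else 0) - (if v₀ = v then 1 else 0) := by
  intro n
  induction n with
  | zero =>
    intro w hw _
    have hw' : w = v₀ := hw
    subst hw'
    refine ⟨fun _ => 0, fun _ => Or.inl rfl, fun e he => absurd rfl he, fun v => ?_⟩
    rw [flBd_zero]
    ring
  | succ n ih =>
    intro w hw hmin
    obtain ⟨e, hze, ht, hh⟩ := hw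
    have hmin' : ∀ m < n, ¬ FlStp src tgt z v₀ m (flTl src tgt z e) := by
      intro m hm hs
      exact hmin (m + 1) (by omega) ⟨e, hze, hs, hh⟩
    obtain ⟨χ, h1, h2, h3⟩ := ih _ ht hmin'
    have he0 : χ e = 0 := by
      by_contra hne
      obtain ⟨m, hm, hs⟩ := h2 e hne
      exact hmin' m hm hs
    refine ⟨Function.update χ e (if 0 < z e then 1 else -1), ?_, ?_, ?_⟩
    · intro e'
      by_cases h : e' = e
      · subst h
        right
        exact ⟨Function.update_self _ _ _, hze⟩
      · rw [Function.update_of_ne h]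
        exact h1 e'
    · intro e' he'
      by_cases h : e' = e
      · subst h
        exact ⟨n, Nat.lt_succ_self n, ht⟩
      · rw [Function.update_of_ne h] at he'
        obtain ⟨m, hm, hs⟩ := h2 e' he'
        exact ⟨m, by omega, hs⟩
    · intro v
      rw [flBd_add src tgt z χ e hze he0 v, h3 v, hh]
      ring

/-- the tail of an edge is reachable from its head -/
theorem fl_reach {V E : Type} [Fintype V] [DecidableEq V] [Fintype E] (src tgt : E → V)
    {z : E → ℤ} (hz : IsCirc src tgt z) {e₀ : E} (h0 : z e₀ ≠ 0) :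
    ∃ n, FlStp src tgt z (flHd src tgt z e₀) n (flTl src tgt z e₀) := by
  classical
  set R : V → Prop := fun v => ∃ n, FlStp src tgt z (flHd src tgt z e₀) n v with hR
  have hstep : ∀ e, z e ≠ 0 → R (flTl src tgt z e) → R (flHd src tgt z e) := by
    rintro e he ⟨n, hn⟩
    exact ⟨n + 1, e, he, hn, rfl⟩
  have hstart : R (flHd src tgt z e₀) := ⟨0, rfl⟩
  set ρ : V → ℤ := fun v => if R v then 1 else 0 with hρ
  have hsum : ∑ e, z e * (ρ (tgt e) - ρ (src e)) = 0 := by
    have h1 : ∑ v, ρ v * flBd src tgt z v = 0 := by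
      refine Finset.sum_eq_zero fun v _ => ?_
      rw [(flBd_circ src tgt z).1 hz v, mul_zero]
    rw [← h1]
    unfold flBd
    simp only [Finset.mul_sum]
    rw [Finset.sum_comm]
    refine Finset.sum_congr rfl fun e _ => ?_
    simp only [mul_sub, Finset.sum_sub_distrib, mul_ite, mul_zero, Finset.sum_ite_eq,
      Finset.mem_univ, if_true]
    ring
  have hnn : ∀ e ∈ (Finset.univ : Finset E), 0 ≤ z e * (ρ (tgt e) - ρ (src e)) := by
    intro e _
    rcases lt_trichotomy (z e) 0 with hn | hn | hn
    · have ht : flTl src tgt z e = tgt e := if_neg (by omega)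
      have hh : flHd src tgt z e = src e := if_neg (by omega)
      have hs := hstep e (by omega) 
      rw [ht, hh] at hs
      have hle : ρ (tgt e) ≤ ρ (src e) := by
        simp only [hρ]
        by_cases hr : R (tgt e)
        · rw [if_pos hr, if_pos (hs hr)]
        · rw [if_neg hr]
          split_ifs <;> norm_num
      nlinarith
    · rw [hn, zero_mul]
    · have ht : flTl src tgt z e = src e := if_pos hn
      have hh : flHd src tgt z e = tgt e := if_pos hn
      have hs := hstep e (by omega) 
      rw [ht, hh] at hs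
      have hle : ρ (src e) ≤ ρ (tgt e) := by
        simp only [hρ]
        by_cases hr : R (src e)
        · rw [if_pos hr, if_pos (hs hr)]
        · rw [if_neg hr]
          split_ifs <;> norm_num
      nlinarith
  have hz0 := (Finset.sum_eq_zero_iff_of_nonneg hnn).1 hsum e₀ (Finset.mem_univ _)
  have heq : ρ (tgt e₀) = ρ (src e₀) := by
    rcases mul_eq_zero.1 hz0 with h | h
    · exact absurd h h0
    · linarith
  have hiff : R (tgt e₀) ↔ R (src e₀) := by
    simp only [hρ] at heq
    by_cases ha : R (tgt e₀) <;> by_cases hb : R (src e₀)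
    · exact ⟨fun _ => hb, fun _ => ha⟩
    · rw [if_pos ha, if_neg hb] at heq
      norm_num at heq
    · rw [if_neg ha, if_pos hb] at heq
      norm_num at heq
    · exact ⟨fun h => absurd h ha, fun h => absurd h hb⟩
  show R (flTl src tgt z e₀)
  by_cases hp : 0 < z e₀
  · have ht : flTl src tgt z e₀ = src e₀ := if_pos hp
    have hh : flHd src tgt z e₀ = tgt e₀ := if_pos hp
    rw [ht]
    rw [hh] at hstart
    exact hiff.1 hstart
  · have ht : flTl src tgt z e₀ = tgt e₀ := if_neg hp
    have hh : flHd src tgt z e₀ = src e₀ := if_neg hp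
    rw [ht]
    rw [hh] at hstart
    exact hiff.2 hstart

theorem exists_cycle {V E : Type} [Fintype V] [DecidableEq V] [Fintype E] (src tgt : E → V)
    {z : E → ℤ} (hz : IsCirc src tgt z) {e₀ : E} (h0 : z e₀ ≠ 0) :
    ∃ χ : E → ℤ, IsCirc src tgt χ ∧ χ e₀ ≠ 0 ∧
      ∀ e, χ e = 0 ∨ (χ e = 1 ∧ 0 < z e) ∨ (χ e = -1 ∧ z e < 0) := by
  classical
  have hre := fl_reach src tgt hz h0
  have hfind := Nat.find_spec hre
  have hmin : ∀ m < Nat.find hre, ¬ FlStp src tgt z (flHd src tgt z e₀) m (flTl src tgt z e₀) :=
    fun m hm => Nat.find_min hre hm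
  obtain ⟨χ, h1, h2, h3⟩ := fl_path src tgt z (flHd src tgt z e₀) (Nat.find hre)
    (flTl src tgt z e₀) hfind hmin
  have he0 : χ e₀ = 0 := by
    by_contra hne
    obtain ⟨m, hm, hs⟩ := h2 e₀ hne
    exact hmin m hm hs
  refine ⟨Function.update χ e₀ (if 0 < z e₀ then 1 else -1), ?_, ?_, ?_⟩
  · rw [flBd_circ]
    intro v
    rw [flBd_add src tgt z χ e₀ h0 he0 v, h3 v]
    ring
  · rw [Function.update_self]
    split_ifs <;> norm_num
  · intro e
    by_cases h : e = e₀
    · subst h
      rw [Function.update_self]
      right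
      by_cases hp : 0 < z e
      · left
        exact ⟨if_pos hp, hp⟩
      · right
        exact ⟨if_neg hp, by omega⟩
    · rw [Function.update_of_ne h]
      rcases h1 e with h' | ⟨h', hze⟩
      · exact Or.inl h'
      · right
        by_cases hp : 0 < z e
        · left
          rw [if_pos hp] at h'
          exact ⟨h', hp⟩
        · right
          rw [if_neg hp] at h'
          exact ⟨h', by omega⟩

end SlopeB
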