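import Pool.Agent.Lib.SlopeB.Defs
import Pool.Agent.Lib.SlopeB.Defs2
import Pool.Agent.Lib.SlopeB.Flow

/-!
# The cycle lattice of a graph is a system

PROOF of `circ_p2`. Strong induction on `∑ |z e|` (natural number): if all `|z e| ≤ 1` take `h = z`,
`w = 0`. Otherwise `|z e₀| ≥ 2` for some `e₀`; let `χ` be from `exists_cycle`; `z' = z - 2χ` is a
circulation (`IsCirc` is linear), `|z' e| ≤ |z e|` for all `e` (if `χ e ≠ 0` then `|z e| ≥ 1`, the signs
agree, and `|z' e| = ||z e| - 2| ≤ |z e|`), and `|z' e₀| = |z e₀| - 2`. By induction `h = z' + 2w'`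
`= z + 2 (w' - χ)`.
PROOF of `graph_sys`. `fn (fun i => κ i e) h = ∑ κ i e * h i = (∑ h i • κ i) e`. `p2`: let `z : Fin b → ℤ`,
`Z = ∑ z i • κ i`, a circulation by `hsp`; `circ_p2` gives circulations `h'`, `w'` with `h' = Z + 2w'`; by
`hsp` (`Submodule.mem_span_range_iff_exists_fun`) `h' = ∑ h i • κ i`, `w' = ∑ w i • κ i`, and by linear
independence `h i = z i + 2 w i`. `sp`: if `∑ h i • κ i = 0` then `h = 0` (`Fintype.linearIndependent_iff`).
PROOF of `nonbridge_iff`. If `κ i e ≠ 0` take `z = κ i`. If all `κ i e = 0` then `z e = 0` for all `z` in the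
span.
-/

set_option autoImplicit false

open scoped Matrix.Norms.Elementwise Real Topology
open Complex Matrix MP6feb Filter

noncomputable section

namespace SlopeB

private theorem grs_circ_add {V E : Type} [Fintype V] [DecidableEq V] [Fintype E]
    (src tgt : E → V) (z w : E → ℤ) (a : ℤ) (hz : IsCirc src tgt z) (hw : IsCirc src tgt w) :
    IsCirc src tgt (fun e => z e + a * w e) := by
  intro v
  have key : ∀ f : E → V, ∑ e, (if f e = v then z e + a * w e else 0) =
      ∑ e, (if f e = v then z e else 0) + a * ∑ e, (if f e = v then w e else 0) := by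
    intro f
    rw [Finset.mul_sum, ← Finset.sum_add_distrib]
    refine Finset.sum_congr rfl fun e _ => ?_
    split_ifs <;> ring
  rw [key tgt, key src, hz v, hw v]

private theorem grs_aux {V E : Type} [Fintype V] [DecidableEq V] [Fintype E] (src tgt : E → V)
    (n : ℕ) : ∀ z : E → ℤ, IsCirc src tgt z → ∑ e, (z e).natAbs = n →
      ∃ h w : E → ℤ, IsCirc src tgt h ∧
      IsCirc src tgt w ∧ (∀ e, h e = z e + 2 * w e) ∧ ∀ e, |h e| ≤ 1 := by
  induction n using Nat.strong_induction_on with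
  | _ n ih =>
    intro z hz hn
    by_cases hb : ∀ e, |z e| ≤ 1
    · exact ⟨z, 0, hz, fun v => by simp, fun e => by simp, hb⟩
    · push Not at hb
      obtain ⟨e₀, he₀⟩ := hb
      have h0 : z e₀ ≠ 0 := by
        intro h
        rw [h] at he₀
        simp at he₀
      obtain ⟨χ, hχ, hχ0, hχs⟩ := exists_cycle src tgt hz h0
      have hle : ∀ e, (z e + (-2) * χ e).natAbs ≤ (z e).natAbs := by
        intro e
        rcases hχs e with h | ⟨h, h'⟩ | ⟨h, h'⟩ <;> rw [h] <;> omega
      have hlt : (z e₀ + (-2) * χ e₀).natAbs < (z e₀).natAbs := by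
        rcases hχs e₀ with h | ⟨h, h'⟩ | ⟨h, h'⟩
        · exact absurd h hχ0
        · rw [h]
          rw [abs_of_pos h'] at he₀
          omega
        · rw [h]
          rw [abs_of_neg h'] at he₀
          omega
      have hsum : ∑ e, (z e + (-2) * χ e).natAbs < n := by
        rw [← hn]
        exact Finset.sum_lt_sum (fun e _ => hle e) ⟨e₀, Finset.mem_univ _, hlt⟩
      obtain ⟨h, w', h1, h2, h3, h4⟩ := ih _ hsum (fun e => z e + (-2) * χ e)
        (grs_circ_add src tgt z χ (-2) hz hχ) rfl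
      refine ⟨h, fun e => w' e + (-1) * χ e, h1, grs_circ_add src tgt w' χ (-1) h2 hχ,
        fun e => ?_, h4⟩
      rw [h3 e]
      ring

theorem circ_p2 {V E : Type} [Fintype V] [DecidableEq V] [Fintype E] (src tgt : E → V)
    (z : E → ℤ) (hz : IsCirc src tgt z) : ∃ h w : E → ℤ, IsCirc src tgt h ∧
      IsCirc src tgt w ∧ (∀ e, h e = z e + 2 * w e) ∧ ∀ e, |h e| ≤ 1 :=
  grs_aux src tgt _ z hz rfl

private theorem grs_fn {E : Type} {b : ℕ} (κ : Fin b → E → ℤ) (h : Fin b → ℤ) (e : E) :
    fn (fun i => κ i e) h = (∑ i, h i • κ i) e := by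
  rw [Finset.sum_apply]
  change ∑ i, κ i e * h i = _
  refine Finset.sum_congr rfl fun i _ => ?_
  rw [Pi.smul_apply, smul_eq_mul, mul_comm]

theorem graph_sys {V E : Type} [Fintype V] [DecidableEq V] [Fintype E] (src tgt : E → V)
    {b : ℕ} (κ : Fin b → E → ℤ) (hli : LinearIndependent ℤ κ)
    (hsp : ∀ z : E → ℤ, IsCirc src tgt z ↔ z ∈ Submodule.span ℤ (Set.range κ)) :
    IsSys (fun e => fn (fun i => κ i e)) := by
  refine ⟨fun z => ?_, fun h hh => ?_⟩
  · have hZ : IsCirc src tgt (∑ i, z i • κ i) :=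
      (hsp _).2 ((Submodule.mem_span_range_iff_exists_fun ℤ).2 ⟨z, rfl⟩)
    obtain ⟨h', w', h1, h2, h3, h4⟩ := circ_p2 src tgt _ hZ
    obtain ⟨h, hh⟩ := (Submodule.mem_span_range_iff_exists_fun ℤ).1 ((hsp _).1 h1)
    obtain ⟨w, hw⟩ := (Submodule.mem_span_range_iff_exists_fun ℤ).1 ((hsp _).1 h2)
    refine ⟨h, fun e => ?_, w, ?_⟩
    · rw [grs_fn κ h e, hh]
      exact h4 e
    · have hlin := (Fintype.linearIndependent_iff.1 hli) (fun i => h i - (z i + 2 * w i)) (by
        funext e
        have he := h3 e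
        rw [← hh, ← hw, Finset.sum_apply, Finset.sum_apply, Finset.sum_apply] at he
        rw [Finset.sum_apply, Pi.zero_apply]
        have : ∑ i, ((h i - (z i + 2 * w i)) • κ i) e =
            ∑ i, (h i • κ i) e - (∑ i, (z i • κ i) e + 2 * ∑ i, (w i • κ i) e) := by
          rw [Finset.mul_sum, ← Finset.sum_add_distrib, ← Finset.sum_sub_distrib]
          refine Finset.sum_congr rfl fun i _ => ?_
          simp only [Pi.smul_apply, smul_eq_mul]
          ring
        rw [this, he]
        ring)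
      funext i
      have hi := hlin i
      rw [Pi.add_apply, Pi.smul_apply, nsmul_eq_mul]
      push_cast
      linarith
  · have h0 : ∑ i, h i • κ i = 0 := by
      funext e
      rw [← grs_fn κ h e]
      exact hh e
    funext i
    exact (Fintype.linearIndependent_iff.1 hli) h h0 i

theorem nonbridge_iff {V E : Type} [Fintype V] [DecidableEq V] [Fintype E] (src tgt : E → V)
    {b : ℕ} (κ : Fin b → E → ℤ)
    (hsp : ∀ z : E → ℤ, IsCirc src tgt z ↔ z ∈ Submodule.span ℤ (Set.range κ)) (e : E) :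
    (∃ z, IsCirc src tgt z ∧ z e ≠ 0) ↔ (fun i => κ i e) ≠ 0 := by
  constructor
  · rintro ⟨z, hz, hze⟩ h0
    obtain ⟨c, hc⟩ := (Submodule.mem_span_range_iff_exists_fun ℤ).1 ((hsp _).1 hz)
    apply hze
    rw [← hc, Finset.sum_apply]
    refine Finset.sum_eq_zero fun i _ => ?_
    have := congrFun h0 i
    simp only [Pi.zero_apply] at this
    rw [Pi.smul_apply, this, smul_zero]
  · intro h
    obtain ⟨i, hi⟩ := Function.ne_iff.1 h
    exact ⟨κ i, (hsp _).2 (Submodule.subset_span ⟨i, rfl⟩), hi⟩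

end SlopeB
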