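import Pool.Agent.Lib.SlopeB.Defs
import Pool.Agent.Lib.SlopeB.Defs2
import Pool.Agent.Lib.SlopeB.GrS
import Pool.Agent.Lib.SlopeB.BndM
import Pool.Agent.Lib.SlopeB.PosB
import Pool.Agent.Lib.MP_6febbd_ag.ThC

/-!
# The boundary theorem for graphs

PROOF. `E' = {e // ∃ z, IsCirc src tgt z ∧ z e ≠ 0}` (`nonbridge_iff`: these are the `e` with
`(κ · e) ≠ 0`), `c e = fun i => κ i e`. `IsSys (fun e : E' => fn (c e))`: from `graph_sys`: `OO` is the same set
for `E` and `E'` (the functionals of the other edges are `0`), and so are `Oz` and the separation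
property. `boundary_nz` gives `m`, `F`, `ℓ`. For `t : E → ℂ` with restriction `t'`:
`cone (fun e => append (c e) 0) t = cone (fun e : E' => ..) t'` (the other summands vanish;
`Finset.sum_subtype`/`Fintype.sum_subtype`), `∑_{e ∈ filter} t e = ∑ e', t' e'`. Unfold the limit:
`Metric.tendsto_nhds`, `Filter.eventually_prod_iff`, `Metric.eventually_nhds_iff` (or
`Metric.nhds_basis_ball`), `Filter.eventually_comap`, `Filter.eventually_atTop`: there are `δ > 0` and
`T : E' → ℝ` with the estimate for `‖τ - τ₀‖ < δ`, `T e' ≤ Im t' e'`; take the maximum of the `T e'` (or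
`∑ |T e'|`) as the real number `T`. Siegel space: `exists_posIm_cone` for the family `c` (all of `E`;
`hsp` from `sp`), `posIm_near`: for `‖τ - τ₀‖ < δ'` and `Im t_e ≥ T₀` `PosIm (c₀/2) (τ + cone (T₀ I))` and
`Im (cone t) ≥ Im (cone (T₀ I))` as quadratic forms (`qf_cone`-type computation, `∑ Im t_e (c_e·v)²`), so
`PosIm (c₀/2) (τ + cone t)`, and a symmetric matrix with `PosIm c`, `c > 0`, is in the Siegel space
(`Matrix.PosDef` of the real matrix of imaginary parts: `Matrix.PosDef` unfolds to symmetric and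
`0 < x ⬝ᵥ (A *ᵥ x)` for `x ≠ 0`). The cone matrix is symmetric.
-/

set_option autoImplicit false

open scoped Matrix.Norms.Elementwise Real Topology
open Complex Matrix MP6feb Filter

noncomputable section

namespace SlopeB

theorem siegel_of_posIm {g : ℕ} {τ : Matrix (Fin g) (Fin g) ℂ} (hs : τ.IsSymm) {c : ℝ}
    (hc : 0 < c) (h : PosIm c τ) : τ ∈ Siegel g := by
  refine ⟨hs, Matrix.PosDef.of_dotProduct_mulVec_pos ?_ ?_⟩
  · unfold Matrix.IsHermitian
    ext i j
    have h1 := congrFun (congrFun hs i) j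
    rw [Matrix.transpose_apply] at h1
    rw [Matrix.conjTranspose_apply, Matrix.map_apply, Matrix.map_apply, star_trivial, h1]
  · intro v hv
    have h1 := h v
    have h2 : star v ⬝ᵥ (τ.map Complex.im *ᵥ v) = ∑ i, ∑ j, v i * (τ i j).im * v j := by
      simp only [dotProduct, Matrix.mulVec, Pi.star_apply, star_trivial, Matrix.map_apply,
        Finset.mul_sum]
      refine Finset.sum_congr rfl fun i _ => Finset.sum_congr rfl fun j _ => ?_
      ring
    rw [h2]
    refine lt_of_lt_of_le (mul_pos hc ?_) h1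
    obtain ⟨i, hi⟩ := Function.ne_iff.1 hv
    refine lt_of_lt_of_le (b := v i ^ 2) ?_ (Finset.single_le_sum (f := fun i => v i ^ 2)
        (fun j _ => sq_nonneg _) (Finset.mem_univ i))
    have hi2 : v i ≠ 0 := hi
    positivity

private theorem GrM_im {ι E : Type} [Fintype E] (c : E → ι → ℤ) (t : E → ℂ)
    (τ : Matrix ι ι ℂ) (i j : ι) :
    ((τ + cone c t) i j).im = (τ i j).im + ∑ e, (t e).im * ((c e i : ℝ) * (c e j : ℝ)) := by
  rw [Matrix.add_apply, Complex.add_im]
  congr 1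
  unfold cone
  rw [Matrix.sum_apply, Complex.im_sum]
  refine Finset.sum_congr rfl fun e _ => ?_
  rw [Matrix.smul_apply, Matrix.of_apply, smul_eq_mul]
  have h3 : ((c e i : ℤ) : ℂ) * ((c e j : ℤ) : ℂ) = (((c e i : ℝ) * (c e j : ℝ) : ℝ) : ℂ) := by
    push_cast
    ring
  rw [h3, Complex.im_mul_ofReal]

private theorem GrM_qf {ι E : Type} [Fintype ι] [Fintype E] (c : E → ι → ℤ) (t : E → ℂ)
    (τ : Matrix ι ι ℂ) (v : ι → ℝ) :
    ∑ i, ∑ j, v i * ((τ + cone c t) i j).im * v j =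
      ∑ i, ∑ j, v i * (τ i j).im * v j + ∑ e, (t e).im * (∑ i, (c e i : ℝ) * v i) ^ 2 := by
  simp only [GrM_im]
  have h5 : ∀ e, (t e).im * (∑ i, (c e i : ℝ) * v i) ^ 2 =
      ∑ i, ∑ j, (t e).im * (((c e i : ℝ) * v i) * ((c e j : ℝ) * v j)) := by
    intro e
    rw [pow_two, Finset.sum_mul_sum, Finset.mul_sum]
    refine Finset.sum_congr rfl fun i _ => ?_
    rw [Finset.mul_sum]
  simp only [h5]
  have h6 : ∑ e, ∑ i, ∑ j, (t e).im * (((c e i : ℝ) * v i) * ((c e j : ℝ) * v j)) =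
      ∑ i, ∑ j, ∑ e, (t e).im * (((c e i : ℝ) * v i) * ((c e j : ℝ) * v j)) := by
    rw [Finset.sum_comm]
    refine Finset.sum_congr rfl fun i _ => ?_
    rw [Finset.sum_comm]
  rw [h6, ← Finset.sum_add_distrib]
  refine Finset.sum_congr rfl fun i _ => ?_
  rw [← Finset.sum_add_distrib]
  refine Finset.sum_congr rfl fun j _ => ?_
  rw [mul_add, add_mul, Finset.mul_sum, Finset.sum_mul]
  congr 1
  refine Finset.sum_congr rfl fun e _ => ?_
  ring

private theorem GrM_symm {ι E : Type} [Fintype E] (c : E → ι → ℤ) (t : E → ℂ)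
    {τ : Matrix ι ι ℂ} (hs : τ.IsSymm) : (τ + cone c t).IsSymm := by
  unfold Matrix.IsSymm
  ext i j
  rw [Matrix.transpose_apply, Matrix.add_apply, Matrix.add_apply]
  have h1 := congrFun (congrFun hs i) j
  rw [Matrix.transpose_apply] at h1
  rw [h1]
  congr 1
  unfold cone
  rw [Matrix.sum_apply, Matrix.sum_apply]
  refine Finset.sum_congr rfl fun e _ => ?_
  rw [Matrix.smul_apply, Matrix.smul_apply, Matrix.of_apply, Matrix.of_apply, mul_comm]

open Classical in
theorem graph_main {V E : Type} [Fintype V] [DecidableEq V] [Fintype E] (src tgt : E → V)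
    {b g' : ℕ} (κ : Fin b → E → ℤ) (hli : LinearIndependent ℤ κ)
    (hsp : ∀ z : E → ℤ, IsCirc src tgt z ↔ z ∈ Submodule.span ℤ (Set.range κ))
    (τ₀ : Matrix (Fin (b + g')) (Fin (b + g')) ℂ) (hsym : τ₀.IsSymm)
    (h2 : τ₀.submatrix (Fin.natAdd b) (Fin.natAdd b) ∈ Siegel g') :
    ∃ (m : ℕ) (F : Matrix (Fin (b + g')) (Fin (b + g')) ℂ → ℂ) (ℓ : ℂ), 1 ≤ m ∧
      IsSiegelForm (b + g') (12 * m) F ∧ VanishesAtBoundary (b + g') m F ∧ ℓ ≠ 0 ∧
      ∀ ε : ℝ, 0 < ε → ∃ δ : ℝ, 0 < δ ∧ ∃ T : ℝ,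
        ∀ τ : Matrix (Fin (b + g')) (Fin (b + g')) ℂ, τ.IsSymm → ‖τ - τ₀‖ < δ →
        ∀ t : E → ℂ, (∀ e, T < (t e).im) →
          τ + cone (fun e => Fin.append (fun i => κ i e) (fun _ : Fin g' => (0 : ℤ))) t ∈
            Siegel (b + g') ∧
          ‖F (τ + cone (fun e => Fin.append (fun i => κ i e) (fun _ : Fin g' => (0 : ℤ))) t) *
            cexp (-(2 * π * I * (m : ℂ) *
              ∑ e ∈ Finset.univ.filter (fun e => ∃ z, IsCirc src tgt z ∧ z e ≠ 0), t e)) -
            ℓ‖ < ε := by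
  have sys := graph_sys src tgt κ hli hsp
  have hnb := nonbridge_iff src tgt κ hsp
  have hz : ∀ e : E, ¬ (∃ z, IsCirc src tgt z ∧ z e ≠ 0) → (fun i => κ i e) = 0 := by
    intro e he
    by_contra hne
    exact he ((hnb e).2 hne)
  have hspc : ∀ h : Fin b → ℤ, (∀ e, ∑ i, (fun (e : E) (i : Fin b) => κ i e) e i * h i = 0) →
      h = 0 := fun h hh => sys.sp h hh
  have sys' : IsSys (fun e : {e : E // ∃ z, IsCirc src tgt z ∧ z e ≠ 0} =>
      fn (fun i => κ i (e : E))) := by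
    refine ⟨fun z => ?_, fun h hh => ?_⟩
    · obtain ⟨h, hh, hw⟩ := sys.p2 z
      exact ⟨h, fun e => hh (e : E), hw⟩
    · refine sys.sp h fun e => ?_
      by_cases he : ∃ z, IsCirc src tgt z ∧ z e ≠ 0
      · exact hh ⟨e, he⟩
      · have h0 := hz e he
        change ∑ i, κ i e * h i = 0
        refine Finset.sum_eq_zero fun i _ => ?_
        have h1 : κ i e = 0 := congrFun h0 i
        rw [h1, zero_mul]
  obtain ⟨m, F, ℓ, hm, hF, hV, hℓ, hlim⟩ := boundary_nz
    (fun (e : {e : E // ∃ z, IsCirc src tgt z ∧ z e ≠ 0}) => (fun i => κ i (e : E)))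
    sys' (fun e => (hnb (e : E)).1 e.2) hsym h2
  obtain ⟨c₀, T₀, hc₀, hT₀, hpos⟩ := exists_posIm_cone (g' := g')
    (fun (e : E) (i : Fin b) => κ i e) hspc h2
  obtain ⟨δ₂, hδ₂, hnear⟩ := posIm_near hc₀ hpos
  refine ⟨m, F, ℓ, hm, hF, hV, hℓ, fun ε hε => ?_⟩
  have hev := Metric.tendsto_nhds.1 hlim ε hε
  obtain ⟨pa, hpa, pb, hpb, hab⟩ := Filter.eventually_prod_iff.1 hev
  obtain ⟨δ₁, hδ₁, hpa'⟩ := Metric.eventually_nhds_iff.1 hpa
  obtain ⟨T', hT'⟩ := Filter.eventually_atTop.1 (Filter.eventually_comap.1 hpb)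
  refine ⟨min δ₁ δ₂, lt_min hδ₁ hδ₂, max T₀ (∑ e, |T' e|), fun τ hτ hn t ht => ?_⟩
  have hcone : cone (fun e => Fin.append (fun i => κ i e) (fun _ : Fin g' => (0 : ℤ))) t =
      cone (fun (e : {e : E // ∃ z, IsCirc src tgt z ∧ z e ≠ 0}) =>
        Fin.append (fun i => κ i (e : E)) (fun _ : Fin g' => (0 : ℤ)))
        (fun e => t (e : E)) := by
    unfold cone
    rw [← Finset.sum_subtype (Finset.univ.filter (fun e => ∃ z, IsCirc src tgt z ∧ z e ≠ 0))
      (by simp) (fun e => t e • Matrix.of (fun i j =>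
        (((Fin.append (fun i => κ i e) (fun _ : Fin g' => (0 : ℤ)) i : ℤ) : ℂ) *
          ((Fin.append (fun i => κ i e) (fun _ : Fin g' => (0 : ℤ)) j : ℤ) : ℂ))))]
    symm
    refine Finset.sum_subset (Finset.filter_subset _ _) fun e _ he => ?_
    have he' : ¬ (∃ z, IsCirc src tgt z ∧ z e ≠ 0) := by
      intro h
      exact he (Finset.mem_filter.2 ⟨Finset.mem_univ _, h⟩)
    have h0 := hz e he'
    have h1 : (Fin.append (fun i => κ i e) (fun _ : Fin g' => (0 : ℤ)) : Fin (b + g') → ℤ) =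
        0 := by
      rw [h0]
      funext i
      refine Fin.addCases (fun i => ?_) (fun i => ?_) i
      · rw [Fin.append_left]
        rfl
      · rw [Fin.append_right]
        rfl
    rw [h1]
    ext i j
    simp
  refine ⟨?_, ?_⟩
  · -- Siegel space
    refine siegel_of_posIm (GrM_symm _ _ hτ) (half_pos hc₀) ?_
    have h3 : PosIm (c₀ / 2) (τ + cone (fun e => Fin.append (fun i => κ i e)
        (fun _ : Fin g' => (0 : ℤ))) (fun _ => (T₀ : ℂ) * I)) := by
      refine hnear _ ?_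
      rw [add_sub_add_right_eq_sub]
      exact lt_of_lt_of_le hn (min_le_right _ _)
    intro v
    refine (h3 v).trans ?_
    rw [GrM_qf, GrM_qf]
    refine add_le_add le_rfl (Finset.sum_le_sum fun e _ => ?_)
    refine mul_le_mul_of_nonneg_right ?_ (sq_nonneg _)
    have h4 : ((T₀ : ℂ) * I).im = T₀ := by
      rw [Complex.im_ofReal_mul, Complex.I_im, mul_one]
    rw [h4]
    exact (le_max_left _ _).trans (ht e).le
  · have h5 : pa τ := hpa' (by
      rw [dist_eq_norm]
      exact lt_of_lt_of_le hn (min_le_left _ _))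
    have h6 : pb (fun e : {e : E // ∃ z, IsCirc src tgt z ∧ z e ≠ 0} => t (e : E)) := by
      refine hT' (fun e => (t (e : E)).im) (fun e => ?_) _ rfl
      refine le_trans ?_ ((le_max_right T₀ (∑ e, |T' e|)).trans (ht (e : E)).le)
      exact (le_abs_self _).trans (Finset.single_le_sum (f := fun e => |T' e|)
        (fun i _ => abs_nonneg _) (Finset.mem_univ e))
    have h7 := hab h5 h6
    rw [dist_eq_norm] at h7
    rw [hcone]
    have h8 : ∑ e ∈ Finset.univ.filter (fun e => ∃ z, IsCirc src tgt z ∧ z e ≠ 0), t e =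
        ∑ e : {e : E // ∃ z, IsCirc src tgt z ∧ z e ≠ 0}, t (e : E) :=
      Finset.sum_subtype (Finset.univ.filter (fun e => ∃ z, IsCirc src tgt z ∧ z e ≠ 0))
        (by simp) (fun e => t e)
    rw [h8]
    exact h7

end SlopeB
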